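import Pool.Agent.P.MP_5c8462_an.Ord.Defs

set_option autoImplicit false

namespace Pool.Agent.P.MP_5c8462_an.Ord

open MeasureTheory Real Set

namespace AdmL

variable {d : ℕ} {ι κ : Type} [Fintype ι] [Fintype κ] {Ω : Set (E d)}

/-- a linear combination of functions -/
def cm (f : ι → E d → ℝ) (c : ι → ℝ) : E d → ℝ := fun x => ∑ i, c i * f i x

theorem cm_cd {f : ι → E d → ℝ} (hf : ∀ i, ContDiff ℝ 1 (f i)) (c : ι → ℝ) :
    ContDiff ℝ 1 (cm f c) := ContDiff.sum fun i _ => contDiff_const.mul (hf i)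

theorem cm_fderiv {f : ι → E d → ℝ} (hf : ∀ i, ContDiff ℝ 1 (f i)) (c : ι → ℝ) (x : E d) :
    fderiv ℝ (cm f c) x = ∑ i, c i • fderiv ℝ (f i) x :=
  (HasFDerivAt.fun_sum fun i _ =>
    (((hf i).differentiable (by norm_num)) x).hasFDerivAt.const_mul (c i)).fderiv

theorem cm_cm (f : ι → E d → ℝ) (w : κ → ι → ℝ) (c : κ → ℝ) :
    cm (fun j => cm f (w j)) c = cm f (∑ j, c j • w j) := by
  funext x
  simp only [cm, Finset.sum_apply, Pi.smul_apply, smul_eq_mul, Finset.mul_sum, Finset.sum_mul,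
    mul_assoc]
  exact Finset.sum_comm

theorem intOn (hb : Bornology.IsBounded Ω) {F : E d → ℝ} (hF : Continuous F) : IntegrableOn F Ω :=
  (hF.continuousOn.integrableOn_compact hb.isCompact_closure).mono_set subset_closure

theorem En_nonneg (Ω : Set (E d)) (u : E d → ℝ) : 0 ≤ En Ω u := integral_nonneg fun _ => sq_nonneg _

theorem Sq_nonneg (Ω : Set (E d)) (u : E d → ℝ) : 0 ≤ Sq Ω u := integral_nonneg fun _ => sq_nonneg _

theorem Sq_zero {u : E d → ℝ} (h : ∀ x ∈ Ω, u x = 0) : Sq Ω u = 0 :=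
  setIntegral_eq_zero_of_forall_eq_zero fun x hx => by rw [h x hx]; simp

theorem adm_iff {k : ℕ} {M : ℝ} : Adm k Ω M ↔ ∃ f : Fin (k + 1) → E d → ℝ,
    (∀ i, ContDiff ℝ 1 (f i)) ∧ (∀ c, (∀ x ∈ Ω, cm f c x = 0) → c = 0) ∧
      ∀ c, En Ω (cm f c) ≤ M * Sq Ω (cm f c) := Iff.rfl

theorem Sq_pos (hΩ : Dom Ω) {f : ι → E d → ℝ} (hf : ∀ i, ContDiff ℝ 1 (f i))
    (hi : ∀ c, (∀ x ∈ Ω, cm f c x = 0) → c = 0) {c : ι → ℝ} (hc : c ≠ 0) : 0 < Sq Ω (cm f c) := by
  refine int_pos hΩ.2.1 hΩ.2.2.2 (cm_cd hf c).continuous ?_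
  by_contra hcon
  push Not at hcon
  exact hc (hi c hcon)

/-! disjoint supports -/

theorem norm_sq_disj {H : Type} [NormedAddCommGroup H] [NormedSpace ℝ H] (G : ι → H) (c : ι → ℝ)
    (h : ∀ j l, j ≠ l → G j = 0 ∨ G l = 0) : ‖∑ j, c j • G j‖ ^ 2 = ∑ j, c j ^ 2 * ‖G j‖ ^ 2 := by
  by_cases h0 : ∀ j, G j = 0
  · simp [h0]
  · push Not at h0
    obtain ⟨j, hj⟩ := h0
    have h1 : ∀ l, l ≠ j → G l = 0 := fun l hl => (h l j hl).resolve_right hj
    rw [Finset.sum_eq_single j (fun l _ hl => by simp [h1 l hl]) (by simp),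
      Finset.sum_eq_single j (fun l _ hl => by simp [h1 l hl]) (by simp), norm_smul, mul_pow,
      Real.norm_eq_abs, sq_abs]

theorem ds : StDS := by
  intro d Ω hΩ ι _ U g M k hk hU hg
  obtain ⟨e⟩ : Nonempty (Fin (k + 1) ↪ ι) := Function.Embedding.nonempty_of_card_le (by simpa)
  have hb := hΩ.2.2.2
  have hz : ∀ x j l, j ≠ l → x ∉ U (e j) ∨ x ∉ U (e l) := fun x j l h => by
    by_contra hc
    push Not at hc
    exact Set.disjoint_left.1 (hU (e.injective.ne h)) hc.1 hc.2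
  have hf : ∀ j, ContDiff ℝ 1 (g (e j)) := fun j => (hg _).1
  have h1 : ∀ c, Sq Ω (cm (fun j => g (e j)) c) = ∑ j, c j ^ 2 * Sq Ω (g (e j)) := fun c => by
    unfold Sq
    simp only [← integral_const_mul]
    have hI : ∀ j, IntegrableOn (fun x => c j ^ 2 * g (e j) x ^ 2) Ω := fun j =>
      intOn hb (continuous_const.mul ((hf j).continuous.pow 2))
    rw [← integral_finsetSum _ fun j _ => hI j]
    refine integral_congr_ae (Filter.Eventually.of_forall fun x => ?_)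
    have := norm_sq_disj (fun j => g (e j) x) c fun j l h =>
      (hz x j l h).imp (fun h => ((hg _).2.1 x h).1) fun h => ((hg _).2.1 x h).1
    simpa only [cm, smul_eq_mul, Real.norm_eq_abs, sq_abs] using this
  have h2 : ∀ c, En Ω (cm (fun j => g (e j)) c) = ∑ j, c j ^ 2 * En Ω (g (e j)) := fun c => by
    unfold En
    simp only [← integral_const_mul]
    have hI : ∀ j, IntegrableOn (fun x => c j ^ 2 * ‖fderiv ℝ (g (e j)) x‖ ^ 2) Ω := fun j =>
      intOn hb (continuous_const.mul (((hf j).continuous_fderiv (by norm_num)).norm.pow 2))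
    rw [← integral_finsetSum _ fun j _ => hI j]
    refine integral_congr_ae (Filter.Eventually.of_forall fun x => ?_)
    simp only [cm_fderiv hf]
    exact norm_sq_disj (fun j => fderiv ℝ (g (e j)) x) c fun j l h =>
      (hz x j l h).imp (fun h => ((hg _).2.1 x h).2) fun h => ((hg _).2.1 x h).2
  refine adm_iff.2 ⟨fun j => g (e j), hf, fun c hc => ?_, fun c => ?_⟩
  · have h3 := Sq_zero hc
    rw [h1, Finset.sum_eq_zero_iff_of_nonneg fun j _ =>
      mul_nonneg (sq_nonneg _) (Sq_nonneg _ _)] at h3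
    funext j
    exact pow_eq_zero_iff (two_ne_zero) |>.1
      ((mul_eq_zero.1 (h3 j (Finset.mem_univ _))).resolve_right (hg _).2.2.1.ne')
  · rw [h1, h2, Finset.mul_sum]
    refine Finset.sum_le_sum fun j _ => ?_
    rw [mul_left_comm]
    exact mul_le_mul_of_nonneg_left (hg _).2.2.2 (sq_nonneg _)

/-! Gram forms -/

/-- the Gram form of a family of vector valued functions -/
noncomputable def gram {H : Type} [NormedAddCommGroup H] [InnerProductSpace ℝ H] [DecidableEq ι]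
    (Ω : Set (E d)) (G : ι → E d → H) : LinearMap.BilinForm ℝ (ι → ℝ) :=
  Matrix.toBilin' (Matrix.of fun i j => ∫ x in Ω, inner ℝ (G i x) (G j x))

theorem gram_apply {H : Type} [NormedAddCommGroup H] [InnerProductSpace ℝ H] [DecidableEq ι]
    (hb : Bornology.IsBounded Ω) {G : ι → E d → H} (hG : ∀ i, Continuous (G i)) (c c' : ι → ℝ) :
    gram Ω G c c' = ∫ x in Ω, inner ℝ (∑ i, c i • G i x) (∑ j, c' j • G j x) := by
  have hi : ∀ i j, IntegrableOn (fun x => c i * inner ℝ (G i x) (G j x) * c' j) Ω := fun i j =>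
    intOn hb ((continuous_const.mul ((hG i).inner (hG j))).mul continuous_const)
  rw [gram, Matrix.toBilin'_apply]
  simp only [Matrix.of_apply, ← integral_const_mul, ← integral_mul_const]
  rw [← Finset.sum_congr rfl fun i _ => integral_finsetSum _ fun j _ => hi i j,
    ← integral_finsetSum _ fun i _ => integrable_finsetSum _ fun j _ => hi i j]
  refine integral_congr_ae (Filter.Eventually.of_forall fun x => ?_)
  simp only [sum_inner]
  simp only [inner_sum, real_inner_smul_left, real_inner_smul_right]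
  exact Finset.sum_congr rfl fun i _ => Finset.sum_congr rfl fun j _ => by ring

theorem exists_forms [DecidableEq ι] (hb : Bornology.IsBounded Ω) {f : ι → E d → ℝ}
    (hf : ∀ i, ContDiff ℝ 1 (f i)) : ∃ S Q : LinearMap.BilinForm ℝ (ι → ℝ),
      (∀ c c', S c c' = ∫ x in Ω, cm f c x * cm f c' x) ∧ (∀ c, S c c = Sq Ω (cm f c)) ∧
      (∀ c c', Q c c' = Q c' c) ∧ ∀ c, Q c c = En Ω (cm f c) := by
  have h1 : ∀ c c', gram Ω f c c' = ∫ x in Ω, cm f c x * cm f c' x := fun c c' => by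
    rw [gram_apply hb fun i => (hf i).continuous]
    refine integral_congr_ae (Filter.Eventually.of_forall fun x => ?_)
    simp only [cm, smul_eq_mul, RCLike.inner_apply, conj_trivial]
    exact mul_comm _ _
  have hG : ∀ i, Continuous fun x => (InnerProductSpace.toDual ℝ (E d)).symm (fderiv ℝ (f i) x) :=
    fun i => (InnerProductSpace.toDual ℝ (E d)).symm.continuous.comp
      ((hf i).continuous_fderiv (by norm_num))
  refine ⟨gram Ω f, gram Ω fun i x => (InnerProductSpace.toDual ℝ (E d)).symm (fderiv ℝ (f i) x),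
    h1, fun c => ?_, fun c c' => ?_, fun c => ?_⟩
  · rw [h1]
    simp only [Sq, sq]
  · rw [gram_apply hb hG, gram_apply hb hG]
    simp only [real_inner_comm]
  · rw [gram_apply hb hG]
    refine integral_congr_ae (Filter.Eventually.of_forall fun x => ?_)
    have h2 : ∑ i, c i • (InnerProductSpace.toDual ℝ (E d)).symm (fderiv ℝ (f i) x) =
        (InnerProductSpace.toDual ℝ (E d)).symm (fderiv ℝ (cm f c) x) := by
      rw [cm_fderiv hf, map_sum]
      simp only [map_smul]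
    simp only [h2, real_inner_self_eq_norm_sq, LinearIsometryEquiv.norm_map]

theorem diag {V : Type} [AddCommGroup V] [Module ℝ V] (Q : LinearMap.BilinForm ℝ V) (w : κ → V)
    (h : ∀ i j, i ≠ j → Q (w i) (w j) = 0) (c : κ → ℝ) :
    Q (∑ i, c i • w i) (∑ i, c i • w i) = ∑ i, c i ^ 2 * Q (w i) (w i) := by
  rw [LinearMap.BilinForm.sum_left]
  refine Finset.sum_congr rfl fun i _ => ?_
  rw [LinearMap.BilinForm.sum_right, Finset.sum_eq_single i (fun j _ hj => by
    simp [h i j hj.symm]) (by simp)]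
  simp only [map_smul, LinearMap.smul_apply, smul_eq_mul]
  ring

theorem exists_orth {m : ℕ} (Q : LinearMap.BilinForm ℝ (Fin m → ℝ)) (h : ∀ c c', Q c c' = Q c' c) :
    ∃ v : Module.Basis (Fin m) ℝ (Fin m → ℝ), ∀ i j, i ≠ j → Q (v i) (v j) = 0 := by
  obtain ⟨v, hv⟩ := LinearMap.BilinForm.exists_orthogonal_basis (B := Q) ⟨fun c c' => h c c'⟩
  refine ⟨v.reindex (finCongr (by simp)), fun i j hij => ?_⟩
  simp only [Module.Basis.reindex_apply]
  exact hv fun e => hij ((Equiv.injective _) e)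

theorem exists_on {m : ℕ} (Q : LinearMap.BilinForm ℝ (Fin m → ℝ)) (h : ∀ c c', Q c c' = Q c' c)
    (hp : ∀ c, c ≠ 0 → 0 < Q c c) :
    ∃ w : Fin m → Fin m → ℝ, ∀ i j, Q (w i) (w j) = if i = j then 1 else 0 := by
  obtain ⟨v, hv⟩ := exists_orth Q h
  refine ⟨fun i => (√(Q (v i) (v i)))⁻¹ • v i, fun i j => ?_⟩
  simp only [map_smul, LinearMap.smul_apply, smul_eq_mul]
  split_ifs with hij
  · subst hij
    have h1 := hp _ (v.ne_zero i)
    have h2 := Real.sqrt_pos.2 h1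
    field_simp
    exact (Real.sq_sqrt h1.le).symm
  · simp [hv i j hij]

theorem neg_or {m : ℕ} (n : ℕ) (Q : LinearMap.BilinForm ℝ (Fin m → ℝ))
    (h : ∀ c c', Q c c' = Q c' c) :
    (∃ w : Fin (n + 1) → Fin m → ℝ, ∀ c : Fin (n + 1) → ℝ, c ≠ 0 →
      Q (∑ i, c i • w i) (∑ i, c i • w i) < 0) ∨
    ∃ (N : Finset (Fin m)) (φ : Fin m → (Fin m → ℝ) →ₗ[ℝ] ℝ), N.card ≤ n ∧
      ∀ c, (∀ i ∈ N, φ i c = 0) → 0 ≤ Q c c := by
  obtain ⟨v, hv⟩ := exists_orth Q h
  by_cases hN : (Finset.univ.filter fun i => Q (v i) (v i) < 0).card ≤ n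
  · refine Or.inr ⟨_, v.coord, hN, fun c hc => ?_⟩
    rw [← v.sum_repr c, diag Q v hv]
    refine Finset.sum_nonneg fun i _ => ?_
    by_cases hi : Q (v i) (v i) < 0
    · have : v.repr c i = 0 := hc i (by simpa)
      simp [this]
    · exact mul_nonneg (sq_nonneg _) (not_lt.1 hi)
  · obtain ⟨e⟩ : Nonempty (Fin (n + 1) ↪ (Finset.univ.filter fun i => Q (v i) (v i) < 0)) :=
      Function.Embedding.nonempty_of_card_le (by
        rw [Fintype.card_fin, Fintype.card_coe]; omega)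
    refine Or.inl ⟨fun i => v (e i), fun c hc => ?_⟩
    rw [diag Q (fun i => v (e i)) fun i j hij => hv _ _ fun h => hij (e.injective (Subtype.ext h))]
    have h1 : ∀ i, Q (v (e i)) (v (e i)) < 0 := fun i => (Finset.mem_filter.1 (e i).2).2
    obtain ⟨i, hi⟩ := Function.ne_iff.1 hc
    calc _ < ∑ _i : Fin (n + 1), (0 : ℝ) :=
          Finset.sum_lt_sum (fun j _ => mul_nonpos_of_nonneg_of_nonpos (sq_nonneg _) (h1 j).le)
            ⟨i, Finset.mem_univ _, mul_neg_of_pos_of_neg (sq_pos_of_ne_zero hi) (h1 i)⟩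
      _ = 0 := by simp

/-! bracketing -/

theorem piece {k n : ℕ} {A : Set (E d)} (hb : Bornology.IsBounded A) {f : Fin (k + 1) → E d → ℝ}
    (hf : ∀ i, ContDiff ℝ 1 (f i)) {lam : ℝ} (h : ¬ Adm n A lam) :
    ∃ (N : Finset (Fin (k + 1))) (φ : Fin (k + 1) → (Fin (k + 1) → ℝ) →ₗ[ℝ] ℝ), N.card ≤ n ∧
      ∀ c, (∀ i ∈ N, φ i c = 0) → lam * Sq A (cm f c) ≤ En A (cm f c) := by
  obtain ⟨S, Q, h1, h2, h3, h4⟩ := exists_forms hb hf
  have h5 : ∀ c, (Q - lam • S) c c = En A (cm f c) - lam * Sq A (cm f c) := fun c => by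
    simp [h2, h4]
  rcases neg_or n (Q - lam • S) (fun c c' => by
    simp only [LinearMap.sub_apply, LinearMap.smul_apply, h1, h3 c c', mul_comm]) with
    ⟨w, hw⟩ | ⟨N, φ, hN, hφ⟩
  · refine absurd (adm_iff.2 ⟨fun j => cm f (w j), fun j => cm_cd hf _, fun c hc => ?_,
      fun c => ?_⟩) h
    · by_contra h0
      have h6 := hw c h0
      rw [h5, ← cm_cm, Sq_zero hc] at h6
      linarith [En_nonneg A (cm (fun j => cm f (w j)) c)]
    · rw [cm_cm, ← sub_nonpos, ← h5]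
      by_cases h0 : c = 0
      · simp [h0]
      · exact (hw c h0).le
  · exact ⟨N, φ, hN, fun c hc => by have := hφ c hc; rw [h5] at this; linarith⟩

theorem br : StBr := by
  intro d Ω hΩ r n k A lam C1 C2 M ho hs hd hl h1 h2 hA hS hk hM
  obtain ⟨f, hf, hi, hM⟩ := adm_iff.1 hM
  choose N φ hN hφ using fun a => piece (hΩ.2.2.2.subset (hs a)) hf (hA a)
  obtain ⟨c, hc, hc0⟩ : ∃ c : Fin (k + 1) → ℝ,
      (LinearMap.pi fun p : (Σ a : Fin r, N a) => φ p.1 p.2) c = 0 ∧ c ≠ 0 := by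
    refine Submodule.exists_mem_ne_zero_of_ne_bot (LinearMap.ker_ne_bot_of_finrank_lt ?_)
    simp only [Module.finrank_fintype_fun_eq_card, Fintype.card_sigma, Fintype.card_coe,
      Fintype.card_fin]
    calc _ ≤ ∑ _a : Fin r, n := Finset.sum_le_sum fun a _ => hN a
      _ < k + 1 := by simp; omega
  have h3 : ∀ a, Sq (A a) (cm f c) ≤ En (A a) (cm f c) / lam := fun a => by
    rw [le_div_iff₀' hl]
    exact hφ a c fun i hi => congrFun hc ⟨a, i, hi⟩
  have hu := cm_cd hf c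
  have hI : IntegrableOn (fun x => ‖fderiv ℝ (cm f c) x‖ ^ 2) Ω :=
    intOn hΩ.2.2.2 ((hu.continuous_fderiv (by norm_num)).norm.pow 2)
  have h4 : ∑ a, En (A a) (cm f c) ≤ En Ω (cm f c) := by
    unfold En
    rw [← integral_iUnion_fintype (fun a => (ho a).measurableSet) hd
      fun a => hI.mono_set (hs a)]
    exact setIntegral_mono_set hI (Filter.Eventually.of_forall fun x => sq_nonneg _)
      (iUnion_subset hs).eventuallyLE
  have h5 : ∑ a, Sq (A a) (cm f c) ≤ En Ω (cm f c) / lam := by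
    refine (Finset.sum_le_sum fun a _ => h3 a).trans ?_
    rw [← Finset.sum_div]
    exact div_le_div_of_nonneg_right h4 hl.le
  have h6 : Sq Ω (cm f c) ≤ (C1 / lam + C2) * En Ω (cm f c) := by
    refine (hS _ hu).trans ?_
    have := mul_le_mul_of_nonneg_left h5 h1
    calc _ ≤ C1 * (En Ω (cm f c) / lam) + C2 * En Ω (cm f c) := by linarith
      _ = _ := by ring
  have h7 := mul_le_mul_of_nonneg_left (hM c) (add_nonneg (div_nonneg h1 hl.le) h2)
  refine le_of_mul_le_mul_right ?_ (Sq_pos hΩ hf hi hc0)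
  calc _ = Sq Ω (cm f c) := one_mul _
    _ ≤ _ := h6.trans h7
    _ = _ := by ring

/-! scaling, monotonicity, existence -/

theorem chg {r : ℝ} (hr : 0 < r) (c : E d) (G : E d → ℝ) :
    ∫ y in (fun x => r • x + c) '' Ω, G y = r ^ d * ∫ x in Ω, G (r • x + c) := by
  have h1 : (fun x => r • x + c) '' Ω = (fun z => z + c) '' ((fun x => r • x) '' Ω) := by
    rw [image_image]
  rw [h1, (measurePreserving_add_right volume c).setIntegral_image_emb
    (measurableEmbedding_addRight c),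
    Measure.setIntegral_comp_smul_of_pos volume (fun z => G (z + c)) Ω hr]
  simp only [finrank_euclideanSpace, Fintype.card_fin, smul_eq_mul]
  rw [← mul_assoc, mul_inv_cancel₀ (pow_pos hr d).ne', one_mul]
  rfl

theorem scale {k : ℕ} {M r : ℝ} (c : E d) (hr : 0 < r) (h : Adm k Ω M) :
    Adm k ((fun x => r • x + c) '' Ω) (M / r ^ 2) := by
  obtain ⟨f, hf, hi, hM⟩ := adm_iff.1 h
  have hψ : ∀ x : E d, r⁻¹ • (r • x + c - c) = x := fun x => by
    rw [add_sub_cancel_right, smul_smul, inv_mul_cancel₀ hr.ne', one_smul]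
  have hc : ∀ a, cm (fun i y => f i (r⁻¹ • (y - c))) a = fun y => cm f a (r⁻¹ • (y - c)) :=
    fun a => rfl
  refine adm_iff.2 ⟨fun i y => f i (r⁻¹ • (y - c)), fun i => (hf i).comp
    ((contDiff_id.sub contDiff_const).const_smul _), fun a ha => hi a fun x hx => ?_, fun a => ?_⟩
  · simpa only [hc, hψ] using ha _ ⟨x, hx, rfl⟩
  · have hD : ∀ y, ‖fderiv ℝ (fun y => cm f a (r⁻¹ • (y - c))) y‖ ^ 2 =
        (r ^ 2)⁻¹ * ‖fderiv ℝ (cm f a) (r⁻¹ • (y - c))‖ ^ 2 := fun y => by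
      have h1 := (((cm_cd hf a).differentiable (by norm_num)) (r⁻¹ • (y - c))).hasFDerivAt.comp y
        (((hasFDerivAt_id y).sub_const c).const_smul r⁻¹)
      have h2 : fderiv ℝ (fun y => cm f a (r⁻¹ • (y - c))) y =
          r⁻¹ • fderiv ℝ (cm f a) (r⁻¹ • (y - c)) := by
        rw [show fderiv ℝ (fun y => cm f a (r⁻¹ • (y - c))) y = _ from h1.fderiv]
        ext v
        simp
      rw [h2, norm_smul, mul_pow, Real.norm_eq_abs, sq_abs, inv_pow]
    have h3 := hM a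
    unfold En Sq at h3 ⊢
    simp only [hc, hD]
    rw [chg hr, chg hr]
    simp only [hψ]
    rw [integral_const_mul]
    have h4 := mul_le_mul_of_nonneg_left h3 (mul_pos (pow_pos hr d) (inv_pos.2 (pow_pos hr 2))).le
    calc _ = _ := by ring
      _ ≤ _ := h4
      _ = _ := by ring

theorem mono_index {k j : ℕ} {M : ℝ} (hj : j ≤ k) (h : Adm k Ω M) : Adm j Ω M := by
  obtain ⟨f, hf, hi, hM⟩ := adm_iff.1 h
  have hle : j + 1 ≤ k + 1 := by omega
  refine adm_iff.2 ⟨fun i => cm f (Pi.single (Fin.castLE hle i) 1), fun i => cm_cd hf _,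
    fun c hc => ?_, fun c => ?_⟩
  · rw [cm_cm] at hc
    funext i
    have := congrFun (hi _ hc) (Fin.castLE hle i)
    simpa [Finset.sum_apply, Pi.single_apply] using this
  · rw [cm_cm]
    exact hM _

theorem mono_level {k : ℕ} {M M' : ℝ} (hM : M ≤ M') (h : Adm k Ω M) : Adm k Ω M' := by
  obtain ⟨f, hf, hi, h⟩ := adm_iff.1 h
  exact adm_iff.2 ⟨f, hf, hi, fun c =>
    (h c).trans (mul_le_mul_of_nonneg_right hM (Sq_nonneg _ _))⟩

theorem exists_level (k : ℕ) (hd : 1 ≤ d) (hΩ : Dom Ω) : ∃ M, Adm k Ω M := by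
  obtain ⟨n, rfl⟩ : ∃ n, d = n + 1 := ⟨d - 1, by omega⟩
  obtain ⟨x₀, hx₀⟩ := hΩ.1
  have hinf : Ω.Infinite := infinite_of_mem_nhds x₀ (hΩ.2.1.mem_nhds hx₀)
  set p : Fin (k + 1) → E (n + 1) := fun j => hinf.natEmbedding Ω j with hp
  have hinj : Function.Injective p := fun a b h =>
    Fin.ext ((hinf.natEmbedding Ω).injective (Subtype.ext h))
  obtain ⟨U, hU, hdis⟩ := (finite_range p).t2_separation
  choose g h1 _ h2 _ h3 using fun j =>
    exists_contDiff_tsupport_subset (n := 1) ((hU (p j)).2.mem_nhds (hU (p j)).1)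
  have h4 : ∀ j, 0 < Sq Ω (g j) := fun j => int_pos hΩ.2.1 hΩ.2.2.2 (h2 j).continuous
    ⟨p j, (hinf.natEmbedding Ω j).2, by rw [h3]; exact one_ne_zero⟩
  refine ⟨∑ j, En Ω (g j) / Sq Ω (g j), ds _ Ω hΩ (Fin (k + 1)) (fun j => U (p j)) g _ k (by simp)
    (fun a b hab => hdis ⟨a, rfl⟩ ⟨b, rfl⟩ (hinj.ne hab)) fun j => ⟨h2 j, fun x hx => ?_, h4 j, ?_⟩⟩
  · have h5 := notMem_tsupport_iff_eventuallyEq.1 fun h => hx (h1 j h)
    refine ⟨h5.self_of_nhds, ?_⟩
    rw [h5.fderiv_eq]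
    simp
  · rw [← div_le_iff₀ (h4 j)]
    exact Finset.single_le_sum (f := fun j => En Ω (g j) / Sq Ω (g j))
      (fun j _ => div_nonneg (En_nonneg _ _) (Sq_nonneg _ _)) (Finset.mem_univ j)

theorem orthonormal {k : ℕ} {M : ℝ} (hΩ : Dom Ω) (h : Adm k Ω M) :
    ∃ u : Fin (k + 1) → E d → ℝ, (∀ i, ContDiff ℝ 1 (u i)) ∧
      (∀ i j, ∫ x in Ω, u i x * u j x = if i = j then 1 else 0) ∧
      ∀ c : Fin (k + 1) → ℝ, En Ω (fun x => ∑ i, c i * u i x) ≤ M * ∑ i, c i ^ 2 := by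
  obtain ⟨f, hf, hi, hM⟩ := adm_iff.1 h
  obtain ⟨S, -, h1, h2, -, -⟩ := exists_forms hΩ.2.2.2 hf
  obtain ⟨w, hw⟩ := exists_on S (fun c c' => by simp only [h1, mul_comm])
    fun c hc => by rw [h2]; exact Sq_pos hΩ hf hi hc
  refine ⟨fun i => cm f (w i), fun i => cm_cd hf _, fun i j => by rw [← h1, hw], fun c => ?_⟩
  have h3 := hM (∑ j, c j • w j)
  rw [← h2, diag S w fun i j hij => by rw [hw, if_neg hij], ← cm_cm] at h3
  simp only [hw, if_true, mul_one] at h3
  exact h3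

end AdmL

theorem pDS : StDS := AdmL.ds

theorem pBr : StBr := AdmL.br

theorem pAdm : StAdm := fun _ _ k =>
  ⟨fun _ _ c hr h => AdmL.scale c hr h, fun _ _ hj h => AdmL.mono_index hj h,
    fun _ _ hM h => AdmL.mono_level hM h, fun hd hΩ => AdmL.exists_level k hd hΩ,
    fun hΩ _ h => AdmL.orthonormal hΩ h⟩

end Pool.Agent.P.MP_5c8462_an.Ord
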