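import Pool.Agent.P.MP_5c8462_an.Ord.Defs
import Pool.Agent.P.MP_91dfc6_pr.BM

/-! The multiplicative Brunn-Minkowski inequality. -/

set_option autoImplicit false

namespace Pool.Agent.P.MP_5c8462_an.Ord

open MeasureTheory Real Set
open scoped ENNReal

namespace BM

/-- One-dimensional Prekopa-Leindler inequality for bounded functions. -/
theorem pl {t : ℝ} (ht0 : 0 < t) (ht1 : t < 1) (u v w : ℝ → ℝ) (hu : Measurable u)
    (hv : Measurable v) (hw : Measurable w) (u0 : ∀ y, 0 ≤ u y) (v0 : ∀ y, 0 ≤ v y)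
    (w0 : ∀ y, 0 ≤ w y) {C : ℝ} (ub : ∀ y, u y ≤ C) (vb : ∀ y, v y ≤ C)
    (h : ∀ y y', u y ^ (1 - t) * v y' ^ t ≤ w ((1 - t) * y + t * y'))
    {I J L : ℝ≥0∞} (hI : ∫⁻ y, ENNReal.ofReal (u y) = I) (hJ : ∫⁻ y, ENNReal.ofReal (v y) = J)
    (hL : ∫⁻ y, ENNReal.ofReal (w y) = L) (fI : I ≠ ⊤) (fJ : J ≠ ⊤) (fL : L ≠ ⊤) :
    I.toReal ^ (1 - t) * J.toReal ^ t ≤ L.toReal := by
  have h1t : 0 < 1 - t := by linarith
  rcases (ENNReal.toReal_nonneg (a := I)).eq_or_lt with ha | ha
  · rw [← ha, Real.zero_rpow h1t.ne', zero_mul]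
    exact ENNReal.toReal_nonneg
  rcases (ENNReal.toReal_nonneg (a := J)).eq_or_lt with hb | hb
  · rw [← hb, Real.zero_rpow ht0.ne', mul_zero]
    exact ENNReal.toReal_nonneg
  set a := I.toReal with ea
  set b := J.toReal with eb
  set m := a ^ (1 - t) * b ^ t with em
  have m0 : 0 < m := by positivity
  have key := MP_91dfc6_pr.bbl h1t (by linarith) (fun y => m / a * u y) (fun y => m / b * v y) w
    (hu.const_mul _) (hv.const_mul _) hw (fun y => by have := u0 y; positivity)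
    (fun y => by have := v0 y; positivity) w0
    ⟨m / a * C, by rintro _ ⟨y, rfl⟩; have := ub y; dsimp only; gcongr⟩
    ⟨m / b * C, by rintro _ ⟨y, rfl⟩; have := vb y; dsimp only; gcongr⟩
    (by
      intro y y' p q
      rw [sub_sub_cancel]
      have hu' : 0 < u y := (mul_pos_iff_of_pos_left (by positivity)).1 p
      have hv' : 0 < v y' := (mul_pos_iff_of_pos_left (by positivity)).1 q
      have g := Real.geom_mean_le_arith_mean2_weighted h1t.le ht0.le (inv_pos.2 p).le
        (inv_pos.2 q).le (by ring)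
      have e1 : m ^ (1 - t) * m ^ t = m := by
        rw [← Real.rpow_add m0]; simp
      have e2 : (m / a * u y) ^ (1 - t) * (m / b * v y') ^ t = u y ^ (1 - t) * v y' ^ t := by
        rw [Real.mul_rpow (by positivity) hu'.le, Real.mul_rpow (by positivity) hv'.le,
          Real.div_rpow m0.le ha.le, Real.div_rpow m0.le hb.le]
        have : m ^ (1 - t) / a ^ (1 - t) * (m ^ t / b ^ t) = 1 := by
          rw [div_mul_div_comm, e1, ← em, div_self m0.ne']
        linear_combination (u y ^ (1 - t) * v y' ^ t) * this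
      rw [Real.inv_rpow p.le, Real.inv_rpow q.le, ← mul_inv, e2] at g
      have z : 0 < u y ^ (1 - t) * v y' ^ t := by positivity
      calc (1 : ℝ) = u y ^ (1 - t) * v y' ^ t * (u y ^ (1 - t) * v y' ^ t)⁻¹ :=
            (mul_inv_cancel₀ z.ne').symm
        _ ≤ _ := by
            rw [div_eq_mul_inv (1 - t), div_eq_mul_inv t]
            exact mul_le_mul (h y y') g (by positivity) (w0 _))
  have sc : ∀ (f : ℝ → ℝ) (c : ℝ) (N : ℝ≥0∞), Measurable f → ∫⁻ y, ENNReal.ofReal (f y) = N →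
      N ≠ ⊤ → 0 < c → c = N.toReal →
      ∫⁻ y, ENNReal.ofReal (m / c * f y) = ENNReal.ofReal m := by
    intro f c N hf hN fN c0 hc
    have : ∀ y, ENNReal.ofReal (m / c * f y) = ENNReal.ofReal (m / c) * ENNReal.ofReal (f y) :=
      fun y => ENNReal.ofReal_mul (by positivity)
    simp only [this]
    rw [lintegral_const_mul _ hf.ennreal_ofReal, hN, ← ENNReal.ofReal_toReal fN, ← hc,
      ← ENNReal.ofReal_mul (by positivity), div_mul_cancel₀ _ c0.ne']
  rw [sc u a I hu hI fI ha ea, sc v b J hv hJ fJ hb eb, min_self, hL] at key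
  exact (ENNReal.ofReal_le_iff_le_toReal fL).1 key

/-- The cube. -/
def cube (n : ℕ) (R : ℝ) : Set (Fin n → ℝ) := univ.pi fun _ => Icc (-R) R

theorem cube_fin (n : ℕ) (R : ℝ) : volume (cube n R) ≠ ⊤ :=
  (isCompact_univ_pi fun _ => isCompact_Icc).measure_lt_top.ne

/-- Slice of a set. -/
def sl {n : ℕ} (A : Set (Fin (n + 1) → ℝ)) (s : ℝ) : Set (Fin n → ℝ) :=
  {y | (Fin.cons s y : Fin (n + 1) → ℝ) ∈ A}

theorem sl_facts {n : ℕ} {A : Set (Fin (n + 1) → ℝ)} (hA : MeasurableSet A) :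
    (∀ s, MeasurableSet (sl A s)) ∧ Measurable (fun s => volume (sl A s)) ∧
      ∫⁻ s, volume (sl A s) = volume A := by
  let e := MeasurableEquiv.piFinSuccAbove (fun _ : Fin (n + 1) => ℝ) 0
  have he : MeasurePreserving e.symm := (volume_preserving_piFinSuccAbove (fun _ => ℝ) 0).symm
  have hm : MeasurableSet (e.symm ⁻¹' A) := e.symm.measurable hA
  have es : ∀ s, sl A s = Prod.mk s ⁻¹' (e.symm ⁻¹' A) := by
    intro s
    ext y
    simp [sl, e, MeasurableEquiv.piFinSuccAbove_symm_apply, Fin.insertNthEquiv]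
  simp only [es]
  refine ⟨fun s => measurable_prodMk_left hm, measurable_measure_prodMk_left hm, ?_⟩
  rw [← he.measure_preimage hA.nullMeasurableSet, Measure.volume_eq_prod, Measure.prod_apply hm]

theorem sl_sub {n : ℕ} {A : Set (Fin (n + 1) → ℝ)} {R : ℝ} (h : A ⊆ cube (n + 1) R) (s : ℝ) :
    sl A s ⊆ cube n R := fun y hy i _ => by simpa using h hy i.succ trivial

theorem bm_pi {t : ℝ} (ht0 : 0 < t) (ht1 : t < 1) (R : ℝ) (n : ℕ) :
    ∀ A B C : Set (Fin n → ℝ), MeasurableSet A → MeasurableSet B → MeasurableSet C →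
      A ⊆ cube n R → B ⊆ cube n R → C ⊆ cube n R →
      (∀ x ∈ A, ∀ y ∈ B, (1 - t) • x + t • y ∈ C) →
      (volume A).toReal ^ (1 - t) * (volume B).toReal ^ t ≤ (volume C).toReal := by
  have h1t : 0 < 1 - t := by linarith
  induction n with
  | zero =>
    intro A B C _ _ _ _ _ _ h
    rcases A.eq_empty_or_nonempty with rfl | ⟨x, hx⟩
    · simp [Real.zero_rpow h1t.ne']
    rcases B.eq_empty_or_nonempty with rfl | ⟨y, hy⟩
    · simp [Real.zero_rpow ht0.ne']
    rw [Subsingleton.eq_univ_of_nonempty ⟨x, hx⟩, Subsingleton.eq_univ_of_nonempty ⟨y, hy⟩,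
      Subsingleton.eq_univ_of_nonempty ⟨_, h x hx y hy⟩]
    have : volume (univ : Set (Fin 0 → ℝ)) = 1 := by
      rw [volume_pi, Measure.pi_univ]; simp
    simp [this]
  | succ n ih =>
    intro A B C mA mB mC bA bB bC h
    obtain ⟨a1, a2, a3⟩ := sl_facts mA
    obtain ⟨b1, b2, b3⟩ := sl_facts mB
    obtain ⟨c1, c2, c3⟩ := sl_facts mC
    have fin : ∀ {X : Set (Fin (n + 1) → ℝ)}, X ⊆ cube (n + 1) R → ∀ s, volume (sl X s) ≠ ⊤ :=
      fun hX s => ne_top_of_le_ne_top (cube_fin n R) (measure_mono (sl_sub hX s))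
    have bd : ∀ {X : Set (Fin (n + 1) → ℝ)}, X ⊆ cube (n + 1) R → ∀ s,
        (volume (sl X s)).toReal ≤ (volume (cube n R)).toReal :=
      fun hX s => ENNReal.toReal_mono (cube_fin n R) (measure_mono (sl_sub hX s))
    refine pl ht0 ht1 (fun s => (volume (sl A s)).toReal) (fun s => (volume (sl B s)).toReal)
      (fun s => (volume (sl C s)).toReal) a2.ennreal_toReal b2.ennreal_toReal c2.ennreal_toReal
      (fun _ => ENNReal.toReal_nonneg) (fun _ => ENNReal.toReal_nonneg)
      (fun _ => ENNReal.toReal_nonneg) (bd bA) (bd bB) (fun s s' => ?_) ?_ ?_ ?_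
      (ne_top_of_le_ne_top (cube_fin _ R) (measure_mono bA))
      (ne_top_of_le_ne_top (cube_fin _ R) (measure_mono bB))
      (ne_top_of_le_ne_top (cube_fin _ R) (measure_mono bC))
    · refine ih _ _ _ (a1 s) (b1 s') (c1 _) (sl_sub bA s) (sl_sub bB s') (sl_sub bC _)
        fun x hx y hy => ?_
      have := h _ hx _ hy
      change (Fin.cons _ _ : Fin (n + 1) → ℝ) ∈ C
      convert this using 1
      funext i
      refine Fin.cases ?_ (fun i => ?_) i <;> simp
    · simp only [ENNReal.ofReal_toReal (fin bA _), a3]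
    · simp only [ENNReal.ofReal_toReal (fin bB _), b3]
    · simp only [ENNReal.ofReal_toReal (fin bC _), c3]

end BM

theorem pBM : StBM := by
  intro d A B C mA mB mC bA bB bC t ht0 ht1 h
  obtain ⟨R, hR⟩ := ((bA.union bB).union bC).exists_norm_le
  have hp : MeasurePreserving (WithLp.toLp 2 : (Fin d → ℝ) → E d) :=
    PiLp.volume_preserving_toLp (Fin d)
  have sub : ∀ X : Set (E d), X ⊆ A ∪ B ∪ C →
      (WithLp.toLp 2 : (Fin d → ℝ) → E d) ⁻¹' X ⊆ BM.cube d R := by
    intro X hX x hx i _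
    have h1 := PiLp.norm_apply_le (WithLp.toLp 2 x : E d) i
    have h2 := hR _ (hX hx)
    exact abs_le.1 (by simpa using h1.trans h2)
  have := BM.bm_pi ht0 ht1 R d _ _ _ (hp.measurable mA) (hp.measurable mB) (hp.measurable mC)
    (sub A fun x hx => Or.inl (Or.inl hx)) (sub B fun x hx => Or.inl (Or.inr hx))
    (sub C fun x hx => Or.inr hx) (fun x hx y hy => by simpa using h _ hx _ hy)
  rwa [hp.measure_preimage mA.nullMeasurableSet, hp.measure_preimage mB.nullMeasurableSet,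
    hp.measure_preimage mC.nullMeasurableSet] at this

end Pool.Agent.P.MP_5c8462_an.Ord
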