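import Pool.Agent.P.MP_5c8462_an.Ord.K2

set_option autoImplicit false

namespace Pool.Agent.P.MP_5c8462_an.Ord

open MeasureTheory Real Set

namespace K

variable {d : ℕ} {h : ℝ} {Ω : Set (E d)}

theorem sq_orth (hΩ : Dom Ω) {n : ℕ} {u : Fin n → E d → ℝ} (hu : ∀ i, Continuous (u i))
    (ho : ∀ i j, ∫ x in Ω, u i x * u j x = if i = j then 1 else 0) (c : Fin n → ℝ) :
    Sq Ω (fun x => ∑ i, c i * u i x) = ∑ i, c i ^ 2 := by
  unfold Sq
  have e : ∀ x, (∑ i, c i * u i x) ^ 2 = ∑ i, ∑ j, c i * c j * (u i x * u j x) := by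
    intro x
    rw [sq, Finset.sum_mul_sum]
    exact Finset.sum_congr rfl fun i _ => Finset.sum_congr rfl fun j _ => by ring
  simp only [e]
  have ii : ∀ i j, IntegrableOn (fun x => c i * c j * (u i x * u j x)) Ω := fun i j =>
    intOn hΩ (continuous_const.mul ((hu i).mul (hu j)))
  rw [integral_finsetSum _ fun i _ => integrable_finsetSum _ fun j _ => ii i j]
  refine Finset.sum_congr rfl fun i _ => ?_
  rw [integral_finsetSum _ fun j _ => ii i j]
  simp only [integral_const_mul, ho]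
  simp [sq]

/-- Trace bound on a set of small diameter. -/
theorem trace_piece (hTC : StTC) (hd : 1 ≤ d) (hΩ : Dom Ω) (hh : 0 < h) {n : ℕ}
    {u : Fin n → E d → ℝ} (hu : ∀ i, Continuous (u i))
    (ho : ∀ i j, ∫ x in Ω, u i x * u j x = if i = j then 1 else 0) {δ : ℝ} (hδ : 0 < δ) (j : ℕ)
    {W : Set (E d)} (hW : MeasurableSet W) (hWΩ : W ⊆ Ω)
    (hx : ∀ x ∈ W, ∀ z ∈ W, dist x z ≤ j * δ) :
    ∫ x in W, ∑ i, (opK Ω h)^[j] (u i) x ^ 2 ≤ exp (j * (δ ^ 2 / h)) := by
  set A := exp (j * (δ ^ 2 / h)) with hA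
  have A0 : 0 < A := exp_pos _
  set m := volume.real W with hm
  have hfin : volume W ≠ ⊤ := ((measure_mono hWΩ).trans_lt hΩ.2.2.2.measure_lt_top).ne
  have pt : ∀ x ∈ W, (∑ i, (opK Ω h)^[j] (u i) x ^ 2) * m ≤ A := by
    intro x hxW
    set c : Fin n → ℝ := fun i => (opK Ω h)^[j] (u i) x with hc
    have hf : Continuous fun x => ∑ i, c i * u i x :=
      continuous_finsetSum _ fun i _ => continuous_const.mul (hu i)
    have h1 := sup_bound hTC hd hΩ hh hf hδ j hW hWΩ x (hx x hxW)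
    rw [it_sum hΩ hh _ c hu j, sq_orth hΩ hu ho c] at h1
    have e : ∑ i, c i * (opK Ω h)^[j] (u i) x = ∑ i, c i ^ 2 :=
      Finset.sum_congr rfl fun i _ => by rw [sq]
    simp only [e] at h1
    set s := ∑ i, c i ^ 2 with hs
    have s0 : 0 ≤ s := Finset.sum_nonneg fun i _ => sq_nonneg _
    change s * m ≤ A
    rcases s0.eq_or_lt with h0 | h0
    · rw [← h0, zero_mul]
      exact A0.le
    · refine le_of_mul_le_mul_left ?_ h0
      rw [← hA, ← hm] at h1
      nlinarith
  rcases (measureReal_nonneg : 0 ≤ m).eq_or_lt with h0 | h0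
  · have : volume W = 0 := (measureReal_eq_zero_iff hfin).1 h0.symm
    rw [Measure.restrict_eq_zero.2 this, integral_zero_measure]
    exact A0.le
  · have hc : Continuous fun x => ∑ i, (opK Ω h)^[j] (u i) x ^ 2 :=
      continuous_finsetSum _ fun i _ => (it_cont hΩ hh (hu i) j).pow 2
    have h1 : ∫ x in W, ∑ i, (opK Ω h)^[j] (u i) x ^ 2 ≤ ∫ _ in W, A / m :=
      setIntegral_mono_on ((intOn hΩ hc).mono_set hWΩ) (integrableOn_const hfin) hW
        fun x hxW => (le_div_iff₀ h0).2 (pt x hxW)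
    rw [setIntegral_const, smul_eq_mul, ← hm, mul_div_cancel₀ _ h0.ne'] at h1
    exact h1

theorem cover_int (hΩ : Dom Ω) {F : E d → ℝ} (hF : Continuous F) (F0 : ∀ x, 0 ≤ F x)
    (X : Finset (E d)) (M : ℝ) (hX : Ω ⊆ ⋃ x ∈ X, Metric.ball x M) :
    ∫ x in Ω, F x ≤ ∑ p ∈ X, ∫ x in Ω ∩ Metric.ball p M, F x := by
  have e : ∀ p : E d, ∫ x in Ω ∩ Metric.ball p M, F x =
      ∫ x in Ω, (Metric.ball p M).indicator F x := by
    intro p
    rw [setIntegral_indicator measurableSet_ball]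
  have ii : ∀ p : E d, IntegrableOn ((Metric.ball p M).indicator F) Ω := fun p =>
    (intOn hΩ hF).indicator measurableSet_ball
  simp only [e]
  rw [← integral_finsetSum _ fun p _ => ii p]
  refine setIntegral_mono_on (intOn hΩ hF) (integrable_finsetSum _ fun p _ => ii p)
    hΩ.2.1.measurableSet fun x hx => ?_
  obtain ⟨p, hp, hxp⟩ := mem_iUnion₂.1 (hX hx)
  have := Finset.single_le_sum (f := fun p => (Metric.ball p M).indicator F x)
    (fun q _ => indicator_nonneg (fun y _ => F0 y) x) hp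
  rwa [indicator_of_mem hxp] at this

theorem exp_le_one_sub {x : ℝ} (h0 : 0 ≤ x) (h1 : x ≤ 1 / 2) : exp (-(2 * x)) ≤ 1 - x := by
  rw [exp_neg, inv_le_iff_one_le_mul₀ (exp_pos _)]
  have := add_one_le_exp (2 * x)
  nlinarith

end K

open K in
theorem pN (hGP : StGP) (hTC : StTC) (hA : StAdm) : StN := by
  intro d hd Ω hΩ k lam M hl hM X hX hadm
  obtain ⟨u, uC, ho, hE⟩ := (hA d Ω k).2.2.2.2 hΩ lam hadm
  have hu : ∀ i, Continuous (u i) := fun i => (uC i).continuous
  set σ := √lam * M with hσ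
  have sl : 0 < √lam := Real.sqrt_pos.2 hl
  have σ0 : 0 < σ := mul_pos sl hM
  set j := ⌈σ⌉₊ with hj
  have j0 : (0 : ℝ) < j := Nat.cast_pos.2 (Nat.ceil_pos.2 σ0)
  have hσj : σ ≤ j := Nat.le_ceil σ
  set h := σ / (32 * j * lam) with hh'
  have hh : 0 < h := by positivity
  set t := σ / (2 * j) with ht
  have t0 : 0 ≤ t := by positivity
  have t1 : t ≤ 1 / 2 := by
    rw [ht, div_le_iff₀ (by positivity)]
    linarith
  have hθ : 0 < 1 - t := by linarith
  have low : ∀ i, exp (-(2 * σ)) ≤ ∫ x in Ω, (opK Ω h)^[j] (u i) x ^ 2 := by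
    intro i
    have h1 : ∫ x in Ω, u i x ^ 2 = 1 := by
      have := ho i i
      simpa [sq] using this
    have h2 : En Ω (u i) ≤ lam := by
      have := hE (Pi.single i 1)
      simpa [Pi.single_apply] using this
    have h3 := K_energy hGP hd hΩ hh (uC i)
    have h4 : 16 * h * lam = t := by
      rw [hh', ht]
      field_simp
      ring
    have h5 : 1 - t ≤ ∫ x in Ω, u i x * opK Ω h (u i) x := by
      have : Sq Ω (u i) = 1 := h1
      have h6 := mul_le_mul_of_nonneg_left h2 (by positivity : 0 ≤ 16 * h)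
      linarith
    refine le_trans ?_ (it_lower hΩ hh (hu i) hθ h1 h5 j)
    have h7 := pow_le_pow_left₀ (exp_pos _).le (exp_le_one_sub t0 t1) (2 * j)
    refine le_trans (le_of_eq ?_) h7
    rw [← exp_nat_mul]
    congr 1
    rw [ht]
    push_cast
    field_simp
  set δ := 2 * M / j with hδ'
  have hδ : 0 < δ := by positivity
  have hc : Continuous fun x => ∑ i, (opK Ω h)^[j] (u i) x ^ 2 :=
    continuous_finsetSum _ fun i _ => (it_cont hΩ hh (hu i) j).pow 2
  have up := cover_int hΩ hc (fun x => Finset.sum_nonneg fun i _ => sq_nonneg _) X M hX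
  have up2 : ∀ p ∈ X, ∫ x in Ω ∩ Metric.ball p M, ∑ i, (opK Ω h)^[j] (u i) x ^ 2 ≤
      exp (128 * σ) := by
    intro p _
    have h1 := trace_piece hTC hd hΩ hh hu ho hδ j
      (hΩ.2.1.measurableSet.inter measurableSet_ball) (inter_subset_left (t := Metric.ball p M))
      (fun x hx z hz => by
        have e : (j : ℝ) * δ = 2 * M := by rw [hδ']; field_simp
        have a1 : dist x p < M := hx.2
        have a2 : dist z p < M := hz.2
        rw [e]
        linarith [dist_triangle_right x z p])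
    refine h1.trans (le_of_eq ?_)
    congr 1
    have e : lam = √lam ^ 2 := (Real.sq_sqrt hl.le).symm
    rw [hδ', hh', hσ]
    nth_rewrite 2 [e]
    field_simp
    ring
  have up3 := up.trans (Finset.sum_le_card_nsmul _ _ _ up2)
  have ii : ∀ i, IntegrableOn (fun x => (opK Ω h)^[j] (u i) x ^ 2) Ω :=
    fun i => intOn hΩ ((it_cont hΩ hh (hu i) j).pow 2)
  rw [integral_finsetSum _ fun i _ => ii i] at up3
  have low2 := Finset.card_nsmul_le_sum Finset.univ _ _ fun i _ => low i
  have h8 := low2.trans up3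
  simp only [Finset.card_univ, Fintype.card_fin, nsmul_eq_mul] at h8
  push_cast at h8
  have e : exp (130 * σ) = exp (128 * σ) / exp (-(2 * σ)) := by
    rw [← exp_sub]
    ring_nf
  rw [e, ← mul_div_assoc, le_div_iff₀ (exp_pos _)]
  exact h8

open K in
theorem pUI (hGP : StGP) (hTC : StTC) : StUI := by
  intro d hd Ω hΩ D h hh hD S hS u hu
  have uc := hu.continuous
  have kc := opK_cont (h := h) hΩ hh uc
  have vp := vol_pos hΩ
  have hW : MeasurableSet (Ω ∩ S) := hΩ.2.1.measurableSet.inter hS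
  have hfin : volume (Ω ∩ S) ≠ ⊤ :=
    ((measure_mono inter_subset_left).trans_lt hΩ.2.2.2.measure_lt_top).ne
  have S0 : 0 ≤ Sq Ω u := integral_nonneg fun x => sq_nonneg _
  obtain ⟨x0, hx0⟩ := hΩ.1
  have D0 : 0 ≤ D := by simpa using hD x0 hx0 x0 hx0
  have sup : ∀ x ∈ Ω, opK Ω h u x ^ 2 ≤ exp (D ^ 2 / h) * Sq Ω u / volume.real Ω := by
    intro x hx
    rw [le_div_iff₀ vp]
    have key : ∀ δ : ℝ, D < δ → opK Ω h u x ^ 2 * volume.real Ω ≤ exp (δ ^ 2 / h) * Sq Ω u := by
      intro δ hδ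
      have := sup_bound hTC hd hΩ hh uc (D0.trans_lt hδ) 1 hΩ.2.1.measurableSet subset_rfl x
        (fun z hz => by simpa using (hD x hx z hz).trans hδ.le)
      simpa using this
    have hc : ContinuousAt (fun δ : ℝ => exp (δ ^ 2 / h) * Sq Ω u) D := by fun_prop
    exact ge_of_tendsto (x := nhdsWithin D (Ioi D)) (hc.tendsto.mono_left nhdsWithin_le_nhds)
      (eventually_nhdsWithin_of_forall key)
  have i1 : IntegrableOn (fun x => (u x - opK Ω h u x) ^ 2) Ω := intOn hΩ ((uc.sub kc).pow 2)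
  have h1 : ∫ x in Ω, (u x - opK Ω h u x) ^ 2 ≤ 16 * h * En Ω u := by
    have a1 : IntegrableOn (fun x => u x ^ 2) Ω := intOn hΩ (uc.pow 2)
    have a2 : IntegrableOn (fun x => u x * opK Ω h u x) Ω := intOn hΩ (uc.mul kc)
    have a3 : IntegrableOn (fun x => opK Ω h u x ^ 2) Ω := intOn hΩ (kc.pow 2)
    have a4 : IntegrableOn (fun x => u x ^ 2 - 2 * (u x * opK Ω h u x)) Ω :=
      a1.sub (a2.const_mul 2)
    have e : ∀ x, (u x - opK Ω h u x) ^ 2 =
        u x ^ 2 - 2 * (u x * opK Ω h u x) + opK Ω h u x ^ 2 := fun x => by ring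
    simp only [e]
    rw [integral_add a4 a3, integral_sub a1 (a2.const_mul 2), integral_const_mul]
    have b1 := K_energy hGP hd hΩ hh hu
    have b2 := K_sq_le hΩ hh uc
    unfold Sq at b1
    linarith
  set B := exp (D ^ 2 / h) * Sq Ω u / volume.real Ω with hB
  have h2 : Sq (Ω ∩ S) u ≤ ∫ x in Ω ∩ S, (2 * (u x - opK Ω h u x) ^ 2 + 2 * B) := by
    refine setIntegral_mono_on ((intOn hΩ (uc.pow 2)).mono_set inter_subset_left)
      (((i1.mono_set inter_subset_left).const_mul 2).add (integrableOn_const hfin)) hW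
      fun x hx => ?_
    have := sup x hx.1
    nlinarith [sq_nonneg (u x - 2 * opK Ω h u x)]
  rw [integral_add ((i1.mono_set inter_subset_left).const_mul 2) (integrableOn_const hfin),
    integral_const_mul, setIntegral_const, smul_eq_mul] at h2
  have h3 : ∫ x in Ω ∩ S, (u x - opK Ω h u x) ^ 2 ≤ ∫ x in Ω, (u x - opK Ω h u x) ^ 2 :=
    setIntegral_mono_set i1 (Filter.Eventually.of_forall fun x => sq_nonneg _)
      inter_subset_left.eventuallyLE
  have e : 2 * exp (D ^ 2 / h) * (volume.real (Ω ∩ S) / volume.real Ω) * Sq Ω u =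
      volume.real (Ω ∩ S) * (2 * B) := by
    rw [hB]
    ring
  rw [e]
  linarith

end Pool.Agent.P.MP_5c8462_an.Ord
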