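import Pool.Agent.P.MP_5c8462_an.Ord.K1

set_option autoImplicit false

namespace Pool.Agent.P.MP_5c8462_an.Ord

open MeasureTheory Real Set

namespace K

variable {d : ℕ} {h : ℝ} {Ω : Set (E d)}

theorem gk_id1 (hh : 0 < h) (y x z : E d) :
    gk h (y - x) * gk h (y - z) = gk h y * (exp (inner ℝ x z / h) * gk h (y - x - z)) := by
  unfold gk
  rw [← exp_add, ← exp_add, ← exp_add]
  congr 1
  simp only [← real_inner_self_eq_norm_sq, inner_sub_left, inner_sub_right, real_inner_comm]
  field_simp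
  ring

theorem gk_id2 (hh : 0 < h) (y x z : E d) (hx : ‖x‖ ≤ 1) (hz : ‖z‖ ≤ 1) :
    gk h (y - x) * gk h y * (1 / gk h (y - z)) ≤ exp (3 / h) * gk h (x - y - z) := by
  unfold gk
  rw [one_div, ← exp_neg, ← exp_add, ← exp_add, ← exp_add, exp_le_exp]
  have e : ‖y - x‖ ^ 2 + ‖y‖ ^ 2 - ‖y - z‖ ^ 2 =
      ‖x - y - z‖ ^ 2 - ‖x - z‖ ^ 2 + ‖x‖ ^ 2 - ‖z‖ ^ 2 := by
    simp only [← real_inner_self_eq_norm_sq, inner_sub_left, inner_sub_right, real_inner_comm]
    ring
  have h1 : ‖x - z‖ ≤ 2 := (norm_sub_le _ _).trans (by linarith)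
  have h2 : ‖x - z‖ ^ 2 ≤ 4 := by nlinarith [norm_nonneg (x - z)]
  have h3 : ‖z‖ ^ 2 ≤ 1 := by nlinarith [norm_nonneg z]
  have e2 : -‖y - x‖ ^ 2 / (2 * h) + -‖y‖ ^ 2 / (2 * h) + -(-‖y - z‖ ^ 2 / (2 * h)) =
      -(‖y - x‖ ^ 2 + ‖y‖ ^ 2 - ‖y - z‖ ^ 2) / (2 * h) := by ring
  have e3 : 3 / h + -‖x - y - z‖ ^ 2 / (2 * h) = (6 - ‖x - y - z‖ ^ 2) / (2 * h) := by
    field_simp
    ring
  rw [e2, e3, e]
  exact div_le_div_of_nonneg_right (by nlinarith [sq_nonneg ‖x‖]) (by positivity)

theorem gk_shift (hh : 0 < h) (v z : E d) (hz : ‖z‖ ≤ 1) :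
    gk h (v - z) ≤ exp (1 / h) * gk (2 * h) v := by
  unfold gk
  rw [← exp_add, exp_le_exp]
  have h1 : ‖v‖ ≤ ‖v - z‖ + 1 := by
    have := norm_add_le (v - z) z
    rw [sub_add_cancel] at this
    linarith
  have h2 : ‖v‖ ^ 2 ≤ 2 * ‖v - z‖ ^ 2 + 2 := by
    nlinarith [norm_nonneg v, norm_nonneg (v - z), sq_nonneg (‖v - z‖ - 1)]
  have e1 : -‖v - z‖ ^ 2 / (2 * h) = -(2 * ‖v - z‖ ^ 2) / (4 * h) := by
    field_simp
    ring
  have e2 : 1 / h + -‖v‖ ^ 2 / (2 * (2 * h)) = (4 - ‖v‖ ^ 2) / (4 * h) := by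
    field_simp
    ring
  rw [e1, e2]
  exact div_le_div_of_nonneg_right (by linarith) (by positivity)

theorem gk_neg (h : ℝ) (v : E d) : gk h (-v) = gk h v := by
  unfold gk
  rw [norm_neg]

theorem mm_dom (hΩ : Dom Ω) (hb : Ω ⊆ Metric.ball 0 1) (hh : 0 < h) {f : E d → ℝ}
    {B : ℝ} (hB : ∀ x ∈ Ω, |f x| ≤ B) (v : E d) :
    |mm Ω h f v| ≤ B * exp (1 / h) * volume.real Ω * gk (2 * h) v := by
  have h1 := norm_setIntegral_le_of_norm_le_const (μ := volume) (s := Ω)
    (f := fun x => f x * gk h (v - x)) (C := B * (exp (1 / h) * gk (2 * h) v))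
    hΩ.2.2.2.measure_lt_top (fun x hx => by
      rw [Real.norm_eq_abs, abs_mul, abs_of_pos (gk_pos _ _)]
      exact mul_le_mul (hB x hx) (gk_shift hh v x (mem_ball_zero_iff.1 (hb hx)).le)
        (gk_pos _ _).le ((abs_nonneg _).trans (hB x hx)))
  rw [Real.norm_eq_abs] at h1
  unfold mm
  linarith

theorem exp_sub_one_sq {t c : ℝ} (ht : |t| ≤ c) : (exp t - 1) ^ 2 ≤ t ^ 2 * exp c ^ 2 := by
  have h1 : |exp t - 1| ≤ |t| * exp c := by
    have c1 : 1 ≤ exp c := one_le_exp ((abs_nonneg t).trans ht)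
    rcases le_total 0 t with h0 | h0
    · have a1 : 1 ≤ exp t := one_le_exp h0
      have a2 : exp t ≤ exp c := exp_le_exp.2 ((le_abs_self t).trans ht)
      have a3 := add_one_le_exp (-t)
      have a4 : exp (-t) * exp t = 1 := by rw [← exp_add]; simp
      rw [abs_of_nonneg (by linarith), abs_of_nonneg h0]
      nlinarith
    · have a1 : exp t ≤ 1 := exp_le_one_iff.2 h0
      have a3 := add_one_le_exp t
      rw [abs_of_nonpos (by linarith), abs_of_nonpos h0]
      nlinarith
  rw [← sq_abs, ← sq_abs t, ← mul_pow]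
  exact pow_le_pow_left₀ (abs_nonneg _) h1 2

theorem cs' (hΩ : Dom Ω) {f g : E d → ℝ} (hf : Continuous f) (hg : Continuous g) :
    (∫ x in Ω, f x * g x) ^ 2 ≤ (∫ x in Ω, f x ^ 2) * ∫ x in Ω, g x ^ 2 := by
  have i1 : IntegrableOn (fun x => f x ^ 2) Ω := intOn hΩ (hf.pow 2)
  have i2 : IntegrableOn (fun x => g x ^ 2) Ω := intOn hΩ (hg.pow 2)
  have i3 : IntegrableOn (fun x => f x * g x) Ω := intOn hΩ (hf.mul hg)
  have h1 : ∀ t : ℝ, 0 ≤ (∫ x in Ω, f x ^ 2) * (t * t) + (-2 * ∫ x in Ω, f x * g x) * t +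
      ∫ x in Ω, g x ^ 2 := by
    intro t
    have h2 : 0 ≤ ∫ x in Ω, (t * t * f x ^ 2 + -2 * t * (f x * g x) + g x ^ 2) :=
      integral_nonneg fun x => by
        simp only [Pi.zero_apply]
        nlinarith [sq_nonneg (t * f x - g x)]
    have i4 : IntegrableOn (fun x => t * t * f x ^ 2 + -2 * t * (f x * g x)) Ω :=
      (i1.const_mul _).add (i3.const_mul _)
    rw [integral_add i4 i2,
      integral_add (i1.const_mul _) (i3.const_mul _), integral_const_mul, integral_const_mul] at h2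
    linarith
  have := discrim_le_zero h1
  unfold discrim at this
  nlinarith

/-- First factor. -/
theorem cov1 (hΩ : Dom Ω) (hb : Ω ⊆ Metric.ball 0 1) (hh : 0 < h) {δ : ℝ} (hδ : 0 < δ)
    (hc : ∀ e : E d, ‖e‖ ≤ 1 → ∫ x in Ω, (inner ℝ e x : ℝ) ^ 2 ≤ δ ^ 2 * volume.real Ω)
    {u : E d → ℝ} (hu : Continuous u) (h0 : ∫ x in Ω, u x = 0) :
    Integrable (fun y => mm Ω h u y ^ 2 / gk h y) ∧
      ∫ y, mm Ω h u y ^ 2 / gk h y ≤
        gz d h * (δ / h * exp (1 / h) * volume.real Ω * Sq Ω u) := by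
  have vp := vol_pos hΩ
  set V := volume.real Ω with hV
  set w : E d → E d → ℝ := fun x z => u z * exp (inner ℝ x z / h) with hw
  have wc : ∀ x, Continuous (w x) := fun x => by
    simp only [hw]
    fun_prop
  have e1 : ∀ x y, mm Ω h u y * gk h (y - x) / gk h y = mm Ω h (w x) (y - x) := by
    intro x y
    unfold mm
    rw [← integral_mul_const, ← integral_div]
    congr 1
    funext z
    have := gk_id1 hh y x z
    rw [div_eq_iff (gk_pos h y).ne', hw]
    simp only
    rw [mul_assoc, mul_comm (gk h (y - z)), this]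
    ring
  obtain ⟨B, hB⟩ := bdd hΩ hu
  have B0 : 0 ≤ B := by
    obtain ⟨x, hx⟩ := hΩ.1
    exact (abs_nonneg _).trans (hB x hx)
  have hin : ∀ x ∈ Ω, ∀ z ∈ Ω, |inner ℝ x z / h| ≤ 1 / h := by
    intro x hx z hz
    rw [abs_div, abs_of_pos hh]
    refine div_le_div_of_nonneg_right ((abs_real_inner_le_norm x z).trans ?_) hh.le
    exact mul_le_one₀ (mem_ball_zero_iff.1 (hb hx)).le (norm_nonneg _)
      (mem_ball_zero_iff.1 (hb hz)).le
  have hP : Integrable (Function.uncurry fun x y => u x * (mm Ω h u y * gk h (y - x) / gk h y))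
      ((volume.restrict Ω).prod volume) := by
    refine intP (h := 2 * h) hΩ (by positivity) ?_ id continuous_id
      (B * (B * exp (1 / h) * exp (1 / h) * V)) fun x hx y => ?_
    · exact (hu.comp continuous_fst).mul ((((mm_cont hΩ hh hu).comp continuous_snd).mul
        ((gk_cont h).comp (continuous_snd.sub continuous_fst))).div
        ((gk_cont h).comp continuous_snd) fun z => (gk_pos _ _).ne')
    · rw [e1, abs_mul, mul_assoc]
      refine mul_le_mul (hB x hx) (mm_dom hΩ hb hh (fun z hz => ?_) _) (abs_nonneg _) B0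
      simp only [hw]
      rw [abs_mul, abs_of_pos (exp_pos _)]
      exact mul_le_mul (hB z hz) (exp_le_exp.2 ((le_abs_self _).trans (hin x hx z hz)))
        (exp_pos _).le B0
  have e2 : ∀ y, ∫ x in Ω, u x * (mm Ω h u y * gk h (y - x) / gk h y) =
      mm Ω h u y ^ 2 / gk h y := by
    intro y
    have : ∀ x, u x * (mm Ω h u y * gk h (y - x) / gk h y) =
        (mm Ω h u y / gk h y) * (u x * gk h (y - x)) := fun x => by ring
    simp only [this]
    rw [integral_const_mul]
    change _ * mm Ω h u y = _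
    ring
  set J : E d → ℝ := fun x => ∫ z in Ω, w x z with hJ
  have e3 : ∀ x, ∫ y, u x * (mm Ω h u y * gk h (y - x) / gk h y) = gz d h * (u x * J x) := by
    intro x
    simp only [e1]
    rw [integral_const_mul, integral_sub_right_eq_self (mm Ω h (w x)) x, mm_mass hΩ hh (wc x)]
    ring
  refine ⟨hP.integral_prod_right.congr (Filter.Eventually.of_forall fun y => e2 y), ?_⟩
  have sw := integral_integral_swap hP
  simp only [e2, e3] at sw
  rw [← sw, integral_const_mul]
  refine mul_le_mul_of_nonneg_left ?_ (gz_pos hh).le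
  have iJ : IntegrableOn (fun x => u x * J x) Ω := by
    have h1 : Integrable (fun x => gz d h * (u x * J x)) (volume.restrict Ω) :=
      hP.integral_prod_left.congr (Filter.Eventually.of_forall fun x => e3 x)
    have h2 := h1.const_mul (gz d h)⁻¹
    unfold IntegrableOn
    simpa [← mul_assoc, inv_mul_cancel₀ (gz_pos (d := d) hh).ne'] using h2
  set R := δ / h * exp (1 / h) * V with hR
  have R0 : 0 < R := by positivity
  set S := Sq Ω u with hS
  have S0 : 0 ≤ S := integral_nonneg fun x => sq_nonneg _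
  have hJ2 : ∀ x ∈ Ω, J x ^ 2 ≤ S * (R ^ 2 / V) := by
    intro x hx
    have c1 : Continuous fun z : E d => exp (inner ℝ x z / h) - 1 := by fun_prop
    have a1 : J x = ∫ z in Ω, u z * (exp (inner ℝ x z / h) - 1) := by
      have : ∀ z, u z * (exp (inner ℝ x z / h) - 1) = w x z - u z := fun z => by
        simp only [hw]
        ring
      simp only [this]
      rw [integral_sub (intOn hΩ (wc x)) (intOn hΩ hu), h0, sub_zero]
    rw [a1]
    refine (cs' hΩ hu c1).trans (mul_le_mul_of_nonneg_left ?_ S0)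
    have c2 : Continuous fun z : E d => (inner ℝ x z : ℝ) ^ 2 := by fun_prop
    have a2 : ∫ z in Ω, (exp (inner ℝ x z / h) - 1) ^ 2 ≤
        ∫ z in Ω, (exp (1 / h) / h) ^ 2 * (inner ℝ x z : ℝ) ^ 2 := by
      refine setIntegral_mono_on (intOn hΩ (c1.pow 2)) ((intOn hΩ c2).const_mul _)
        hΩ.2.1.measurableSet fun z hz => (exp_sub_one_sq (hin x hx z hz)).trans (le_of_eq ?_)
      ring
    rw [integral_const_mul] at a2
    have a3 := mul_le_mul_of_nonneg_left (hc x (mem_ball_zero_iff.1 (hb hx)).le)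
      (sq_nonneg (exp (1 / h) / h))
    refine a2.trans (a3.trans (le_of_eq ?_))
    rw [hR]
    field_simp
  have i2 : IntegrableOn (fun x => u x ^ 2) Ω := intOn hΩ (hu.pow 2)
  have hfin : volume Ω ≠ ⊤ := hΩ.2.2.2.measure_lt_top.ne
  have h5 : ∫ x in Ω, u x * J x ≤ ∫ x in Ω, (R / 2 * u x ^ 2 + S * R / V / 2) := by
    refine setIntegral_mono_on iJ ((i2.const_mul _).add (integrableOn_const hfin))
      hΩ.2.1.measurableSet fun x hx => ?_
    have a1 := hJ2 x hx
    have a2 : S * R / V / 2 * (2 * R) = S * (R ^ 2 / V) := by field_simp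
    refine le_of_mul_le_mul_right ?_ (by positivity : 0 < 2 * R)
    nlinarith [sq_nonneg (R * u x - J x)]
  rw [integral_add (i2.const_mul _) (integrableOn_const hfin), integral_const_mul,
    setIntegral_const, smul_eq_mul, ← hV] at h5
  refine h5.trans (le_of_eq ?_)
  change R / 2 * S + _ = _
  field_simp
  ring

/-- Second factor. -/
theorem cov2 (hΩ : Dom Ω) (hb : Ω ⊆ Metric.ball 0 1) (hh : 0 < h)
    {u : E d → ℝ} (hu : Continuous u) :
    ∫ y, opT Ω h u y * opT Ω h u y * gk h (y - 0) ≤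
      gz d h * (exp (3 / h) / volume.real Ω * Sq Ω u) := by
  have vp := vol_pos hΩ
  set V := volume.real Ω with hV
  have hfin : volume Ω ≠ ⊤ := hΩ.2.2.2.measure_lt_top.ne
  have u2 : Continuous fun x => u x ^ 2 := hu.pow 2
  obtain ⟨B, hB⟩ := bdd hΩ u2
  have B0 : 0 ≤ B := by
    obtain ⟨x, hx⟩ := hΩ.1
    exact (abs_nonneg _).trans (hB x hx)
  have hP : Integrable (Function.uncurry fun x y => u x ^ 2 * rho Ω h (x - y))
      ((volume.restrict Ω).prod volume) := by
    refine intP (h := 2 * h) hΩ (by positivity) ?_ id continuous_id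
      (B * (1 * exp (1 / h) * V)) fun x hx y => ?_
    · exact (u2.comp continuous_fst).mul
        ((rho_cont hΩ hh).comp (continuous_fst.sub continuous_snd))
    · rw [abs_mul, mul_assoc, rho_eq]
      refine mul_le_mul (hB x hx) ?_ (abs_nonneg _) B0
      have := mm_dom hΩ hb hh (f := fun _ => 1) (B := 1) (fun z _ => by simp) (x - y)
      rwa [← neg_sub y x, gk_neg, neg_sub] at this
  have sw := integral_integral_swap hP
  have e3 : ∀ x, ∫ y, u x ^ 2 * rho Ω h (x - y) = gz d h * V * u x ^ 2 := by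
    intro x
    rw [integral_const_mul, integral_sub_left_eq_self (rho Ω h) volume x, rho_eq,
      mm_mass hΩ hh continuous_const, setIntegral_const, smul_eq_mul, ← hV]
    ring
  simp only [e3] at sw
  rw [integral_const_mul] at sw
  have pt : ∀ y, opT Ω h u y * opT Ω h u y * gk h (y - 0) ≤
      exp (3 / h) / V ^ 2 * ∫ x in Ω, u x ^ 2 * rho Ω h (x - y) := by
    intro y
    have rp := rho_pos hΩ h y
    have c1 : Continuous fun z => gk h (y - z) := (gk_cont h).comp (continuous_const.sub continuous_id)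
    have c2 : Continuous fun z => 1 / gk h (y - z) :=
      continuous_const.div c1 fun z => (gk_pos _ _).ne'
    set I := ∫ z in Ω, 1 / gk h (y - z) with hI
    have a1 : V ^ 2 ≤ I * rho Ω h y := by
      set a := V / rho Ω h y with ha
      have a0 : 0 < a := by positivity
      have b1 : ∫ _ in Ω, (2 : ℝ) ≤ ∫ z in Ω, (a * gk h (y - z) + 1 / a * (1 / gk h (y - z))) := by
        refine setIntegral_mono_on (integrableOn_const hfin)
          (((intOn hΩ c1).const_mul _).add ((intOn hΩ c2).const_mul _)) hΩ.2.1.measurableSet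
          fun z _ => ?_
        have p := gk_pos h (y - z)
        have b2 : 0 ≤ (a * gk h (y - z) - 1) ^ 2 / (a * gk h (y - z)) := by positivity
        have b3 : (a * gk h (y - z) - 1) ^ 2 / (a * gk h (y - z)) =
            a * gk h (y - z) + 1 / a * (1 / gk h (y - z)) - 2 := by
          field_simp
          ring
        linarith
      rw [integral_add ((intOn hΩ c1).const_mul _) ((intOn hΩ c2).const_mul _),
        integral_const_mul, integral_const_mul, setIntegral_const, smul_eq_mul, ← hV, ← hI] at b1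
      change V * 2 ≤ a * rho Ω h y + _ at b1
      rw [ha, div_mul_cancel₀ _ rp.ne', one_div_div] at b1
      have b4 : V ≤ rho Ω h y / V * I := by linarith
      rw [div_mul_eq_mul_div, le_div_iff₀ vp] at b4
      nlinarith
    have a2 : ∀ x ∈ Ω, gk h (y - x) * gk h y * I ≤ exp (3 / h) * rho Ω h (x - y) := by
      intro x hx
      have c3 : Continuous fun z => gk h (x - y - z) :=
        (gk_cont h).comp (continuous_const.sub continuous_id)
      rw [hI, ← integral_const_mul]
      unfold rho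
      rw [← integral_const_mul]
      exact setIntegral_mono_on ((intOn hΩ c2).const_mul _) ((intOn hΩ c3).const_mul _)
        hΩ.2.1.measurableSet fun z hz => gk_id2 hh y x z (mem_ball_zero_iff.1 (hb hx)).le
          (mem_ball_zero_iff.1 (hb hz)).le
    have c4 : Continuous fun x => u x ^ 2 * rho Ω h (x - y) :=
      u2.mul ((rho_cont hΩ hh).comp (continuous_id.sub continuous_const))
    have a3 : mm Ω h (fun x => u x ^ 2) y * (gk h y * I) ≤
        exp (3 / h) * ∫ x in Ω, u x ^ 2 * rho Ω h (x - y) := by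
      unfold mm
      rw [← integral_mul_const, ← integral_const_mul (exp (3 / h))]
      refine setIntegral_mono_on ((intOn hΩ (cont_fk h u2 y)).mul_const _)
        ((intOn hΩ c4).const_mul _) hΩ.2.1.measurableSet fun x hx => ?_
      have := mul_le_mul_of_nonneg_left (a2 x hx) (sq_nonneg (u x))
      nlinarith
    have a4 := opT_sq (h := h) hΩ hu y
    rw [mm_eq hΩ] at a3
    set T2 := opT Ω h (fun x => u x ^ 2) y with hT2
    have T0 : 0 ≤ T2 := (sq_nonneg _).trans a4
    have gp := gk_pos h y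
    rw [sub_zero, div_mul_eq_mul_div, le_div_iff₀ (by positivity)]
    have a5 : opT Ω h u y * opT Ω h u y * gk h y * V ^ 2 ≤ T2 * gk h y * (I * rho Ω h y) :=
      mul_le_mul (mul_le_mul_of_nonneg_right (by nlinarith) gp.le) a1 (by positivity)
        (by positivity)
    nlinarith
  have hT := opT_BC hΩ hh hu
  have h5 := integral_mono ((hT.mul hT).int hh 0) (hP.integral_prod_right.const_mul _) pt
  rw [integral_const_mul] at h5
  simp only [Function.uncurry_apply_pair] at h5
  rw [← sw] at h5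
  refine h5.trans (le_of_eq ?_)
  unfold Sq
  field_simp

end K

open K in
theorem pCov (hGP : StGP) : StCov := by
  intro d hd Ω hΩ hb h δ hh hδ hc u hu h0
  have uc := hu.continuous
  have vp := vol_pos hΩ
  have S0 : 0 ≤ Sq Ω u := integral_nonneg fun x => sq_nonneg _
  have hδ' : 0 < δ := by
    refine hδ.lt_of_ne fun hz => ?_
    set e : E d := EuclideanSpace.single ⟨0, hd⟩ 1 with he
    have n1 : ‖e‖ = 1 := by simp [he]
    have h1 := hc e n1.le
    rw [← hz] at h1
    have h2 : ∃ x ∈ Ω, (inner ℝ e x : ℝ) ≠ 0 := by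
      obtain ⟨x, hx⟩ := hΩ.1
      obtain ⟨r, r0, hr⟩ := Metric.isOpen_iff.1 hΩ.2.1 x hx
      by_contra hcon
      push Not at hcon
      have m1 : x + (r / 2) • e ∈ Ω := hr (by
        rw [Metric.mem_ball, dist_eq_norm, add_sub_cancel_left, norm_smul, n1, Real.norm_eq_abs,
          abs_of_pos (by positivity)]
        linarith)
      have m2 := hcon _ m1
      rw [inner_add_right, hcon x hx, inner_smul_right, real_inner_self_eq_norm_sq, n1] at m2
      linarith
    have h3 := int_pos hΩ.2.1 hΩ.2.2.2 (u := fun x => (inner ℝ e x : ℝ)) (by fun_prop) h2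
    linarith
  obtain ⟨i1, b1⟩ := cov1 hΩ hb hh hδ' hc uc h0
  have b2 := cov2 hΩ hb hh uc
  have hT := opT_BC hΩ hh uc
  have i2 := (hT.mul hT).int hh 0
  have i3 := mm_int hΩ hh uc hT
  set s := √(δ / h) with hs
  have s0 : 0 < s := Real.sqrt_pos.2 (by positivity)
  have s2 : δ / h = s ^ 2 := (Real.sq_sqrt (by positivity)).symm
  set V := volume.real Ω with hV
  set a := exp (1 / h) / (V * s) with ha
  have a0 : 0 < a := by positivity
  have pt : ∀ y, mm Ω h u y * opT Ω h u y ≤ a / 2 * (mm Ω h u y ^ 2 / gk h y) +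
      1 / a / 2 * (opT Ω h u y * opT Ω h u y * gk h (y - 0)) := by
    intro y
    have p := gk_pos h y
    have c1 : 0 ≤ (a * mm Ω h u y - opT Ω h u y * gk h y) ^ 2 / (2 * a * gk h y) := by positivity
    have c2 : (a * mm Ω h u y - opT Ω h u y * gk h y) ^ 2 / (2 * a * gk h y) =
        a / 2 * (mm Ω h u y ^ 2 / gk h y) +
          1 / a / 2 * (opT Ω h u y * opT Ω h u y * gk h y) - mm Ω h u y * opT Ω h u y := by
      field_simp
      ring
    rw [sub_zero]
    linarith
  have h5 := integral_mono i3 ((i1.const_mul _).add (i2.const_mul _)) pt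
  simp only [Pi.add_apply] at h5
  rw [integral_add (i1.const_mul _) (i2.const_mul _), integral_const_mul, integral_const_mul] at h5
  have h6 := K_energy hGP hd hΩ hh hu
  rw [K_form hΩ hh uc uc, le_div_iff₀ (gz_pos hh)] at h6
  have gp := gz_pos (d := d) hh
  have e1 : a / 2 * (gz d h * (δ / h * exp (1 / h) * V * Sq Ω u)) =
      gz d h * (s * exp (2 / h) * Sq Ω u) / 2 := by
    have : exp (2 / h) = exp (1 / h) * exp (1 / h) := by rw [← exp_add]; ring_nf
    rw [s2, ha, this]
    field_simp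
  have e2 : 1 / a / 2 * (gz d h * (exp (3 / h) / V * Sq Ω u)) =
      gz d h * (s * exp (2 / h) * Sq Ω u) / 2 := by
    have : exp (3 / h) = exp (2 / h) * exp (1 / h) := by rw [← exp_add]; ring_nf
    rw [ha, this]
    field_simp
  have h7 := mul_le_mul_of_nonneg_left b1 (by positivity : 0 ≤ a / 2)
  have h8 := mul_le_mul_of_nonneg_left b2 (by positivity : 0 ≤ 1 / a / 2)
  rw [e1] at h7
  rw [e2] at h8
  have h9 : (Sq Ω u - 16 * h * En Ω u) * gz d h ≤ (s * exp (2 / h) * Sq Ω u) * gz d h := by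
    linarith
  have := le_of_mul_le_mul_right h9 gp
  linarith

end Pool.Agent.P.MP_5c8462_an.Ord
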