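import Pool.Agent.P.MP_5c8462_an.Geo

set_option autoImplicit false

namespace Pool.Agent.P.MP_5c8462_an.Ord

open MeasureTheory Real Set

/-- Bounded convex domain. -/
def Dom {d : ℕ} (Ω : Set (E d)) : Prop :=
  Ω.Nonempty ∧ IsOpen Ω ∧ Convex ℝ Ω ∧ Bornology.IsBounded Ω

/-- Dirichlet energy. -/
noncomputable def En {d : ℕ} (Ω : Set (E d)) (u : E d → ℝ) : ℝ := ∫ x in Ω, ‖fderiv ℝ u x‖ ^ 2

/-- Squared norm. -/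
noncomputable def Sq {d : ℕ} (Ω : Set (E d)) (u : E d → ℝ) : ℝ := ∫ x in Ω, u x ^ 2

/-- A bounded positive log-concave density on an open interval. -/
structure LC (p : ℝ → ℝ) (a b : ℝ) : Prop where
  lt : a < b
  pos : ∀ s ∈ Ioo a b, 0 < p s
  bdd : ∃ C : ℝ, ∀ s ∈ Ioo a b, p s ≤ C
  conc : ConcaveOn ℝ (Ioo a b) fun s => Real.log (p s)

/-- The set lies in a tube of radius `τ` around a line. -/
def Thin {d : ℕ} (τ : ℝ) (A : Set (E d)) : Prop :=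
  ∃ x0 e : E d, ‖e‖ = 1 ∧ ∀ x ∈ A, ‖x - x0 - (inner ℝ e (x - x0) : ℝ) • e‖ ≤ τ

/-- A log-concave needle within distance `η` of `Ω`. -/
def Needle {d : ℕ} (Ω : Set (E d)) (η : ℝ) (x0 e : E d) (a b : ℝ) (p : ℝ → ℝ) : Prop :=
  ‖e‖ = 1 ∧ LC p a b ∧ ∀ s ∈ Icc a b, ∃ x ∈ Ω, dist (x0 + s • e) x ≤ η

/-- A test function living in `U` with Rayleigh quotient at most `M` on `K`. -/
def Test {d : ℕ} (K U : Set (E d)) (g : E d → ℝ) (M : ℝ) : Prop :=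
  ContDiff ℝ 1 g ∧ (∀ x, x ∉ U → g x = 0 ∧ fderiv ℝ g x = 0) ∧ 0 < Sq K g ∧ En K g ≤ M * Sq K g

/-- `n` disjointly supported test functions inside `B`. -/
def Fam {d : ℕ} (K B : Set (E d)) (n : ℕ) (M : ℝ) : Prop :=
  ∃ (U : Fin n → Set (E d)) (g : Fin n → E d → ℝ), (∀ i, U i ⊆ B) ∧
    Pairwise (Function.onFun Disjoint U) ∧ ∀ i, Test K (U i) (g i) M

/-- Volume of the part of `K` in a ball. -/
noncomputable def Vb {d : ℕ} (K : Set (E d)) (p : E d) (s : ℝ) : ℝ :=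
  volume.real (K ∩ Metric.ball p s)

/-- One-dimensional Gaussian factor. -/
noncomputable def g1 (h c s : ℝ) : ℝ := exp (-(s - c) ^ 2 / (2 * h))

/-- Gaussian kernel, not normalised. -/
noncomputable def gk {d : ℕ} (h : ℝ) (v : E d) : ℝ := exp (-‖v‖ ^ 2 / (2 * h))

noncomputable def gz (d : ℕ) (h : ℝ) : ℝ := ∫ v : E d, gk h v

noncomputable def rho {d : ℕ} (Ω : Set (E d)) (h : ℝ) (y : E d) : ℝ := ∫ x in Ω, gk h (y - x)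

noncomputable def opT {d : ℕ} (Ω : Set (E d)) (h : ℝ) (f : E d → ℝ) (y : E d) : ℝ :=
  (∫ x in Ω, f x * gk h (y - x)) / rho Ω h y

noncomputable def opS {d : ℕ} (h : ℝ) (g : E d → ℝ) (x : E d) : ℝ :=
  (∫ y, g y * gk h (y - x)) / gz d h

noncomputable def opK {d : ℕ} (Ω : Set (E d)) (h : ℝ) (f : E d → ℝ) : E d → ℝ :=
  opS h (opT Ω h f)

/-! Statements of the packages. -/

/-- Multiplicative Brunn-Minkowski inequality. -/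
def StBM : Prop :=
  ∀ (d : ℕ) (A B C : Set (E d)), MeasurableSet A → MeasurableSet B → MeasurableSet C →
    Bornology.IsBounded A → Bornology.IsBounded B → Bornology.IsBounded C →
    ∀ t : ℝ, 0 < t → t < 1 → (∀ x ∈ A, ∀ y ∈ B, (1 - t) • x + t • y ∈ C) →
      volume.real A ^ (1 - t) * volume.real B ^ t ≤ volume.real C

/-- Localisation to thin convex pieces. -/
def StLoc : Prop :=
  ∀ (d : ℕ), 1 ≤ d → ∀ Ω : Set (E d), Dom Ω → ∀ f Ψ : E d → ℝ, IntegrableOn f Ω →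
    IntegrableOn Ψ Ω → ∀ τ : ℝ, 0 < τ →
    (∀ A : Set (E d), Dom A → A ⊆ Ω → Thin τ A → ∫ x in A, f x = 0 → 0 ≤ ∫ x in A, Ψ x) →
    ∫ x in Ω, f x = 0 → 0 ≤ ∫ x in Ω, Ψ x

/-- A thin convex piece is approximated by a needle. -/
def StNeedle : Prop :=
  ∀ (d : ℕ) (A : Set (E d)), Dom A → ∀ τ : ℝ, 0 < τ → Thin τ A →
    ∃ (x0 e : E d) (a b : ℝ) (p : ℝ → ℝ), Needle A (3 * τ) x0 e a b p ∧
      ∫ s in Ioo a b, p s = volume.real A ∧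
      ∀ (F : E d → ℝ) (ω : ℝ), Continuous F →
        (∀ x ∈ A, ∀ x', dist x' x ≤ 2 * τ → |F x' - F x| ≤ ω) →
        |(∫ x in A, F x) - ∫ s in Ioo a b, F (x0 + s • e) * p s| ≤ ω * volume.real A

/-- Needle localisation. -/
def StNL : Prop :=
  ∀ (d : ℕ), 1 ≤ d → ∀ Ω : Set (E d), Dom Ω → ∀ f Ψ : E d → ℝ, Continuous f → Continuous Ψ →
    ∫ x in Ω, f x = 0 →
    (∀ ε : ℝ, 0 < ε → ∃ η : ℝ, 0 < η ∧ ∀ (x0 e : E d) (a b : ℝ) (p : ℝ → ℝ),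
      Needle Ω η x0 e a b p →
      |∫ s in Ioo a b, f (x0 + s • e) * p s| ≤ η * ∫ s in Ioo a b, p s →
      -(ε * ∫ s in Ioo a b, p s) ≤ ∫ s in Ioo a b, Ψ (x0 + s • e) * p s) →
    0 ≤ ∫ x in Ω, Ψ x

/-- Poincare inequality on a strongly log-concave needle. -/
def St1G : Prop :=
  ∀ (p : ℝ → ℝ) (a b : ℝ), LC p a b → ∀ h c : ℝ, 0 < h → ∀ v : ℝ → ℝ, ContDiff ℝ 1 v →
    ∃ m : ℝ, ∫ s in Ioo a b, (v s - m) ^ 2 * (g1 h c s * p s) ≤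
      16 * h * ∫ s in Ioo a b, deriv v s ^ 2 * (g1 h c s * p s)

/-- Payne-Weinberger inequality on a log-concave needle. -/
def St1P : Prop :=
  ∀ (p : ℝ → ℝ) (a b : ℝ), LC p a b → ∀ L : ℝ, b - a < L → ∀ v : ℝ → ℝ, ContDiff ℝ 1 v →
    ∃ m : ℝ, π ^ 2 * ∫ s in Ioo a b, (v s - m) ^ 2 * p s ≤
      L ^ 2 * ∫ s in Ioo a b, deriv v s ^ 2 * p s

/-- Moving the centre of the Gaussian factor by `r` moves mass by at most `r`. -/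
def St1T : Prop :=
  ∀ (p : ℝ → ℝ) (a b : ℝ), LC p a b → ∀ h c c' r : ℝ, 0 < h → |c - c'| ≤ r →
    ∀ φ ψ : ℝ → ℝ, Continuous φ → Continuous ψ → (∀ s s', |s - s'| ≤ r → φ s ≤ ψ s') →
    (∫ s in Ioo a b, φ s * (g1 h c s * p s)) * (∫ s in Ioo a b, g1 h c' s * p s) ≤
      (∫ s in Ioo a b, ψ s * (g1 h c' s * p s)) * ∫ s in Ioo a b, g1 h c s * p s

/-- Hardy type inequality on a needle with a very light tail. -/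
def St1H : Prop :=
  ∀ (p : ℝ → ℝ) (a b : ℝ), LC p a b → ∀ (s t l θ : ℝ) (J : ℕ), 1 ≤ J → 0 < l → a ≤ s → s ≤ t →
    t ≤ b → t - s ≤ J * l → θ < exp (-(J : ℝ)) / (2 * J) →
    ∫ x in Ioo a b \ Icc s t, p x ≤ θ * ∫ x in Ioo a b, p x →
    ∀ v : ℝ → ℝ, ContDiff ℝ 1 v →
      ∫ x in Ioo a b, v x ^ 2 * p x ≤
        7 * (∫ x in Ioo a b ∩ Icc (s - l) (t + l), v x ^ 2 * p x) +
          16 * l ^ 2 * ∫ x in Ioo a b, deriv v x ^ 2 * p x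

/-- Gaussian Poincare inequality on a convex domain. -/
def StGP : Prop :=
  ∀ (d : ℕ), 1 ≤ d → ∀ Ω : Set (E d), Dom Ω → ∀ h : ℝ, 0 < h → ∀ (y : E d) (u : E d → ℝ),
    ContDiff ℝ 1 u → ∫ x in Ω, u x * gk h (y - x) = 0 →
    ∫ x in Ω, u x ^ 2 * gk h (y - x) ≤ 16 * h * ∫ x in Ω, ‖fderiv ℝ u x‖ ^ 2 * gk h (y - x)

/-- Payne-Weinberger inequality. -/
def StPW : Prop :=
  ∀ (d : ℕ), 1 ≤ d → ∀ Ω : Set (E d), Dom Ω → ∀ D : ℝ, (∀ x ∈ Ω, ∀ y ∈ Ω, dist x y ≤ D) →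
    ∀ u : E d → ℝ, ContDiff ℝ 1 u → ∫ x in Ω, u x = 0 → π ^ 2 * Sq Ω u ≤ D ^ 2 * En Ω u

/-- The conditional law is a contraction for the uniform transport distance. -/
def StTC : Prop :=
  ∀ (d : ℕ), 1 ≤ d → ∀ Ω : Set (E d), Dom Ω → ∀ h r : ℝ, 0 < h → ∀ y y' : E d, dist y y' ≤ r →
    ∀ φ ψ : E d → ℝ, Continuous φ → Continuous ψ → (∀ x z, dist x z ≤ r → φ x ≤ ψ z) →
    opT Ω h φ y ≤ opT Ω h ψ y'

/-- Hardy type inequality for a domain whose mass sits in a small sublevel set. -/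
def StH : Prop :=
  ∀ (d : ℕ), 1 ≤ d → ∀ Ω : Set (E d), Dom Ω → ∀ G : E d → ℝ, ConvexOn ℝ univ G →
    (∀ x y, |G x - G y| ≤ dist x y) → ∀ (ρ l Δ θ : ℝ) (J : ℕ), 1 ≤ J → 0 < l → Δ < J * l →
    θ < exp (-(J : ℝ)) / (2 * J) →
    (∀ x ∈ Ω, ∀ y ∈ Ω, G x ≤ ρ + 2 * l → G y ≤ ρ + 2 * l → dist x y ≤ Δ) →
    volume.real (Ω ∩ {x | ρ < G x}) ≤ θ * volume.real Ω →
    ∀ u : E d → ℝ, ContDiff ℝ 1 u →
      Sq Ω u ≤ 7 * Sq (Ω ∩ {x | G x < ρ + 3 * l}) u + 16 * l ^ 2 * En Ω u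

/-- Dimension-free eigenvalue count. -/
def StN : Prop :=
  ∀ (d : ℕ), 1 ≤ d → ∀ Ω : Set (E d), Dom Ω → ∀ (k : ℕ) (lam M : ℝ), 0 < lam → 0 < M →
    ∀ X : Finset (E d), Ω ⊆ ⋃ x ∈ X, Metric.ball x M → Adm k Ω lam →
    (k + 1 : ℝ) ≤ X.card * exp (130 * (√lam * M))

/-- Many radial test functions, rough constant. -/
def StR : Prop :=
  ∃ C : ℝ, 0 < C ∧ ∀ (d : ℕ), 1 ≤ d → ∀ K : Set (E d), Dom K → ∀ p ∈ K, ∀ b : ℝ, 0 < b →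
    2 * Vb K p b ≤ Vb K p (3 * b) → ∀ n : ℕ,
      Fam K (Metric.ball p b) n (C * ((d : ℝ) + n) ^ 2 / b ^ 2)

/-- Radial test functions, sharp constant. -/
def StRs : Prop :=
  ∀ (ε b b' θ : ℝ) (n : ℕ), 0 < ε → 1 < b → b < b' → 1 < θ → ∃ d0 : ℕ, ∀ d : ℕ, d0 ≤ d →
    ∀ K : Set (E d), Dom K → ∀ p ∈ K, θ * Vb K p b ≤ Vb K p b' →
      Fam K (Metric.ball p b) n ((1 + ε) * (d : ℝ) ^ 2 / 4)

/-- Disjointly supported test functions give an admissible level. -/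
def StDS : Prop :=
  ∀ (d : ℕ) (Ω : Set (E d)), Dom Ω → ∀ (ι : Type) [Fintype ι] (U : ι → Set (E d))
    (g : ι → E d → ℝ) (M : ℝ) (k : ℕ), k + 1 ≤ Fintype.card ι →
    Pairwise (Function.onFun Disjoint U) → (∀ i, Test Ω (U i) (g i) M) → Adm k Ω M

/-- Neumann bracketing. -/
def StBr : Prop :=
  ∀ (d : ℕ) (Ω : Set (E d)), Dom Ω → ∀ (r n k : ℕ) (A : Fin r → Set (E d)) (lam C1 C2 M : ℝ),
    (∀ i, IsOpen (A i)) → (∀ i, A i ⊆ Ω) → Pairwise (Function.onFun Disjoint A) → 0 < lam →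
    0 ≤ C1 → 0 ≤ C2 → (∀ i, ¬ Adm n (A i) lam) →
    (∀ u : E d → ℝ, ContDiff ℝ 1 u → Sq Ω u ≤ C1 * ∑ i, Sq (A i) u + C2 * En Ω u) →
    r * n ≤ k → Adm k Ω M → 1 ≤ M * (C1 / lam + C2)

/-- Scaling, monotonicity and existence of admissible levels. -/
def StAdm : Prop :=
  ∀ (d : ℕ) (Ω : Set (E d)) (k : ℕ),
    (∀ (M r : ℝ) (c : E d), 0 < r → Adm k Ω M → Adm k ((fun x => r • x + c) '' Ω) (M / r ^ 2)) ∧
    (∀ (M : ℝ) (j : ℕ), j ≤ k → Adm k Ω M → Adm j Ω M) ∧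
    (∀ M M' : ℝ, M ≤ M' → Adm k Ω M → Adm k Ω M') ∧
    (1 ≤ d → Dom Ω → ∃ M, Adm k Ω M) ∧
    (Dom Ω → ∀ M : ℝ, Adm k Ω M → ∃ u : Fin (k + 1) → E d → ℝ, (∀ i, ContDiff ℝ 1 (u i)) ∧
      (∀ i j, ∫ x in Ω, u i x * u j x = if i = j then 1 else 0) ∧
      ∀ c : Fin (k + 1) → ℝ, En Ω (fun x => ∑ i, c i * u i x) ≤ M * ∑ i, c i ^ 2)

/-- Level form of the lower bound. -/
def StLow : Prop :=
  ∃ C : ℝ, 0 < C ∧ ∀ (d k : ℕ), 1 ≤ d → 1 ≤ k → ∀ Ω₁ Ω₂ : Set (E d), Dom Ω₁ → Dom Ω₂ → Ω₁ ⊆ Ω₂ →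
    ∀ lam : ℝ, 0 < lam → Adm k Ω₁ lam →
      Adm k Ω₂ (C * (d : ℝ) ^ 2 / Real.log (1 + (min k d : ℕ)) ^ 2 * lam)

/-- The cone over a cube times an interval. -/
def StU2 : Prop :=
  ∃ C : ℝ, 0 < C ∧ ∀ (d k μ ns : ℕ), 100 * (2 * μ + 1) ≤ d → 1 ≤ ns → ns * 2 ^ μ ≤ k →
    k < 2 ^ (2 * μ + 1) * (ns / d + 1) → alpha k d ≤ C * (2 * μ + 1 : ℝ) ^ 2 / (d : ℝ) ^ 2

/-- The order of magnitude. -/
def StOrd : Prop :=
  ∃ c C : ℝ, 0 < c ∧ ∀ d k : ℕ, 2 ≤ d → 1 ≤ k →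
    c * Real.log (1 + (min k d : ℕ)) ^ 2 / (d : ℝ) ^ 2 ≤ alpha k d ∧
      alpha k d ≤ C * Real.log (1 + (min k d : ℕ)) ^ 2 / (d : ℝ) ^ 2

/-- Uniform integrability of functions with bounded energy. -/
def StUI : Prop :=
  ∀ (d : ℕ), 1 ≤ d → ∀ Ω : Set (E d), Dom Ω → ∀ D h : ℝ, 0 < h →
    (∀ x ∈ Ω, ∀ y ∈ Ω, dist x y ≤ D) → ∀ S : Set (E d), MeasurableSet S →
    ∀ u : E d → ℝ, ContDiff ℝ 1 u →
      Sq (Ω ∩ S) u ≤ 32 * h * En Ω u +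
        2 * exp (D ^ 2 / h) * (volume.real (Ω ∩ S) / volume.real Ω) * Sq Ω u

/-- Small covariance forces a large spectral gap. -/
def StCov : Prop :=
  ∀ (d : ℕ), 1 ≤ d → ∀ Ω : Set (E d), Dom Ω → Ω ⊆ Metric.ball 0 1 → ∀ h δ : ℝ, 0 < h → 0 ≤ δ →
    (∀ e : E d, ‖e‖ ≤ 1 → ∫ x in Ω, (inner ℝ e x : ℝ) ^ 2 ≤ δ ^ 2 * volume.real Ω) →
    ∀ u : E d → ℝ, ContDiff ℝ 1 u → ∫ x in Ω, u x = 0 →
      Sq Ω u ≤ 16 * h * En Ω u + √(δ / h) * exp (2 / h) * Sq Ω u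

/-- Dimension-free stability of the Payne-Weinberger inequality for the second eigenvalue. -/
def StS : Prop :=
  ∃ ε : ℝ, 0 < ε ∧ ∀ (d : ℕ), 1 ≤ d → ∀ Ω : Set (E d), Dom Ω → Ω ⊆ Metric.ball 0 1 →
    ∀ M : ℝ, Adm 2 Ω M → (1 + ε) * π ^ 2 / 4 ≤ M

/-- The thin double cone. -/
def StU1 : Prop := ∀ d : ℕ, 2 ≤ d → alpha 1 d ≤ π ^ 2 / (d : ℝ) ^ 2

/-- In high dimension the first ratio is the strict minimum. -/
def StFirst : Prop := ∃ d0 : ℕ, ∀ d k : ℕ, d0 ≤ d → 2 ≤ k → alpha 1 d < alpha k d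

end Pool.Agent.P.MP_5c8462_an.Ord
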