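import Pool.Agent.P.MP_5c8462_an.Ord.Defs

/-! In high dimension the first ratio is the strict minimum (assembly). -/

set_option autoImplicit false

namespace Pool.Agent.P.MP_5c8462_an.Ord

open MeasureTheory Real Set

namespace First

theorem dom_image {d : ℕ} {Ω : Set (E d)} (h : Dom Ω) {r : ℝ} (hr : 0 < r) (c : E d) :
    Dom ((fun x => r • x + c) '' Ω) := by
  obtain ⟨h1, h2, h3, h4⟩ := h
  refine ⟨h1.image _, ((isOpenMap_add_right c).comp (isOpenMap_smul₀ hr.ne')) Ω h2, ?_, ?_⟩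
  · simpa only [add_comm] using h3.affinity c r
  · exact (h4.isCompact_closure.image (by fun_prop)).isBounded.subset (image_mono subset_closure)

/-- The stability inequality in a ball of any radius. -/
theorem far (hA : StAdm) {ε : ℝ} {d : ℕ}
    (hS : ∀ Ω : Set (E d), Dom Ω → Ω ⊆ Metric.ball 0 1 → ∀ M : ℝ, Adm 2 Ω M →
      (1 + ε) * π ^ 2 / 4 ≤ M)
    {Ω : Set (E d)} (h : Dom Ω) {c : E d} {R M : ℝ} (hR : 0 < R) (hs : Ω ⊆ Metric.ball c R)
    (hM : Adm 2 Ω M) : (1 + ε) * π ^ 2 / 4 ≤ M * R ^ 2 := by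
  have h1 := hS _ (dom_image h (inv_pos.2 hR) (-(R⁻¹ • c))) ?_ _
    ((hA d Ω 2).1 M R⁻¹ (-(R⁻¹ • c)) (inv_pos.2 hR) hM)
  · rwa [inv_pow, div_inv_eq_mul] at h1
  · rintro _ ⟨x, hx, rfl⟩
    have h2 := mem_ball_iff_norm.1 (hs hx)
    beta_reduce
    rw [mem_ball_zero_iff, ← sub_eq_add_neg, ← smul_sub, norm_smul, Real.norm_eq_abs,
      abs_of_pos (inv_pos.2 hR), inv_mul_lt_iff₀ hR, mul_one]
    exact h2

/-- A ball away from the barycentre misses a fixed proportion of the volume. -/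
theorem growth {d : ℕ} {Ω : Set (E d)} (h : Dom Ω) {x1 : E d} (hx : x1 ∈ Ω) :
    ∃ c : E d, ∀ p : E d, dist p x1 ≤ 4 → ∀ b δ : ℝ, 0 < δ → 0 < b → b ≤ 6 → b + δ ≤ dist p c →
      (1 + δ / 14) * Vb Ω p b ≤ Vb Ω p 14 := by
  set K := Ω ∩ Metric.ball x1 10 with hK
  have hKo : IsOpen K := h.2.1.inter Metric.isOpen_ball
  have hKb : Bornology.IsBounded K := h.2.2.2.subset inter_subset_left
  have hKf : volume K ≠ ⊤ := hKb.measure_lt_top.ne
  have hV : 0 < volume.real K := ENNReal.toReal_pos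
    (hKo.measure_pos volume ⟨x1, hx, Metric.mem_ball_self (by norm_num)⟩).ne' hKf
  have hint : ∀ {F : Type} [NormedAddCommGroup F] (f : E d → F), Continuous f →
      IntegrableOn f K := fun f hf =>
    (hf.continuousOn.integrableOn_compact hKb.isCompact_closure).mono_set subset_closure
  refine ⟨(volume.real K)⁻¹ • ∫ x in K, x, fun p hp b δ hδ hb hb6 hc => ?_⟩
  set c : E d := (volume.real K)⁻¹ • ∫ x in K, x with hcd
  rw [dist_eq_norm] at hc
  set s := ‖p - c‖ with hs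
  have hs0 : 0 < s := by linarith
  have h0 : ∫ x in K, (inner ℝ (p - c) (x - c) : ℝ) = 0 := by
    rw [integral_inner (hint (fun x => x - c) (by fun_prop)),
      integral_sub (hint (fun x => x) (by fun_prop)) (hint (fun _ => c) (by fun_prop)),
      setIntegral_const, hcd, smul_smul, mul_inv_cancel₀ hV.ne', one_smul, sub_self,
      inner_zero_right]
  have hφ : ∀ x : E d, (s - dist x p) * s ≤ (inner ℝ (p - c) (x - c) : ℝ) := fun x => by
    have e : x - c = (x - p) + (p - c) := by abel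
    have h1 := (abs_le.1 (abs_real_inner_le_norm (p - c) (x - p))).1
    rw [e, inner_add_right, real_inner_self_eq_norm_sq, dist_eq_norm, ← hs]
    rw [← hs] at h1
    nlinarith
  have hi := hint (fun x => (inner ℝ (p - c) (x - c) : ℝ)) (by fun_prop)
  have hB : MeasurableSet (Metric.ball p b) := Metric.isOpen_ball.measurableSet
  have hK14 : K ⊆ Ω ∩ Metric.ball p 14 := fun x hx => ⟨hx.1, by
    have h1 : dist x x1 < 10 := hx.2
    have h2 := dist_triangle_right x p x1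
    exact Metric.mem_ball.2 (by linarith)⟩
  have h1 := setIntegral_ge_of_const_le_real (μ := volume) (c := δ * s)
    (hKo.measurableSet.inter hB) ((measure_mono inter_subset_left).trans_lt hKf.lt_top).ne
    (fun x hx => le_trans (by
      have : dist x p < b := hx.2
      exact mul_le_mul_of_nonneg_right (by linarith) hs0.le) (hφ x)) (hi.mono_set inter_subset_left)
  have h2 := setIntegral_ge_of_const_le_real (μ := volume) (c := -14 * s)
    (hKo.measurableSet.diff hB) ((measure_mono sdiff_subset).trans_lt hKf.lt_top).ne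
    (fun x hx => le_trans (by
      have : dist x p < 14 := (hK14 hx.1).2
      exact mul_le_mul_of_nonneg_right (by linarith) hs0.le) (hφ x)) (hi.mono_set sdiff_subset)
  have h3 := integral_inter_add_sdiff hB hi
  have h4 := measureReal_inter_add_sdiff (μ := volume) (s := K) hB hKf
  have e : K ∩ Metric.ball p b = Ω ∩ Metric.ball p b := by
    refine Subset.antisymm (inter_subset_inter_left _ inter_subset_left) fun x hx =>
      ⟨⟨hx.1, ?_⟩, hx.2⟩
    have h5 : dist x p < b := hx.2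
    have h6 := dist_triangle x p x1
    exact Metric.mem_ball.2 (by linarith)
  have h5 : volume.real K ≤ Vb Ω p 14 :=
    measureReal_mono hK14 (h.2.2.2.subset inter_subset_left).measure_lt_top.ne
  have h6 : (δ * volume.real (K ∩ Metric.ball p b) -
      14 * volume.real (K \ Metric.ball p b)) * s ≤ 0 * s := by linarith
  have h7 := le_of_mul_le_mul_right h6 hs0
  rw [Vb, ← e]
  linarith

/-- The normalised comparison. -/
theorem norm_level (hRs : StRs) (hA : StAdm) (hDS : StDS) {ε : ℝ} (h0 : 0 < ε) (h1 : ε ≤ 1)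
    (hS : ∀ d : ℕ, 1 ≤ d → ∀ Ω : Set (E d), Dom Ω → Ω ⊆ Metric.ball 0 1 → ∀ M : ℝ, Adm 2 Ω M →
      (1 + ε) * π ^ 2 / 4 ≤ M) (n : ℕ) :
    ∃ d0 : ℕ, ∀ d : ℕ, d0 ≤ d → ∀ Ω₁ Ω₂ : Set (E d), Dom Ω₁ → Dom Ω₂ → Ω₁ ⊆ Ω₂ →
      Adm 2 Ω₁ ((1 + ε / 2) * π ^ 2 / 4) → Adm n Ω₂ ((1 + ε / 4) * (d : ℝ) ^ 2 / 4) := by
  obtain ⟨d0, hd0⟩ := hRs (ε / 4) (1 + ε / 40) 14 (1 + ε / 40 / 14) (n + 1) (by linarith)
    (by linarith) (by linarith) (by linarith)
  refine ⟨max d0 1, fun d hd Ω₁ Ω₂ h₁ h₂ hsub hM => ?_⟩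
  obtain ⟨x1, hx1⟩ := h₁.1
  obtain ⟨c, hc⟩ := growth h₂ (hsub hx1)
  obtain ⟨q, hq, hqc⟩ : ∃ q ∈ Ω₁, 1 + ε / 20 ≤ dist q c := by
    by_contra hcon
    push Not at hcon
    have h3 := far hA (hS d (le_of_max_le_right hd)) h₁ (R := 1 + ε / 20) (by linarith)
      (fun x hx => hcon x hx) hM
    have hpi : 0 < π ^ 2 := by positivity
    have h4 : (1 + ε / 2) * (1 + ε / 20) ^ 2 < 1 + ε := by
      nlinarith [mul_pos h0 h0, mul_le_mul_of_nonneg_left h1 h0.le,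
        mul_le_mul_of_nonneg_left h1 (mul_pos h0 h0).le]
    nlinarith [mul_lt_mul_of_pos_right h4 hpi]
  obtain ⟨p, hp, hp1, hp2⟩ : ∃ p ∈ Ω₁, dist p x1 ≤ 4 ∧ 1 + ε / 20 ≤ dist p c := by
    rcases le_total (1 + ε / 20) (dist x1 c) with h3 | h3
    · exact ⟨x1, hx1, by simp, h3⟩
    · obtain ⟨p, hp, e⟩ := h₁.2.2.1.isPreconnected.intermediate_value hx1 hq
        (f := fun x => dist x c) (by fun_prop) ⟨h3, hqc⟩
      have h4 := dist_triangle_right p x1 c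
      have e' : dist p c = 1 + ε / 20 := e
      exact ⟨p, hp, by linarith, e'.ge⟩
  obtain ⟨U, g, -, hU, hg⟩ := hd0 d (le_of_max_le_left hd) Ω₂ h₂ p (hsub hp)
    (hc p hp1 _ (ε / 40) (by linarith) (by linarith) (by linarith) (by linarith))
  exact hDS d Ω₂ h₂ (Fin (n + 1)) U g _ n (by simp) hU hg

end First

open First in
theorem pFirst (hO : StOrd) (hS : StS) (hRs : StRs) (hA : StAdm) (hDS : StDS) (hU : StU1) :
    StFirst := by
  obtain ⟨c, C, hc, hO⟩ := hO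
  obtain ⟨ε0, hε0, hS0⟩ := hS
  have hpi : 0 < π ^ 2 := by positivity
  obtain ⟨ε, h0, h1, hS⟩ : ∃ ε : ℝ, 0 < ε ∧ ε ≤ 1 ∧ ∀ d : ℕ, 1 ≤ d → ∀ Ω : Set (E d), Dom Ω →
      Ω ⊆ Metric.ball 0 1 → ∀ M : ℝ, Adm 2 Ω M → (1 + ε) * π ^ 2 / 4 ≤ M :=
    ⟨min ε0 1, lt_min hε0 one_pos, min_le_right _ _, fun d hd Ω h hs M hM =>
      le_trans (by nlinarith [min_le_left ε0 1]) (hS0 d hd Ω h hs M hM)⟩
  obtain ⟨k0, hk0⟩ := exists_nat_ge (exp (π ^ 2 / c + 1))
  obtain ⟨d0, hd0⟩ := norm_level hRs hA hDS h0 h1 hS k0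
  refine ⟨max (max d0 k0) 2, fun d k hd hk => ?_⟩
  have hd2 : 2 ≤ d := le_of_max_le_right hd
  have hdk : k0 ≤ d := le_of_max_le_right (le_of_max_le_left hd)
  have hdd : d0 ≤ d := le_of_max_le_left (le_of_max_le_left hd)
  have hd' : (0 : ℝ) < (d : ℝ) ^ 2 := by
    have : (0 : ℝ) < d := Nat.cast_pos.2 (by omega)
    positivity
  refine (hU d hd2).trans_lt ?_
  rcases le_total k0 k with hkk | hkk
  · refine lt_of_lt_of_le ?_ (hO d k hd2 (by omega)).1
    refine div_lt_div_of_pos_right ?_ hd'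
    have h2 : (k0 : ℝ) ≤ (min k d : ℕ) := Nat.cast_le.2 (le_min hkk hdk)
    have h3 : π ^ 2 / c + 1 ≤ Real.log (1 + (min k d : ℕ)) :=
      (Real.le_log_iff_exp_le (by positivity)).2 (by linarith)
    have h4 : 0 < π ^ 2 / c := div_pos hpi hc
    rw [← div_lt_iff₀' hc]
    nlinarith
  · have hκ : π ^ 2 / (d : ℝ) ^ 2 < (1 + ε / 2) / (1 + ε / 4) * π ^ 2 / (d : ℝ) ^ 2 := by
      refine div_lt_div_of_pos_right ?_ hd'
      have : 1 < (1 + ε / 2) / (1 + ε / 4) := (one_lt_div (by linarith)).2 (by linarith)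
      nlinarith
    refine hκ.trans_le (le_csInf ⟨_, Metric.ball 0 1, Metric.ball 0 1,
      ⟨⟨0, by simp⟩, Metric.isOpen_ball, convex_ball _ _, Metric.isBounded_ball⟩,
      ⟨⟨0, by simp⟩, Metric.isOpen_ball, convex_ball _ _, Metric.isBounded_ball⟩,
      Subset.rfl, rfl⟩ ?_)
    rintro _ ⟨Ω₁, Ω₂, h₁, h₂, hsub, rfl⟩
    have hlow : ∀ Ω : Set (E d), Dom Ω → ∃ m : ℝ, 0 < m ∧ ∀ M, Adm k Ω M → m ≤ M := by
      intro Ω h
      obtain ⟨R, hR, hs⟩ := h.2.2.2.subset_ball_lt 0 (0 : E d)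
      refine ⟨(1 + ε) * π ^ 2 / 4 / R ^ 2, by positivity, fun M hM => ?_⟩
      rw [div_le_iff₀ (by positivity)]
      exact far hA (hS d (by omega)) h hR hs ((hA d Ω k).2.1 M 2 hk hM)
    obtain ⟨m₁, hm₁, hl₁⟩ := hlow Ω₁ h₁
    obtain ⟨m₂, hm₂, hl₂⟩ := hlow Ω₂ h₂
    have hμ : 0 < mu k Ω₂ := hm₂.trans_le (le_csInf ((hA d Ω₂ k).2.2.2.1 (by omega) h₂) hl₂)
    rw [le_div_iff₀ hμ]
    refine le_csInf ((hA d Ω₁ k).2.2.2.1 (by omega) h₁) fun lam hlam => ?_
    have hl : 0 < lam := hm₁.trans_le (hl₁ lam hlam)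
    set l0 : ℝ := (1 + ε / 2) * π ^ 2 / 4 with hl0
    have hl0' : 0 < l0 := by positivity
    have hr : 0 < √(lam / l0) := Real.sqrt_pos.2 (div_pos hl hl0')
    have hr2 : √(lam / l0) ^ 2 = lam / l0 := Real.sq_sqrt (div_pos hl hl0').le
    have a1 := (hA d Ω₁ k).1 lam _ 0 hr hlam
    rw [hr2, div_div_cancel₀ hl.ne'] at a1
    have a2 := hd0 d hdd _ _ (dom_image h₁ hr 0) (dom_image h₂ hr 0) (image_mono hsub)
      ((hA d _ k).2.1 _ 2 hk a1)
    have a3 := (hA d _ k).1 _ _ 0 (inv_pos.2 hr) ((hA d _ k0).2.1 _ k hkk a2)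
    have e : (fun x => (√(lam / l0))⁻¹ • x + 0) '' ((fun x => √(lam / l0) • x + 0) '' Ω₂) = Ω₂ := by
      rw [image_image]
      simp [smul_smul, inv_mul_cancel₀ hr.ne']
    rw [e, inv_pow, hr2] at a3
    have a4 : mu k Ω₂ ≤ _ := csInf_le ⟨m₂, hl₂⟩ a3
    refine (mul_le_mul_of_nonneg_left a4 (by positivity)).trans (le_of_eq ?_)
    rw [hl0]
    field_simp

end Pool.Agent.P.MP_5c8462_an.Ord
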