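import Pool.Agent.P.MP_5c8462_an.Ord.Defs

set_option autoImplicit false

namespace Pool.Agent.P.MP_5c8462_an.Ord.K

open MeasureTheory Real Set

variable {d : ℕ} {h : ℝ} {Ω : Set (E d)}

theorem gk_pos (h : ℝ) (v : E d) : 0 < gk h v := exp_pos _

theorem gk_cont (h : ℝ) : Continuous (gk (d := d) h) := by
  unfold gk
  fun_prop

theorem gk_le_one (hh : 0 < h) (v : E d) : gk h v ≤ 1 := by
  unfold gk
  rw [exp_le_one_iff]
  exact div_nonpos_of_nonpos_of_nonneg (by nlinarith [sq_nonneg ‖v‖]) (by positivity)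

theorem gk_int (hh : 0 < h) : Integrable (gk (d := d) h) := by
  have hb : 0 < ((1 / (2 * h) : ℝ) : ℂ).re := by
    rw [Complex.ofReal_re]
    positivity
  have h1 := (GaussianFourier.integrable_cexp_neg_mul_sq_norm_add (V := E d) hb 0 0).norm
  refine h1.congr (Filter.Eventually.of_forall fun v => ?_)
  simp only [zero_mul, add_zero, Complex.norm_exp, gk]
  congr 1
  have : (-((1 / (2 * h) : ℝ) : ℂ) * (‖v‖ : ℂ) ^ 2) = ((-‖v‖ ^ 2 / (2 * h) : ℝ) : ℂ) := by
    push_cast
    ring
  rw [this, Complex.ofReal_re]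

theorem gz_pos (hh : 0 < h) : 0 < gz d h := by
  unfold gz
  rw [integral_pos_iff_support_of_nonneg (fun v => (gk_pos h v).le) (gk_int hh)]
  have : Function.support (gk (d := d) h) = univ :=
    eq_univ_of_forall fun v => (gk_pos h v).ne'
  rw [this]
  exact isOpen_univ.measure_pos _ univ_nonempty

theorem gk_int_sub (hh : 0 < h) (x : E d) : Integrable fun y => gk h (y - x) :=
  (gk_int hh).comp_sub_right x

theorem gk_integral_sub (h : ℝ) (x : E d) : ∫ y, gk h (y - x) = gz d h :=
  integral_sub_right_eq_self (gk h) x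

theorem intOn (hΩ : Dom Ω) {f : E d → ℝ} (hf : Continuous f) : IntegrableOn f Ω :=
  (hf.continuousOn.integrableOn_compact hΩ.2.2.2.isCompact_closure).mono_set subset_closure

theorem vol_pos (hΩ : Dom Ω) : 0 < volume.real Ω :=
  ENNReal.toReal_pos (hΩ.2.1.measure_pos _ hΩ.1).ne' hΩ.2.2.2.measure_lt_top.ne

theorem bdd (hΩ : Dom Ω) {f : E d → ℝ} (hf : Continuous f) : ∃ B, ∀ x ∈ Ω, |f x| ≤ B := by
  obtain ⟨B, hB⟩ := hΩ.2.2.2.isCompact_closure.exists_bound_of_continuousOn hf.continuousOn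
  exact ⟨B, fun x hx => hB x (subset_closure hx)⟩

/-- The unnormalised conditional moment. -/
noncomputable def mm (Ω : Set (E d)) (h : ℝ) (f : E d → ℝ) (y : E d) : ℝ :=
  ∫ x in Ω, f x * gk h (y - x)

theorem cont_fk (h : ℝ) {f : E d → ℝ} (hf : Continuous f) (y : E d) :
    Continuous fun x => f x * gk h (y - x) :=
  hf.mul ((gk_cont h).comp (continuous_const.sub continuous_id))

theorem mm_cont (hΩ : Dom Ω) (hh : 0 < h) {f : E d → ℝ} (hf : Continuous f) :
    Continuous (mm Ω h f) := by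
  unfold mm
  refine continuous_of_dominated (bound := fun x => |f x|)
    (fun y => (cont_fk h hf y).aestronglyMeasurable)
    (fun y => Filter.Eventually.of_forall fun x => ?_) (intOn hΩ hf.abs)
    (Filter.Eventually.of_forall fun x => ?_)
  · rw [Real.norm_eq_abs, abs_mul, abs_of_pos (gk_pos _ _)]
    exact mul_le_of_le_one_right (abs_nonneg _) (gk_le_one hh _)
  · exact continuous_const.mul ((gk_cont h).comp (continuous_id.sub continuous_const))

theorem rho_eq (Ω : Set (E d)) (h : ℝ) : rho Ω h = mm Ω h fun _ => 1 := by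
  funext y
  simp [rho, mm]

theorem rho_cont (hΩ : Dom Ω) (hh : 0 < h) : Continuous (rho Ω h) := by
  rw [rho_eq]
  exact mm_cont hΩ hh continuous_const

theorem rho_pos (hΩ : Dom Ω) (h : ℝ) (y : E d) : 0 < rho Ω h y := by
  unfold rho
  have hc : Continuous fun x => gk h (y - x) := (gk_cont h).comp (continuous_const.sub continuous_id)
  rw [setIntegral_pos_iff_support_of_nonneg_ae
    (Filter.Eventually.of_forall fun x => (gk_pos h _).le) (intOn hΩ hc)]
  have : (Function.support fun x => gk h (y - x)) = univ :=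
    eq_univ_of_forall fun v => (gk_pos h _).ne'
  rw [this, univ_inter]
  exact hΩ.2.1.measure_pos _ hΩ.1

theorem opT_eq (f : E d → ℝ) (y : E d) : opT Ω h f y = mm Ω h f y / rho Ω h y := rfl

theorem mm_eq (hΩ : Dom Ω) (f : E d → ℝ) (y : E d) : mm Ω h f y = rho Ω h y * opT Ω h f y := by
  rw [opT_eq, mul_div_cancel₀ _ (rho_pos hΩ h y).ne']

theorem opT_cont (hΩ : Dom Ω) (hh : 0 < h) {f : E d → ℝ} (hf : Continuous f) :
    Continuous (opT Ω h f) :=
  (mm_cont hΩ hh hf).div (rho_cont hΩ hh) fun y => (rho_pos hΩ h y).ne'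

theorem mm_mono (hΩ : Dom Ω) {f g : E d → ℝ} (hf : Continuous f) (hg : Continuous g)
    (hfg : ∀ x ∈ Ω, f x ≤ g x) (y : E d) : mm Ω h f y ≤ mm Ω h g y :=
  setIntegral_mono_on (intOn hΩ (cont_fk h hf y)) (intOn hΩ (cont_fk h hg y))
    hΩ.2.1.measurableSet fun x hx => mul_le_mul_of_nonneg_right (hfg x hx) (gk_pos _ _).le

theorem mm_lin (hΩ : Dom Ω) {f g : E d → ℝ} (hf : Continuous f) (hg : Continuous g) (a b : ℝ)
    (y : E d) : mm Ω h (fun x => a * f x + b * g x) y = a * mm Ω h f y + b * mm Ω h g y := by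
  unfold mm
  rw [← integral_const_mul, ← integral_const_mul, ← integral_add
    ((intOn hΩ (cont_fk h hf y)).const_mul a) ((intOn hΩ (cont_fk h hg y)).const_mul b)]
  congr 1
  funext x
  ring

theorem opT_mono (hΩ : Dom Ω) {f g : E d → ℝ} (hf : Continuous f) (hg : Continuous g)
    (hfg : ∀ x ∈ Ω, f x ≤ g x) (y : E d) : opT Ω h f y ≤ opT Ω h g y :=
  div_le_div_of_nonneg_right (mm_mono hΩ hf hg hfg y) (rho_pos hΩ h y).le

theorem opT_lin (hΩ : Dom Ω) {f g : E d → ℝ} (hf : Continuous f) (hg : Continuous g) (a b : ℝ)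
    (y : E d) : opT Ω h (fun x => a * f x + b * g x) y = a * opT Ω h f y + b * opT Ω h g y := by
  rw [opT_eq, mm_lin hΩ hf hg, opT_eq, opT_eq]
  ring

theorem opT_const (hΩ : Dom Ω) (c : ℝ) (y : E d) : opT Ω h (fun _ => c) y = c := by
  have : mm Ω h (fun _ => c) y = c * rho Ω h y := by
    unfold mm rho
    rw [integral_const_mul]
  rw [opT_eq, this, mul_div_cancel_right₀ _ (rho_pos hΩ h y).ne']

theorem opT_aff (hΩ : Dom Ω) {f : E d → ℝ} (hf : Continuous f) (a b : ℝ)
    (y : E d) : opT Ω h (fun x => a * f x + b) y = a * opT Ω h f y + b := by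
  have := opT_lin (h := h) hΩ hf (continuous_const (y := (1 : ℝ))) a b y
  simpa [opT_const hΩ] using this

theorem opT_abs (hΩ : Dom Ω) {f : E d → ℝ} (hf : Continuous f) (y : E d) :
    |opT Ω h f y| ≤ opT Ω h (fun x => |f x|) y := by
  rw [abs_le]
  constructor
  · have h1 := opT_mono (h := h) hΩ (f := fun x => -1 * |f x| + 0) (g := f) (by fun_prop) hf
      (fun x _ => by linarith [neg_abs_le (f x)]) y
    rw [opT_aff hΩ hf.abs] at h1
    linarith
  · exact opT_mono hΩ hf hf.abs (fun x _ => le_abs_self _) y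

theorem opT_bdd (hΩ : Dom Ω) (h : ℝ) {f : E d → ℝ} (hf : Continuous f) :
    ∃ B, ∀ y, |opT Ω h f y| ≤ B := by
  obtain ⟨B, hB⟩ := bdd hΩ hf
  refine ⟨B, fun y => (opT_abs hΩ hf y).trans ?_⟩
  have := opT_mono (h := h) hΩ hf.abs (continuous_const (y := B)) hB y
  rwa [opT_const hΩ] at this

/-- Jensen for the square. -/
theorem opT_sq (hΩ : Dom Ω) {f : E d → ℝ} (hf : Continuous f) (y : E d) :
    opT Ω h f y ^ 2 ≤ opT Ω h (fun x => f x ^ 2) y := by
  set c := opT Ω h f y with hc
  have h1 := opT_mono (h := h) hΩ (f := fun x => (2 * c) * f x + (-c ^ 2)) (g := fun x => f x ^ 2)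
    (by fun_prop) (by fun_prop) (fun x _ => by nlinarith [sq_nonneg (f x - c)]) y
  rw [opT_aff hΩ hf, ← hc] at h1
  nlinarith

/-- Bounded continuous. -/
def BC (g : E d → ℝ) : Prop := Continuous g ∧ ∃ B, ∀ y, |g y| ≤ B

theorem BC.const (c : ℝ) : BC (d := d) fun _ => c := ⟨continuous_const, |c|, fun _ => le_rfl⟩

theorem BC.mul {f g : E d → ℝ} (hf : BC f) (hg : BC g) : BC fun y => f y * g y := by
  obtain ⟨h1, A, hA⟩ := hf
  obtain ⟨h2, B, hB⟩ := hg
  refine ⟨h1.mul h2, A * B, fun y => ?_⟩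
  rw [abs_mul]
  exact mul_le_mul (hA y) (hB y) (abs_nonneg _) ((abs_nonneg _).trans (hA y))

theorem BC.add {f g : E d → ℝ} (hf : BC f) (hg : BC g) : BC fun y => f y + g y := by
  obtain ⟨h1, A, hA⟩ := hf
  obtain ⟨h2, B, hB⟩ := hg
  exact ⟨h1.add h2, A + B, fun y => (abs_add_le _ _).trans (add_le_add (hA y) (hB y))⟩

theorem opT_BC (hΩ : Dom Ω) (hh : 0 < h) {f : E d → ℝ} (hf : Continuous f) : BC (opT Ω h f) :=
  ⟨opT_cont hΩ hh hf, opT_bdd hΩ h hf⟩

theorem BC.int (hh : 0 < h) {g : E d → ℝ} (hg : BC g) (x : E d) :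
    Integrable fun y => g y * gk h (y - x) := by
  obtain ⟨h1, B, hB⟩ := hg
  exact (gk_int_sub hh x).bdd_mul (c := B) h1.aestronglyMeasurable
    (Filter.Eventually.of_forall fun y => hB y)

theorem opS_cont (hh : 0 < h) {g : E d → ℝ} (hg : BC g) : Continuous (opS h g) := by
  obtain ⟨h1, B, hB⟩ := hg
  have e : opS h g = fun x => (∫ v, g (v + x) * gk h v) / gz d h := by
    funext x
    unfold opS
    rw [← integral_add_right_eq_self (fun y => g y * gk h (y - x)) x]
    simp
  rw [e]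
  refine Continuous.div_const ?_ _
  refine continuous_of_dominated (bound := fun v => B * gk h v)
    (fun x => ((h1.comp (continuous_id.add continuous_const)).mul (gk_cont h)).aestronglyMeasurable)
    (fun x => Filter.Eventually.of_forall fun v => ?_) ((gk_int hh).const_mul B)
    (Filter.Eventually.of_forall fun v => ?_)
  · rw [Real.norm_eq_abs, abs_mul, abs_of_pos (gk_pos _ _)]
    exact mul_le_mul_of_nonneg_right (hB _) (gk_pos _ _).le
  · exact (h1.comp (continuous_const.add continuous_id)).mul continuous_const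

theorem opS_lin (hh : 0 < h) {f g : E d → ℝ} (hf : BC f) (hg : BC g) (a b : ℝ) (x : E d) :
    opS h (fun y => a * f y + b * g y) x = a * opS h f x + b * opS h g x := by
  unfold opS
  have : ∫ y, (a * f y + b * g y) * gk h (y - x) =
      a * (∫ y, f y * gk h (y - x)) + b * ∫ y, g y * gk h (y - x) := by
    rw [← integral_const_mul, ← integral_const_mul, ← integral_add
      ((hf.int hh x).const_mul a) ((hg.int hh x).const_mul b)]
    congr 1
    funext y
    ring
  rw [this]
  ring

theorem opS_const (hh : 0 < h) (c : ℝ) (x : E d) : opS h (fun _ => c) x = c := by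
  unfold opS
  rw [integral_const_mul, gk_integral_sub, mul_div_cancel_right₀ _ (gz_pos hh).ne']

theorem opS_mono (hh : 0 < h) {f g : E d → ℝ} (hf : BC f) (hg : BC g) (hfg : ∀ y, f y ≤ g y)
    (x : E d) : opS h f x ≤ opS h g x :=
  div_le_div_of_nonneg_right (integral_mono (hf.int hh x) (hg.int hh x) fun y =>
    mul_le_mul_of_nonneg_right (hfg y) (gk_pos _ _).le) (gz_pos hh).le

theorem opS_sq (hh : 0 < h) {g : E d → ℝ} (hg : BC g) (x : E d) :
    opS h g x ^ 2 ≤ opS h (fun y => g y * g y) x := by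
  set c := opS h g x with hc
  have h1 := opS_mono hh (f := fun y => (2 * c) * g y + (-c ^ 2) * (fun _ => (1 : ℝ)) y)
    (g := fun y => g y * g y) (((BC.const _).mul hg).add ((BC.const _).mul (BC.const _)))
    (hg.mul hg) (fun y => by nlinarith [sq_nonneg (g y - c)]) x
  rw [opS_lin hh hg (BC.const 1), opS_const hh, ← hc] at h1
  nlinarith

theorem opK_cont (hΩ : Dom Ω) (hh : 0 < h) {f : E d → ℝ} (hf : Continuous f) :
    Continuous (opK Ω h f) := opS_cont hh (opT_BC hΩ hh hf)

theorem opK_lin (hΩ : Dom Ω) (hh : 0 < h) {f g : E d → ℝ} (hf : Continuous f) (hg : Continuous g)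
    (a b : ℝ) : opK Ω h (fun x => a * f x + b * g x) = fun x => a * opK Ω h f x + b * opK Ω h g x := by
  funext x
  unfold opK
  rw [← opS_lin hh (opT_BC hΩ hh hf) (opT_BC hΩ hh hg)]
  congr 1
  funext y
  exact opT_lin hΩ hf hg a b y

/-- Integrability on the product. -/
theorem intP (hΩ : Dom Ω) (hh : 0 < h) {F : E d → E d → ℝ} (hF : Continuous (Function.uncurry F))
    (s : E d → E d) (hs : Continuous s) (B : ℝ) (hB : ∀ x ∈ Ω, ∀ y, |F x y| ≤ B * gk h (y - s x)) :
    Integrable (Function.uncurry F) ((volume.restrict Ω).prod volume) := by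
  have hc : Continuous fun z : E d × E d => B * gk h (z.2 - s z.1) :=
    continuous_const.mul ((gk_cont h).comp (continuous_snd.sub (hs.comp continuous_fst)))
  have : IsFiniteMeasure (volume.restrict Ω) :=
    isFiniteMeasure_restrict.2 hΩ.2.2.2.measure_lt_top.ne
  have h1 : Integrable (fun z : E d × E d => B * gk h (z.2 - s z.1))
      ((volume.restrict Ω).prod volume) := by
    rw [integrable_prod_iff hc.aestronglyMeasurable]
    refine ⟨Filter.Eventually.of_forall fun x => (gk_int_sub hh (s x)).const_mul B, ?_⟩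
    have : (fun x : E d => ∫ y : E d, ‖B * gk h (y - s x)‖) = fun _ => |B| * gz d h := by
      funext x
      simp only [Real.norm_eq_abs, abs_mul, abs_of_pos (gk_pos h _)]
      rw [integral_const_mul, gk_integral_sub]
    rw [this]
    exact integrable_const _
  refine h1.mono' hF.aestronglyMeasurable ?_
  have h2 : ∀ᵐ z : E d × E d ∂((volume.restrict Ω).prod volume), z.1 ∈ Ω :=
    Measure.quasiMeasurePreserving_fst.ae (ae_restrict_mem hΩ.2.1.measurableSet)
  filter_upwards [h2] with z hz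
  exact hB z.1 hz z.2

theorem intP2 (hΩ : Dom Ω) (hh : 0 < h) {f g : E d → ℝ} (hf : Continuous f) (hg : BC g) :
    Integrable (Function.uncurry fun x y => f x * (g y * gk h (y - x)))
      ((volume.restrict Ω).prod volume) := by
  obtain ⟨A, hA⟩ := bdd hΩ hf
  obtain ⟨h1, B, hB⟩ := hg
  refine intP hΩ hh ?_ id continuous_id (A * B) fun x hx y => ?_
  · exact (hf.comp continuous_fst).mul ((h1.comp continuous_snd).mul
      ((gk_cont h).comp (continuous_snd.sub continuous_fst)))
  · rw [abs_mul, abs_mul, abs_of_pos (gk_pos h _), mul_assoc]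
    exact mul_le_mul (hA x hx) (mul_le_mul_of_nonneg_right (hB y) (gk_pos _ _).le)
      (mul_nonneg (abs_nonneg _) (gk_pos _ _).le) ((abs_nonneg _).trans (hA x hx))

theorem mm_int (hΩ : Dom Ω) (hh : 0 < h) {f g : E d → ℝ} (hf : Continuous f) (hg : BC g) :
    Integrable fun y => mm Ω h f y * g y := by
  refine (intP2 hΩ hh hf hg).integral_prod_right.congr (Filter.Eventually.of_forall fun y => ?_)
  simp only [Function.uncurry_apply_pair, mm]
  rw [← integral_mul_const]
  congr 1
  funext x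
  ring

/-- The adjoint relation between the two half steps. -/
theorem adj (hΩ : Dom Ω) (hh : 0 < h) {f g : E d → ℝ} (hf : Continuous f) (hg : BC g) :
    ∫ x in Ω, f x * opS h g x = (∫ y, mm Ω h f y * g y) / gz d h := by
  have h1 : ∀ x, f x * opS h g x = (∫ y, f x * (g y * gk h (y - x))) / gz d h := by
    intro x
    unfold opS
    rw [integral_const_mul]
    ring
  simp only [h1]
  rw [integral_div, integral_integral_swap (intP2 hΩ hh hf hg)]
  congr 2
  funext y
  unfold mm
  rw [← integral_mul_const]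
  congr 1
  funext x
  ring

theorem mm_mass (hΩ : Dom Ω) (hh : 0 < h) {f : E d → ℝ} (hf : Continuous f) :
    ∫ y, mm Ω h f y = gz d h * ∫ x in Ω, f x := by
  have h1 := adj hΩ hh hf (BC.const 1)
  simp only [opS_const hh, mul_one] at h1
  rw [h1, mul_div_cancel₀ _ (gz_pos hh).ne']

theorem K_form (hΩ : Dom Ω) (hh : 0 < h) {f g : E d → ℝ} (hf : Continuous f) (hg : Continuous g) :
    ∫ x in Ω, f x * opK Ω h g x = (∫ y, mm Ω h f y * opT Ω h g y) / gz d h :=
  adj hΩ hh hf (opT_BC hΩ hh hg)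

theorem K_symm (hΩ : Dom Ω) (hh : 0 < h) {f g : E d → ℝ} (hf : Continuous f) (hg : Continuous g) :
    ∫ x in Ω, f x * opK Ω h g x = ∫ x in Ω, g x * opK Ω h f x := by
  rw [K_form hΩ hh hf hg, K_form hΩ hh hg hf]
  congr 2
  funext y
  rw [mm_eq hΩ, mm_eq hΩ]
  ring

theorem K_mass (hΩ : Dom Ω) (hh : 0 < h) {f : E d → ℝ} (hf : Continuous f) :
    ∫ x in Ω, opK Ω h f x = ∫ x in Ω, f x := by
  have h1 := K_symm hΩ hh (continuous_const (y := (1 : ℝ))) hf
  have h2 : ∀ x, opK Ω h (fun _ => 1) x = 1 := by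
    intro x
    have : opT Ω h (fun _ => (1 : ℝ)) = fun _ => 1 := funext fun y => opT_const hΩ 1 y
    unfold opK
    rw [this, opS_const hh]
  simpa [h2] using h1

/-- The square norm of one step is at most the quadratic form. -/
theorem K_sq_le (hΩ : Dom Ω) (hh : 0 < h) {f : E d → ℝ} (hf : Continuous f) :
    ∫ x in Ω, opK Ω h f x ^ 2 ≤ ∫ x in Ω, f x * opK Ω h f x := by
  have hT := opT_BC hΩ hh hf
  have h1 := adj hΩ hh (continuous_const (y := (1 : ℝ))) (hT.mul hT)
  have h2 : ∫ x in Ω, opK Ω h f x ^ 2 ≤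
      ∫ x in Ω, 1 * opS h (fun y => opT Ω h f y * opT Ω h f y) x := by
    refine setIntegral_mono_on (intOn hΩ ((opK_cont hΩ hh hf).pow 2))
      (intOn hΩ (continuous_const.mul (opS_cont hh (hT.mul hT)))) hΩ.2.1.measurableSet
      fun x _ => ?_
    rw [one_mul]
    exact opS_sq hh hT x
  refine h2.trans (le_of_eq ?_)
  rw [h1, K_form hΩ hh hf hf, ← rho_eq]
  congr 2
  funext y
  rw [mm_eq hΩ]
  ring

/-- One step loses at most the energy. -/
theorem K_energy (hGP : StGP) (hd : 1 ≤ d) (hΩ : Dom Ω) (hh : 0 < h) {u : E d → ℝ}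
    (hu : ContDiff ℝ 1 u) : Sq Ω u - 16 * h * En Ω u ≤ ∫ x in Ω, u x * opK Ω h u x := by
  have uc : Continuous u := hu.continuous
  have gc : Continuous fun x => ‖fderiv ℝ u x‖ ^ 2 :=
    (hu.continuous_fderiv (by norm_num)).norm.pow 2
  have u2 : Continuous fun x => u x ^ 2 := uc.pow 2
  have key : ∀ y, mm Ω h (fun x => u x ^ 2) y - mm Ω h u y * opT Ω h u y ≤
      16 * h * mm Ω h (fun x => ‖fderiv ℝ u x‖ ^ 2) y := by
    intro y
    set c := opT Ω h u y with hc
    have e1 : mm Ω h u y = rho Ω h y * c := mm_eq hΩ u y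
    have h0 : ∫ x in Ω, (u x - c) * gk h (y - x) = 0 := by
      have := mm_lin (h := h) hΩ uc (continuous_const (y := (1 : ℝ))) 1 (-c) y
      rw [← rho_eq, e1] at this
      have e : (fun x => 1 * u x + -c * 1) = fun x => u x - c := by
        funext x
        ring
      rw [e] at this
      unfold mm at this
      rw [this]
      ring
    have h1 := hGP d hd Ω hΩ h hh y (fun x => u x - c) (hu.sub contDiff_const) h0
    simp only [fderiv_sub_const] at h1
    have h2 : mm Ω h (fun x => (u x - c) ^ 2) y =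
        mm Ω h (fun x => u x ^ 2) y - mm Ω h u y * c := by
      have a1 := mm_lin (h := h) hΩ uc (continuous_const (y := (1 : ℝ))) (-2 * c) (c ^ 2) y
      have a2 := mm_lin (h := h) hΩ (f := fun x => u x ^ 2)
        (g := fun x => -2 * c * u x + c ^ 2 * 1) (by fun_prop) (by fun_prop) 1 1 y
      have e : (fun x => 1 * u x ^ 2 + 1 * (-2 * c * u x + c ^ 2 * 1)) = fun x => (u x - c) ^ 2 := by
        funext x
        ring
      rw [e, a1, ← rho_eq, e1] at a2
      rw [a2, e1]
      ring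
    rw [← h2]
    exact h1
  have i1 : Integrable (mm Ω h fun x => u x ^ 2) := by
    simpa using mm_int hΩ hh u2 (BC.const 1)
  have i2 : Integrable (mm Ω h fun x => ‖fderiv ℝ u x‖ ^ 2) := by
    simpa using mm_int hΩ hh gc (BC.const 1)
  have i3 := mm_int hΩ hh uc (opT_BC hΩ hh uc)
  have h3 := integral_mono (i1.sub i3) (i2.const_mul (16 * h)) key
  simp only [Pi.sub_apply] at h3
  rw [integral_sub i1 i3, integral_const_mul, mm_mass hΩ hh u2, mm_mass hΩ hh gc] at h3
  rw [K_form hΩ hh uc uc, le_div_iff₀ (gz_pos hh)]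
  unfold Sq En
  linarith

end Pool.Agent.P.MP_5c8462_an.Ord.K
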