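import Pool.Agent.P.MP_5c8462_an.Ord.K1

set_option autoImplicit false

namespace Pool.Agent.P.MP_5c8462_an.Ord.K

open MeasureTheory Real Set

variable {d : ℕ} {h : ℝ} {Ω : Set (E d)}

theorem gk_sq (hh : 0 < h) (v w : E d) :
    gk h (v - w) ^ 2 = gk h v * gk h (v - (2 : ℝ) • w) * exp (‖w‖ ^ 2 / h) := by
  unfold gk
  rw [← exp_add, ← exp_add, sq, ← exp_add]
  congr 1
  rw [norm_sub_sq_real, norm_sub_sq_real, inner_smul_right, norm_smul]
  simp only [Real.norm_eq_abs, abs_two]
  field_simp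
  ring

/-- The linear form of a Harnack type bound. -/
def Har (f F : E d → ℝ) (r A : ℝ) : Prop :=
  ∀ x z, dist x z ≤ r → ∀ a : ℝ, 0 < a → 2 * |f x| ≤ a * A * F z + 1 / a

theorem Har.T (hTC : StTC) (hd : 1 ≤ d) (hΩ : Dom Ω) (hh : 0 < h) {f F : E d → ℝ}
    (hf : Continuous f) (hF : Continuous F) {r A : ℝ} (H : Har f F r A) :
    Har (opT Ω h f) (opT Ω h F) r A := by
  intro y y' hy a ha
  have h1 := hTC d hd Ω hΩ h r hh y y' hy (fun x => 2 * |f x| + 0) (fun z => a * A * F z + 1 / a)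
    (by fun_prop) (by fun_prop) (fun x z hxz => by simpa using H x z hxz a ha)
  rw [opT_aff hΩ hf.abs, opT_aff hΩ hF] at h1
  linarith [opT_abs (h := h) hΩ hf y]

theorem Har.S (hh : 0 < h) {g G : E d → ℝ} (hg : BC g) (hG : BC G) {r A δ : ℝ} (hr : 0 ≤ r)
    (hδ : 0 < δ) (H : Har g G r A) :
    Har (opS h g) (opS h G) (r + δ) (A * exp (δ ^ 2 / h)) := by
  intro x z hxz a ha
  have hs : 0 < r + δ := by linarith
  set w1 : E d := (r / (r + δ)) • (x - z) with hw1
  set w2 : E d := (δ / (r + δ)) • (x - z) with hw2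
  have hn : ‖x - z‖ ≤ r + δ := by rwa [← dist_eq_norm]
  have n1 : ‖w1‖ ≤ r := by
    rw [hw1, norm_smul, Real.norm_eq_abs, abs_of_nonneg (by positivity), div_mul_eq_mul_div,
      div_le_iff₀ hs]
    exact mul_le_mul_of_nonneg_left hn hr
  have n2 : ‖w2‖ ≤ δ := by
    rw [hw2, norm_smul, Real.norm_eq_abs, abs_of_nonneg (by positivity), div_mul_eq_mul_div,
      div_le_iff₀ hs]
    exact mul_le_mul_of_nonneg_left hn hδ.le
  have hsum : w1 + w2 = x - z := by
    rw [hw1, hw2, ← add_smul, ← add_div, div_self hs.ne', one_smul]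
  set κ := exp (δ ^ 2 / h) with hκ
  have κ0 : 0 < κ := exp_pos _
  have hκ2 : exp (‖w2‖ ^ 2 / h) ≤ κ :=
    exp_le_exp.2 (div_le_div_of_nonneg_right (by nlinarith [norm_nonneg w2]) hh.le)
  have e1 : ∫ y, g y * gk h (y - x) = ∫ y, g (y + w1) * gk h (y - z - w2) := by
    rw [← integral_add_right_eq_self (fun y => g y * gk h (y - x)) w1]
    congr 1
    funext y
    congr 2
    have : x = z + (w1 + w2) := by rw [hsum]; abel
    rw [this]
    abel
  have hg' : BC fun y => g (y + w1) := by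
    obtain ⟨h1, B, hB⟩ := hg
    exact ⟨h1.comp (continuous_id.add continuous_const), B, fun y => hB _⟩
  have i1 : Integrable fun y => g (y + w1) * gk h (y - z - w2) := by
    have := hg'.int hh (z + w2)
    simpa [sub_sub] using this
  have i2 := hG.int hh z
  have i3 := gk_int_sub hh (z + (2 : ℝ) • w2)
  have pt : ∀ y, 2 * ‖g (y + w1) * gk h (y - z - w2)‖ ≤
      a * κ * A * (G y * gk h (y - z)) + 1 / a * gk h (y - (z + (2 : ℝ) • w2)) := by
    intro y
    have p1 := gk_pos h (y - z)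
    have p2 := gk_pos h (y - z - w2)
    have p3 := gk_pos h (y - z - (2 : ℝ) • w2)
    have h1 := H (y + w1) y (by rwa [dist_eq_norm, add_sub_cancel_left])
      (a * κ * gk h (y - z) / gk h (y - z - w2)) (by positivity)
    have h2 := gk_sq hh (y - z) w2
    rw [Real.norm_eq_abs, abs_mul, abs_of_pos p2, ← sub_sub]
    have h3 := mul_le_mul_of_nonneg_right h1 p2.le
    have e2 : (a * κ * gk h (y - z) / gk h (y - z - w2) * A * G y +
        1 / (a * κ * gk h (y - z) / gk h (y - z - w2))) * gk h (y - z - w2) =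
        a * κ * A * (G y * gk h (y - z)) + gk h (y - z - w2) ^ 2 / (a * κ * gk h (y - z)) := by
      field_simp
    have h4 : gk h (y - z - w2) ^ 2 / (a * κ * gk h (y - z)) ≤
        1 / a * gk h (y - z - (2 : ℝ) • w2) := by
      rw [h2, div_le_iff₀ (by positivity)]
      have : 1 / a * gk h (y - z - (2 : ℝ) • w2) * (a * κ * gk h (y - z)) =
          gk h (y - z) * gk h (y - z - (2 : ℝ) • w2) * κ := by
        field_simp
      rw [this]
      exact mul_le_mul_of_nonneg_left hκ2 (by positivity)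
    linarith
  have h5 := integral_mono (i1.norm.const_mul 2) ((i2.const_mul _).add (i3.const_mul _)) pt
  simp only [Pi.add_apply] at h5
  rw [integral_add (i2.const_mul _) (i3.const_mul _), integral_const_mul, integral_const_mul,
    integral_const_mul, gk_integral_sub] at h5
  have h6 := norm_integral_le_integral_norm (μ := volume)
    fun y => g (y + w1) * gk h (y - z - w2)
  have gp := gz_pos (d := d) hh
  unfold opS
  rw [e1, abs_div, abs_of_pos gp]
  rw [Real.norm_eq_abs] at h6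
  have h7 : 2 * (|∫ y, g (y + w1) * gk h (y - z - w2)| / gz d h) =
      2 * |∫ y, g (y + w1) * gk h (y - z - w2)| / gz d h := by ring
  have h8 : a * (A * κ) * ((∫ y, G y * gk h (y - z)) / gz d h) + 1 / a =
      (a * κ * A * (∫ y, G y * gk h (y - z)) + 1 / a * gz d h) / gz d h := by
    field_simp
  rw [h7, h8]
  exact div_le_div_of_nonneg_right (by linarith) gp.le

theorem it_cont (hΩ : Dom Ω) (hh : 0 < h) {f : E d → ℝ} (hf : Continuous f) (n : ℕ) :
    Continuous ((opK Ω h)^[n] f) := by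
  induction n with
  | zero => exact hf
  | succ n ih =>
    rw [Function.iterate_succ_apply']
    exact opK_cont hΩ hh ih

theorem harnack (hTC : StTC) (hd : 1 ≤ d) (hΩ : Dom Ω) (hh : 0 < h) {f : E d → ℝ}
    (hf : Continuous f) {δ : ℝ} (hδ : 0 < δ) (n : ℕ) :
    Har ((opK Ω h)^[n] f) ((opK Ω h)^[n] fun x => f x ^ 2) (n * δ) (exp (n * (δ ^ 2 / h))) := by
  have f2 : Continuous fun x => f x ^ 2 := hf.pow 2
  induction n with
  | zero =>
    intro x z hxz a ha
    have : x = z := by simpa using hxz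
    subst this
    simp only [Function.iterate_zero, id, Nat.cast_zero, zero_mul, exp_zero, mul_one]
    have h1 : 0 ≤ (a * |f x| - 1) ^ 2 / a := by positivity
    have h2 : (a * |f x| - 1) ^ 2 / a = a * f x ^ 2 + 1 / a - 2 * |f x| := by
      rw [← sq_abs (f x)]
      field_simp
      ring
    linarith
  | succ n ih =>
    have c1 := it_cont hΩ hh hf n
    have c2 := it_cont hΩ hh f2 n
    have h1 := (ih.T hTC hd hΩ hh c1 c2).S hh (opT_BC hΩ hh c1) (opT_BC hΩ hh c2)
      (by positivity) hδ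
    rw [Function.iterate_succ_apply', Function.iterate_succ_apply']
    have e1 : ((n + 1 : ℕ) : ℝ) * δ = n * δ + δ := by push_cast; ring
    have e2 : exp (((n + 1 : ℕ) : ℝ) * (δ ^ 2 / h)) = exp (n * (δ ^ 2 / h)) * exp (δ ^ 2 / h) := by
      rw [← exp_add]
      push_cast
      ring_nf
    rw [e1, e2]
    exact h1

theorem opK_nonneg (hΩ : Dom Ω) (hh : 0 < h) {f : E d → ℝ} (hf : Continuous f)
    (h0 : ∀ x, 0 ≤ f x) (x : E d) : 0 ≤ opK Ω h f x := by
  have h1 := opS_mono hh (BC.const 0) (opT_BC hΩ hh hf) (fun y => by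
    have := opT_mono (h := h) hΩ (continuous_const (y := (0 : ℝ))) hf (fun x _ => h0 x) y
    rwa [opT_const hΩ] at this) x
  rwa [opS_const hh] at h1

theorem it_nonneg (hΩ : Dom Ω) (hh : 0 < h) {f : E d → ℝ} (hf : Continuous f)
    (h0 : ∀ x, 0 ≤ f x) (n : ℕ) : ∀ x, 0 ≤ (opK Ω h)^[n] f x := by
  induction n with
  | zero => exact h0
  | succ n ih =>
    rw [Function.iterate_succ_apply']
    exact opK_nonneg hΩ hh (it_cont hΩ hh hf n) ih

theorem it_mass (hΩ : Dom Ω) (hh : 0 < h) {f : E d → ℝ} (hf : Continuous f) (n : ℕ) :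
    ∫ x in Ω, (opK Ω h)^[n] f x = ∫ x in Ω, f x := by
  induction n with
  | zero => rfl
  | succ n ih => rw [Function.iterate_succ_apply', K_mass hΩ hh (it_cont hΩ hh hf n), ih]

/-- Pointwise bound from the Harnack inequality. -/
theorem sup_bound (hTC : StTC) (hd : 1 ≤ d) (hΩ : Dom Ω) (hh : 0 < h) {f : E d → ℝ}
    (hf : Continuous f) {δ : ℝ} (hδ : 0 < δ) (n : ℕ) {W : Set (E d)} (hW : MeasurableSet W)
    (hWΩ : W ⊆ Ω) (x : E d) (hx : ∀ z ∈ W, dist x z ≤ n * δ) :
    (opK Ω h)^[n] f x ^ 2 * volume.real W ≤ exp (n * (δ ^ 2 / h)) * Sq Ω f := by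
  have f2 : Continuous fun x => f x ^ 2 := hf.pow 2
  set A := exp (n * (δ ^ 2 / h)) with hA
  have A0 : 0 < A := exp_pos _
  set F := (opK Ω h)^[n] fun x => f x ^ 2 with hF
  have Fc : Continuous F := it_cont hΩ hh f2 n
  have F0 : ∀ x, 0 ≤ F x := it_nonneg hΩ hh f2 (fun x => sq_nonneg _) n
  have hfin : volume W ≠ ⊤ := ((measure_mono hWΩ).trans_lt hΩ.2.2.2.measure_lt_top).ne
  have iF : IntegrableOn F W := (intOn hΩ Fc).mono_set hWΩ
  have hP : ∫ z in W, F z ≤ Sq Ω f := by
    have h1 : ∫ z in W, F z ≤ ∫ z in Ω, F z :=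
      setIntegral_mono_set (intOn hΩ Fc) (Filter.Eventually.of_forall F0) hWΩ.eventuallyLE
    rw [hF, it_mass hΩ hh f2 n] at h1
    exact h1
  have S0 : 0 ≤ Sq Ω f := integral_nonneg fun x => sq_nonneg _
  set s := (opK Ω h)^[n] f x with hs
  set m := volume.real W with hm
  have m0 : 0 ≤ m := measureReal_nonneg
  have key : ∀ a : ℝ, 0 < a → 2 * |s| * m ≤ a * A * Sq Ω f + 1 / a * m := by
    intro a ha
    have h1 : ∫ _ in W, 2 * |s| ≤ ∫ z in W, (a * A * F z + 1 / a) :=
      setIntegral_mono_on (integrableOn_const hfin) ((iF.const_mul _).add (integrableOn_const hfin))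
        hW fun z hz => harnack hTC hd hΩ hh hf hδ n x z (hx z hz) a ha
    rw [integral_add (iF.const_mul _) (integrableOn_const hfin), integral_const_mul (a * A),
      setIntegral_const, setIntegral_const, smul_eq_mul, smul_eq_mul, ← hm] at h1
    have := mul_le_mul_of_nonneg_left hP (by positivity : 0 ≤ a * A)
    linarith
  rcases eq_or_ne s 0 with h0 | h0
  · rw [h0]
    simp only [ne_eq, OfNat.ofNat_ne_zero, not_false_eq_true, zero_pow, zero_mul]
    positivity
  · have p : 0 < |s| := abs_pos.2 h0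
    have h1 := key (1 / |s|) (by positivity)
    rw [one_div_one_div] at h1
    have h2 : |s| * m ≤ 1 / |s| * A * Sq Ω f := by linarith
    have h3 := mul_le_mul_of_nonneg_left h2 p.le
    have e : |s| * (1 / |s| * A * Sq Ω f) = A * Sq Ω f := by field_simp
    rw [e] at h3
    rw [← sq_abs s]
    nlinarith

theorem cs (hΩ : Dom Ω) {f g : E d → ℝ} (hf : Continuous f) (hg : Continuous g) :
    (∫ x in Ω, f x * g x) ^ 2 ≤ (∫ x in Ω, f x ^ 2) * ∫ x in Ω, g x ^ 2 := by
  have i1 : IntegrableOn (fun x => f x ^ 2) Ω := intOn hΩ (hf.pow 2)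
  have i2 : IntegrableOn (fun x => g x ^ 2) Ω := intOn hΩ (hg.pow 2)
  have i3 : IntegrableOn (fun x => f x * g x) Ω := intOn hΩ (hf.mul hg)
  have h1 : ∀ t : ℝ, 0 ≤ (∫ x in Ω, f x ^ 2) * (t * t) + (-2 * ∫ x in Ω, f x * g x) * t +
      ∫ x in Ω, g x ^ 2 := by
    intro t
    have h2 : 0 ≤ ∫ x in Ω, (t * t * f x ^ 2 + -2 * t * (f x * g x) + g x ^ 2) :=
      integral_nonneg fun x => by
        simp only [Pi.zero_apply]
        nlinarith [sq_nonneg (t * f x - g x)]
    have i4 : IntegrableOn (fun x => t * t * f x ^ 2 + -2 * t * (f x * g x)) Ω :=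
      (i1.const_mul _).add (i3.const_mul _)
    rw [integral_add i4 i2,
      integral_add (i1.const_mul _) (i3.const_mul _), integral_const_mul, integral_const_mul] at h2
    linarith
  have := discrim_le_zero h1
  unfold discrim at this
  nlinarith

theorem it_lower (hΩ : Dom Ω) (hh : 0 < h) {u : E d → ℝ} (hu : Continuous u) {θ : ℝ} (hθ : 0 < θ)
    (h1 : ∫ x in Ω, u x ^ 2 = 1) (h2 : θ ≤ ∫ x in Ω, u x * opK Ω h u x) (n : ℕ) :
    θ ^ (2 * n) ≤ ∫ x in Ω, (opK Ω h)^[n] u x ^ 2 := by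
  set b : ℕ → ℝ := fun n => ∫ x in Ω, (opK Ω h)^[n] u x ^ 2 with hb
  have key : ∀ n, 0 < b n ∧ θ ^ 2 * b n ≤ b (n + 1) := by
    intro n
    induction n with
    | zero =>
      have b0 : b 0 = 1 := h1
      have h3 := cs hΩ hu (opK_cont hΩ hh hu)
      rw [h1, one_mul] at h3
      refine ⟨by rw [b0]; exact one_pos, ?_⟩
      rw [b0, mul_one]
      exact (pow_le_pow_left₀ hθ.le h2 2).trans h3
    | succ n ih =>
      have p1 : 0 < b (n + 1) := (mul_pos (pow_pos hθ 2) ih.1).trans_le ih.2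
      refine ⟨p1, ?_⟩
      have c0 := it_cont hΩ hh hu n
      have c1 := it_cont hΩ hh hu (n + 1)
      have h3 := cs hΩ c0 (opK_cont hΩ hh c1)
      rw [K_symm hΩ hh c0 c1] at h3
      have e1 : ∫ x in Ω, (opK Ω h)^[n + 1] u x * opK Ω h ((opK Ω h)^[n] u) x = b (n + 1) := by
        simp only [hb]
        rw [Function.iterate_succ_apply']
        simp only [sq]
      have e2 : ∫ x in Ω, opK Ω h ((opK Ω h)^[n + 1] u) x ^ 2 = b (n + 1 + 1) := by
        simp only [hb]
        rw [Function.iterate_succ_apply' (opK Ω h) (n + 1)]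
      rw [e1, e2] at h3
      change b (n + 1) ^ 2 ≤ b n * b (n + 1 + 1) at h3
      have h4 := mul_le_mul_of_nonneg_right ih.2 p1.le
      refine le_of_mul_le_mul_left ?_ ih.1
      nlinarith
  induction n with
  | zero => simpa using h1.ge
  | succ n ih =>
    have h3 := (key n).2
    have h4 := mul_le_mul_of_nonneg_left ih (pow_pos hθ 2).le
    have e : θ ^ (2 * (n + 1)) = θ ^ 2 * θ ^ (2 * n) := by ring
    rw [e]
    exact h4.trans h3

theorem opK_sum (hΩ : Dom Ω) (hh : 0 < h) {ι : Type} (s : Finset ι) (c : ι → ℝ)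
    {u : ι → E d → ℝ} (hu : ∀ i, Continuous (u i)) :
    opK Ω h (fun x => ∑ i ∈ s, c i * u i x) = fun x => ∑ i ∈ s, c i * opK Ω h (u i) x := by
  classical
  induction s using Finset.induction_on with
  | empty =>
    have := opK_lin hΩ hh (continuous_const (y := (0 : ℝ))) (continuous_const (y := (0 : ℝ))) 0 0
    simpa using this
  | insert j s hj ih =>
    have hc : Continuous fun x => ∑ i ∈ s, c i * u i x :=
      continuous_finsetSum _ fun i _ => continuous_const.mul (hu i)
    have := opK_lin hΩ hh (hu j) hc (c j) 1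
    simp only [one_mul, ih] at this
    simp only [Finset.sum_insert hj]
    exact this

theorem it_sum (hΩ : Dom Ω) (hh : 0 < h) {ι : Type} (s : Finset ι) (c : ι → ℝ)
    {u : ι → E d → ℝ} (hu : ∀ i, Continuous (u i)) (n : ℕ) :
    (opK Ω h)^[n] (fun x => ∑ i ∈ s, c i * u i x) =
      fun x => ∑ i ∈ s, c i * (opK Ω h)^[n] (u i) x := by
  induction n with
  | zero => rfl
  | succ n ih =>
    rw [Function.iterate_succ_apply', ih, opK_sum hΩ hh s c fun i => it_cont hΩ hh (hu i) n]
    simp only [Function.iterate_succ_apply']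

end Pool.Agent.P.MP_5c8462_an.Ord.K
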