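import Pool.Agent.P.MP_5c8462_an.Ord.Defs

set_option autoImplicit false

namespace Pool.Agent.P.MP_5c8462_an.Ord

open MeasureTheory Real Set Filter Topology

namespace Loc

variable {d : ℕ}

/-- The affine function whose sign defines a rotating half space. -/
noncomputable def L (i j : Fin d) (a b t : ℝ) (x : E d) : ℝ :=
  cos t * (x i - a) + sin t * (x j - b)

/-- The rotating open half space. -/
def H (i j : Fin d) (a b t : ℝ) : Set (E d) := {x | 0 < L i j a b t x}

theorem null_lin (φ : E d →ₗ[ℝ] ℝ) (y : E d) (hy : φ y ≠ 0) (v : ℝ) :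
    volume {x : E d | φ x = v} = 0 := by
  have h0 : volume (LinearMap.ker φ : Set (E d)) = 0 := by
    refine Measure.addHaar_submodule volume _ ?_
    intro h
    have : y ∈ LinearMap.ker φ := by rw [h]; trivial
    exact hy this
  have : {x : E d | φ x = v} =
      (fun x => x + -((v / φ y) • y)) ⁻¹' (LinearMap.ker φ : Set (E d)) := by
    ext x
    simp [add_neg_eq_zero, div_mul_cancel₀ _ hy]
  rw [this, measure_preimage_add_right]
  exact h0

theorem null_L {i j : Fin d} (hij : i ≠ j) (a b t : ℝ) :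
    volume {x : E d | L i j a b t x = 0} = 0 := by
  let φ : E d →ₗ[ℝ] ℝ :=
    { toFun := fun x => cos t * x i + sin t * x j
      map_add' := by intro x y; simp; ring
      map_smul' := by intro c x; simp; ring }
  have hy : φ (EuclideanSpace.single i (cos t) + EuclideanSpace.single j (sin t)) ≠ 0 := by
    have : φ (EuclideanSpace.single i (cos t) + EuclideanSpace.single j (sin t)) = 1 := by
      simp only [φ, LinearMap.coe_mk, AddHom.coe_mk, PiLp.add_apply]
      simp [hij, hij.symm]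
      nlinarith [sin_sq_add_cos_sq t]
    rw [this]; exact one_ne_zero
  have := null_lin φ _ hy (cos t * a + sin t * b)
  refine measure_mono_null ?_ this
  intro x hx
  simp only [L, mem_ofPred_eq] at hx
  simp only [φ, LinearMap.coe_mk, AddHom.coe_mk, mem_ofPred_eq]
  linarith

theorem cont_L (i j : Fin d) (a b t : ℝ) : Continuous (L i j a b t) := by
  unfold L; fun_prop

theorem cont_L' (i j : Fin d) (a b : ℝ) (x : E d) : Continuous fun t => L i j a b t x := by
  unfold L; fun_prop

theorem open_H (i j : Fin d) (a b t : ℝ) : IsOpen (H i j a b t) :=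
  isOpen_lt continuous_const (cont_L i j a b t)

theorem convex_H (i j : Fin d) (a b t : ℝ) : Convex ℝ (H i j a b t) := by
  intro x hx y hy s r hs hr hsr
  simp only [H, L, mem_ofPred_eq] at hx hy ⊢
  have : cos t * ((s • x + r • y) i - a) + sin t * ((s • x + r • y) j - b) =
      s * (cos t * (x i - a) + sin t * (x j - b)) + r * (cos t * (y i - a) + sin t * (y j - b)) := by
    have h1 : s = 1 - r := by linarith
    simp only [PiLp.add_apply, PiLp.smul_apply, smul_eq_mul]
    rw [h1]; ring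
  rw [this]
  rcases hs.eq_or_lt with h | h
  · have : r = 1 := by linarith
    rw [← h, this]; linarith
  · have := mul_pos h hx
    have := mul_nonneg hr hy.le
    linarith

theorem L_pi (i j : Fin d) (a b t : ℝ) (x : E d) : L i j a b (t + π) x = -L i j a b t x := by
  simp only [L, cos_add_pi, sin_add_pi]; ring

/-- The two open halves carry the whole integral. -/
theorem split {i j : Fin d} (hij : i ≠ j) (a b t : ℝ) {A : Set (E d)}
    {g : E d → ℝ} (hg : IntegrableOn g A) :
    ∫ x in A, g x = (∫ x in A ∩ H i j a b t, g x) + ∫ x in A ∩ H i j a b (t + π), g x := by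
  have h1 := integral_inter_add_sdiff (open_H i j a b t).measurableSet hg
  rw [← h1]
  congr 1
  refine setIntegral_congr_set ?_
  have h0 := null_L hij a b t
  have h2 : ∀ᵐ x : E d, L i j a b t x ≠ 0 := by
    rw [ae_iff]; simpa using h0
  filter_upwards [h2] with x hx
  have : (x ∈ A \ H i j a b t) ↔ x ∈ A ∩ H i j a b (t + π) := by
    simp only [H, Set.mem_sdiff, mem_ofPred_eq, mem_inter_iff, L_pi, not_lt]
    constructor
    · rintro ⟨h, h'⟩
      exact ⟨h, by have := lt_of_le_of_ne h' hx; linarith⟩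
    · rintro ⟨h, h'⟩
      exact ⟨h, by linarith⟩
  exact propext this

theorem cont_int {i j : Fin d} (hij : i ≠ j) (a b : ℝ) {A : Set (E d)}
    {g : E d → ℝ} (hg : IntegrableOn g A) :
    Continuous fun t => ∫ x in A ∩ H i j a b t, g x := by
  have he : (fun t => ∫ x in A ∩ H i j a b t, g x) =
      fun t => ∫ x in A, (H i j a b t).indicator g x := by
    funext t
    rw [setIntegral_indicator (open_H i j a b t).measurableSet]
  rw [he, continuous_iff_continuousAt]
  intro t0
  refine continuousAt_of_dominated (bound := fun x => ‖g x‖) ?_ ?_ hg.norm ?_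
  · exact Eventually.of_forall fun t =>
      hg.aestronglyMeasurable.indicator (open_H i j a b t).measurableSet
  · exact Eventually.of_forall fun t => Eventually.of_forall fun x => norm_indicator_le_norm_self _ _
  · have h0 := null_L hij a b t0
    have h2 : ∀ᵐ x : E d, L i j a b t0 x ≠ 0 := by
      rw [ae_iff]; simpa using h0
    filter_upwards [ae_restrict_of_ae h2] with x hx
    rcases lt_or_gt_of_ne hx with h | h
    · have : ∀ᶠ t in 𝓝 t0, L i j a b t x < 0 :=
        (cont_L' i j a b x).continuousAt.eventually_lt continuousAt_const h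
      refine (continuousAt_const (y := (0 : ℝ))).congr ?_
      filter_upwards [this] with t ht
      rw [indicator_of_notMem]
      simp only [H, mem_ofPred_eq, not_lt]; exact ht.le
    · have : ∀ᶠ t in 𝓝 t0, 0 < L i j a b t x :=
        continuousAt_const.eventually_lt (cont_L' i j a b x).continuousAt h
      refine (continuousAt_const (y := g x)).congr ?_
      filter_upwards [this] with t ht
      rw [indicator_of_mem]
      exact ht

/-- A half space through the axis that bisects the integral. -/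
theorem cut {i j : Fin d} (hij : i ≠ j) (a b : ℝ) {A : Set (E d)}
    {g : E d → ℝ} (hg : IntegrableOn g A) (h0 : ∫ x in A, g x = 0) :
    ∃ t, ∫ x in A ∩ H i j a b t, g x = 0 ∧ ∫ x in A ∩ H i j a b (t + π), g x = 0 := by
  have hc := cont_int hij a b hg
  have hs := split hij a b 0 hg
  rw [h0] at hs
  have hm : (0 : ℝ) ∈ uIcc (∫ x in A ∩ H i j a b 0, g x) (∫ x in A ∩ H i j a b (0 + π), g x) := by
    rw [mem_uIcc]
    rcases le_total (∫ x in A ∩ H i j a b 0, g x) 0 with h | h
    · left; constructor <;> linarith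
    · right; constructor <;> linarith
  obtain ⟨t, -, ht⟩ := intermediate_value_uIcc hc.continuousOn hm
  refine ⟨t, ht, ?_⟩
  have := split hij a b t hg
  simp only at ht
  rw [h0, ht] at this
  linarith

/-- The set misses the axis. -/
def Miss (η : ℝ) (B : Set (E d)) (q : Fin d × Fin d × ℤ × ℤ) : Prop :=
  q.1 ≠ q.2.1 → ∀ x ∈ B, ¬ (x q.1 = η * q.2.2.1 ∧ x q.2.1 = η * q.2.2.2)

theorem dom_inter {A : Set (E d)} (hA : Dom A) (i j : Fin d) (a b t : ℝ)
    (hne : (A ∩ H i j a b t).Nonempty) : Dom (A ∩ H i j a b t) :=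
  ⟨hne, hA.2.1.inter (open_H i j a b t), hA.2.2.1.inter (convex_H i j a b t),
    hA.2.2.2.subset inter_subset_left⟩

theorem induct (η : ℝ) (f Ψ : E d → ℝ) (T : Finset (Fin d × Fin d × ℤ × ℤ)) :
    ∀ A : Set (E d), Dom A → IntegrableOn f A → IntegrableOn Ψ A → ∫ x in A, f x = 0 →
      (∀ B : Set (E d), Dom B → B ⊆ A → (∀ q ∈ T, Miss η B q) → ∫ x in B, f x = 0 →
        0 ≤ ∫ x in B, Ψ x) → 0 ≤ ∫ x in A, Ψ x := by
  classical
  induction T using Finset.induction_on with
  | empty =>
    intro A hA _ _ h0 h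
    exact h A hA subset_rfl (by simp) h0
  | insert q T _ ih =>
    intro A hA hf hΨ h0 h
    by_cases hij : q.1 = q.2.1
    · refine ih A hA hf hΨ h0 fun B hB hBA hm hB0 => h B hB hBA ?_ hB0
      intro r hr
      rcases Finset.mem_insert.1 hr with rfl | hr
      · intro hne; exact absurd hij hne
      · exact hm r hr
    · obtain ⟨t, h1, h2⟩ := cut hij (η * q.2.2.1) (η * q.2.2.2) hf h0
      have key : ∀ s, ∫ x in A ∩ H q.1 q.2.1 (η * q.2.2.1) (η * q.2.2.2) s, f x = 0 →
          0 ≤ ∫ x in A ∩ H q.1 q.2.1 (η * q.2.2.1) (η * q.2.2.2) s, Ψ x := by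
        intro s hs
        rcases (A ∩ H q.1 q.2.1 (η * q.2.2.1) (η * q.2.2.2) s).eq_empty_or_nonempty with he | hne
        · rw [he]; simp
        · refine ih _ (dom_inter hA _ _ _ _ _ hne) (hf.mono_set inter_subset_left)
            (hΨ.mono_set inter_subset_left) hs fun B hB hBA hm hB0 =>
              h B hB (hBA.trans inter_subset_left) ?_ hB0
          intro r hr
          rcases Finset.mem_insert.1 hr with rfl | hr
          · rintro - x hx ⟨e1, e2⟩
            have := (hBA hx).2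
            simp only [H, L, mem_ofPred_eq, e1, e2, sub_self, mul_zero, add_zero] at this
            exact lt_irrefl _ this
          · exact hm r hr
      rw [split hij (η * q.2.2.1) (η * q.2.2.2) t hΨ]
      exact add_nonneg (key _ h1) (key _ h2)

theorem near (η c : ℝ) (hη : 0 < η) : ∃ m : ℤ, |η * m - c| ≤ η := by
  refine ⟨⌊c / η⌋, ?_⟩
  have h1 := Int.floor_le (c / η)
  have h2 := Int.lt_floor_add_one (c / η)
  rw [le_div_iff₀ hη] at h1
  rw [div_lt_iff₀ hη] at h2
  rw [abs_le]; constructor <;> nlinarith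

theorem small {α β p q D η R : ℝ} (hα : |α| ≤ η) (hβ : |β| ≤ η) (hp : |p| ≤ 2 * R)
    (hq : |q| ≤ 2 * R) (hD : 24 * η * R < |D|) : |(α * p - β * q) / D| ≤ 1 / 6 := by
  have hη : 0 ≤ η := (abs_nonneg _).trans hα
  have hR : 0 ≤ 2 * R := (abs_nonneg _).trans hp
  have hD0 : 0 < |D| := lt_of_le_of_lt (by nlinarith) hD
  rw [abs_div, div_le_iff₀ hD0]
  have h1 : |α * p| ≤ η * (2 * R) := by
    rw [abs_mul]; exact mul_le_mul hα hp (abs_nonneg _) hη
  have h2 : |β * q| ≤ η * (2 * R) := by
    rw [abs_mul]; exact mul_le_mul hβ hq (abs_nonneg _) hη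
  have := abs_sub (α * p) (β * q)
  nlinarith

/-- A convex set that misses all axes has small minors. -/
theorem minor {η R : ℝ} (hη : 0 < η) {B : Set (E d)} (hB : Convex ℝ B)
    (hR : ∀ x ∈ B, ∀ i, |x i| ≤ R) (hm : ∀ q, Miss η B q) {x y z : E d} (hx : x ∈ B) (hy : y ∈ B)
    (hz : z ∈ B) (i j : Fin d) :
    |(y i - x i) * (z j - x j) - (y j - x j) * (z i - x i)| ≤ 24 * η * R := by
  have hR0 : 0 ≤ R := (abs_nonneg _).trans (hR x hx i)
  by_cases hij : i = j
  · subst hij
    rw [sub_self, abs_zero]; positivity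
  by_contra hD
  push Not at hD
  have hd : ∀ u ∈ B, ∀ k, |u k - x k| ≤ 2 * R := by
    intro u hu k
    have := abs_sub (u k) (x k)
    linarith [hR u hu k, hR x hx k]
  obtain ⟨m, hm1⟩ := near η (x i + ((y i - x i) + (z i - x i)) / 3) hη
  obtain ⟨n, hn1⟩ := near η (x j + ((y j - x j) + (z j - x j)) / 3) hη
  set α := η * m - (x i + ((y i - x i) + (z i - x i)) / 3) with hα
  set β := η * n - (x j + ((y j - x j) + (z j - x j)) / 3) with hβ
  set D := (y i - x i) * (z j - x j) - (y j - x j) * (z i - x i) with hDd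
  have hD0 : D ≠ 0 := by
    intro h
    rw [h, abs_zero] at hD
    have : 0 ≤ 24 * η * R := by positivity
    linarith
  have hs := small hm1 hn1 (hd z hz j) (hd z hz i) hD
  have ht := small hn1 hm1 (hd y hy i) (hd y hy j) hD
  set s := (α * (z j - x j) - β * (z i - x i)) / D with hsd
  set t := (β * (y i - x i) - α * (y j - x j)) / D with htd
  rw [abs_le] at hs ht
  have e1 : s * (y i - x i) + t * (z i - x i) = α := by
    rw [hsd, htd]; field_simp; rw [hDd]; ring
  have e2 : s * (y j - x j) + t * (z j - x j) = β := by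
    rw [hsd, htd]; field_simp; rw [hDd]; ring
  have hw : (1 / 3 - s - t) • x + (1 / 3 + s) • y + (1 / 3 + t) • z ∈ B := by
    have := hB.sum_mem (t := (Finset.univ : Finset (Fin 3)))
      (w := ![1 / 3 - s - t, 1 / 3 + s, 1 / 3 + t]) (z := ![x, y, z]) ?_ ?_ ?_
    · simpa [Fin.sum_univ_three] using this
    · intro k _
      fin_cases k <;> simp <;> linarith
    · simp [Fin.sum_univ_three]; ring
    · intro k _
      fin_cases k <;> simp <;> assumption
  refine hm (i, j, m, n) hij _ hw ⟨?_, ?_⟩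
  · simp only [PiLp.add_apply, PiLp.smul_apply, smul_eq_mul]
    linarith
  · simp only [PiLp.add_apply, PiLp.smul_apply, smul_eq_mul]
    linarith

theorem norm_proj_le (e v : E d) (he : ‖e‖ = 1) : ‖v - (inner ℝ e v : ℝ) • e‖ ≤ ‖v‖ := by
  refine le_of_sq_le_sq ?_ (norm_nonneg _)
  rw [norm_sub_sq_real, inner_smul_right, norm_smul, he, real_inner_comm e v, mul_one,
    Real.norm_eq_abs, sq_abs]
  nlinarith [sq_nonneg (inner ℝ e v : ℝ)]

/-- Small minors give a thin set. -/
theorem thin (hd : 1 ≤ d) {τ : ℝ} (hτ : 0 < τ) {B : Set (E d)} (hne : B.Nonempty)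
    (hm : ∀ x ∈ B, ∀ y ∈ B, ∀ z ∈ B, ∀ i j,
      |(y i - x i) * (z j - x j) - (y j - x j) * (z i - x i)| ≤ τ ^ 2 / d ^ 2) : Thin τ B := by
  have hd0 : (0 : ℝ) < d := by exact_mod_cast hd
  have hd1 : (1 : ℝ) ≤ d := by exact_mod_cast hd
  obtain ⟨x0, hx0⟩ := hne
  by_cases hs : ∀ y ∈ B, ‖y - x0‖ ≤ τ
  · refine ⟨x0, EuclideanSpace.single ⟨0, hd⟩ 1, by simp, fun x hx => ?_⟩
    exact (norm_proj_le _ _ (by simp)).trans (hs x hx)
  · push Not at hs
    obtain ⟨y, hy, hyτ⟩ := hs
    set u := y - x0 with hu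
    have hu0 : 0 < ‖u‖ := hτ.trans hyτ
    refine ⟨x0, ‖u‖⁻¹ • u, by rw [norm_smul, norm_inv, norm_norm, inv_mul_cancel₀ hu0.ne'],
      fun x hx => ?_⟩
    set v := x - x0 with hv
    set w := v - (inner ℝ (‖u‖⁻¹ • u) v : ℝ) • ‖u‖⁻¹ • u with hw
    have hk : ∀ k, |w k| ≤ τ / d := by
      intro k
      have h1 : ‖u‖ ^ 2 * w k = ∑ i, u i * (u i * v k - u k * v i) := by
        have e1 : ‖u‖ ^ 2 = ∑ i, u i ^ 2 := EuclideanSpace.real_norm_sq_eq u
        have e2 : (inner ℝ u v : ℝ) = ∑ i, u i * v i := by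
          simp [PiLp.inner_apply, mul_comm]
        have e3 : ‖u‖ ^ 2 * w k = ‖u‖ ^ 2 * v k - (inner ℝ u v : ℝ) * u k := by
          rw [hw, inner_smul_left]
          simp only [PiLp.sub_apply, PiLp.smul_apply, smul_eq_mul, conj_trivial]
          field_simp
        rw [e3, e1, e2, Finset.sum_mul, Finset.sum_mul, ← Finset.sum_sub_distrib]
        exact Finset.sum_congr rfl fun i _ => by ring
      have h2 : |‖u‖ ^ 2 * w k| ≤ d * (‖u‖ * (τ ^ 2 / d ^ 2)) := by
        rw [h1]
        refine (Finset.abs_sum_le_sum_abs _ _).trans ?_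
        have : ∀ i ∈ (Finset.univ : Finset (Fin d)),
            |u i * (u i * v k - u k * v i)| ≤ ‖u‖ * (τ ^ 2 / d ^ 2) := by
          intro i _
          rw [abs_mul]
          refine mul_le_mul ?_ ?_ (abs_nonneg _) (norm_nonneg _)
          · exact PiLp.norm_apply_le u i
          · simpa [hu, hv] using hm x0 hx0 y hy x hx i k
        refine (Finset.sum_le_card_nsmul _ _ _ this).trans ?_
        simp
      rw [abs_mul, abs_of_pos (by positivity : 0 < ‖u‖ ^ 2)] at h2
      have h3 : ‖u‖ * |w k| ≤ τ ^ 2 / d := by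
        have : ‖u‖ * (‖u‖ * |w k|) ≤ ‖u‖ * (τ ^ 2 / d) := by
          calc ‖u‖ * (‖u‖ * |w k|) = ‖u‖ ^ 2 * |w k| := by ring
            _ ≤ d * (‖u‖ * (τ ^ 2 / d ^ 2)) := h2
            _ = ‖u‖ * (τ ^ 2 / d) := by field_simp
        exact le_of_mul_le_mul_left this hu0
      have h4 : τ * |w k| ≤ τ * (τ / d) := by
        calc τ * |w k| ≤ ‖u‖ * |w k| := mul_le_mul_of_nonneg_right hyτ.le (abs_nonneg _)
          _ ≤ τ ^ 2 / d := h3
          _ = τ * (τ / d) := by ring
      exact le_of_mul_le_mul_left h4 hτ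
    refine le_of_sq_le_sq ?_ hτ.le
    rw [EuclideanSpace.real_norm_sq_eq]
    have : ∀ k ∈ (Finset.univ : Finset (Fin d)), w k ^ 2 ≤ (τ / d) ^ 2 := by
      intro k _
      rw [← sq_abs]
      exact pow_le_pow_left₀ (abs_nonneg _) (hk k) 2
    refine (Finset.sum_le_card_nsmul _ _ _ this).trans ?_
    simp only [Finset.card_univ, Fintype.card_fin, nsmul_eq_mul]
    have : (d : ℝ) * (τ / d) ^ 2 = τ ^ 2 / d := by field_simp
    rw [this]
    exact div_le_self (by positivity) hd1

end Loc

theorem pLoc : StLoc := by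
  intro d hd Ω hΩ f Ψ hf hΨ τ hτ h h0
  have hd0 : (0 : ℝ) < d := by exact_mod_cast hd
  obtain ⟨R, hR0, hR⟩ := hΩ.2.2.2.exists_pos_norm_le
  have hRi : ∀ x ∈ Ω, ∀ i, |x i| ≤ R := fun x hx i => (PiLp.norm_apply_le x i).trans (hR x hx)
  set η := τ ^ 2 / d ^ 2 / (24 * R) with hη
  have hη0 : 0 < η := by positivity
  set N : ℤ := ⌈R / η⌉ with hN
  have hb : ∀ m : ℤ, |η * m| ≤ R → m ∈ Finset.Icc (-N) N := by
    intro m hm
    rw [abs_mul, abs_of_pos hη0, ← le_div_iff₀' hη0] at hm
    have h1 : |(m : ℝ)| ≤ N := hm.trans (Int.le_ceil _)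
    have h2 : |m| ≤ N := by exact_mod_cast h1
    rw [Finset.mem_Icc]; exact abs_le.1 h2
  refine Loc.induct η f Ψ (Finset.univ ×ˢ Finset.univ ×ˢ Finset.Icc (-N) N ×ˢ Finset.Icc (-N) N)
    Ω hΩ hf hΨ h0 fun B hB hBΩ hm hB0 => h B hB hBΩ ?_ hB0
  have hm' : ∀ q, Loc.Miss η B q := by
    rintro ⟨i, j, m, n⟩ hij x hx ⟨e1, e2⟩
    refine hm (i, j, m, n) ?_ hij x hx ⟨e1, e2⟩
    simp only [Finset.mem_product, Finset.mem_univ, true_and]
    exact ⟨hb m (e1 ▸ hRi x (hBΩ hx) i), hb n (e2 ▸ hRi x (hBΩ hx) j)⟩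
  refine Loc.thin hd hτ hB.1 fun x hx y hy z hz i j => ?_
  refine (Loc.minor hη0 hB.2.2.1 (fun u hu => hRi u (hBΩ hu)) hm' hx hy hz i j).trans (le_of_eq ?_)
  rw [hη]; field_simp

end Pool.Agent.P.MP_5c8462_an.Ord
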