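import Pool.Agent.P.MP_5c8462_an.Ord.Defs

set_option autoImplicit false

namespace Pool.Agent.P.MP_5c8462_an.Ord

open MeasureTheory Real Set

namespace Low

/-- Greedy choice of a separated family or of a small cover. -/
theorem greedy {d : ℕ} (Ω : Set (E d)) (M : ℝ) (n : ℕ) :
    (∃ x : Fin n → E d, (∀ i, x i ∈ Ω) ∧ ∀ i j, i ≠ j → M ≤ dist (x i) (x j)) ∨
      ∃ X : Finset (E d), X.card < n ∧ Ω ⊆ ⋃ x ∈ X, Metric.ball x M := by
  classical
  induction n with
  | zero => exact Or.inl ⟨Fin.elim0, fun i => i.elim0, fun i => i.elim0⟩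
  | succ n ih =>
    rcases ih with ⟨x, hx, hs⟩ | ⟨X, hX, hc⟩
    · by_cases hcov : Ω ⊆ ⋃ y ∈ Finset.univ.image x, Metric.ball y M
      · refine Or.inr ⟨_, ?_, hcov⟩
        have := Finset.card_image_le (s := (Finset.univ : Finset (Fin n))) (f := x)
        simp only [Finset.card_univ, Fintype.card_fin] at this
        omega
      · obtain ⟨y, hy, hn⟩ := Set.not_subset.1 hcov
        have hfar : ∀ i, M ≤ dist y (x i) := by
          intro i
          by_contra h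
          exact hn (Set.mem_biUnion (Finset.mem_image_of_mem x (Finset.mem_univ i))
            (Metric.mem_ball.2 (not_le.1 h)))
        refine Or.inl ⟨Fin.cons y x, fun i => ?_, fun i j => ?_⟩
        · refine Fin.cases ?_ (fun i => ?_) i
          · simpa using hy
          · simpa using hx i
        · refine Fin.cases ?_ (fun i => ?_) i
          · refine Fin.cases ?_ (fun j => ?_) j
            · intro h
              exact absurd rfl h
            · intro _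
              simpa using hfar j
          · refine Fin.cases ?_ (fun j => ?_) j
            · intro _
              rw [dist_comm]
              simpa using hfar i
            · intro h
              simpa using hs i j fun e => h (by rw [e])
    · exact Or.inr ⟨X, by omega, hc⟩

theorem two_balls {d : ℕ} {K : Set (E d)} (hK : Dom K) {x z : E d} {b : ℝ} (hb : 0 < b)
    (hd : dist x z = 2 * b) : Vb K x b + Vb K z b ≤ Vb K x (3 * b) := by
  have hfin : ∀ (p : E d) (s : ℝ), volume (K ∩ Metric.ball p s) ≠ ⊤ := fun p s =>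
    ((measure_mono inter_subset_right).trans_lt measure_ball_lt_top).ne
  have hdis : Disjoint (K ∩ Metric.ball x b) (K ∩ Metric.ball z b) :=
    (Metric.ball_disjoint_ball (by rw [hd]; linarith)).mono inter_subset_right inter_subset_right
  unfold Vb
  rw [← measureReal_union hdis (hK.2.1.measurableSet.inter measurableSet_ball) (hfin _ _)
    (hfin _ _)]
  refine measureReal_mono ?_ (hfin _ _)
  rintro y (⟨hy, h⟩ | ⟨hy, h⟩)
  · exact ⟨hy, Metric.mem_ball.2 (by have := Metric.mem_ball.1 h; linarith)⟩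
  · refine ⟨hy, Metric.mem_ball.2 ?_⟩
    have h1 := Metric.mem_ball.1 h
    have h2 := dist_triangle y z x
    rw [dist_comm z x, hd] at h2
    linarith

/-- Near a point that has a far companion there is a centre with volume doubling. -/
theorem centre {d : ℕ} {Ω K : Set (E d)} (hΩ : Dom Ω) (hK : Dom K) (hs : Ω ⊆ K) {x y : E d}
    (hx : x ∈ Ω) (hy : y ∈ Ω) {M : ℝ} (hM : 0 < M) (hxy : M ≤ dist x y) :
    ∃ p ∈ K, dist p x ≤ M / 4 ∧ 2 * Vb K p (M / 8) ≤ Vb K p (3 * (M / 8)) := by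
  have hD : 0 < dist x y := hM.trans_le hxy
  set t : ℝ := M / 4 / dist x y with ht
  have ht0 : 0 ≤ t := by positivity
  have ht1 : t ≤ 1 := by
    rw [ht, div_le_one hD]
    linarith
  set z : E d := x + t • (y - x) with hz
  have hzΩ : z ∈ Ω := hΩ.2.2.1.add_smul_sub_mem hx hy ⟨ht0, ht1⟩
  have hdz : dist x z = 2 * (M / 8) := by
    rw [hz, dist_self_add_right, norm_smul, Real.norm_eq_abs, abs_of_nonneg ht0, ← dist_eq_norm,
      dist_comm y x, ht, div_mul_cancel₀ _ hD.ne']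
    ring
  have hb : 0 < M / 8 := by positivity
  have h1 := two_balls hK hb hdz
  have h2 := two_balls hK hb ((dist_comm z x).trans hdz)
  rcases le_total (Vb K x (M / 8)) (Vb K z (M / 8)) with h | h
  · exact ⟨x, hs hx, by rw [dist_self]; positivity, by linarith⟩
  · exact ⟨z, hs hzΩ, by rw [dist_comm, hdz]; linarith, by linarith⟩

theorem test_mono {d : ℕ} {K U : Set (E d)} {g : E d → ℝ} {M M' : ℝ} (h : Test K U g M)
    (hM : M ≤ M') : Test K U g M' :=
  ⟨h.1, h.2.1, h.2.2.1, h.2.2.2.trans (mul_le_mul_of_nonneg_right hM h.2.2.1.le)⟩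

theorem log_pos' {k d : ℕ} (hd : 1 ≤ d) (hk : 1 ≤ k) :
    Real.log 2 ≤ Real.log (1 + (min k d : ℕ)) := by
  have : (1 : ℝ) ≤ (min k d : ℕ) := by exact_mod_cast le_min hk hd
  exact Real.log_le_log (by norm_num) (by linarith)

/-- Every admissible level is bounded below by a positive number. -/
theorem level_pos (hN : StN) (hA : StAdm) {d k : ℕ} (hd : 1 ≤ d) (hk : 1 ≤ k) {Ω : Set (E d)}
    (hΩ : Dom Ω) : ∃ m : ℝ, 0 < m ∧ ∀ M, Adm k Ω M → m ≤ M := by
  obtain ⟨R, hR0, hR⟩ := hΩ.2.2.2.subset_ball_lt 0 (0 : E d)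
  have hl : 0 < Real.log 2 := Real.log_pos (by norm_num)
  refine ⟨(Real.log 2 / (130 * R)) ^ 2, by positivity, fun M hM => ?_⟩
  have hM0 : 0 ≤ M := Adm.nonneg hΩ.2.1 hΩ.2.2.2 hM
  refine le_of_forall_gt_imp_ge_of_dense fun lam hlam => ?_
  have hl0 : 0 < lam := hM0.trans_lt hlam
  have h1 := hN d hd Ω hΩ k lam R hl0 hR0 {0} (by simpa using hR)
    ((hA d Ω k).2.2.1 M lam hlam.le hM)
  have hk' : (1 : ℝ) ≤ k := by exact_mod_cast hk
  simp only [Finset.card_singleton, Nat.cast_one, one_mul] at h1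
  have h2 : Real.log 2 ≤ 130 * (√lam * R) := by
    rw [Real.log_le_iff_le_exp (by norm_num)]
    linarith
  have h3 : Real.log 2 / (130 * R) ≤ √lam := by
    rw [div_le_iff₀ (by positivity)]
    linarith
  calc _ ≤ (√lam) ^ 2 := pow_le_pow_left₀ (by positivity) h3 2
    _ = lam := Real.sq_sqrt hl0.le

theorem mu_pos (hN : StN) (hA : StAdm) {d k : ℕ} (hd : 1 ≤ d) (hk : 1 ≤ k) {Ω : Set (E d)}
    (hΩ : Dom Ω) : 0 < mu k Ω := by
  obtain ⟨m, hm, h⟩ := level_pos hN hA hd hk hΩ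
  exact hm.trans_le (le_csInf ((hA d Ω k).2.2.2.1 hd hΩ) h)

theorem dom_ball (d : ℕ) : Dom (Metric.ball (0 : E d) 1) :=
  ⟨Metric.nonempty_ball.2 one_pos, Metric.isOpen_ball, convex_ball _ _, Metric.isBounded_ball⟩

theorem alpha_le_one (hN : StN) (hA : StAdm) {d k : ℕ} (hd : 1 ≤ d) (hk : 1 ≤ k) :
    alpha k d ≤ 1 := by
  refine csInf_le ⟨0, ?_⟩ ⟨_, _, dom_ball d, dom_ball d, subset_rfl,
    (div_self (mu_pos hN hA hd hk (dom_ball d)).ne').symm⟩
  rintro r ⟨Ω₁, Ω₂, h₁, h₂, -, rfl⟩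
  exact div_nonneg (mu_nonneg h₁.2.1 h₁.2.2.2) (mu_nonneg h₂.2.1 h₂.2.2.2)

theorem pow_big (μ : ℕ) (h : 13 ≤ μ) : 200 * (2 * μ + 1) ≤ 2 ^ μ := by
  induction μ, h using Nat.le_induction with
  | base => norm_num
  | succ m hm ih =>
    rw [pow_succ]
    omega

/-- Choice of the parameters of the cone. -/
theorem params {d k : ℕ} (hd : 1 ≤ d) (hk : 1 ≤ k) :
    ∃ μ ns : ℕ, 1 ≤ ns ∧ ns * 2 ^ μ ≤ k ∧ k < 2 ^ (2 * μ + 1) * (ns / d + 1) ∧ 2 ^ μ < 2 * d := by
  by_cases h : k < 2 * d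
  · have h1 : 2 ^ Nat.log 2 k ≤ k := Nat.pow_log_le_self 2 (by omega)
    have h2 : k < 2 ^ (Nat.log 2 k + 1) := Nat.lt_pow_succ_log_self (by norm_num) k
    refine ⟨Nat.log 2 k, 1, le_rfl, by omega, ?_, by omega⟩
    calc k < 2 ^ (Nat.log 2 k + 1) := h2
      _ ≤ 2 ^ (2 * Nat.log 2 k + 1) := Nat.pow_le_pow_right (by norm_num) (by omega)
      _ ≤ _ := Nat.le_mul_of_pos_right _ (Nat.succ_pos _)
  · set μ := Nat.log 2 (2 * d - 1) with hμ
    have h1 : 2 ^ μ ≤ 2 * d - 1 := Nat.pow_log_le_self 2 (by omega)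
    have h2 : 2 * d - 1 < 2 ^ (μ + 1) := Nat.lt_pow_succ_log_self (by norm_num) _
    rw [pow_succ] at h2
    have hp : 0 < 2 ^ μ := by positivity
    have h3 : d ≤ 2 ^ μ := by omega
    refine ⟨μ, k / 2 ^ μ, (Nat.one_le_div_iff hp).2 (by omega), Nat.div_mul_le_self _ _, ?_,
      by omega⟩
    have h4 : k < 2 ^ μ * (k / 2 ^ μ + 1) := Nat.lt_mul_div_succ k hp
    have h5 : k / 2 ^ μ < d * (k / 2 ^ μ / d + 1) := Nat.lt_mul_div_succ _ (by omega)
    calc k < 2 ^ μ * (k / 2 ^ μ + 1) := h4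
      _ ≤ 2 ^ μ * (d * (k / 2 ^ μ / d + 1)) := Nat.mul_le_mul_left _ h5
      _ ≤ 2 ^ μ * (2 ^ μ * 2 * (k / 2 ^ μ / d + 1)) :=
          Nat.mul_le_mul_left _ (Nat.mul_le_mul_right _ (by omega))
      _ = _ := by ring

end Low

open Low

theorem pLow (hN : StN) (hR : StR) (hD : StDS) : StLow := by
  obtain ⟨C, hC, hR⟩ := hR
  refine ⟨C * 9 * (64 * 260 ^ 2), by positivity, ?_⟩
  intro d k hd hk Ω₁ Ω₂ h₁ h₂ hs lam hlam hA
  set κ : ℕ := min k d with hκ
  set L : ℝ := Real.log (1 + κ) with hL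
  have hL0 : 0 < L := (Real.log_pos (by norm_num)).trans_le (log_pos' hd hk)
  have hκ1 : (1 : ℝ) ≤ κ := by exact_mod_cast le_min hk hd
  have hκk : (κ : ℝ) ≤ k := by exact_mod_cast min_le_left k d
  have hκd : (κ : ℝ) ≤ d := by exact_mod_cast min_le_right k d
  have hd' : (1 : ℝ) ≤ d := by exact_mod_cast hd
  have hsq : 0 < √lam := Real.sqrt_pos.2 hlam
  set M : ℝ := L / 260 / √lam with hM
  have hM0 : 0 < M := by positivity
  set A : ℝ := exp (L / 2) with hAdef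
  have hA2 : A * A = 1 + κ := by
    rw [hAdef, ← Real.exp_add, add_halves, hL, Real.exp_log (by linarith)]
  have hA1 : 1 < A := by
    rw [hAdef]
    exact Real.one_lt_exp_iff.2 (by positivity)
  have hA0 : 0 < A := by linarith
  set n : ℕ := ⌈((k : ℝ) + 1) / A⌉₊ with hn
  have hn2 : 2 ≤ n := by
    have : (1 : ℝ) < ((k : ℝ) + 1) / A := by
      rw [one_lt_div hA0]
      nlinarith
    have h2 : (1 : ℕ) < n := Nat.lt_ceil.2 (by simpa using this)
    omega
  rcases greedy Ω₁ M n with ⟨x, hx, hsep⟩ | ⟨X, hX, hc⟩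
  · set n0 : ℕ := ⌈A⌉₊ with hn0
    have hn0d : (n0 : ℝ) ≤ d + 1 := by
      have : n0 ≤ d + 1 := Nat.ceil_le.2 (by push_cast; nlinarith)
      exact_mod_cast this
    have hp : ∀ i : Fin n, ∃ p ∈ Ω₂, dist p (x i) ≤ M / 4 ∧
        2 * Vb Ω₂ p (M / 8) ≤ Vb Ω₂ p (3 * (M / 8)) := by
      intro i
      have : Nontrivial (Fin n) := Fin.nontrivial_iff_two_le.2 hn2
      obtain ⟨j, hj⟩ := exists_ne i
      exact centre h₁ h₂ hs (hx i) (hx j) hM0 (hsep i j hj.symm)
    choose p hp1 hp2 hp3 using hp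
    have hF := fun i => hR d hd Ω₂ h₂ (p i) (hp1 i) (M / 8) (by positivity) (hp3 i) n0
    choose U g hU hdis hT using hF
    have hlev : C * ((d : ℝ) + n0) ^ 2 / (M / 8) ^ 2 ≤
        C * 9 * (64 * 260 ^ 2) * (d : ℝ) ^ 2 / L ^ 2 * lam := by
      have e : (M / 8) ^ 2 = L ^ 2 / (64 * 260 ^ 2 * lam) := by
        rw [hM, div_pow, div_pow, div_pow, Real.sq_sqrt hlam.le]
        field_simp
        norm_num
      have h3 : ((d : ℝ) + n0) ^ 2 ≤ 9 * (d : ℝ) ^ 2 := by
        have : (0 : ℝ) ≤ n0 := Nat.cast_nonneg _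
        nlinarith
      rw [e]
      calc C * ((d : ℝ) + n0) ^ 2 / (L ^ 2 / (64 * 260 ^ 2 * lam))
          ≤ C * (9 * (d : ℝ) ^ 2) / (L ^ 2 / (64 * 260 ^ 2 * lam)) := by gcongr
        _ = _ := by field_simp
    refine hD d Ω₂ h₂ (Fin n × Fin n0) (fun q => U q.1 q.2) (fun q => g q.1 q.2) _ k ?_ ?_
      fun q => test_mono (hT q.1 q.2) hlev
    · have h4 : ((k : ℝ) + 1) / A ≤ n := Nat.le_ceil _
      have h5 : A ≤ n0 := Nat.le_ceil _
      rw [div_le_iff₀ hA0] at h4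
      have h6 : ((k : ℝ) + 1) ≤ n * n0 :=
        h4.trans (mul_le_mul_of_nonneg_left h5 (Nat.cast_nonneg _))
      simp only [Fintype.card_prod, Fintype.card_fin]
      exact_mod_cast h6
    · rintro ⟨i, a⟩ ⟨j, b⟩ hne
      by_cases hij : i = j
      · subst hij
        exact hdis i fun e : a = b => hne (by rw [e])
      · have hsub : ∀ i, Metric.ball (p i) (M / 8) ⊆ Metric.ball (x i) (M / 2) := fun i =>
          Metric.ball_subset_ball' (by have := hp2 i; linarith)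
        exact (Metric.ball_disjoint_ball (by have := hsep i j hij; linarith)).mono
          ((hU i a).trans (hsub i)) ((hU j b).trans (hsub j))
  · exfalso
    have h1 := hN d hd Ω₁ h₁ k lam M hlam hM0 X hc hA
    have e : 130 * (√lam * M) = L / 2 := by
      rw [hM]
      field_simp
      norm_num
    rw [e, ← hAdef] at h1
    have h2 : (X.card : ℝ) < ((k : ℝ) + 1) / A := Nat.lt_ceil.1 hX
    rw [lt_div_iff₀ hA0] at h2
    linarith

theorem pOrd (hL : StLow) (hU : StU2) (hN : StN) (hA : StAdm) : StOrd := by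
  obtain ⟨C1, hC1, hL⟩ := hL
  obtain ⟨C2, hC2, hU⟩ := hU
  refine ⟨C1⁻¹, 100 * C2 + 4 * 2500 ^ 2, by positivity, fun d k hd hk => ?_⟩
  have hd1 : 1 ≤ d := by omega
  set L : ℝ := Real.log (1 + (min k d : ℕ)) with hLdef
  have hl2 : Real.log 2 ≤ L := log_pos' hd1 hk
  have hl3 : (1 : ℝ) / 2 < Real.log 2 := by have := Real.log_two_gt_d9; linarith
  have hL0 : 0 < L := by linarith
  have hd0 : (0 : ℝ) < d := by exact_mod_cast hd1
  constructor
  · refine le_csInf ⟨_, _, _, dom_ball d, dom_ball d, subset_rfl, rfl⟩ ?_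
    rintro r ⟨Ω₁, Ω₂, h₁, h₂, hs, rfl⟩
    have h2 := mu_pos hN hA hd1 hk h₂
    rw [le_div_iff₀ h2]
    obtain ⟨m, hm, hmM⟩ := level_pos hN hA hd1 hk h₁
    refine le_csInf ((hA d Ω₁ k).2.2.2.1 hd1 h₁) fun M hM => ?_
    have h3 : mu k Ω₂ ≤ C1 * (d : ℝ) ^ 2 / L ^ 2 * M :=
      csInf_le ⟨0, fun M hM => Adm.nonneg h₂.2.1 h₂.2.2.2 hM⟩
        (hL d k hd1 hk Ω₁ Ω₂ h₁ h₂ hs M (hm.trans_le (hmM M hM)) hM)
    calc C1⁻¹ * L ^ 2 / (d : ℝ) ^ 2 * mu k Ω₂
        ≤ C1⁻¹ * L ^ 2 / (d : ℝ) ^ 2 * (C1 * (d : ℝ) ^ 2 / L ^ 2 * M) := by gcongr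
      _ = M := by field_simp
  · rw [le_div_iff₀ (by positivity)]
    by_cases hsm : d < 2500
    · have h1 := alpha_le_one hN hA hd1 hk
      have h2 : (d : ℝ) ≤ 2500 := by exact_mod_cast hsm.le
      have h3 : (d : ℝ) ^ 2 ≤ 2500 ^ 2 := pow_le_pow_left₀ hd0.le h2 2
      have h4 : 1 / 4 ≤ L ^ 2 := by nlinarith
      have h5 : alpha k d * (d : ℝ) ^ 2 ≤ 1 * (d : ℝ) ^ 2 :=
        mul_le_mul_of_nonneg_right h1 (by positivity)
      have h6 : 0 ≤ 100 * C2 * L ^ 2 := by positivity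
      nlinarith
    · obtain ⟨μ, ns, h1, h2, h3, h4⟩ := params hd1 hk
      have h5 : 100 * (2 * μ + 1) ≤ d := by
        by_cases hμ : 13 ≤ μ
        · have := pow_big μ hμ
          omega
        · omega
      have h6 := hU d k μ ns h5 h1 h2 h3
      rw [le_div_iff₀ (by positivity)] at h6
      have h7 : 2 ^ μ ≤ 2 * min k d := by
        have : 2 ^ μ ≤ ns * 2 ^ μ := Nat.le_mul_of_pos_left _ h1
        rcases le_total k d with h | h
        · rw [min_eq_left h]
          omega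
        · rw [min_eq_right h]
          omega
      have h8 : (2 : ℝ) ^ μ ≤ 2 * (1 + (min k d : ℕ)) := by
        have : ((2 ^ μ : ℕ) : ℝ) ≤ ((2 * min k d : ℕ) : ℝ) := by exact_mod_cast h7
        push_cast at this ⊢
        linarith
      have h9 : (μ : ℝ) * Real.log 2 ≤ Real.log 2 + L := by
        rw [← Real.log_pow, hLdef, ← Real.log_mul (by norm_num) (by positivity)]
        exact Real.log_le_log (by positivity) h8
      have hμ0 : (0 : ℝ) ≤ μ := Nat.cast_nonneg _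
      have h10 : (2 * μ + 1 : ℝ) ≤ 10 * L := by nlinarith
      have h11 : (2 * μ + 1 : ℝ) ^ 2 ≤ (10 * L) ^ 2 := pow_le_pow_left₀ (by positivity) h10 2
      have h12 : C2 * (2 * μ + 1 : ℝ) ^ 2 ≤ C2 * (10 * L) ^ 2 :=
        mul_le_mul_of_nonneg_left h11 hC2.le
      have h13 : 0 ≤ 4 * 2500 ^ 2 * L ^ 2 := by positivity
      nlinarith

end Pool.Agent.P.MP_5c8462_an.Ord
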