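import Pool.Agent.P.MP_5c8462_an.Ord.Defs

set_option autoImplicit false

namespace Pool.Agent.P.MP_5c8462_an.Ord

open MeasureTheory Real Set

namespace NeedleL

variable {d : ℕ}

/-- Coordinate along the needle. -/
noncomputable def tt (x0 e x : E d) : ℝ := inner ℝ e (x - x0)

/-- Slice of thickness `τ`. -/
def sl (A : Set (E d)) (x0 e : E d) (τ s : ℝ) : Set (E d) :=
  A ∩ {x | s < tt x0 e x ∧ tt x0 e x < s + τ}

theorem tt_cont (x0 e : E d) : Continuous (tt x0 e) := by
  unfold tt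
  fun_prop

theorem tt_comb (x0 e x y : E d) (t : ℝ) :
    tt x0 e ((1 - t) • x + t • y) = (1 - t) * tt x0 e x + t * tt x0 e y := by
  have : (1 - t) • x + t • y - x0 = (1 - t) • (x - x0) + t • (y - x0) := by module
  unfold tt
  rw [this, inner_add_right, inner_smul_right, inner_smul_right]

theorem sl_open {A : Set (E d)} (hA : IsOpen A) (x0 e : E d) (τ s : ℝ) :
    IsOpen (sl A x0 e τ s) :=
  hA.inter ((isOpen_lt continuous_const (tt_cont x0 e)).inter
    (isOpen_lt (tt_cont x0 e) continuous_const))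

theorem vol_ne {A : Set (E d)} (hA : Bornology.IsBounded A) : volume A ≠ ⊤ :=
  hA.measure_lt_top.ne

theorem int_on {A : Set (E d)} (hA : Bornology.IsBounded A) {F : E d → ℝ} (hF : Continuous F) :
    IntegrableOn F A :=
  (hF.continuousOn.integrableOn_compact hA.isCompact_closure).mono_set subset_closure

theorem hit {A : Set (E d)} (hc : Convex ℝ A) (x0 e : E d) {u v : ℝ} (huv : u < v) {y z : E d}
    (hy : y ∈ A) (hz : z ∈ A) (h1 : u < tt x0 e y) (h2 : tt x0 e z < v) :
    ∃ x ∈ A, u < tt x0 e x ∧ tt x0 e x < v := by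
  by_cases h3 : tt x0 e y < v
  · exact ⟨y, hy, h1, h3⟩
  by_cases h4 : u < tt x0 e z
  · exact ⟨z, hz, h4, h2⟩
  push Not at h3 h4
  have hp : IsPreconnected (tt x0 e '' A) :=
    hc.isPreconnected.image _ (tt_cont x0 e).continuousOn
  have hm : (u + v) / 2 ∈ tt x0 e '' A :=
    hp.Icc_subset ⟨z, hz, rfl⟩ ⟨y, hy, rfl⟩ ⟨by linarith, by linarith⟩
  obtain ⟨x, hx, e1⟩ := hm
  exact ⟨x, hx, by linarith, by linarith⟩

theorem dist_le {x0 e x : E d} (he : ‖e‖ = 1) {τ : ℝ}
    (h : ‖x - x0 - (inner ℝ e (x - x0) : ℝ) • e‖ ≤ τ) (s : ℝ) :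
    dist (x0 + s • e) x ≤ τ + |tt x0 e x - s| := by
  rw [dist_comm, dist_eq_norm]
  have e1 : x - (x0 + s • e) = (x - x0 - (inner ℝ e (x - x0) : ℝ) • e) + (tt x0 e x - s) • e := by
    unfold tt
    module
  rw [e1]
  refine (norm_add_le _ _).trans (add_le_add h ?_)
  rw [norm_smul, he, mul_one, Real.norm_eq_abs]

theorem fub {A : Set (E d)} (ho : IsOpen A) (hb : Bornology.IsBounded A) (x0 e : E d) {τ a b : ℝ}
    (hab : ∀ x ∈ A, a ≤ tt x0 e x - τ ∧ tt x0 e x ≤ b) {G : ℝ → ℝ} (hG : Continuous G) :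
    IntegrableOn (fun x => ∫ s in Ioo (tt x0 e x - τ) (tt x0 e x), G s) A ∧
    ∫ s in Ioo a b, G s * volume.real (sl A x0 e τ s) =
      ∫ x in A, ∫ s in Ioo (tt x0 e x - τ) (tt x0 e x), G s := by
  set Z : Set (ℝ × E d) := {z | z.1 < tt x0 e z.2 ∧ tt x0 e z.2 < z.1 + τ} with hZ
  have hc2 : Continuous fun z : ℝ × E d => tt x0 e z.2 := (tt_cont x0 e).comp continuous_snd
  have hZo : IsOpen Z :=
    (isOpen_lt continuous_fst hc2).inter (isOpen_lt hc2 (continuous_fst.add continuous_const))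
  have hfin : IsFiniteMeasure (volume.restrict A) := ⟨by simpa using hb.measure_lt_top⟩
  have hGi : Integrable G (volume.restrict (Ioo a b)) :=
    (hG.continuousOn.integrableOn_Icc (a := a) (b := b)).mono_set Ioo_subset_Icc_self
  have h1 : Integrable (fun z : ℝ × E d => G z.1 * (1 : ℝ))
      ((volume.restrict (Ioo a b)).prod (volume.restrict A)) :=
    hGi.mul_prod (integrable_const (1 : ℝ))
  have h2 : Integrable (Function.uncurry fun (s : ℝ) (x : E d) =>
      Z.indicator (fun z : ℝ × E d => G z.1 * (1 : ℝ)) (s, x))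
      ((volume.restrict (Ioo a b)).prod (volume.restrict A)) :=
    h1.indicator hZo.measurableSet
  have e1 : ∀ s, ∫ x in A, Z.indicator (fun z : ℝ × E d => G z.1 * (1 : ℝ)) (s, x) =
      G s * volume.real (sl A x0 e τ s) := by
    intro s
    have hm : MeasurableSet {x : E d | s < tt x0 e x ∧ tt x0 e x < s + τ} :=
      ((isOpen_lt continuous_const (tt_cont x0 e)).inter
        (isOpen_lt (tt_cont x0 e) continuous_const)).measurableSet
    have : (fun x : E d => Z.indicator (fun z : ℝ × E d => G z.1 * (1 : ℝ)) (s, x)) =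
        {x : E d | s < tt x0 e x ∧ tt x0 e x < s + τ}.indicator fun _ => G s := by
      funext x
      simp only [hZ, indicator, mem_ofPred_eq, mul_one]
    rw [this, setIntegral_indicator hm, setIntegral_const, smul_eq_mul, mul_comm]
    rfl
  have e2 : ∀ x ∈ A, ∫ s in Ioo a b, Z.indicator (fun z : ℝ × E d => G z.1 * (1 : ℝ)) (s, x) =
      ∫ s in Ioo (tt x0 e x - τ) (tt x0 e x), G s := by
    intro x hx
    have : (fun s : ℝ => Z.indicator (fun z : ℝ × E d => G z.1 * (1 : ℝ)) (s, x)) =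
        (Ioo (tt x0 e x - τ) (tt x0 e x)).indicator G := by
      funext s
      have : (s, x) ∈ Z ↔ s ∈ Ioo (tt x0 e x - τ) (tt x0 e x) := by
        simp only [hZ, mem_ofPred_eq, mem_Ioo]
        constructor <;> rintro ⟨h3, h4⟩ <;> constructor <;> linarith
      by_cases h : (s, x) ∈ Z
      · rw [indicator_of_mem h, indicator_of_mem (this.1 h), mul_one]
      · rw [indicator_of_notMem h, indicator_of_notMem (fun h' => h (this.2 h'))]
    rw [this, setIntegral_indicator measurableSet_Ioo,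
      inter_eq_right.2 (Ioo_subset_Ioo (hab x hx).1 (hab x hx).2)]
  refine ⟨?_, ?_⟩
  · exact IntegrableOn.congr_fun h2.integral_prod_right e2 ho.measurableSet
  · rw [← setIntegral_congr_fun ho.measurableSet e2, ← integral_integral_swap h2]
    simp only [e1]

end NeedleL

open NeedleL

theorem pNeedle (hBM : StBM) : StNeedle := by
  intro d A hA τ hτ hT
  obtain ⟨hne, ho, hc, hb⟩ := hA
  obtain ⟨x0, e, he, hth⟩ := hT
  have hbd : Bornology.IsBounded (tt x0 e '' A) :=
    (hb.isCompact_closure.image (tt_cont x0 e)).isBounded.subset (image_mono subset_closure)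
  have hn : (tt x0 e '' A).Nonempty := hne.image _
  set a0 := sInf (tt x0 e '' A) with ha0
  set b0 := sSup (tt x0 e '' A) with hb0
  have hlo : ∀ x ∈ A, a0 ≤ tt x0 e x := fun x hx => csInf_le hbd.bddBelow ⟨x, hx, rfl⟩
  have hhi : ∀ x ∈ A, tt x0 e x ≤ b0 := fun x hx => le_csSup hbd.bddAbove ⟨x, hx, rfl⟩
  have hhit : ∀ u v : ℝ, u < v → u < b0 → a0 < v → ∃ x ∈ A, u < tt x0 e x ∧ tt x0 e x < v := by
    intro u v huv h1 h2
    obtain ⟨_, ⟨y, hy, rfl⟩, h3⟩ := exists_lt_of_lt_csSup hn h1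
    obtain ⟨_, ⟨z, hz, rfl⟩, h4⟩ := exists_lt_of_csInf_lt hn h2
    exact hit hc x0 e huv hy hz h3 h4
  have hab : ∀ x ∈ A, a0 - τ ≤ tt x0 e x - τ ∧ tt x0 e x ≤ b0 := fun x hx =>
    ⟨by linarith [hlo x hx], hhi x hx⟩
  have hsb : ∀ s, Bornology.IsBounded (sl A x0 e τ s) := fun s => hb.subset inter_subset_left
  have hpos : ∀ s ∈ Ioo (a0 - τ) b0, 0 < volume.real (sl A x0 e τ s) := by
    intro s hs
    obtain ⟨x, hx, h1⟩ := hhit s (s + τ) (by linarith) hs.2 (by linarith [hs.1])
    exact ENNReal.toReal_pos ((sl_open ho x0 e τ s).measure_ne_zero _ ⟨x, hx, h1⟩)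
      (vol_ne (hsb s))
  have main : ∀ (F : E d → ℝ) (ω : ℝ), Continuous F →
      (∀ x ∈ A, ∀ x', dist x' x ≤ 2 * τ → |F x' - F x| ≤ ω) →
      |(∫ x in A, F x) - ∫ s in Ioo (a0 - τ) b0,
        F (x0 + s • e) * (volume.real (sl A x0 e τ s) / τ)| ≤ ω * volume.real A := by
    intro F ω hF hω
    have hG : Continuous fun s : ℝ => F (x0 + s • e) / τ := by fun_prop
    obtain ⟨hi, hf⟩ := fub ho hb x0 e hab hG
    have e1 : (fun s : ℝ => F (x0 + s • e) * (volume.real (sl A x0 e τ s) / τ)) =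
        fun s => F (x0 + s • e) / τ * volume.real (sl A x0 e τ s) := by
      funext s
      ring
    rw [e1, hf, ← integral_sub (int_on hb hF) hi, ← Real.norm_eq_abs]
    refine norm_setIntegral_le_of_norm_le_const hb.measure_lt_top fun x hx => ?_
    have hv : volume.real (Ioo (tt x0 e x - τ) (tt x0 e x)) = τ := by
      rw [Real.volume_real_Ioo_of_le (by linarith)]
      ring
    have e2 : F x = ∫ _s in Ioo (tt x0 e x - τ) (tt x0 e x), F x / τ := by
      rw [setIntegral_const, hv, smul_eq_mul]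
      field_simp
    have hGi : IntegrableOn (fun s : ℝ => F (x0 + s • e) / τ) (Ioo (tt x0 e x - τ) (tt x0 e x)) :=
      hG.continuousOn.integrableOn_Icc.mono_set Ioo_subset_Icc_self
    have hci : IntegrableOn (fun _ : ℝ => F x / τ) (Ioo (tt x0 e x - τ) (tt x0 e x)) :=
      continuous_const.continuousOn.integrableOn_Icc.mono_set Ioo_subset_Icc_self
    have h3 : ‖∫ s in Ioo (tt x0 e x - τ) (tt x0 e x), (F x / τ - F (x0 + s • e) / τ)‖ ≤
        ω / τ * volume.real (Ioo (tt x0 e x - τ) (tt x0 e x)) := by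
      refine norm_setIntegral_le_of_norm_le_const (by simp) fun s hs => ?_
      have h4 : dist (x0 + s • e) x ≤ 2 * τ := by
        have h5 := dist_le he (hth x hx) s
        have h6 : |tt x0 e x - s| ≤ τ := abs_le.2 ⟨by linarith [hs.2], by linarith [hs.1]⟩
        linarith
      rw [← sub_div, Real.norm_eq_abs, abs_div, abs_of_pos hτ, abs_sub_comm]
      exact div_le_div_of_nonneg_right (hω x hx _ h4) hτ.le
    rw [integral_sub hci hGi, ← e2, hv, div_mul_cancel₀ _ hτ.ne'] at h3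
    exact h3
  refine ⟨x0, e, a0 - τ, b0, fun s => volume.real (sl A x0 e τ s) / τ, ⟨he, ⟨?_, ?_, ?_, ?_⟩, ?_⟩,
    ?_, main⟩
  · obtain ⟨x, hx⟩ := hne
    linarith [hlo x hx, hhi x hx]
  · exact fun s hs => div_pos (hpos s hs) hτ
  · exact ⟨volume.real A / τ, fun s _ => div_le_div_of_nonneg_right
      (measureReal_mono inter_subset_left (vol_ne hb)) hτ.le⟩
  · refine concaveOn_iff_forall_pos.2 ⟨convex_Ioo _ _, fun s hs s' hs' α β hα hβ h1 => ?_⟩
    have hs2 : α • s + β • s' ∈ Ioo (a0 - τ) b0 := convex_Ioo _ _ hs hs' hα.le hβ.le h1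
    obtain rfl : α = 1 - β := by linarith
    have h2 := hBM d (sl A x0 e τ s) (sl A x0 e τ s') (sl A x0 e τ ((1 - β) • s + β • s'))
      (sl_open ho x0 e τ _).measurableSet (sl_open ho x0 e τ _).measurableSet
      (sl_open ho x0 e τ _).measurableSet (hsb _) (hsb _) (hsb _) β hβ (by linarith) (by
        rintro x ⟨hx, h3, h4⟩ y ⟨hy, h5, h6⟩
        refine ⟨hc hx hy hα.le hβ.le h1, ?_, ?_⟩
        · rw [tt_comb, smul_eq_mul, smul_eq_mul]
          nlinarith [mul_pos hα (sub_pos.2 h3), mul_pos hβ (sub_pos.2 h5)]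
        · rw [tt_comb, smul_eq_mul, smul_eq_mul]
          nlinarith [mul_pos hα (sub_pos.2 h4), mul_pos hβ (sub_pos.2 h6)])
    have p1 := hpos s hs
    have p2 := hpos s' hs'
    have p3 := hpos _ hs2
    have h7 := Real.log_le_log (mul_pos (rpow_pos_of_pos p1 _) (rpow_pos_of_pos p2 _)) h2
    rw [Real.log_mul (rpow_pos_of_pos p1 _).ne' (rpow_pos_of_pos p2 _).ne', Real.log_rpow p1,
      Real.log_rpow p2] at h7
    simp only [Real.log_div p1.ne' hτ.ne', Real.log_div p2.ne' hτ.ne', Real.log_div p3.ne' hτ.ne']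
    simp only [smul_eq_mul] at h7 ⊢
    linarith
  · intro s hs
    obtain ⟨x, hx, h1, h2⟩ := hhit (s - 2 * τ) (s + 2 * τ) (by linarith) (by linarith [hs.2])
      (by linarith [hs.1])
    refine ⟨x, hx, ?_⟩
    have h5 := dist_le he (hth x hx) s
    have h6 : |tt x0 e x - s| ≤ 2 * τ := abs_le.2 ⟨by linarith, by linarith⟩
    linarith
  · have h := main (fun _ => 1) 0 continuous_const (fun _ _ _ _ => by simp)
    simp only [one_mul, zero_mul, setIntegral_const, smul_eq_mul, mul_one] at h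
    have := abs_nonpos_iff.1 h
    linarith

theorem pNL (hL : StLoc) (hN : StNeedle) : StNL := by
  intro d hd Ω hΩ f Ψ hf hΨ h0 H
  have hb := hΩ.2.2.2
  have key : ∀ ε : ℝ, 0 < ε → 0 ≤ (∫ x in Ω, Ψ x) + 2 * ε * volume.real Ω := by
    intro ε hε
    obtain ⟨η, hη, H1⟩ := H ε hε
    obtain ⟨R, hR⟩ := hb.subset_closedBall 0
    have hK : IsCompact (Metric.closedBall (0 : E d) (R + 1)) := isCompact_closedBall _ _
    obtain ⟨δ1, hδ1, u1⟩ := Metric.uniformContinuousOn_iff_le.1
      (hK.uniformContinuousOn_of_continuous hf.continuousOn) η hη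
    obtain ⟨δ2, hδ2, u2⟩ := Metric.uniformContinuousOn_iff_le.1
      (hK.uniformContinuousOn_of_continuous hΨ.continuousOn) ε hε
    set τ : ℝ := min (min δ1 δ2) (min 1 η) / 3 with hτ
    have m1 : min (min δ1 δ2) (min 1 η) ≤ δ1 := (min_le_left _ _).trans (min_le_left _ _)
    have m2 : min (min δ1 δ2) (min 1 η) ≤ δ2 := (min_le_left _ _).trans (min_le_right _ _)
    have m3 : min (min δ1 δ2) (min 1 η) ≤ 1 := (min_le_right _ _).trans (min_le_left _ _)
    have m4 : min (min δ1 δ2) (min 1 η) ≤ η := (min_le_right _ _).trans (min_le_right _ _)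
    have hτ0 : 0 < τ := div_pos (lt_min (lt_min hδ1 hδ2) (lt_min one_pos hη)) (by norm_num)
    have hin : ∀ x ∈ Ω, ∀ x', dist x' x ≤ 2 * τ →
        x' ∈ Metric.closedBall (0 : E d) (R + 1) ∧ x ∈ Metric.closedBall (0 : E d) (R + 1) := by
      intro x hx x' h
      have h1 : dist x 0 ≤ R := hR hx
      have h2 := dist_triangle x' x 0
      exact ⟨Metric.mem_closedBall.2 (by linarith), Metric.mem_closedBall.2 (by linarith)⟩
    have hsum : ∀ A : Set (E d), Bornology.IsBounded A →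
        ∫ x in A, (Ψ x + 2 * ε) = (∫ x in A, Ψ x) + 2 * ε * volume.real A := by
      intro A hA
      rw [integral_add (int_on hA hΨ) (int_on hA continuous_const), setIntegral_const, smul_eq_mul,
        mul_comm]
    rw [← hsum Ω hb]
    refine hL d hd Ω hΩ f (fun x => Ψ x + 2 * ε) (int_on hb hf)
      (int_on hb (hΨ.add continuous_const)) τ hτ0 (fun A hA hAΩ hT hA0 => ?_) h0
    obtain ⟨x0, e, a, b, p, ⟨he, hp, hnear⟩, hv, hF⟩ := hN d A hA τ hτ0 hT
    have h1 := hF f η hf fun x hx x' h => by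
      have := hin x (hAΩ hx) x' h
      rw [← Real.dist_eq]
      exact u1 _ this.1 _ this.2 (by linarith)
    have h2 := hF Ψ ε hΨ fun x hx x' h => by
      have := hin x (hAΩ hx) x' h
      rw [← Real.dist_eq]
      exact u2 _ this.1 _ this.2 (by linarith)
    rw [hA0, zero_sub, abs_neg] at h1
    have h3 := H1 x0 e a b p ⟨he, hp, fun s hs => by
      obtain ⟨x, hx, h⟩ := hnear s hs
      exact ⟨x, hAΩ hx, by linarith⟩⟩ (by rw [hv]; exact h1)
    rw [hv] at h3
    rw [hsum A hA.2.2.2]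
    linarith [(abs_le.1 h2).1]
  refine le_of_forall_pos_le_add fun ε hε => ?_
  have hV : 0 ≤ volume.real Ω := measureReal_nonneg
  have h1 := key (ε / (2 * (volume.real Ω + 1))) (by positivity)
  have h2 : 2 * (ε / (2 * (volume.real Ω + 1))) * volume.real Ω ≤ ε := by
    have : 2 * (ε / (2 * (volume.real Ω + 1))) * volume.real Ω =
        ε * (volume.real Ω / (volume.real Ω + 1)) := by
      field_simp
    rw [this]
    exact mul_le_of_le_one_right hε.le ((div_le_one (by positivity)).2 (by linarith))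
  linarith

end Pool.Agent.P.MP_5c8462_an.Ord
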