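import Pool.Agent.P.MP_5c8462_an.Ord.OneH

set_option autoImplicit false

namespace Pool.Agent.P.MP_5c8462_an.Ord

open MeasureTheory Real Set Filter Topology

namespace OneG

theorem lemA {l k : ℝ → ℝ} {a b : ℝ} (hab : a ≤ b) (hl : ConcaveOn ℝ (Ioo a b) l)
    (hk : ContinuousOn k (Icc a b)) :
    ∃ t ∈ Icc a b, MonotoneOn (fun s => l s - k t * s) (Ioo a t) ∧
      AntitoneOn (fun s => l s - k t * s) (Ioo t b) := by
  set S : Set ℝ := {t | t ∈ Icc a b ∧ ∀ x y, a < x → x < y → y < t → k t * (y - x) ≤ l y - l x}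
    with hS
  have hcl : IsClosed S := by
    have e : S = Icc a b ∩ ⋂ x, ⋂ y, ⋂ _ : a < x, ⋂ _ : x < y,
        (Iic y ∪ (Icc a b ∩ (fun t => k t * (y - x)) ⁻¹' Iic (l y - l x))) := by
      ext t
      simp only [hS, mem_ofPred_eq, mem_inter_iff, mem_iInter, mem_union, mem_Iic, mem_preimage]
      refine and_congr_right fun ht => forall₄_congr fun x y _ _ => ?_
      constructor
      · intro h
        rcases le_or_gt t y with h1 | h1
        · exact Or.inl h1
        · exact Or.inr ⟨ht, h h1⟩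
      · rintro (h | h) h1
        · exact absurd h1 (not_lt.2 h)
        · exact h.2
    rw [e]
    refine isClosed_Icc.inter (isClosed_iInter fun x => isClosed_iInter fun y =>
      isClosed_iInter fun _ => isClosed_iInter fun _ => isClosed_Iic.union ?_)
    exact (hk.mul continuousOn_const).preimage_isClosed_of_isClosed isClosed_Icc isClosed_Iic
  have haS : a ∈ S := ⟨left_mem_Icc.2 hab, fun x y h1 h2 h3 => absurd h3 (by linarith)⟩
  have hbd : BddAbove S := ⟨b, fun t ht => ht.1.2⟩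
  have hmem := hcl.csSup_mem ⟨a, haS⟩ hbd
  set t := sSup S with ht
  refine ⟨t, hmem.1, ?_, ?_⟩
  · intro x hx y hy hxy
    rcases hxy.eq_or_lt with rfl | hxy
    · exact le_rfl
    have := hmem.2 x y hx.1 hxy hy.2
    dsimp only
    linarith
  · intro x hx y hy hxy
    rcases hxy.eq_or_lt with rfl | hxy
    · exact le_rfl
    have hat := hmem.1.1
    have key : ∀ u ∈ Ioo t x, (l y - l x) / (y - x) ≤ k u := by
      intro u hu
      have hn : u ∉ S := fun h => absurd (le_csSup hbd h) (not_le.2 hu.1)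
      have hu' : u ∈ Icc a b := ⟨by linarith [hu.1], by linarith [hu.2, hx.2]⟩
      simp only [hS, mem_ofPred_eq, not_and, not_forall, not_le] at hn
      obtain ⟨x', y', h1, h2, h3, h4⟩ := hn hu'
      have h5 : y' < x := h3.trans hu.2
      have s1 := hl.slope_anti_adjacent (x := x') (y := y') (z := x)
        ⟨h1, by linarith [hx.2]⟩ ⟨by linarith [hx.1], hx.2⟩ h2 h5
      have s2 := hl.slope_anti_adjacent (x := y') (y := x) (z := y)
        ⟨by linarith, by linarith [hx.2]⟩ ⟨by linarith [hy.1], hy.2⟩ h5 hxy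
      have s3 : (l y' - l x') / (y' - x') ≤ k u := by
        rw [div_le_iff₀ (by linarith)]
        exact h4.le
      linarith
    have hsub : Ioo t x ⊆ Icc a b := fun u hu => ⟨by linarith [hu.1], by linarith [hu.2, hx.2]⟩
    have hlim : Tendsto k (𝓝[Ioo t x] t) (𝓝 (k t)) := (hk t hmem.1).mono hsub
    have := left_nhdsWithin_Ioo_neBot hx.1
    have h6 : (l y - l x) / (y - x) ≤ k t :=
      ge_of_tendsto hlim (eventually_mem_nhdsWithin.mono key)
    rw [div_le_iff₀ (by linarith)] at h6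
    dsimp only
    linarith

theorem lemB0 {t b C : ℝ} {w Q : ℝ → ℝ} (hw : Measurable w) (h0 : ∀ s ∈ Ioo t b, 0 ≤ w s)
    (hC : ∀ s ∈ Ioo t b, w s ≤ C) (ha : AntitoneOn w (Ioo t b)) (hQ : Continuous Q)
    (hF : ∀ s ∈ Icc t b, 0 ≤ ∫ u in Ioo t s, Q u) : 0 ≤ ∫ s in Ioo t b, Q s * w s := by
  have hQi : Integrable Q (volume.restrict (Ioo t b)) :=
    (hQ.integrableOn_Icc (a := t) (b := b)).mono_set Ioo_subset_Icc_self
  have hms : MeasurableSet {q : ℝ × ℝ | q.2 < w q.1} :=
    measurableSet_lt measurable_snd (hw.comp measurable_fst)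
  have hI : Integrable (Function.uncurry fun s y : ℝ => if y < w s then Q s else 0)
      ((volume.restrict (Ioo t b)).prod (volume.restrict (Ioo 0 C))) := by
    refine ((hQi.comp_fst (volume.restrict (Ioo 0 C))).indicator hms).congr
      (Eventually.of_forall fun q => ?_)
    simp only [indicator, mem_ofPred_eq, Function.uncurry]
  have e1 : ∫ s in Ioo t b, Q s * w s =
      ∫ s in Ioo t b, ∫ y in Ioo 0 C, if y < w s then Q s else 0 := by
    refine setIntegral_congr_fun measurableSet_Ioo fun s hs => ?_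
    have e : (fun y : ℝ => if y < w s then Q s else 0) = (Iio (w s)).indicator fun _ => Q s := by
      funext y
      simp only [indicator, mem_Iio]
    have e2 : Ioo 0 C ∩ Iio (w s) = Ioo 0 (w s) := by
      ext y
      simp only [mem_inter_iff, mem_Ioo, mem_Iio]
      exact ⟨fun h => ⟨h.1.1, h.2⟩, fun h => ⟨⟨h.1, h.2.trans_le (hC s hs)⟩, h.2⟩⟩
    rw [e, setIntegral_indicator measurableSet_Iio, e2, setIntegral_const, smul_eq_mul,
      Real.volume_real_Ioo_of_le (h0 s hs), sub_zero, mul_comm]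
  rw [e1, integral_integral_swap hI]
  refine integral_nonneg fun y => ?_
  have e : (fun s : ℝ => if y < w s then Q s else 0) = {s | y < w s}.indicator Q := by
    funext s
    simp only [indicator, mem_ofPred_eq]
  have hm : MeasurableSet {s | y < w s} := measurableSet_lt measurable_const hw
  show 0 ≤ ∫ s in Ioo t b, if y < w s then Q s else 0
  rw [e, setIntegral_indicator hm]
  set S := Ioo t b ∩ {s | y < w s} with hS
  rcases S.eq_empty_or_nonempty with h | h
  · rw [h]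
    simp
  have hbd : BddAbove S := ⟨b, fun s hs => hs.1.2.le⟩
  obtain ⟨s0, hs0⟩ := h
  have h1 : sSup S ∈ Icc t b :=
    ⟨hs0.1.1.le.trans (le_csSup hbd hs0), csSup_le ⟨s0, hs0⟩ fun s hs => hs.1.2.le⟩
  have h2 : Ioo t (sSup S) ⊆ S := by
    intro s hs
    obtain ⟨u, hu, hsu⟩ := exists_lt_of_lt_csSup ⟨s0, hs0⟩ hs.2
    have hs' : s ∈ Ioo t b := ⟨hs.1, hsu.trans hu.1.2⟩
    exact ⟨hs', lt_of_lt_of_le hu.2 (ha hs' hu.1 hsu.le)⟩
  have h3 : S ⊆ Ioc t (sSup S) := fun s hs => ⟨hs.1.1, le_csSup hbd hs⟩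
  have h4 : S =ᵐ[volume] Ioo t (sSup S) :=
    (h3.eventuallyLE.trans Ioo_ae_eq_Ioc.symm.le).antisymm h2.eventuallyLE
  rw [setIntegral_congr_set h4]
  exact hF _ h1

theorem lemB {t b C : ℝ} {w Q : ℝ → ℝ} (hw : ContinuousOn w (Ioo t b))
    (h0 : ∀ s ∈ Ioo t b, 0 ≤ w s)
    (hC : ∀ s ∈ Ioo t b, w s ≤ C) (ha : AntitoneOn w (Ioo t b)) (hQ : Continuous Q)
    (hF : ∀ s ∈ Icc t b, 0 ≤ ∫ u in Ioo t s, Q u) : 0 ≤ ∫ s in Ioo t b, Q s * w s := by
  classical
  have hm : Measurable ((Ioo t b).piecewise w fun _ => 0) :=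
    hw.measurable_piecewise continuousOn_const measurableSet_Ioo
  have e : ∀ s ∈ Ioo t b, (Ioo t b).piecewise w (fun _ => 0) s = w s := fun s hs =>
    piecewise_eq_of_mem _ _ _ hs
  have := lemB0 (C := C) hm (fun s hs => by rw [e s hs]; exact h0 s hs)
    (fun s hs => by rw [e s hs]; exact hC s hs)
    (fun x hx y hy hxy => by rw [e x hx, e y hy]; exact ha hx hy hxy) hQ hF
  rwa [setIntegral_congr_fun measurableSet_Ioo (g := fun s => Q s * w s)
    fun s hs => by simp only [e s hs]] at this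

theorem coreR {t b C lam : ℝ} {G G' ψ ψ' W W' w : ℝ → ℝ} (hG : ∀ s, HasDerivAt G (G' s) s)
    (hG' : Continuous G') (hG0 : G t = 0) (hψ : ∀ s ∈ Icc t b, HasDerivAt ψ (ψ' s) s)
    (hψ0 : ∀ s ∈ Icc t b, 0 ≤ ψ s) (hW : ∀ s, HasDerivAt W (W' s) s) (hW0 : ∀ s, 0 ≤ W s)
    (hR : ∀ s ∈ Icc t b, W s * (ψ s ^ 2 + ψ' s + lam) + ψ s * W' s ≤ 0)
    (hw : ContinuousOn w (Ioo t b)) (h0 : ∀ s ∈ Ioo t b, 0 ≤ w s)
    (hC : ∀ s ∈ Ioo t b, w s ≤ C) (ha : AntitoneOn w (Ioo t b)) :
    0 ≤ ∫ s in Ioo t b, (G' s ^ 2 - lam * G s ^ 2) * W s * w s := by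
  have cG : Continuous G := continuous_iff_continuousAt.2 fun s => (hG s).continuousAt
  have cW : Continuous W := continuous_iff_continuousAt.2 fun s => (hW s).continuousAt
  have hQ : Continuous fun s => (G' s ^ 2 - lam * G s ^ 2) * W s := by fun_prop
  refine lemB hw h0 hC ha hQ fun s hs => ?_
  have hsub : Icc t s ⊆ Icc t b := Icc_subset_Icc_right hs.2
  have hd : ∀ u ∈ Icc t s, HasDerivAt (fun u => G u * G u * ψ u * W u)
      (((G' u * G u + G u * G' u) * ψ u + G u * G u * ψ' u) * W u + G u * G u * ψ u * W' u) u :=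
    fun u hu => (((hG u).mul (hG u)).mul (hψ u (hsub hu))).mul (hW u)
  have h1 := intervalIntegral.sub_le_integral_of_hasDeriv_right_of_le hs.1
    (fun u hu => (hd u hu).continuousAt.continuousWithinAt)
    (fun u hu => (hd u (Ioo_subset_Icc_self hu)).hasDerivWithinAt)
    (hQ.integrableOn_Icc (a := t) (b := s)) (fun u hu => by
      have h2 := hR u (hsub (Ioo_subset_Icc_self hu))
      have h3 := mul_nonneg (hW0 u) (sq_nonneg (G' u - ψ u * G u))
      have h4 := mul_nonneg (sq_nonneg (G u)) (neg_nonneg.2 h2)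
      nlinarith)
  rw [intervalIntegral.integral_of_le hs.1, integral_Ioc_eq_integral_Ioo, hG0] at h1
  have h5 := mul_nonneg (mul_nonneg (mul_self_nonneg (G s)) (hψ0 s hs)) (hW0 s)
  linarith

theorem coreL {t a C lam : ℝ} {G G' ψ ψ' W W' w : ℝ → ℝ} (hat : a ≤ t)
    (hG : ∀ s, HasDerivAt G (G' s) s)
    (hG' : Continuous G') (hG0 : G t = 0) (hψ : ∀ s ∈ Icc a t, HasDerivAt ψ (ψ' s) s)
    (hψ0 : ∀ s ∈ Icc a t, ψ s ≤ 0) (hW : ∀ s, HasDerivAt W (W' s) s) (hW0 : ∀ s, 0 ≤ W s)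
    (hR : ∀ s ∈ Icc a t, W s * (ψ s ^ 2 + ψ' s + lam) + ψ s * W' s ≤ 0)
    (hw : ContinuousOn w (Ioo a t)) (h0 : ∀ s ∈ Ioo a t, 0 ≤ w s)
    (hC : ∀ s ∈ Ioo a t, w s ≤ C) (ha : MonotoneOn w (Ioo a t)) :
    0 ≤ ∫ s in Ioo a t, (G' s ^ 2 - lam * G s ^ 2) * W s * w s := by
  have m1 : ∀ s ∈ Icc (-t) (-a), -s ∈ Icc a t := fun s hs => ⟨by linarith [hs.2], by linarith [hs.1]⟩
  have m2 : ∀ s ∈ Ioo (-t) (-a), -s ∈ Ioo a t := fun s hs => ⟨by linarith [hs.2], by linarith [hs.1]⟩
  have h := coreR (t := -t) (b := -a) (C := C) (lam := lam) (G := fun s => G (-s))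
    (G' := fun s => G' (-s) * (-1)) (ψ := fun s => -ψ (-s)) (ψ' := fun s => -(ψ' (-s) * (-1)))
    (W := fun s => W (-s)) (W' := fun s => W' (-s) * (-1)) (w := fun s => w (-s))
    (fun s => (hG (-s)).comp s (hasDerivAt_neg s)) (by fun_prop) (by simpa using hG0)
    (fun s hs => ((hψ _ (m1 s hs)).comp s (hasDerivAt_neg s)).neg)
    (fun s hs => neg_nonneg.2 (hψ0 _ (m1 s hs)))
    (fun s => (hW (-s)).comp s (hasDerivAt_neg s)) (fun s => hW0 _)
    (fun s hs => by have := hR _ (m1 s hs); linarith)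
    (hw.comp continuous_neg.continuousOn m2) (fun s hs => h0 _ (m2 s hs))
    (fun s hs => hC _ (m2 s hs)) (fun x hx y hy hxy => ha (m2 y hy) (m2 x hx) (neg_le_neg hxy))
  have e := intervalIntegral.integral_comp_neg (a := -t) (b := -a)
    (fun s => (G' s ^ 2 - lam * G s ^ 2) * W s * w s)
  rw [neg_neg, neg_neg, intervalIntegral.integral_of_le hat,
    intervalIntegral.integral_of_le (neg_le_neg hat), integral_Ioc_eq_integral_Ioo,
    integral_Ioc_eq_integral_Ioo] at e
  rw [← e]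
  refine h.trans_eq (setIntegral_congr_fun measurableSet_Ioo fun s _ => ?_)
  ring

theorem both {p k : ℝ → ℝ} {a b : ℝ} (H : LC p a b) (hk : ContinuousOn k (Icc a b)) :
    ∃ t ∈ Icc a b, ∀ (lam : ℝ) (G G' W W' ψ ψ' φ φ' : ℝ → ℝ), (∀ s, HasDerivAt G (G' s) s) →
      Continuous G' → G t = 0 → (∀ s, HasDerivAt W (W' s) s) → (∀ s, 0 ≤ W s) →
      (∀ s ∈ Icc t b, HasDerivAt ψ (ψ' s) s) → (∀ s ∈ Icc t b, 0 ≤ ψ s) →
      (∀ s ∈ Icc t b, W s * (ψ s ^ 2 + ψ' s + lam) + ψ s * W' s ≤ 0) →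
      (∀ s ∈ Icc a t, HasDerivAt φ (φ' s) s) → (∀ s ∈ Icc a t, φ s ≤ 0) →
      (∀ s ∈ Icc a t, W s * (φ s ^ 2 + φ' s + lam) + φ s * W' s ≤ 0) →
      0 ≤ ∫ s in Ioo a b, (G' s ^ 2 - lam * G s ^ 2) * W s * exp (-(k t * s)) * p s := by
  obtain ⟨t, ht, hm, ha⟩ := lemA H.lt.le H.conc hk
  refine ⟨t, ht, fun lam G G' W W' ψ ψ' φ φ' hG hG' hG0 hW hW0 hψ hψ0 hR hφ hφ0 hL => ?_⟩
  obtain ⟨C, hC⟩ := H.bdd
  have cG : Continuous G := continuous_iff_continuousAt.2 fun s => (hG s).continuousAt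
  have cW : Continuous W := continuous_iff_continuousAt.2 fun s => (hW s).continuousAt
  set w : ℝ → ℝ := fun s => exp (-(k t * s)) * p s with hw
  have cw : ContinuousOn w (Ioo a b) :=
    (by fun_prop : Continuous fun s => exp (-(k t * s))).continuousOn.mul (OneH.cont_p H)
  have w0 : ∀ s ∈ Ioo a b, 0 ≤ w s := fun s hs => mul_nonneg (exp_pos _).le (H.pos s hs).le
  have wC : ∀ s ∈ Ioo a b, w s ≤ exp (|k t| * (|a| + |b|)) * C := fun s hs => by
    refine mul_le_mul (exp_le_exp.2 ?_) (hC s hs) (H.pos s hs).le (exp_pos _).le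
    have h1 : |s| ≤ |a| + |b| := by
      rw [abs_le]
      constructor <;> linarith [hs.1, hs.2, neg_abs_le a, le_abs_self b, abs_nonneg a, abs_nonneg b]
    calc -(k t * s) ≤ |k t * s| := neg_le_abs _
      _ = |k t| * |s| := abs_mul _ _
      _ ≤ _ := mul_le_mul_of_nonneg_left h1 (abs_nonneg _)
  have we : ∀ s ∈ Ioo a b, w s = exp (Real.log (p s) - k t * s) := fun s hs => by
    rw [sub_eq_add_neg, exp_add, exp_log (H.pos s hs), mul_comm]
  have s1 : Ioo a t ⊆ Ioo a b := Ioo_subset_Ioo_right ht.2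
  have s2 : Ioo t b ⊆ Ioo a b := Ioo_subset_Ioo_left ht.1
  have r1 := coreL (lam := lam) ht.1 hG hG' hG0 hφ hφ0 hW hW0 hL (cw.mono s1)
    (fun s hs => w0 s (s1 hs)) (fun s hs => wC s (s1 hs)) (fun x hx y hy hxy => by
      rw [we x (s1 hx), we y (s1 hy)]
      exact exp_le_exp.2 (hm hx hy hxy))
  have r2 := coreR (lam := lam) hG hG' hG0 hψ hψ0 hW hW0 hR (cw.mono s2)
    (fun s hs => w0 s (s2 hs)) (fun s hs => wC s (s2 hs)) (fun x hx y hy hxy => by
      rw [we x (s2 hx), we y (s2 hy)]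
      exact exp_le_exp.2 (ha hx hy hxy))
  have hI := OneH.int_p H (F := fun s => (G' s ^ 2 - lam * G s ^ 2) * W s * exp (-(k t * s)))
    (by fun_prop)
  have e := intervalIntegral.integral_add_adjacent_intervals
    ((intervalIntegrable_iff_integrableOn_Ioo_of_le ht.1).2 (hI.mono_set s1))
    ((intervalIntegrable_iff_integrableOn_Ioo_of_le ht.2).2 (hI.mono_set s2))
  rw [intervalIntegral.integral_of_le ht.1, intervalIntegral.integral_of_le ht.2,
    intervalIntegral.integral_of_le H.lt.le, integral_Ioc_eq_integral_Ioo,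
    integral_Ioc_eq_integral_Ioo, integral_Ioc_eq_integral_Ioo] at e
  rw [← e]
  simp only [hw, ← mul_assoc] at r1 r2
  exact add_nonneg r1 r2

theorem g1_der (h t s : ℝ) (hh : 0 < h) :
    HasDerivAt (g1 h t) (g1 h t s * (-(s - t) / h)) s := by
  have h1 : HasDerivAt (fun s => -(s - t) ^ 2 / (2 * h)) (-(s - t) / h) s := by
    have := (((hasDerivAt_id s).sub_const t).pow 2).neg.div_const (2 * h)
    refine this.congr_deriv ?_
    simp only [id]
    field_simp
    ring
  exact h1.exp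

theorem ric {r x : ℝ} (hr : 0 < r) (hx : 0 ≤ x) :
    ((1 / 2) / (x + r)) ^ 2 + -(1 / 2) / (x + r) ^ 2 + 1 / (16 * (r * r)) +
      (1 / 2) / (x + r) * (-x / (r * r)) ≤ 0 := by
  have h1 : 0 < x + r := by linarith
  have e : ((1 / 2) / (x + r)) ^ 2 + -(1 / 2) / (x + r) ^ 2 + 1 / (16 * (r * r)) +
      (1 / 2) / (x + r) * (-x / (r * r)) =
      -((3 * r ^ 2 + 6 * x * r + 7 * x ^ 2) / (16 * r ^ 2 * (x + r) ^ 2)) := by
    field_simp
    ring
  rw [e, neg_nonpos]
  positivity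

theorem cot_der {ω c s : ℝ} (h : sin (ω * (s + c)) ≠ 0) :
    HasDerivAt (fun s => ω * (cos (ω * (s + c)) / sin (ω * (s + c))))
      (-(ω ^ 2 * (1 + (cos (ω * (s + c)) / sin (ω * (s + c))) ^ 2))) s := by
  have h1 : HasDerivAt (fun s => ω * (s + c)) ω s := by
    simpa using ((hasDerivAt_id s).add_const c).const_mul ω
  refine ((h1.cos.div h1.sin h).const_mul ω).congr_deriv ?_
  field_simp
  ring

end OneG

open OneG

theorem p1G : St1G := by
  intro p a b H h c hh v hv
  obtain ⟨t, ht, key⟩ := both (k := fun t => (t - c) / h) H (by fun_prop)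
  obtain ⟨r, hr, rfl⟩ : ∃ r : ℝ, 0 < r ∧ h = r * r :=
    ⟨√h, sqrt_pos.2 hh, (mul_self_sqrt hh.le).symm⟩
  have hd : ∀ s, HasDerivAt v (deriv v s) s := fun s =>
    (hv.differentiable one_ne_zero s).hasDerivAt
  have hc : Continuous (deriv v) := hv.continuous_deriv le_rfl
  have cv : Continuous v := hv.continuous
  have g0 : ∀ s, 0 ≤ g1 (r * r) t s := fun s => (exp_pos _).le
  have h1 := key (1 / (16 * (r * r))) (fun s => v s - v t) (deriv v) (g1 (r * r) t)
    (fun s => g1 (r * r) t s * (-(s - t) / (r * r))) (fun s => (1 / 2) / (s - t + r))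
    (fun s => -(1 / 2) / (s - t + r) ^ 2) (fun s => -((1 / 2) / (t - s + r)))
    (fun s => -(1 / 2) / (t - s + r) ^ 2) (fun s => (hd s).sub_const _) hc (sub_self _)
    (fun s => g1_der _ t s hh) g0
    (fun s hs => by
      have h0 : s - t + r ≠ 0 := by linarith [hs.1]
      refine ((hasDerivAt_const s (1 / 2 : ℝ)).div
        (((hasDerivAt_id s).sub_const t).add_const r) h0).congr_deriv ?_
      simp)
    (fun s hs => div_nonneg (by norm_num) (by linarith [hs.1]))
    (fun s hs => by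
      have := mul_nonneg (g0 s) (neg_nonneg.2 (ric hr (sub_nonneg.2 hs.1)))
      linarith)
    (fun s hs => by
      have h0 : t - s + r ≠ 0 := by linarith [hs.2]
      refine ((hasDerivAt_const s (1 / 2 : ℝ)).div
        (((hasDerivAt_id s).const_sub t).add_const r) h0).neg.congr_deriv ?_
      simp [neg_div])
    (fun s hs => neg_nonpos.2 (div_nonneg (by norm_num) (by linarith [hs.2])))
    (fun s hs => by
      have := mul_nonneg (g0 s) (neg_nonneg.2 (ric hr (sub_nonneg.2 hs.2)))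
      have e : -(t - s) / (r * r) = -(-(s - t) / (r * r)) := by ring
      rw [e] at this
      linarith)
  refine ⟨v t, ?_⟩
  have cg : Continuous (g1 (r * r) c) := by
    unfold g1
    fun_prop
  have i1 := OneH.int_p H (F := fun s => (v s - v t) ^ 2 * g1 (r * r) c s) (by fun_prop)
  have i2 := OneH.int_p H (F := fun s => deriv v s ^ 2 * g1 (r * r) c s) (by fun_prop)
  have e : ∀ s, g1 (r * r) c s = exp ((t ^ 2 - c ^ 2) / (2 * (r * r))) *
      (g1 (r * r) t s * exp (-((t - c) / (r * r) * s))) := fun s => by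
    unfold g1
    rw [← exp_add, ← exp_add]
    congr 1
    field_simp
    ring
  have h2 := mul_nonneg (by positivity : 0 ≤ 16 * (r * r) * exp ((t ^ 2 - c ^ 2) / (2 * (r * r)))) h1
  rw [← integral_const_mul] at h2
  simp only [← mul_assoc]
  rw [← sub_nonneg, ← integral_const_mul, ← integral_sub (i2.const_mul _) i1]
  refine h2.trans_eq (setIntegral_congr_fun measurableSet_Ioo fun s _ => ?_)
  rw [e s]
  field_simp

theorem p1P : St1P := by
  intro p a b H L hL v hv
  have hab := H.lt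
  have hL0 : 0 < L := by linarith
  obtain ⟨ω, hω⟩ : ∃ ω : ℝ, ω = π / L := ⟨_, rfl⟩
  have hω0 : 0 < ω := hω ▸ div_pos pi_pos hL0
  have hπ : ω * L = π := by
    rw [hω]
    field_simp
  obtain ⟨δ, hδ⟩ : ∃ δ : ℝ, δ = (L - (b - a)) / 2 := ⟨_, rfl⟩
  have hδ0 : 0 < δ := by linarith
  have sp : ∀ x, 0 < x → x < L → 0 < sin (ω * x) := fun x h1 h2 =>
    sin_pos_of_pos_of_lt_pi (mul_pos hω0 h1) (hπ ▸ mul_lt_mul_of_pos_left h2 hω0)
  have sn : ∀ x, 0 ≤ x → x ≤ L → 0 ≤ sin (ω * x) := fun x h1 h2 =>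
    sin_nonneg_of_nonneg_of_le_pi (mul_nonneg hω0.le h1) (hπ ▸ mul_le_mul_of_nonneg_left h2 hω0.le)
  obtain ⟨t, ht, key⟩ := both
    (k := fun t => -2 * (ω * (cos (ω * (t + (δ - a))) / sin (ω * (t + (δ - a)))))) H
    (continuousOn_const.mul (continuousOn_const.mul (ContinuousOn.div (by fun_prop) (by fun_prop)
      fun x hx => (sp _ (by linarith [hx.1]) (by linarith [hx.2])).ne')))
  have hA := sp (t + (δ - a)) (by linarith [ht.1]) (by linarith [ht.2])
  set q := ω * (cos (ω * (t + (δ - a))) / sin (ω * (t + (δ - a)))) with hq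
  have hd : ∀ s, HasDerivAt v (deriv v s) s := fun s =>
    (hv.differentiable one_ne_zero s).hasDerivAt
  have hc : Continuous (deriv v) := hv.continuous_deriv le_rfl
  have cv : Continuous v := hv.continuous
  have h1 := key (ω ^ 2) (fun s => v s - v t) (deriv v) (fun s => exp (-2 * q * s))
    (fun s => exp (-2 * q * s) * (-2 * q))
    (fun s => q + ω * (cos (ω * (s + (δ - t))) / sin (ω * (s + (δ - t)))))
    (fun s => -(ω ^ 2 * (1 + (cos (ω * (s + (δ - t))) / sin (ω * (s + (δ - t)))) ^ 2)))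
    (fun s => q + ω * (cos (ω * (s + (-δ - t))) / sin (ω * (s + (-δ - t)))))
    (fun s => -(ω ^ 2 * (1 + (cos (ω * (s + (-δ - t))) / sin (ω * (s + (-δ - t)))) ^ 2)))
    (fun s => (hd s).sub_const _) hc (sub_self _)
    (fun s => by simpa using ((hasDerivAt_id s).const_mul (-2 * q)).exp)
    (fun s => (exp_pos _).le)
    (fun s hs => (cot_der (sp _ (by linarith [hs.1]) (by linarith [hs.2, ht.1])).ne').const_add q)
    (fun s hs => by
      have hB := sp (s + (δ - t)) (by linarith [hs.1]) (by linarith [hs.2, ht.1])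
      have hS := sn (t + (δ - a) + (s + (δ - t))) (by linarith [hs.1, ht.1]) (by linarith [hs.2])
      rw [mul_add, sin_add] at hS
      rw [hq, ← mul_add, div_add_div _ _ hA.ne' hB.ne']
      exact mul_nonneg hω0.le (div_nonneg (by linarith) (mul_pos hA hB).le))
    (fun s _ => by
      have := mul_nonneg (exp_pos (-2 * q * s)).le (sq_nonneg q)
      linarith)
    (fun s hs => by
      have hB := sp (t + δ - s) (by linarith [hs.2]) (by linarith [hs.1, ht.2])
      refine (cot_der ?_).const_add q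
      rw [show ω * (s + (-δ - t)) = -(ω * (t + δ - s)) by ring, sin_neg]
      exact neg_ne_zero.2 hB.ne')
    (fun s hs => by
      have hB := sp (t + δ - s) (by linarith [hs.2]) (by linarith [hs.1, ht.2])
      have hS := sn (t + (δ - a) - (t + δ - s)) (by linarith [hs.1]) (by linarith [hs.2, ht.2])
      rw [mul_sub, sin_sub] at hS
      rw [hq, show ω * (s + (-δ - t)) = -(ω * (t + δ - s)) by ring, sin_neg, cos_neg, div_neg,
        ← mul_add, ← sub_eq_add_neg, div_sub_div _ _ hA.ne' hB.ne']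
      exact mul_nonpos_of_nonneg_of_nonpos hω0.le
        (div_nonpos_of_nonpos_of_nonneg (by linarith) (mul_pos hA hB).le))
    (fun s _ => by
      have := mul_nonneg (exp_pos (-2 * q * s)).le (sq_nonneg q)
      linarith)
  refine ⟨v t, ?_⟩
  have i1 := OneH.int_p H (F := fun s => (v s - v t) ^ 2) (by fun_prop)
  have i2 := OneH.int_p H (F := fun s => deriv v s ^ 2) (by fun_prop)
  have h2 := mul_nonneg (sq_nonneg L) h1
  rw [← integral_const_mul] at h2
  rw [← sub_nonneg, ← integral_const_mul, ← integral_const_mul,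
    ← integral_sub (i2.const_mul _) (i1.const_mul _)]
  refine h2.trans_eq (setIntegral_congr_fun measurableSet_Ioo fun s _ => ?_)
  have e : exp (-2 * q * s) * exp (-(-2 * q * s)) = 1 := by
    rw [← exp_add, add_neg_cancel, exp_zero]
  rw [← hπ, mul_assoc _ (exp (-2 * q * s)), e]
  ring

end Pool.Agent.P.MP_5c8462_an.Ord
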