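import Pool.Agent.P.MP_5c8462_an.Ord.Defs

/-! Monotone coupling of two Gaussian tilts of a log-concave density. -/

set_option autoImplicit false

namespace Pool.Agent.P.MP_5c8462_an.Ord

open MeasureTheory Real Set

namespace OneT

/-- A positive continuous integrable weight on an open interval. -/
structure Wt (w : ℝ → ℝ) (a b : ℝ) : Prop where
  lt : a < b
  cont : ContinuousOn w (Ioo a b)
  pos : ∀ s ∈ Ioo a b, 0 < w s
  int : IntegrableOn w (Ioo a b)

theorem Wt.ii {w : ℝ → ℝ} {a b : ℝ} (H : Wt w a b) {s t : ℝ} (hs : s ∈ Icc a b)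
    (ht : t ∈ Icc a b) : IntervalIntegrable w volume s t := by
  have h1 : IntervalIntegrable w volume a b := by
    rw [intervalIntegrable_iff_integrableOn_Ioo_of_le H.lt.le]; exact H.int
  refine h1.mono_set ?_
  rw [uIcc_of_le H.lt.le]
  exact uIcc_subset_Icc hs ht

theorem Wt.mul {w : ℝ → ℝ} {a b : ℝ} (H : Wt w a b) {φ : ℝ → ℝ} (hφ : Continuous φ) {s t : ℝ}
    (hs : s ∈ Icc a b) (ht : t ∈ Icc a b) :
    IntervalIntegrable (fun x => φ x * w x) volume s t :=
  (H.ii hs ht).continuousOn_mul hφ.continuousOn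

theorem Wt.int_pos {w : ℝ → ℝ} {a b : ℝ} (H : Wt w a b) {s t : ℝ} (hs : s ∈ Icc a b)
    (ht : t ∈ Icc a b) (hst : s < t) : 0 < ∫ x in s..t, w x :=
  intervalIntegral.intervalIntegral_pos_of_pos_on (H.ii hs ht)
    (fun x hx => H.pos x ⟨lt_of_le_of_lt hs.1 hx.1, lt_of_lt_of_le hx.2 ht.2⟩) hst

theorem Wt.int_nonneg {w : ℝ → ℝ} {a b : ℝ} (H : Wt w a b) {s t : ℝ} (hs : s ∈ Icc a b)
    (ht : t ∈ Icc a b) (hst : s ≤ t) : 0 ≤ ∫ x in s..t, w x := by
  rcases hst.eq_or_lt with rfl | h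
  · simp
  · exact (H.int_pos hs ht h).le

theorem Wt.split {w : ℝ → ℝ} {a b : ℝ} (H : Wt w a b) {s t u : ℝ} (hs : s ∈ Icc a b)
    (ht : t ∈ Icc a b) (hu : u ∈ Icc a b) :
    (∫ x in s..t, w x) + ∫ x in t..u, w x = ∫ x in s..u, w x :=
  intervalIntegral.integral_add_adjacent_intervals (H.ii hs ht) (H.ii ht hu)

theorem Wt.strict {w : ℝ → ℝ} {a b : ℝ} (H : Wt w a b) {s t : ℝ} (hs : s ∈ Icc a b)
    (ht : t ∈ Icc a b) (hst : s < t) : ∫ x in a..s, w x < ∫ x in a..t, w x := by
  have := H.split (left_mem_Icc.2 H.lt.le) hs ht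
  have := H.int_pos hs ht hst
  linarith

theorem Wt.div {w : ℝ → ℝ} {a b : ℝ} (H : Wt w a b) {Z : ℝ} (hZ : 0 < Z) :
    Wt (fun x => w x / Z) a b :=
  ⟨H.lt, H.cont.div_const Z, fun s hs => div_pos (H.pos s hs) hZ, H.int.div_const Z⟩

theorem Wt.prim_cont {w : ℝ → ℝ} {a b : ℝ} (H : Wt w a b) {φ : ℝ → ℝ} (hφ : Continuous φ) :
    ContinuousOn (fun s => ∫ x in a..s, φ x * w x) (Icc a b) := by
  have h := intervalIntegral.continuousOn_primitive_interval'
    (H.mul hφ (left_mem_Icc.2 H.lt.le) (right_mem_Icc.2 H.lt.le)) (left_mem_uIcc (a := a) (b := b))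
  rwa [uIcc_of_le H.lt.le] at h

theorem Wt.prim_deriv {w : ℝ → ℝ} {a b : ℝ} (H : Wt w a b) {φ : ℝ → ℝ} (hφ : Continuous φ)
    {s : ℝ} (hs : s ∈ Ioo a b) :
    HasDerivAt (fun s => ∫ x in a..s, φ x * w x) (φ s * w s) s := by
  have hc : ContinuousOn (fun x => φ x * w x) (Ioo a b) := hφ.continuousOn.mul H.cont
  exact intervalIntegral.integral_hasDerivAt_right
    (H.mul hφ (left_mem_Icc.2 H.lt.le) (Ioo_subset_Icc_self hs))
    (hc.stronglyMeasurableAtFilter isOpen_Ioo s hs) (hc.continuousAt (isOpen_Ioo.mem_nhds hs))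

/-- The quantile function. -/
theorem Wt.quant {w : ℝ → ℝ} {a b : ℝ} (H : Wt w a b) (h1 : ∫ x in a..b, w x = 1) :
    ∃ Q : ℝ → ℝ, Continuous Q ∧ Q 0 = a ∧ Q 1 = b ∧
      (∀ u ∈ Icc (0 : ℝ) 1, Q u ∈ Icc a b ∧ ∫ x in a..Q u, w x = u) ∧
      ∀ u ∈ Ioo (0 : ℝ) 1, Q u ∈ Ioo a b := by
  have ha : a ∈ Icc a b := left_mem_Icc.2 H.lt.le
  have hb : b ∈ Icc a b := right_mem_Icc.2 H.lt.le
  set cl : ℝ → ℝ := fun s => max a (min s b) with hcl
  have hclm : ∀ s, cl s ∈ Icc a b := fun s =>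
    ⟨le_max_left _ _, max_le H.lt.le (min_le_right _ _)⟩
  have hclc : Continuous cl := continuous_const.max (continuous_id.min continuous_const)
  have hcl1 : ∀ s ∈ Icc a b, cl s = s := fun s hs => by
    simp only [hcl]; rw [min_eq_left hs.2, max_eq_right hs.1]
  have hcl2 : ∀ s, s ≤ a → cl s = a := fun s hs => by
    simp only [hcl]; exact max_eq_left ((min_le_left _ _).trans hs)
  have hcl3 : ∀ s, b ≤ s → cl s = b := fun s hs => by
    simp only [hcl]; rw [min_eq_right hs, max_eq_right H.lt.le]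
  set F : ℝ → ℝ := fun s => (∫ x in a..cl s, w x) + (s - cl s) with hF
  have hF1 : ∀ s ∈ Icc a b, F s = ∫ x in a..s, w x := fun s hs => by
    simp only [hF]; rw [hcl1 s hs]; ring
  have hF2 : ∀ s, s ≤ a → F s = s - a := fun s hs => by
    simp only [hF]; rw [hcl2 s hs]; simp
  have hF3 : ∀ s, b ≤ s → F s = 1 + (s - b) := fun s hs => by
    simp only [hF]; rw [hcl3 s hs, h1]
  have hFc : Continuous F := by
    have h := H.prim_cont (φ := fun _ => 1) continuous_const
    simp only [one_mul] at h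
    exact (h.comp_continuous hclc hclm).add (continuous_id.sub hclc)
  have hFm : StrictMono F := by
    intro s t hst
    have hle : cl s ≤ cl t := max_le_max le_rfl (min_le_min hst.le le_rfl)
    have hd : s - cl s ≤ t - cl t := by
      simp only [hcl, max_def, min_def]
      split_ifs <;> linarith [H.lt]
    simp only [hF]
    rcases hle.eq_or_lt with h | h
    · rw [h]; linarith
    · have := H.strict (hclm s) (hclm t) h
      linarith
  have hFs : Function.Surjective F := by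
    intro y
    have h2 : F (a - |y|) ≤ y := by
      rw [hF2 _ (by linarith [abs_nonneg y])]; linarith [neg_abs_le y]
    have h3 : y ≤ F (b + |y|) := by
      rw [hF3 _ (by linarith [abs_nonneg y])]; linarith [le_abs_self y]
    exact mem_range_of_exists_le_of_exists_ge hFc ⟨_, h2⟩ ⟨_, h3⟩
  set e := hFm.orderIsoOfSurjective F hFs with he
  have heF : ∀ u, F (e.symm u) = u := fun u => e.apply_symm_apply u
  have hFa : F a = 0 := by rw [hF2 a le_rfl]; ring
  have hFb : F b = 1 := by rw [hF3 b le_rfl]; ring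
  have hmem : ∀ u ∈ Icc (0 : ℝ) 1, e.symm u ∈ Icc a b := fun u hu =>
    ⟨hFm.le_iff_le.1 (by rw [hFa, heF]; exact hu.1), hFm.le_iff_le.1 (by rw [hFb, heF]; exact hu.2)⟩
  refine ⟨e.symm, e.symm.continuous, hFm.injective (by rw [heF, hFa]),
    hFm.injective (by rw [heF, hFb]), fun u hu => ⟨hmem u hu, ?_⟩, fun u hu =>
    ⟨hFm.lt_iff_lt.1 (by rw [hFa, heF]; exact hu.1), hFm.lt_iff_lt.1 (by rw [hFb, heF]; exact hu.2)⟩⟩
  rw [← hF1 _ (hmem u hu), heF]

theorem Wt.quant_deriv {w : ℝ → ℝ} {a b : ℝ} (H : Wt w a b) {Q : ℝ → ℝ} (hQ : Continuous Q)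
    (h2 : ∀ u ∈ Icc (0 : ℝ) 1, Q u ∈ Icc a b ∧ ∫ x in a..Q u, w x = u)
    (h3 : ∀ u ∈ Ioo (0 : ℝ) 1, Q u ∈ Ioo a b) {φ : ℝ → ℝ} (hφ : Continuous φ) {u : ℝ}
    (hu : u ∈ Ioo (0 : ℝ) 1) :
    HasDerivAt (fun u => ∫ x in a..Q u, φ x * w x) (φ (Q u)) u := by
  have hw := H.pos _ (h3 u hu)
  have h4 := H.prim_deriv (φ := fun _ => 1) continuous_const (h3 u hu)
  simp only [one_mul] at h4
  have h5 : HasDerivAt Q (w (Q u))⁻¹ u := by
    refine HasDerivAt.of_local_left_inverse hQ.continuousAt h4 hw.ne' ?_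
    filter_upwards [isOpen_Ioo.mem_nhds hu] with y hy using (h2 y (Ioo_subset_Icc_self hy)).2
  have h6 := (H.prim_deriv hφ (h3 u hu)).comp u h5
  have h7 : φ (Q u) * w (Q u) * (w (Q u))⁻¹ = φ (Q u) := by field_simp
  rw [h7] at h6
  exact h6

/-- Transport along the monotone coupling. -/
theorem transport {w w' : ℝ → ℝ} {a b r : ℝ} (H : Wt w a b) (H' : Wt w' a b)
    (h1 : ∫ x in a..b, w x = 1) (h1' : ∫ x in a..b, w' x = 1)
    (hr : ∀ s ∈ Icc a b, ∀ s' ∈ Icc a b, ∫ x in a..s, w x = ∫ x in a..s', w' x → |s - s'| ≤ r)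
    {φ ψ : ℝ → ℝ} (hφ : Continuous φ) (hψ : Continuous ψ)
    (hφψ : ∀ s s', |s - s'| ≤ r → φ s ≤ ψ s') :
    ∫ x in a..b, φ x * w x ≤ ∫ x in a..b, ψ x * w' x := by
  obtain ⟨Q, hQ, q0, q1, q2, q3⟩ := H.quant h1
  obtain ⟨Q', hQ', q0', q1', q2', q3'⟩ := H'.quant h1'
  set D : ℝ → ℝ := fun u => (∫ x in a..Q' u, ψ x * w' x) - ∫ x in a..Q u, φ x * w x with hD
  have hDc : ContinuousOn D (Icc 0 1) :=
    ((H'.prim_cont hψ).comp hQ'.continuousOn fun u hu => (q2' u hu).1).sub
      ((H.prim_cont hφ).comp hQ.continuousOn fun u hu => (q2 u hu).1)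
  have hDd : ∀ u ∈ Ioo (0 : ℝ) 1, HasDerivAt D (ψ (Q' u) - φ (Q u)) u := fun u hu =>
    (H'.quant_deriv hQ' q2' q3' hψ hu).sub (H.quant_deriv hQ q2 q3 hφ hu)
  have hm : MonotoneOn D (Icc 0 1) := by
    refine monotoneOn_of_deriv_nonneg (convex_Icc 0 1) hDc ?_ ?_
    · rw [interior_Icc]
      exact fun u hu => (hDd u hu).differentiableAt.differentiableWithinAt
    · rw [interior_Icc]
      intro u hu
      rw [(hDd u hu).deriv]
      have hu' := Ioo_subset_Icc_self hu
      exact sub_nonneg.2 (hφψ _ _ (hr _ (q2 u hu').1 _ (q2' u hu').1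
        ((q2 u hu').2.trans (q2' u hu').2.symm)))
  have := hm (left_mem_Icc.2 zero_le_one) (right_mem_Icc.2 zero_le_one) zero_le_one
  simp only [hD, q0, q1, q0', q1', intervalIntegral.integral_same] at this
  linarith

theorem g1_pos (h c s : ℝ) : 0 < g1 h c s := exp_pos _

theorem g1_cont (h c : ℝ) : Continuous (g1 h c) := by
  unfold g1; fun_prop

theorem wt_of {p : ℝ → ℝ} {a b : ℝ} (H : LC p a b) : Wt p a b := by
  have hc : ContinuousOn p (Ioo a b) := by
    have h1 := (H.conc.continuousOn isOpen_Ioo).rexp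
    exact h1.congr fun s hs => (exp_log (H.pos s hs)).symm
  obtain ⟨C, hC⟩ := H.bdd
  refine ⟨H.lt, hc, H.pos, ?_⟩
  refine IntegrableOn.of_bound measure_Ioo_lt_top
    (hc.aestronglyMeasurable measurableSet_Ioo) C ?_
  filter_upwards [ae_restrict_mem measurableSet_Ioo] with s hs
  rw [Real.norm_eq_abs, abs_of_pos (H.pos s hs)]
  exact hC s hs

theorem Wt.tilt {p : ℝ → ℝ} {a b : ℝ} (H : Wt p a b) (h c : ℝ) :
    Wt (fun s => g1 h c s * p s) a b :=
  ⟨H.lt, (g1_cont h c).continuousOn.mul H.cont, fun s hs => mul_pos (g1_pos h c s) (H.pos s hs),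
    (intervalIntegrable_iff_integrableOn_Ioo_of_le H.lt.le).1
      (H.mul (g1_cont h c) (left_mem_Icc.2 H.lt.le) (right_mem_Icc.2 H.lt.le))⟩

/-- Comparison of integrals from a pointwise bound on the open interval. -/
theorem int_le {f g : ℝ → ℝ} {s t : ℝ} (hst : s ≤ t) (hf : IntervalIntegrable f volume s t)
    (hg : IntervalIntegrable g volume s t) (h : ∀ x ∈ Ioo s t, f x ≤ g x) :
    ∫ x in s..t, f x ≤ ∫ x in s..t, g x :=
  intervalIntegral.integral_mono_on_of_le_Ioo hst hf hg h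

theorem g1_ratio (h c c' x : ℝ) (hh : 0 < h) :
    g1 h c' x = exp ((2 * x * (c' - c) + c ^ 2 - c' ^ 2) / (2 * h)) * g1 h c x := by
  unfold g1
  rw [← exp_add]
  congr 1
  field_simp
  ring

/-- The tilt with the larger centre lies to the right. -/
theorem cdf1 {p : ℝ → ℝ} {a b h c c' : ℝ} (H : Wt p a b) (hh : 0 < h) (hc : c ≤ c') {s : ℝ}
    (hs : s ∈ Icc a b) :
    (∫ x in a..s, g1 h c' x * p x) * (∫ x in s..b, g1 h c x * p x) ≤
      (∫ x in a..s, g1 h c x * p x) * ∫ x in s..b, g1 h c' x * p x := by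
  have ha : a ∈ Icc a b := left_mem_Icc.2 H.lt.le
  have hb : b ∈ Icc a b := right_mem_Icc.2 H.lt.le
  set ρ := exp ((2 * s * (c' - c) + c ^ 2 - c' ^ 2) / (2 * h)) with hρ
  have W := H.tilt h c
  have W' := H.tilt h c'
  have hA : ∫ x in a..s, g1 h c' x * p x ≤ ρ * ∫ x in a..s, g1 h c x * p x := by
    rw [← intervalIntegral.integral_const_mul]
    refine int_le hs.1 (W'.ii ha hs) ((W.ii ha hs).const_mul ρ) fun x hx => ?_
    have hx' : x ∈ Ioo a b := ⟨hx.1, lt_of_lt_of_le hx.2 hs.2⟩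
    rw [g1_ratio h c c' x hh, mul_assoc]
    refine mul_le_mul_of_nonneg_right (exp_le_exp.2 ?_) (W.pos x hx').le
    refine div_le_div_of_nonneg_right ?_ (by positivity)
    nlinarith [hx.2]
  have hB : ρ * ∫ x in s..b, g1 h c x * p x ≤ ∫ x in s..b, g1 h c' x * p x := by
    rw [← intervalIntegral.integral_const_mul]
    refine int_le hs.2 ((W.ii hs hb).const_mul ρ) (W'.ii hs hb) fun x hx => ?_
    have hx' : x ∈ Ioo a b := ⟨lt_of_le_of_lt hs.1 hx.1, hx.2⟩
    rw [g1_ratio h c c' x hh, mul_assoc]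
    refine mul_le_mul_of_nonneg_right (exp_le_exp.2 ?_) (W.pos x hx').le
    refine div_le_div_of_nonneg_right ?_ (by positivity)
    nlinarith [hx.1]
  have h1 := W.int_nonneg ha hs hs.1
  have h2 := W.int_nonneg hs hb hs.2
  calc _ ≤ (ρ * ∫ x in a..s, g1 h c x * p x) * ∫ x in s..b, g1 h c x * p x :=
        mul_le_mul_of_nonneg_right hA h2
    _ = (∫ x in a..s, g1 h c x * p x) * (ρ * ∫ x in s..b, g1 h c x * p x) := by ring
    _ ≤ _ := mul_le_mul_of_nonneg_left hB h1

/-- The shift ratio of a log-concave function is antitone. -/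
theorem lc_ratio {p : ℝ → ℝ} {a b : ℝ} (H : LC p a b) {x y al : ℝ} (hal : 0 ≤ al) (hx : a < x)
    (hxy : x ≤ y) (hy : y + al < b) : p x * p (y + al) ≤ p (x + al) * p y := by
  have m1 : x ∈ Ioo a b := ⟨hx, by linarith⟩
  have m2 : y + al ∈ Ioo a b := ⟨by linarith, hy⟩
  have m3 : x + al ∈ Ioo a b := ⟨by linarith, by linarith⟩
  have m4 : y ∈ Ioo a b := ⟨by linarith, by linarith⟩
  rcases hal.eq_or_lt with rfl | hal'
  · simp
  have hd : 0 < y + al - x := by linarith
  set t := al / (y + al - x) with ht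
  have t0 : 0 ≤ t := by positivity
  have t1 : 0 ≤ 1 - t := by
    rw [sub_nonneg, ht, div_le_one hd]; linarith
  have e0 : t * (y + al - x) = al := by rw [ht]; field_simp
  have c1 := H.conc.2 m1 m2 t1 t0 (by ring)
  have c2 := H.conc.2 m1 m2 t0 t1 (by ring)
  simp only [smul_eq_mul] at c1 c2
  rw [show (1 - t) * x + t * (y + al) = x + al by linarith] at c1
  rw [show t * x + (1 - t) * (y + al) = y by linarith] at c2
  rw [← log_le_log_iff (mul_pos (H.pos _ m1) (H.pos _ m2)) (mul_pos (H.pos _ m3) (H.pos _ m4)),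
    log_mul (H.pos _ m1).ne' (H.pos _ m2).ne', log_mul (H.pos _ m3).ne' (H.pos _ m4).ne']
  linarith

/-- The tilt with the larger centre moves by at most the distance of the centres. -/
theorem cdf2 {p : ℝ → ℝ} {a b h c al : ℝ} (H : LC p a b) (hal : 0 ≤ al) {s : ℝ} (hs : a < s)
    (hsb : s + al < b) :
    (∫ x in a..s, g1 h c x * p x) * (∫ x in (s + al)..b, g1 h (c + al) x * p x) ≤
      (∫ x in a..(s + al), g1 h (c + al) x * p x) * ∫ x in s..b, g1 h c x * p x := by
  have ha : a ∈ Icc a b := left_mem_Icc.2 H.lt.le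
  have hb : b ∈ Icc a b := right_mem_Icc.2 H.lt.le
  have W := (wt_of H).tilt h c
  have W' := (wt_of H).tilt h (c + al)
  have m1 : s ∈ Ioo a b := ⟨hs, by linarith⟩
  have m2 : s + al ∈ Ioo a b := ⟨by linarith, hsb⟩
  have m3 : a + al ∈ Icc a b := ⟨by linarith, by linarith⟩
  have m4 : b - al ∈ Icc a b := ⟨by linarith, by linarith⟩
  have m1' := Ioo_subset_Icc_self m1
  have m2' := Ioo_subset_Icc_self m2
  have hp := H.pos s m1
  set ρ := p (s + al) / p s with hρ
  have hρ0 : 0 < ρ := div_pos (H.pos _ m2) hp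
  have hsh : ∀ x, g1 h (c + al) (x + al) = g1 h c x := fun x => by
    unfold g1; congr 2; ring
  have hint : ∀ u v : ℝ, u + al ∈ Icc a b → v + al ∈ Icc a b →
      IntervalIntegrable (fun x => g1 h (c + al) (x + al) * p (x + al)) volume u v := by
    intro u v hu hv
    have := (W'.ii hu hv).comp_add_right al
    simpa using this
  have hA : ρ * ∫ x in a..s, g1 h c x * p x ≤ ∫ x in a..(s + al), g1 h (c + al) x * p x := by
    have e1 := W'.split ha m3 m2'
    have e2 := W'.int_nonneg ha m3 (by linarith)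
    have e3 := intervalIntegral.integral_comp_add_right (a := a) (b := s)
      (fun x => g1 h (c + al) x * p x) al
    have e4 : ρ * ∫ x in a..s, g1 h c x * p x ≤
        ∫ x in a..s, g1 h (c + al) (x + al) * p (x + al) := by
      rw [← intervalIntegral.integral_const_mul]
      refine int_le hs.le ((W.ii ha m1').const_mul ρ) (hint a s m3 m2') fun x hx => ?_
      rw [hsh, mul_left_comm]
      refine mul_le_mul_of_nonneg_left ?_ (g1_pos _ _ _).le
      rw [hρ, div_mul_eq_mul_div, div_le_iff₀ hp, mul_comm (p (s + al))]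
      exact lc_ratio H hal hx.1 hx.2.le hsb
    linarith
  have hB : ∫ x in (s + al)..b, g1 h (c + al) x * p x ≤ ρ * ∫ x in s..b, g1 h c x * p x := by
    have e1 := W.split m1' m4 hb
    have e2 := W.int_nonneg m4 hb (by linarith)
    have e3 := intervalIntegral.integral_comp_add_right (a := s) (b := b - al)
      (fun x => g1 h (c + al) x * p x) al
    rw [sub_add_cancel] at e3
    have e4 : ∫ x in s..(b - al), g1 h (c + al) (x + al) * p (x + al) ≤
        ρ * ∫ x in s..(b - al), g1 h c x * p x := by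
      rw [← intervalIntegral.integral_const_mul]
      refine int_le (by linarith) (hint s (b - al) m2' (by rw [sub_add_cancel]; exact hb))
        ((W.ii m1' m4).const_mul ρ) fun x hx => ?_
      rw [hsh, mul_left_comm]
      refine mul_le_mul_of_nonneg_left ?_ (g1_pos _ _ _).le
      rw [hρ, div_mul_eq_mul_div, le_div_iff₀ hp, mul_comm (p (x + al))]
      exact lc_ratio H hal hs hx.1.le (by linarith [hx.2])
    have e5 := mul_nonneg hρ0.le e2
    rw [← e1, mul_add]
    linarith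
  have h1 := W.int_nonneg ha m1' hs.le
  have h2 := W.int_nonneg m1' hb m1.2.le
  calc _ ≤ (∫ x in a..s, g1 h c x * p x) * (ρ * ∫ x in s..b, g1 h c x * p x) :=
        mul_le_mul_of_nonneg_left hB h1
    _ = (ρ * ∫ x in a..s, g1 h c x * p x) * ∫ x in s..b, g1 h c x * p x := by ring
    _ ≤ _ := mul_le_mul_of_nonneg_right hA h2

theorem frac_le {A B A' B' : ℝ} (h1 : 0 < A + B) (h2 : 0 < A' + B') (h : A * B' ≤ A' * B) :
    A / (A + B) ≤ A' / (A' + B') := by
  rw [div_le_div_iff₀ h1 h2]; nlinarith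

/-- Equal quantiles are close. -/
theorem close {p : ℝ → ℝ} {a b h c c' : ℝ} (H : LC p a b) (hh : 0 < h) (hc : c ≤ c') {s s' : ℝ}
    (hs : s ∈ Icc a b) (hs' : s' ∈ Icc a b)
    (he : (∫ x in a..s, g1 h c x * p x) / (∫ x in a..b, g1 h c x * p x) =
      (∫ x in a..s', g1 h c' x * p x) / ∫ x in a..b, g1 h c' x * p x) :
    |s - s'| ≤ c' - c := by
  have ha : a ∈ Icc a b := left_mem_Icc.2 H.lt.le
  have hb : b ∈ Icc a b := right_mem_Icc.2 H.lt.le
  have W := (wt_of H).tilt h c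
  have W' := (wt_of H).tilt h c'
  have Z := W.int_pos ha hb H.lt
  have Z' := W'.int_pos ha hb H.lt
  have h1 : s ≤ s' := by
    by_contra hlt
    have e1 := W'.strict hs' hs (not_le.1 hlt)
    have e2 := W.split ha hs hb
    have e3 := W'.split ha hs hb
    have e4 := frac_le (e3 ▸ Z') (e2 ▸ Z) (cdf1 (wt_of H) hh hc hs)
    rw [e2, e3, he] at e4
    exact absurd (div_lt_div_of_pos_right e1 Z') (not_lt.2 e4)
  have h2 : s' ≤ s + (c' - c) := by
    by_contra hlt
    have hlt := not_le.1 hlt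
    have hal : 0 ≤ c' - c := sub_nonneg.2 hc
    have m : s + (c' - c) ∈ Icc a b := ⟨by linarith [hs.1], by linarith [hs'.2]⟩
    have e1 := div_lt_div_of_pos_right (W'.strict m hs' hlt) Z'
    rw [← he] at e1
    rcases hs.1.eq_or_lt with h0 | h0
    · have e2 := div_nonneg (W'.int_nonneg ha m m.1) Z'.le
      rw [← h0] at e1 e2
      simp only [intervalIntegral.integral_same, zero_div] at e1
      linarith
    · have e5 := cdf2 (h := h) (c := c) H hal h0 (by linarith [hs'.2])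
      rw [add_sub_cancel] at e5
      have e2 := W.split ha hs hb
      have e3 := W'.split ha m hb
      have e4 := frac_le (e2 ▸ Z) (e3 ▸ Z') e5
      rw [e2, e3] at e4
      exact absurd e1 (not_lt.2 e4)
  rw [abs_le]
  constructor <;> linarith

end OneT

open OneT in
theorem p1T : St1T := by
  intro p a b H h c c' r hh hr φ ψ hφ hψ hφψ
  have ha : a ∈ Icc a b := left_mem_Icc.2 H.lt.le
  have hb : b ∈ Icc a b := right_mem_Icc.2 H.lt.le
  have W := (wt_of H).tilt h c
  have W' := (wt_of H).tilt h c'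
  have Z := W.int_pos ha hb H.lt
  have Z' := W'.int_pos ha hb H.lt
  have key := transport (r := r) (W.div Z) (W'.div Z')
    (by rw [intervalIntegral.integral_div, div_self Z.ne'])
    (by rw [intervalIntegral.integral_div, div_self Z'.ne']) (fun s hs s' hs' he => by
      rw [intervalIntegral.integral_div, intervalIntegral.integral_div] at he
      rcases le_total c c' with hc | hc
      · exact (close H hh hc hs hs' he).trans (by linarith [neg_abs_le (c - c')])
      · rw [abs_sub_comm]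
        exact (close H hh hc hs' hs he.symm).trans (by linarith [le_abs_self (c - c')]))
    hφ hψ hφψ
  simp only [← mul_div_assoc, intervalIntegral.integral_div] at key
  rw [div_le_div_iff₀ Z Z'] at key
  simpa only [intervalIntegral.integral_of_le H.lt.le, integral_Ioc_eq_integral_Ioo] using key

end Pool.Agent.P.MP_5c8462_an.Ord
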