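import Pool.Agent.P.MP_5c8462_an.Ord.Defs

/-! Many radial test functions with a rough constant. -/

set_option autoImplicit false

namespace Pool.Agent.P.MP_5c8462_an.Ord

open MeasureTheory Real Set

namespace Rad

/-- Many good triples of an antitone sequence that does not fall too fast. -/
theorem good_count (τ : ℕ → ℝ) (J n : ℕ) (hanti : Antitone τ) (h0 : τ 0 ≤ 2)
    (hJ : 1 / (24 * (J : ℝ)) < τ (3 * J)) (hJ0 : 0 < J) (hn : n ≤ J)
    (hpow : 48 * J ≤ 2 ^ (J - n + 1)) :
    n ≤ ((Finset.range J).filter fun j => τ (3 * j) ≤ 2 * τ (3 * j + 1)).card := by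
  classical
  have hJr : (0 : ℝ) < J := by exact_mod_cast hJ0
  have hpos : ∀ i, i ≤ 3 * J → 0 < τ i := fun i hi =>
    lt_of_lt_of_le (lt_trans (by positivity) hJ) (hanti hi)
  have key : ∀ j, j ≤ J → τ (3 * j) *
      2 ^ ((Finset.range j).filter fun j => ¬ τ (3 * j) ≤ 2 * τ (3 * j + 1)).card ≤ 2 := by
    intro j
    induction j with
    | zero => intro _; simpa using h0
    | succ j ih =>
      intro hj
      have ih' := ih (by omega)
      have a1 : τ (3 * (j + 1)) ≤ τ (3 * j + 1) := hanti (by omega)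
      have a2 : τ (3 * j + 1) ≤ τ (3 * j) := hanti (by omega)
      rw [Finset.range_add_one, Finset.filter_insert]
      split_ifs with h
      · refine le_trans ?_ ih'
        gcongr
        exact a1.trans a2
      · rw [Finset.card_insert_of_notMem (by simp), pow_succ]
        refine le_trans ?_ ih'
        have : τ (3 * (j + 1)) * 2 ≤ τ (3 * j) := by linarith [not_le.1 h]
        calc τ (3 * (j + 1)) * (2 ^ ((Finset.range j).filter
              fun j => ¬ τ (3 * j) ≤ 2 * τ (3 * j + 1)).card * 2)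
            = τ (3 * (j + 1)) * 2 * 2 ^ ((Finset.range j).filter
              fun j => ¬ τ (3 * j) ≤ 2 * τ (3 * j + 1)).card := by ring
          _ ≤ _ := by gcongr
  by_contra hlt
  have hc := Finset.card_filter_add_card_filter_not (s := Finset.range J)
    (fun j => τ (3 * j) ≤ 2 * τ (3 * j + 1))
  rw [Finset.card_range] at hc
  have hB : J - n + 1 ≤
      ((Finset.range J).filter fun j => ¬ τ (3 * j) ≤ 2 * τ (3 * j + 1)).card := by omega
  have h1 := key J le_rfl
  have h2 : (48 * J : ℝ) ≤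
      2 ^ ((Finset.range J).filter fun j => ¬ τ (3 * j) ≤ 2 * τ (3 * j + 1)).card := by
    have : 48 * J ≤
        2 ^ ((Finset.range J).filter fun j => ¬ τ (3 * j) ≤ 2 * τ (3 * j + 1)).card :=
      hpow.trans (Nat.pow_le_pow_right (by norm_num) hB)
    exact_mod_cast this
  have h3 : τ (3 * J) * (48 * J) ≤ 2 := le_trans (by gcongr; exact (hpos _ le_rfl).le) h1
  rw [div_lt_iff₀ (by positivity)] at hJ
  linarith

/-- Good triples of a log-concave sequence. -/
theorem seq_good (V : ℕ → ℝ) (J n : ℕ) (hpos : ∀ i, 0 < V i)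
    (hlc : ∀ i, V i * V (i + 2) ≤ V (i + 1) ^ 2) (h3 : V 1 ≤ 3 * V 0)
    (hd : 2 * V (3 * J) ≤ V (15 * J)) (hJ0 : 0 < J) (hn : n ≤ J)
    (hpow : 48 * J ≤ 2 ^ (J - n + 1)) :
    ∃ j : Fin n ↪o ℕ, ∀ i, j i < J ∧ 0 < V (3 * j i + 2) - V (3 * j i + 1) ∧
      V (3 * j i + 3) - V (3 * j i) ≤ 6 * (V (3 * j i + 2) - V (3 * j i + 1)) := by
  classical
  have hJr : (0 : ℝ) < J := by exact_mod_cast hJ0
  set τ : ℕ → ℝ := fun i => V (i + 1) / V i - 1 with hτ
  have hV : ∀ i, V (i + 1) = V i * (1 + τ i) := fun i => by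
    have := hpos i
    simp only [hτ]; field_simp; ring
  have hanti : Antitone τ := by
    refine antitone_nat_of_succ_le fun i => ?_
    simp only [hτ]
    have a := hpos i
    have b := hpos (i + 1)
    have : V (i + 1 + 1) / V (i + 1) ≤ V (i + 1) / V i := by
      rw [div_le_div_iff₀ b a]
      have := hlc i
      nlinarith
    linarith
  have h0 : τ 0 ≤ 2 := by
    simp only [hτ]
    have : V (0 + 1) / V 0 ≤ 3 := by rw [div_le_iff₀ (hpos 0)]; simpa using h3
    linarith
  have hgrow : ∀ i, V (3 * J + i) ≤ V (3 * J) * exp (i * τ (3 * J)) := by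
    intro i
    induction i with
    | zero => simp
    | succ i ih =>
      have a : τ (3 * J + i) ≤ τ (3 * J) := hanti (by omega)
      have b : 1 + τ (3 * J + i) ≤ exp (τ (3 * J)) := by linarith [add_one_le_exp (τ (3 * J))]
      rw [← add_assoc, hV]
      calc V (3 * J + i) * (1 + τ (3 * J + i)) ≤ V (3 * J + i) * exp (τ (3 * J)) :=
            mul_le_mul_of_nonneg_left b (hpos _).le
        _ ≤ V (3 * J) * exp (i * τ (3 * J)) * exp (τ (3 * J)) := by gcongr
        _ = _ := by rw [mul_assoc, ← exp_add]; push_cast; ring_nf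
  have hJ : 1 / (24 * (J : ℝ)) < τ (3 * J) := by
    by_contra h
    have h := not_lt.1 h
    have a := hgrow (12 * J)
    rw [show 3 * J + 12 * J = 15 * J by ring] at a
    have b : ((12 * J : ℕ) : ℝ) * τ (3 * J) ≤ 1 / 2 := by
      push_cast
      calc 12 * (J : ℝ) * τ (3 * J) ≤ 12 * J * (1 / (24 * J)) := by gcongr
        _ = 1 / 2 := by field_simp; ring
    have c : exp (1 / 2 : ℝ) < 2 := by
      have e1 : exp (1 / 2 : ℝ) * exp (1 / 2) = exp 1 := by rw [← exp_add]; norm_num
      have e2 := exp_one_lt_d9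
      have e3 := exp_pos (1 / 2 : ℝ)
      nlinarith
    have d := (exp_le_exp.2 b).trans_lt c
    have := hpos (3 * J)
    nlinarith
  have hc := good_count τ J n hanti h0 hJ hJ0 hn hpow
  refine ⟨Finset.orderEmbOfCardLe _ hc, fun i => ?_⟩
  have hm := Finset.orderEmbOfCardLe_mem _ hc i
  generalize Finset.orderEmbOfCardLe _ hc i = j at hm
  rw [Finset.mem_filter, Finset.mem_range] at hm
  obtain ⟨hj, hg⟩ := hm
  have t1 : 0 < τ (3 * j + 2) := lt_of_lt_of_le (lt_trans (by positivity) hJ) (hanti (by omega))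
  have t2 : τ (3 * j + 2) ≤ τ (3 * j + 1) := hanti (by omega)
  have t3 : τ (3 * j + 1) ≤ τ (3 * j) := hanti (by omega)
  have t4 : τ (3 * j) ≤ 2 := (hanti (Nat.zero_le _)).trans h0
  have e0 := hV (3 * j)
  have e1 : V (3 * j + 2) = V (3 * j + 1) * (1 + τ (3 * j + 1)) := hV (3 * j + 1)
  have e2 : V (3 * j + 3) = V (3 * j + 2) * (1 + τ (3 * j + 2)) := hV (3 * j + 2)
  have p0 := hpos (3 * j)
  have p1 := hpos (3 * j + 1)
  have p2 := hpos (3 * j + 2)
  have m0 : V (3 * j) ≤ V (3 * j + 1) := by nlinarith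
  have m1 : V (3 * j + 2) ≤ 3 * V (3 * j + 1) := by nlinarith
  have b0 : V (3 * j) * τ (3 * j) ≤ V (3 * j + 1) * (2 * τ (3 * j + 1)) :=
    mul_le_mul m0 hg (by linarith) p1.le
  have b2 : V (3 * j + 2) * τ (3 * j + 2) ≤ 3 * V (3 * j + 1) * τ (3 * j + 1) :=
    mul_le_mul m1 t2 t1.le (by linarith)
  refine ⟨hj, by nlinarith, by nlinarith⟩

variable {d : ℕ} {K : Set (E d)} {p : E d}

theorem vol_ne_top (hK : Dom K) (S : Set (E d)) : volume (K ∩ S) ≠ ⊤ :=
  ((measure_mono inter_subset_left).trans_lt hK.2.2.2.measure_lt_top).ne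

theorem Vb_pos (hK : Dom K) (hp : p ∈ K) {s : ℝ} (hs : 0 < s) : 0 < Vb K p s :=
  ENNReal.toReal_pos
    ((hK.2.1.inter Metric.isOpen_ball).measure_pos volume ⟨p, hp, Metric.mem_ball_self hs⟩).ne'
    (vol_ne_top hK _)

/-- Bishop-Gromov comparison. -/
theorem Vb_hom (hK : Dom K) (hp : p ∈ K) {s r : ℝ} (hr : 0 < r) (hr1 : r ≤ 1) :
    r ^ d * Vb K p s ≤ Vb K p (r * s) := by
  have h := Measure.addHaar_image_homothety (volume : Measure (E d)) p r (K ∩ Metric.ball p s)
  have hsub : AffineMap.homothety p r '' (K ∩ Metric.ball p s) ⊆ K ∩ Metric.ball p (r * s) := by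
    rintro _ ⟨x, ⟨hx, hxs⟩, rfl⟩
    rw [AffineMap.homothety_apply]
    refine ⟨?_, ?_⟩
    · have := hK.2.2.1.add_smul_sub_mem hp hx ⟨hr.le, hr1⟩
      simpa [add_comm] using this
    · rw [Metric.mem_ball, dist_eq_norm] at hxs ⊢
      simp only [vsub_eq_sub, vadd_eq_add, add_sub_cancel_right, norm_smul, Real.norm_eq_abs,
        abs_of_pos hr]
      gcongr
  have h2 := measure_mono (μ := (volume : Measure (E d))) hsub
  rw [h, finrank_euclideanSpace_fin, abs_of_pos (pow_pos hr d)] at h2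
  have h3 := ENNReal.toReal_mono (vol_ne_top hK _) h2
  rw [ENNReal.toReal_mul, ENNReal.toReal_ofReal (pow_pos hr d).le] at h3
  exact h3

theorem Vb_lc (hBM : StBM) (hK : Dom K) (s l : ℝ) :
    Vb K p s * Vb K p (s + 2 * l) ≤ Vb K p (s + l) ^ 2 := by
  have hm : ∀ r : ℝ, MeasurableSet (K ∩ Metric.ball p r) := fun r =>
    (hK.2.1.inter Metric.isOpen_ball).measurableSet
  have hb : ∀ r : ℝ, Bornology.IsBounded (K ∩ Metric.ball p r) := fun r =>
    hK.2.2.2.subset inter_subset_left
  have h := hBM d _ _ _ (hm s) (hm (s + 2 * l)) (hm (s + l)) (hb _) (hb _) (hb _) (1 / 2)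
    (by norm_num) (by norm_num) (by
      rintro x ⟨hx, hxs⟩ y ⟨hy, hys⟩
      refine ⟨hK.2.2.1 hx hy (by norm_num) (by norm_num) (by norm_num), ?_⟩
      rw [Metric.mem_ball, dist_eq_norm] at hxs hys ⊢
      have e : (1 - 1 / 2 : ℝ) • x + (1 / 2 : ℝ) • y - p =
          (1 / 2 : ℝ) • (x - p) + (1 / 2 : ℝ) • (y - p) := by module
      rw [e]
      refine (norm_add_le _ _).trans_lt ?_
      rw [norm_smul, norm_smul, Real.norm_eq_abs, abs_of_pos (by norm_num : (0 : ℝ) < 1 / 2)]
      linarith)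
  have a : 0 ≤ Vb K p s := measureReal_nonneg
  have b : 0 ≤ Vb K p (s + 2 * l) := measureReal_nonneg
  rw [show (1 - 1 / 2 : ℝ) = 1 / 2 by norm_num, ← sqrt_eq_rpow, ← sqrt_eq_rpow] at h
  have h' : √(Vb K p s) * √(Vb K p (s + 2 * l)) ≤ Vb K p (s + l) := h
  rw [← sqrt_mul a] at h'
  exact (Real.sqrt_le_iff.1 h').2

theorem int_shell (hK : Dom K) {r r' : ℝ} (h : r ≤ r') (c : ℝ) :
    ∫ x in K, (Metric.ball p r' \ Metric.ball p r).indicator (fun _ => c) x =
      c * (Vb K p r' - Vb K p r) := by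
  have hm : MeasurableSet (Metric.ball p r' \ Metric.ball p r) :=
    measurableSet_ball.diff measurableSet_ball
  rw [integral_indicator hm, setIntegral_const, measureReal_restrict_apply hm, smul_eq_mul,
    mul_comm]
  congr 1
  have e : (Metric.ball p r' \ Metric.ball p r) ∩ K =
      (K ∩ Metric.ball p r') \ (K ∩ Metric.ball p r) := by
    ext x; simp only [mem_inter_iff, mem_sdiff]; tauto
  rw [e, measureReal_sdiff (inter_subset_inter_right _ (Metric.ball_subset_ball h))
    (hK.2.1.inter Metric.isOpen_ball).measurableSet (vol_ne_top hK _)]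
  rfl

/-- The profile. -/
theorem exists_profile : ∃ (η : ℝ → ℝ) (L : NNReal), ContDiff ℝ 1 η ∧ LipschitzWith L η ∧
    (∀ t, 0 ≤ η t ∧ η t ≤ 1) ∧ (∀ t, 1 ≤ t → t ≤ 2 → η t = 1) ∧
    ∀ t, t ≤ 1 / 2 ∨ 5 / 2 ≤ t → η t = 0 := by
  let f : ContDiffBump (3 / 2 : ℝ) := ⟨1 / 2, 1, by norm_num, by norm_num⟩
  obtain ⟨L, hL⟩ := ContDiff.lipschitzWith_of_hasCompactSupport f.hasCompactSupport
    (f.contDiff (n := 1)) (by simp)
  refine ⟨f, L, f.contDiff, hL, fun t => ⟨f.nonneg, f.le_one⟩, fun t h1 h2 => ?_, fun t h => ?_⟩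
  · apply f.one_of_mem_closedBall
    rw [Metric.mem_closedBall, Real.dist_eq, abs_le]
    constructor <;> simp only [f] <;> linarith
  · apply f.zero_of_le_dist
    rw [Real.dist_eq, le_abs]
    simp only [f]
    rcases h with h | h
    · right; linarith
    · left; linarith

/-- One radial test function. -/
theorem test_shell (hK : Dom K) {η : ℝ → ℝ} {L : NNReal} (h1 : ContDiff ℝ 1 η)
    (h2 : LipschitzWith L η) (h3 : ∀ t, 0 ≤ η t ∧ η t ≤ 1) (h4 : ∀ t, 1 ≤ t → t ≤ 2 → η t = 1)
    (h5 : ∀ t, t ≤ 1 / 2 ∨ 5 / 2 ≤ t → η t = 0) {s l M : ℝ} (hs : 0 < s) (hl : 0 < l)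
    (hm : 0 < Vb K p (s + 2 * l) - Vb K p (s + l))
    (hg : Vb K p (s + 3 * l) - Vb K p s ≤ 6 * (Vb K p (s + 2 * l) - Vb K p (s + l)))
    (hM : 6 * (L / l) ^ 2 ≤ M) :
    Test K (Metric.ball p (s + 3 * l) \ Metric.ball p s) (fun x => η ((‖x - p‖ - s) / l)) M := by
  have hcont : Continuous fun x : E d => (‖x - p‖ - s) / l := by fun_prop
  have hev : ∀ x : E d, x ∉ Metric.ball p (s + 3 * l) \ Metric.ball p s →
      (fun x : E d => η ((‖x - p‖ - s) / l)) =ᶠ[nhds x] fun _ => 0 := by
    intro x hx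
    rw [mem_sdiff, not_and_or, not_not, Metric.mem_ball, Metric.mem_ball, dist_eq_norm] at hx
    rcases hx with hx | hx
    · have : 5 / 2 < (‖x - p‖ - s) / l := by rw [lt_div_iff₀ hl]; linarith [not_lt.1 hx]
      filter_upwards [hcont.continuousAt.eventually (lt_mem_nhds this)] with y hy
      exact h5 _ (Or.inr hy.le)
    · have : (‖x - p‖ - s) / l < 1 / 2 := by rw [div_lt_iff₀ hl]; linarith
      filter_upwards [hcont.continuousAt.eventually (gt_mem_nhds this)] with y hy
      exact h5 _ (Or.inl hy.le)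
  have hC : ContDiff ℝ 1 fun x : E d => η ((‖x - p‖ - s) / l) := by
    rw [contDiff_iff_contDiffAt]
    intro x
    by_cases hx : x = p
    · refine (contDiffAt_const (c := (0 : ℝ))).congr_of_eventuallyEq (hev x ?_)
      rw [hx]; exact fun h => h.2 (Metric.mem_ball_self hs)
    · refine h1.contDiffAt.comp x (ContDiffAt.div_const (ContDiffAt.sub ?_ contDiffAt_const) l)
      exact (contDiffAt_norm ℝ (sub_ne_zero.2 hx)).comp x (contDiffAt_id.sub contDiffAt_const)
  have hlip : LipschitzWith (L * Real.toNNReal (1 / l)) fun x : E d => η ((‖x - p‖ - s) / l) := by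
    refine h2.comp (LipschitzWith.of_dist_le_mul fun x y => ?_)
    rw [Real.dist_eq, ← sub_div, abs_div, abs_of_pos hl, dist_eq_norm]
    have := abs_norm_sub_norm_le (x - p) (y - p)
    rw [sub_sub_sub_cancel_right] at this
    rw [sub_sub_sub_cancel_right]
    rw [Real.coe_toNNReal _ (by positivity), one_div_mul_eq_div]
    gcongr
  have hfin : IsFiniteMeasure (volume.restrict K) :=
    ⟨by rw [Measure.restrict_apply_univ]; exact hK.2.2.2.measure_lt_top⟩
  have hSq : Vb K p (s + 2 * l) - Vb K p (s + l) ≤ Sq K fun x => η ((‖x - p‖ - s) / l) := by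
    have e := int_shell (p := p) hK (r := s + l) (r' := s + 2 * l) (by linarith) 1
    rw [one_mul] at e
    rw [← e]
    refine integral_mono_of_nonneg (Filter.Eventually.of_forall fun x => ?_) ?_
      (Filter.Eventually.of_forall fun x => ?_)
    · exact indicator_nonneg (fun _ _ => zero_le_one) x
    · refine Integrable.of_bound (hC.continuous.pow 2).aestronglyMeasurable 1
        (Filter.Eventually.of_forall fun x => ?_)
      rw [Real.norm_eq_abs, abs_of_nonneg (sq_nonneg _)]
      exact pow_le_one₀ (h3 _).1 (h3 _).2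
    · by_cases hx : x ∈ Metric.ball p (s + 2 * l) \ Metric.ball p (s + l)
      · simp only [indicator_of_mem hx]
        rw [mem_sdiff, Metric.mem_ball, Metric.mem_ball, dist_eq_norm] at hx
        rw [h4 _ (by rw [le_div_iff₀ hl]; linarith [not_lt.1 hx.2])
          (by rw [div_le_iff₀ hl]; linarith [hx.1])]
        norm_num
      · simp only [indicator_of_notMem hx]
        exact sq_nonneg _
  have hEn : (En K fun x => η ((‖x - p‖ - s) / l)) ≤
      (L / l) ^ 2 * (Vb K p (s + 3 * l) - Vb K p s) := by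
    rw [← int_shell hK (by linarith)]
    refine integral_mono_of_nonneg (Filter.Eventually.of_forall fun x => sq_nonneg _) ?_
      (Filter.Eventually.of_forall fun x => ?_)
    · exact (integrable_const _).indicator (measurableSet_ball.diff measurableSet_ball)
    · by_cases hx : x ∈ Metric.ball p (s + 3 * l) \ Metric.ball p s
      · simp only [indicator_of_mem hx]
        have := norm_fderiv_le_of_lipschitz ℝ (x₀ := x) hlip
        rw [NNReal.coe_mul, Real.coe_toNNReal _ (by positivity), mul_one_div] at this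
        gcongr
      · simp only [indicator_of_notMem hx]
        rw [(hev x hx).fderiv_eq]
        simp
  refine ⟨hC, fun x hx => ⟨(hev x hx).self_of_nhds, ?_⟩, hm.trans_le hSq, ?_⟩
  · rw [(hev x hx).fderiv_eq]; simp
  · calc _ ≤ (L / l) ^ 2 * (Vb K p (s + 3 * l) - Vb K p s) := hEn
      _ ≤ (L / l) ^ 2 * (6 * (Vb K p (s + 2 * l) - Vb K p (s + l))) := by gcongr
      _ = 6 * (L / l) ^ 2 * (Vb K p (s + 2 * l) - Vb K p (s + l)) := by ring
      _ ≤ _ := mul_le_mul hM hSq hm.le (le_trans (by positivity) hM)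

end Rad

open Rad

theorem pR (hBM : StBM) : StR := by
  obtain ⟨η, L, h1, h2, h3, h4, h5⟩ := exists_profile
  refine ⟨6 * 126 ^ 2 * (L : ℝ) ^ 2 + 1, by positivity, fun d hd K hK p hp b hb hV n => ?_⟩
  obtain ⟨J, hJ⟩ : ∃ J : ℕ, J = 2 * n + d + 20 := ⟨_, rfl⟩
  have hJ0 : 0 < J := by omega
  have hJr : (0 : ℝ) < J := by exact_mod_cast hJ0
  obtain ⟨l, hl⟩ : ∃ l : ℝ, l = b / (6 * J) := ⟨_, rfl⟩
  have hl0 : 0 < l := by rw [hl]; positivity
  have hbl : b = 6 * J * l := by rw [hl]; field_simp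
  have hpow : 48 * J ≤ 2 ^ (J - n + 1) := by
    have e : J - n + 1 = (n + d) + 21 := by omega
    have : n + d < 2 ^ (n + d) := Nat.lt_two_pow_self
    rw [e, pow_add]
    omega
  obtain ⟨j, hj⟩ := seq_good (fun i => Vb K p (b / 2 + i * l)) J n
    (fun i => Vb_pos hK hp (by positivity))
    (fun i => by
      have := Vb_lc (p := p) hBM hK (b / 2 + i * l) l
      push_cast
      convert this using 3 <;> ring)
    (by
      have hr : (0 : ℝ) < 3 * J / (3 * J + 1) := by positivity
      have a := Vb_hom (s := b / 2 + l) hK hp hr (by rw [div_le_one (by positivity)]; linarith)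
      have e : (3 * J / (3 * J + 1) : ℝ) * (b / 2 + l) = b / 2 := by
        rw [hbl]; field_simp; ring
      rw [e] at a
      have c : (1 : ℝ) ≤ 3 * (3 * J / (3 * J + 1)) ^ d := by
        have c1 : ((3 * J + 1) / (3 * J) : ℝ) ^ d ≤ 3 := by
          have c2 : ((3 * J + 1) / (3 * J) : ℝ) ≤ exp (1 / (3 * J)) := by
            rw [add_div, div_self (by positivity), add_comm]; exact add_one_le_exp _
          have c3 : (d : ℝ) * (1 / (3 * J)) ≤ 1 := by
            have : (d : ℝ) ≤ J := by exact_mod_cast (by omega : d ≤ J)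
            rw [mul_one_div, div_le_one (by positivity)]; linarith
          calc ((3 * J + 1) / (3 * J) : ℝ) ^ d ≤ exp (1 / (3 * J)) ^ d := by gcongr
            _ = exp (d * (1 / (3 * J))) := (exp_nat_mul _ _).symm
            _ ≤ exp 1 := exp_le_exp.2 c3
            _ ≤ 3 := by linarith [exp_one_lt_d9]
        have c4 : ((3 * J + 1) / (3 * J) : ℝ) ^ d * (3 * J / (3 * J + 1)) ^ d = 1 := by
          rw [← mul_pow, div_mul_div_cancel₀ (by positivity), div_self (by positivity), one_pow]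
        have c5 := pow_pos hr d
        nlinarith
      have p1 : 0 < Vb K p (b / 2 + l) := Vb_pos hK hp (by positivity)
      simp only [Nat.cast_one, one_mul, Nat.cast_zero, zero_mul, add_zero]
      nlinarith)
    (by
      have e1 : b / 2 + ((3 * J : ℕ) : ℝ) * l = b := by push_cast; linarith
      have e2 : b / 2 + ((15 * J : ℕ) : ℝ) * l = 3 * b := by push_cast; linarith
      simp only [e1, e2]; exact hV)
    hJ0 (by omega) hpow
  refine ⟨fun i => Metric.ball p (b / 2 + 3 * j i * l + 3 * l) \ Metric.ball p (b / 2 + 3 * j i * l),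
    fun i x => η ((‖x - p‖ - (b / 2 + 3 * j i * l)) / l), fun i => ?_, ?_, fun i => ?_⟩
  · refine sdiff_subset.trans (Metric.ball_subset_ball ?_)
    have : (j i : ℝ) + 1 ≤ J := by exact_mod_cast (hj i).1
    nlinarith
  · have key : ∀ i i' : Fin n, i < i' → Disjoint
        (Metric.ball p (b / 2 + 3 * j i * l + 3 * l) \ Metric.ball p (b / 2 + 3 * j i * l))
        (Metric.ball p (b / 2 + 3 * j i' * l + 3 * l) \ Metric.ball p (b / 2 + 3 * j i' * l)) := by
      intro i i' h
      have : (j i : ℝ) + 1 ≤ j i' := by exact_mod_cast j.strictMono h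
      refine Set.disjoint_left.2 fun x hx hx' => hx'.2 (Metric.ball_subset_ball ?_ hx.1)
      nlinarith
    intro i i' h
    rcases lt_or_gt_of_ne h with h | h
    · exact key i i' h
    · exact (key i' i h).symm
  · obtain ⟨-, a1, a2⟩ := hj i
    push_cast at a1 a2
    have e1 : b / 2 + (3 * (j i : ℝ) + 1) * l = b / 2 + 3 * j i * l + l := by ring
    have e2 : b / 2 + (3 * (j i : ℝ) + 2) * l = b / 2 + 3 * j i * l + 2 * l := by ring
    have e3 : b / 2 + (3 * (j i : ℝ) + 3) * l = b / 2 + 3 * j i * l + 3 * l := by ring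
    rw [e1, e2] at a1 a2
    rw [e3] at a2
    refine test_shell hK h1 h2 h3 h4 h5 (by positivity) hl0 a1 a2 ?_
    · have hd' : (1 : ℝ) ≤ d := by exact_mod_cast hd
      have hn' : (0 : ℝ) ≤ n := Nat.cast_nonneg n
      have c : (J : ℝ) ≤ 21 * (d + n) := by rw [hJ]; push_cast; linarith
      have e : (L : ℝ) / l = 6 * J * L / b := by rw [hl]; field_simp
      rw [e, div_pow, ← mul_div_assoc]
      gcongr ?_ / _
      have c2 : (J : ℝ) ^ 2 ≤ (21 * (d + n)) ^ 2 := by gcongr
      have c3 : (0 : ℝ) ≤ (L : ℝ) ^ 2 := sq_nonneg _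
      nlinarith [mul_le_mul_of_nonneg_right c2 c3, sq_nonneg ((d : ℝ) + n)]

end Pool.Agent.P.MP_5c8462_an.Ord
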