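import Pool.Agent.P.MP_5c8462_an.Ord.Defs

/-! Reduction of four functional inequalities on convex domains to needles. -/

set_option autoImplicit false

namespace Pool.Agent.P.MP_5c8462_an.Ord

open MeasureTheory Real Set

namespace RedP

variable {d : ℕ} {p : ℝ → ℝ} {a b : ℝ}

theorem lc_cont (h : LC p a b) : ContinuousOn p (Ioo a b) := by
  have h1 : ContinuousOn (fun s => Real.log (p s)) (Ioo a b) := h.conc.continuousOn isOpen_Ioo
  refine (Real.continuous_exp.comp_continuousOn h1).congr fun s hs => ?_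
  simp [Real.exp_log (h.pos s hs)]

theorem lc_int (h : LC p a b) : IntegrableOn p (Ioo a b) := by
  obtain ⟨C, hC⟩ := h.bdd
  refine IntegrableOn.of_bound (by simp) ((lc_cont h).aestronglyMeasurable measurableSet_Ioo) C ?_
  refine (ae_restrict_iff' measurableSet_Ioo).2 (Filter.Eventually.of_forall fun s hs => ?_)
  rw [Real.norm_eq_abs, abs_of_pos (h.pos s hs)]
  exact hC s hs

theorem lc_mul (h : LC p a b) {F : ℝ → ℝ} (hF : Continuous F) :
    IntegrableOn (fun s => F s * p s) (Ioo a b) :=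
  (lc_int h).continuousOn_mul_of_subset hF.continuousOn isCompact_Icc measurableSet_Ioo
    Ioo_subset_Icc_self

theorem lc_mono (h : LC p a b) {F G : ℝ → ℝ} (hF : Continuous F) (hG : Continuous G)
    (hle : ∀ s ∈ Ioo a b, F s ≤ G s) :
    ∫ s in Ioo a b, F s * p s ≤ ∫ s in Ioo a b, G s * p s :=
  setIntegral_mono_on (lc_mul h hF) (lc_mul h hG) measurableSet_Ioo fun s hs =>
    mul_le_mul_of_nonneg_right (hle s hs) (h.pos s hs).le

theorem lc_pos (h : LC p a b) {F : ℝ → ℝ} (hF : Continuous F) (hpos : ∀ s, 0 < F s) :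
    0 < ∫ s in Ioo a b, F s * p s := by
  rw [setIntegral_pos_iff_support_of_nonneg_ae _ (lc_mul h hF)]
  · refine lt_of_lt_of_le ?_ (measure_mono (s := Ioo a b) fun s hs =>
      ⟨(mul_pos (hpos s) (h.pos s hs)).ne', hs⟩)
    simpa using h.lt
  · exact (ae_restrict_iff' measurableSet_Ioo).2 (Filter.Eventually.of_forall fun s hs =>
      (mul_pos (hpos s) (h.pos s hs)).le)

theorem lc_pos1 (h : LC p a b) : 0 < ∫ s in Ioo a b, p s := by
  simpa using lc_pos h (F := fun _ => 1) continuous_const fun _ => one_pos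

theorem lin3 {X : Type} [MeasurableSpace X] {μ : Measure X} {f g k F : X → ℝ} (α β γ : ℝ)
    (hf : Integrable f μ) (hg : Integrable g μ) (hk : Integrable k μ)
    (hF : ∀ x, F x = α * f x + β * g x + γ * k x) :
    ∫ x, F x ∂μ = α * ∫ x, f x ∂μ + β * ∫ x, g x ∂μ + γ * ∫ x, k x ∂μ := by
  have h1 : Integrable (fun x => α * f x + β * g x) μ := (hf.const_mul α).add (hg.const_mul β)
  simp only [hF]
  rw [integral_add h1 (hk.const_mul γ), integral_add (hf.const_mul α) (hg.const_mul β),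
    integral_const_mul, integral_const_mul, integral_const_mul]

theorem dom_int {Ω : Set (E d)} (hΩ : Dom Ω) {F : E d → ℝ} (hF : Continuous F) :
    IntegrableOn F Ω :=
  (hF.continuousOn.integrableOn_compact hΩ.2.2.2.isCompact_closure).mono_set subset_closure

theorem dom_vol {Ω : Set (E d)} (hΩ : Dom Ω) : volume Ω ≠ ⊤ := hΩ.2.2.2.measure_lt_top.ne

theorem dom_pos {Ω : Set (E d)} (hΩ : Dom Ω) {F : E d → ℝ} (hF : Continuous F)
    (hpos : ∀ x, 0 < F x) : 0 < ∫ x in Ω, F x := by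
  rw [setIntegral_pos_iff_support_of_nonneg_ae
    (Filter.Eventually.of_forall fun x => (hpos x).le) (dom_int hΩ hF)]
  obtain ⟨x, hx⟩ := hΩ.1
  exact (hF.isOpen_support.inter hΩ.2.1).measure_pos _ ⟨x, (hpos x).ne', hx⟩

theorem line_cont (x0 e : E d) : Continuous fun s : ℝ => x0 + s • e := by fun_prop

theorem line_dist (x0 : E d) {e : E d} (he : ‖e‖ = 1) (s t : ℝ) :
    dist (x0 + s • e) (x0 + t • e) = |s - t| := by
  rw [dist_eq_norm, add_sub_add_left_eq_sub, ← sub_smul, norm_smul, he, mul_one, Real.norm_eq_abs]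

theorem line_cd (x0 e : E d) {u : E d → ℝ} (hu : ContDiff ℝ 1 u) :
    ContDiff ℝ 1 fun s : ℝ => u (x0 + s • e) :=
  hu.comp (contDiff_const.add (contDiff_id.smul contDiff_const))

theorem line_deriv (x0 : E d) {e : E d} (he : ‖e‖ = 1) {u : E d → ℝ} (hu : ContDiff ℝ 1 u)
    (s : ℝ) : deriv (fun s : ℝ => u (x0 + s • e)) s ^ 2 ≤ ‖fderiv ℝ u (x0 + s • e)‖ ^ 2 := by
  have h1 : HasDerivAt (fun s : ℝ => x0 + s • e) e s := by
    simpa using ((hasDerivAt_id s).smul_const e).const_add x0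
  have h2 : HasDerivAt (fun s : ℝ => u (x0 + s • e)) (fderiv ℝ u (x0 + s • e) e) s :=
    ((hu.differentiable (by norm_num)) _).hasFDerivAt.comp_hasDerivAt s h1
  rw [h2.deriv]
  have h3 := (fderiv ℝ u (x0 + s • e)).le_opNorm e
  rw [he, mul_one, Real.norm_eq_abs] at h3
  rw [← sq_abs]
  exact pow_le_pow_left₀ (abs_nonneg _) h3 2

theorem fd_cont {u : E d → ℝ} (hu : ContDiff ℝ 1 u) : Continuous fun x => ‖fderiv ℝ u x‖ ^ 2 :=
  ((hu.continuous_fderiv (by norm_num)).norm).pow 2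

theorem gk_cont (h : ℝ) (y : E d) : Continuous fun x : E d => gk h (y - x) := by
  unfold gk; fun_prop

theorem gk_pos (h : ℝ) (v : E d) : 0 < gk h v := Real.exp_pos _

theorem g1_cont (h c : ℝ) : Continuous (g1 h c) := by unfold g1; fun_prop

theorem g1_pos (h c s : ℝ) : 0 < g1 h c s := Real.exp_pos _

theorem gk_line (h : ℝ) (y x0 : E d) {e : E d} (he : ‖e‖ = 1) : ∃ κ : ℝ, 0 < κ ∧ ∀ s : ℝ,
    gk h (y - (x0 + s • e)) = κ * g1 h (inner ℝ e (y - x0)) s := by
  refine ⟨exp (-(‖y - x0‖ ^ 2 - (inner ℝ e (y - x0) : ℝ) ^ 2) / (2 * h)), Real.exp_pos _,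
    fun s => ?_⟩
  unfold gk g1
  rw [← Real.exp_add]
  congr 1
  have e1 : y - (x0 + s • e) = (y - x0) - s • e := by abel
  rw [e1, norm_sub_sq_real, norm_smul, he, mul_one, Real.norm_eq_abs, sq_abs,
    real_inner_smul_right, real_inner_comm]
  ring

/-- All needles close to `Ω` lie in a fixed compact set. -/
theorem near_ball {Ω : Set (E d)} (hΩ : Dom Ω) : ∃ R : ℝ, 0 ≤ R ∧ ∀ (η : ℝ) (x0 e : E d) (a b : ℝ)
    (p : ℝ → ℝ), η ≤ 1 → Needle Ω η x0 e a b p → ∀ s ∈ Icc a b,
      x0 + s • e ∈ Metric.closedBall (0 : E d) R := by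
  obtain ⟨R, hR⟩ := hΩ.2.2.2.subset_closedBall (0 : E d)
  obtain ⟨x1, hx1⟩ := hΩ.1
  have h0 : 0 ≤ R := le_trans dist_nonneg (hR hx1)
  refine ⟨R + 1, by linarith, fun η x0 e a b p hη hN s hs => ?_⟩
  obtain ⟨x, hx, hd⟩ := hN.2.2 s hs
  have h1 : dist x 0 ≤ R := hR hx
  have h2 := dist_triangle (x0 + s • e) x 0
  rw [Metric.mem_closedBall]
  linarith

/-- Weighted variance inequality from needles. -/
theorem var (hNL : StNL) (hd : 1 ≤ d) {Ω : Set (E d)} (hΩ : Dom Ω) {w : E d → ℝ}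
    (hw : Continuous w) (hwp : ∀ x, 0 < w x) {C η0 : ℝ} (hC : 0 ≤ C) (hη0 : 0 < η0)
    (H : ∀ (η : ℝ) (x0 e : E d) (a b : ℝ) (p : ℝ → ℝ), η ≤ η0 → Needle Ω η x0 e a b p →
      ∀ v : ℝ → ℝ, ContDiff ℝ 1 v → ∃ m : ℝ,
        ∫ s in Ioo a b, ((v s - m) ^ 2 * w (x0 + s • e)) * p s ≤
          C * ∫ s in Ioo a b, (deriv v s ^ 2 * w (x0 + s • e)) * p s)
    {u : E d → ℝ} (hu : ContDiff ℝ 1 u) (h0 : ∫ x in Ω, u x * w x = 0) :
    ∫ x in Ω, u x ^ 2 * w x ≤ C * ∫ x in Ω, ‖fderiv ℝ u x‖ ^ 2 * w x := by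
  have huc := hu.continuous
  have hfd := fd_cont hu
  obtain ⟨R, hR0, hR⟩ := near_ball hΩ
  obtain ⟨z, -, hz⟩ := (isCompact_closedBall (0 : E d) R).exists_isMinOn
    ⟨0, Metric.mem_closedBall_self hR0⟩ hw.continuousOn
  have hm : 0 < w z := hwp z
  have key := hNL d hd Ω hΩ (fun x => u x * w x)
    (fun x => C * (‖fderiv ℝ u x‖ ^ 2 * w x) - u x ^ 2 * w x) (by fun_prop) (by fun_prop) h0 ?_
  · rw [integral_sub ((dom_int hΩ (by fun_prop)).const_mul C) (dom_int hΩ (by fun_prop)),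
      integral_const_mul] at key
    linarith
  intro ε hε
  refine ⟨min η0 (min 1 (ε * w z)), lt_min hη0 (lt_min one_pos (mul_pos hε hm)),
    fun x0 e a b p hN hf => ?_⟩
  set η := min η0 (min 1 (ε * w z)) with hη
  have hη1 : η ≤ 1 := (min_le_right _ _).trans (min_le_left _ _)
  have hη2 : η ≤ ε * w z := (min_le_right _ _).trans (min_le_right _ _)
  have hηp : 0 < η := lt_min hη0 (lt_min one_pos (mul_pos hε hm))
  have hL := hN.2.1
  have hl := line_cont x0 e
  have hv := line_cd x0 e hu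
  have hvd : Continuous (deriv fun s : ℝ => u (x0 + s • e)) := hv.continuous_deriv le_rfl
  obtain ⟨m, hm1⟩ := H η x0 e a b p (min_le_left _ _) hN _ hv
  have hZ := lc_pos1 hL
  have hI0 : w z * ∫ s in Ioo a b, p s ≤ ∫ s in Ioo a b, w (x0 + s • e) * p s := by
    rw [← integral_const_mul]
    exact lc_mono hL continuous_const (by fun_prop) fun s hs =>
      hz (hR η x0 e a b p hη1 hN s (Ioo_subset_Icc_self hs))
  have hD : ∫ s in Ioo a b, (deriv (fun s : ℝ => u (x0 + s • e)) s ^ 2 * w (x0 + s • e)) * p s ≤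
      ∫ s in Ioo a b, (‖fderiv ℝ u (x0 + s • e)‖ ^ 2 * w (x0 + s • e)) * p s :=
    lc_mono hL (by fun_prop) ((hfd.comp hl).mul (by fun_prop)) fun s _ =>
      mul_le_mul_of_nonneg_right (line_deriv x0 hN.1 hu s) (hwp _).le
  have i1 := lc_mul hL (F := fun s => u (x0 + s • e) ^ 2 * w (x0 + s • e)) (by fun_prop)
  have i2 := lc_mul hL (F := fun s => u (x0 + s • e) * w (x0 + s • e)) (by fun_prop)
  have i3 := lc_mul hL (F := fun s => w (x0 + s • e)) (by fun_prop)
  have i4 := lc_mul hL (F := fun s => ‖fderiv ℝ u (x0 + s • e)‖ ^ 2 * w (x0 + s • e))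
    ((hfd.comp hl).mul (by fun_prop))
  have e1 : ∫ s in Ioo a b, ((u (x0 + s • e) - m) ^ 2 * w (x0 + s • e)) * p s =
      (∫ s in Ioo a b, (u (x0 + s • e) ^ 2 * w (x0 + s • e)) * p s) -
        2 * m * (∫ s in Ioo a b, (u (x0 + s • e) * w (x0 + s • e)) * p s) +
        m ^ 2 * ∫ s in Ioo a b, w (x0 + s • e) * p s := by
    rw [lin3 1 (-(2 * m)) (m ^ 2) i1 i2 i3 fun s => by ring]
    ring
  have e2 : ∫ s in Ioo a b, (C * (‖fderiv ℝ u (x0 + s • e)‖ ^ 2 * w (x0 + s • e)) -
      u (x0 + s • e) ^ 2 * w (x0 + s • e)) * p s =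
      C * (∫ s in Ioo a b, (‖fderiv ℝ u (x0 + s • e)‖ ^ 2 * w (x0 + s • e)) * p s) -
        ∫ s in Ioo a b, (u (x0 + s • e) ^ 2 * w (x0 + s • e)) * p s := by
    rw [← integral_const_mul, ← integral_sub (i4.const_mul _) i1]
    exact integral_congr_ae (Filter.Eventually.of_forall fun s => by ring)
  rw [e2]
  rw [e1] at hm1
  have h3 := mul_le_mul_of_nonneg_left hD hC
  generalize (∫ s in Ioo a b, p s) = Z at *
  generalize (∫ s in Ioo a b, (u (x0 + s • e) * w (x0 + s • e)) * p s) = I1 at *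
  generalize (∫ s in Ioo a b, w (x0 + s • e) * p s) = I0 at *
  have h4 : 2 * |m| * η ≤ m ^ 2 * w z + ε := by
    have h5 : η ^ 2 ≤ ε * w z := by nlinarith
    have h6 : w z * (2 * |m| * η) ≤ w z * (m ^ 2 * w z + ε) := by
      have h7 : (|m| * w z - η) ^ 2 = m ^ 2 * w z ^ 2 - 2 * |m| * w z * η + η ^ 2 := by
        rw [← sq_abs m]; ring
      nlinarith [sq_nonneg (|m| * w z - η)]
    exact le_of_mul_le_mul_left h6 hm
  have h7 : m * I1 ≤ |m| * (η * Z) :=
    (le_abs_self _).trans (by rw [abs_mul]; exact mul_le_mul_of_nonneg_left hf (abs_nonneg m))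
  have h8 := mul_le_mul_of_nonneg_left hI0 (sq_nonneg m)
  have h9 := mul_le_mul_of_nonneg_right h4 hZ.le
  nlinarith

end RedP

open RedP

theorem pGP (hNL : StNL) (h1 : St1G) : StGP := by
  intro d hd Ω hΩ h hh y u hu h0
  refine var hNL hd hΩ (gk_cont h y) (fun x => gk_pos h _) (by positivity) one_pos ?_ hu h0
  intro η x0 e a b p _ hN v hv
  obtain ⟨κ, hκ, hk⟩ := gk_line h y x0 hN.1
  obtain ⟨m, hm⟩ := h1 p a b hN.2.1 h (inner ℝ e (y - x0)) hh v hv
  refine ⟨m, ?_⟩
  have e : ∀ F : ℝ → ℝ, ∫ s in Ioo a b, (F s * gk h (y - (x0 + s • e))) * p s =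
      κ * ∫ s in Ioo a b, F s * (g1 h (inner ℝ e (y - x0)) s * p s) := by
    intro F
    rw [← integral_const_mul]
    exact integral_congr_ae (Filter.Eventually.of_forall fun s => by simp only [hk]; ring)
  rw [e fun s => (v s - m) ^ 2, e fun s => deriv v s ^ 2]
  have := mul_le_mul_of_nonneg_left hm hκ.le
  linarith

theorem pPW (hNL : StNL) (h1 : St1P) : StPW := by
  intro d hd Ω hΩ D hD u hu h0
  have hpi : 0 < π ^ 2 := by positivity
  have key : ∀ L : ℝ, D < L → π ^ 2 * Sq Ω u ≤ L ^ 2 * En Ω u := by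
    intro L hL
    have := var hNL hd hΩ (w := fun _ => 1) continuous_const (fun _ => one_pos)
      (C := L ^ 2 / π ^ 2) (η0 := (L - D) / 3) (by positivity) (by linarith) ?_ hu (by simpa using h0)
    · simp only [mul_one] at this
      rw [div_mul_eq_mul_div, le_div_iff₀ hpi] at this
      unfold Sq En
      linarith
    intro η x0 e a b p hη hN v hv
    have hab := hN.2.1.lt
    obtain ⟨x, hx, hx1⟩ := hN.2.2 a ⟨le_rfl, hab.le⟩
    obtain ⟨z, hz, hz1⟩ := hN.2.2 b ⟨hab.le, le_rfl⟩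
    have h2 := line_dist x0 hN.1 b a
    have h3 := dist_triangle4 (x0 + b • e) z x (x0 + a • e)
    have h4 := hD z hz x hx
    rw [dist_comm x] at h3
    have h5 := le_abs_self (b - a)
    obtain ⟨m, hm⟩ := h1 p a b hN.2.1 L (by linarith) v hv
    refine ⟨m, ?_⟩
    simp only [mul_one]
    rw [div_mul_eq_mul_div, le_div_iff₀ hpi]
    linarith
  have ht : Filter.Tendsto (fun L : ℝ => L ^ 2 * En Ω u) (nhdsWithin D (Ioi D))
      (nhds (D ^ 2 * En Ω u)) :=
    (Continuous.tendsto (by fun_prop) D).mono_left nhdsWithin_le_nhds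
  exact ge_of_tendsto ht (Filter.mem_of_superset self_mem_nhdsWithin fun L hL => key L hL)

theorem pTC (hNL : StNL) (h1 : St1T) : StTC := by
  intro d hd Ω hΩ h r hh y y' hyy φ ψ hφ hψ hle
  have hρ : ∀ y : E d, 0 < rho Ω h y := fun y => dom_pos hΩ (gk_cont h y) fun x => gk_pos h _
  have c1 := gk_cont h y
  have c2 := gk_cont h y'
  obtain ⟨R, hR0, hR⟩ := near_ball hΩ
  obtain ⟨M, hM⟩ := (isCompact_closedBall (0 : E d) R).exists_bound_of_continuousOn hφ.continuousOn
  have hM0 : 0 ≤ M := (norm_nonneg _).trans (hM 0 (Metric.mem_closedBall_self hR0))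
  have key := hNL d hd Ω hΩ
    (fun x => (rho Ω h y)⁻¹ * gk h (y - x) - (rho Ω h y')⁻¹ * gk h (y' - x))
    (fun x => (rho Ω h y')⁻¹ * (ψ x * gk h (y' - x)) - (rho Ω h y)⁻¹ * (φ x * gk h (y - x)))
    (by fun_prop) (by fun_prop) ?_ ?_
  · rw [integral_sub ((dom_int hΩ (by fun_prop)).const_mul _)
      ((dom_int hΩ (by fun_prop)).const_mul _), integral_const_mul, integral_const_mul] at key
    unfold opT
    rw [div_eq_inv_mul, div_eq_inv_mul]
    linarith
  · rw [integral_sub ((dom_int hΩ c1).const_mul _) ((dom_int hΩ c2).const_mul _),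
      integral_const_mul, integral_const_mul]
    have a1 := inv_mul_cancel₀ (hρ y).ne'
    have a2 := inv_mul_cancel₀ (hρ y').ne'
    unfold rho at a1 a2 ⊢
    rw [a1, a2, sub_self]
  intro ε hε
  refine ⟨min 1 (ε / (M + 1)), lt_min one_pos (by positivity), fun x0 e a b p hN hf => ?_⟩
  set η := min 1 (ε / (M + 1)) with hη
  have hη1 : η ≤ 1 := min_le_left _ _
  have hηp : 0 < η := lt_min one_pos (by positivity)
  have hη2 : M * η ≤ ε := by
    have : η ≤ ε / (M + 1) := min_le_right _ _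
    rw [le_div_iff₀ (by positivity)] at this
    nlinarith
  have hL := hN.2.1
  have hl := line_cont x0 e
  obtain ⟨κ, hκ, hk⟩ := gk_line h y x0 hN.1
  obtain ⟨κ', hκ', hk'⟩ := gk_line h y' x0 hN.1
  set c : ℝ := inner ℝ e (y - x0) with hc
  set c' : ℝ := inner ℝ e (y' - x0) with hc'
  have hcc : |c - c'| ≤ r := by
    rw [hc, hc', ← inner_sub_right, sub_sub_sub_cancel_right]
    have := abs_real_inner_le_norm e (y - y')
    rw [hN.1, one_mul, ← dist_eq_norm] at this
    linarith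
  have T := h1 p a b hL h c c' r hh hcc (fun s => φ (x0 + s • e)) (fun s => ψ (x0 + s • e))
    (by fun_prop) (by fun_prop) fun s s' hs => hle _ _ (by rw [line_dist x0 hN.1]; exact hs)
  have g1c := g1_cont h c
  have g2c := g1_cont h c'
  have i1 := lc_mul hL g1c
  have i2 := lc_mul hL g2c
  have i3 := lc_mul hL (F := fun s => φ (x0 + s • e) * g1 h c s) (by fun_prop)
  have i4 := lc_mul hL (F := fun s => ψ (x0 + s • e) * g1 h c' s) (by fun_prop)
  simp only [mul_assoc] at i3 i4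
  have e1 : ∫ s in Ioo a b, ((rho Ω h y)⁻¹ * gk h (y - (x0 + s • e)) -
      (rho Ω h y')⁻¹ * gk h (y' - (x0 + s • e))) * p s =
      ((rho Ω h y)⁻¹ * κ) * (∫ s in Ioo a b, g1 h c s * p s) -
        ((rho Ω h y')⁻¹ * κ') * ∫ s in Ioo a b, g1 h c' s * p s := by
    rw [← integral_const_mul, ← integral_const_mul,
      ← integral_sub (i1.const_mul _) (i2.const_mul _)]
    exact integral_congr_ae (Filter.Eventually.of_forall fun s => by simp only [hk, hk']; ring)
  have e2 : ∫ s in Ioo a b, ((rho Ω h y')⁻¹ * (ψ (x0 + s • e) * gk h (y' - (x0 + s • e))) -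
      (rho Ω h y)⁻¹ * (φ (x0 + s • e) * gk h (y - (x0 + s • e)))) * p s =
      ((rho Ω h y')⁻¹ * κ') * (∫ s in Ioo a b, ψ (x0 + s • e) * (g1 h c' s * p s)) -
        ((rho Ω h y)⁻¹ * κ) * ∫ s in Ioo a b, φ (x0 + s • e) * (g1 h c s * p s) := by
    rw [← integral_const_mul, ← integral_const_mul,
      ← integral_sub (i4.const_mul _) (i3.const_mul _)]
    exact integral_congr_ae (Filter.Eventually.of_forall fun s => by simp only [hk, hk']; ring)
  have hA := lc_pos hL g1c (g1_pos h c)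
  have hX : |∫ s in Ioo a b, φ (x0 + s • e) * (g1 h c s * p s)| ≤
      M * ∫ s in Ioo a b, g1 h c s * p s := by
    have b1 := lc_mono hL (F := fun s => φ (x0 + s • e) * g1 h c s) (G := fun s => M * g1 h c s)
      (by fun_prop) (by fun_prop) fun s hs => mul_le_mul_of_nonneg_right
        (le_of_abs_le (hM _ (hR η x0 e a b p hη1 hN s (Ioo_subset_Icc_self hs)))) (g1_pos h c s).le
    have b2 := lc_mono hL (F := fun s => -M * g1 h c s) (G := fun s => φ (x0 + s • e) * g1 h c s)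
      (by fun_prop) (by fun_prop) fun s hs => mul_le_mul_of_nonneg_right
        (neg_le_of_abs_le (hM _ (hR η x0 e a b p hη1 hN s (Ioo_subset_Icc_self hs))))
        (g1_pos h c s).le
    simp only [mul_assoc, integral_const_mul] at b1 b2
    rw [abs_le]
    constructor <;> linarith
  have hZ := lc_pos1 hL
  rw [e2]
  rw [e1] at hf
  have k1 : 0 < (rho Ω h y)⁻¹ * κ := mul_pos (inv_pos.2 (hρ y)) hκ
  have k2 : 0 < (rho Ω h y')⁻¹ * κ' := mul_pos (inv_pos.2 (hρ y')) hκ'
  generalize (rho Ω h y)⁻¹ * κ = α at *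
  generalize (rho Ω h y')⁻¹ * κ' = β at *
  generalize (∫ s in Ioo a b, p s) = Z at *
  generalize (∫ s in Ioo a b, φ (x0 + s • e) * (g1 h c s * p s)) = X at *
  generalize (∫ s in Ioo a b, ψ (x0 + s • e) * (g1 h c' s * p s)) = Y at *
  generalize (∫ s in Ioo a b, g1 h c s * p s) = A at *
  generalize (∫ s in Ioo a b, g1 h c' s * p s) = B at *
  have f1 : X * (α * A - β * B) ≤ M * A * (η * Z) :=
    (le_abs_self _).trans (by
      rw [abs_mul]; exact mul_le_mul hX hf (abs_nonneg _) (by positivity))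
  have f2 := mul_le_mul_of_nonneg_left T k2.le
  have f3 := mul_le_mul_of_nonneg_right hη2 (mul_pos hA hZ).le
  have f4 : A * (-(ε * Z)) ≤ A * (β * Y - α * X) := by nlinarith
  exact le_of_mul_le_mul_left f4 hA

theorem pH (hNL : StNL) (h1 : St1H) : StH := by
  intro d hd Ω hΩ G hG hLip ρ l Δ θ J hJ hl hΔ hθ hdiam hvol u hu
  have hGc : Continuous G := by
    refine (LipschitzWith.of_dist_le_mul (K := 1) fun x y => ?_).continuous
    simpa [Real.dist_eq] using hLip x y
  have huc := hu.continuous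
  have hfd := fd_cont hu
  set χ : E d → ℝ := fun x => max 0 (min 1 ((G x - ρ) / l)) with hχ
  set χ2 : E d → ℝ := fun x => max 0 (min 1 ((ρ + 3 * l - G x) / l)) with hχ2
  have cχ : Continuous χ := by simp only [hχ]; fun_prop
  have cχ2 : Continuous χ2 := by simp only [hχ2]; fun_prop
  have χ0 : ∀ x, 0 ≤ χ x := fun x => le_max_left _ _
  have χ20 : ∀ x, 0 ≤ χ2 x := fun x => le_max_left _ _
  have χ1 : ∀ x, χ x ≤ 1 := fun x => max_le zero_le_one (min_le_left _ _)
  have χ21 : ∀ x, χ2 x ≤ 1 := fun x => max_le zero_le_one (min_le_left _ _)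
  have χa : ∀ x, G x ≤ ρ → χ x = 0 := fun x hx =>
    max_eq_left ((min_le_right _ _).trans (div_nonpos_of_nonpos_of_nonneg (by linarith) hl.le))
  have χb : ∀ x, ρ + l ≤ G x → χ x = 1 := fun x hx => by
    have : 1 ≤ (G x - ρ) / l := by rw [le_div_iff₀ hl]; linarith
    simp only [hχ, min_eq_left this]; simp
  have χc : ∀ x, ρ + 3 * l ≤ G x → χ2 x = 0 := fun x hx =>
    max_eq_left ((min_le_right _ _).trans (div_nonpos_of_nonpos_of_nonneg (by linarith) hl.le))
  have χd : ∀ x, G x ≤ ρ + 2 * l → χ2 x = 1 := fun x hx => by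
    have : 1 ≤ (ρ + 3 * l - G x) / l := by rw [le_div_iff₀ hl]; linarith
    simp only [hχ2, min_eq_left this]; simp
  have hV : 0 < volume.real Ω := by
    simpa using dom_pos hΩ (F := fun _ => 1) continuous_const fun _ => one_pos
  have mΩ := hΩ.2.1.measurableSet
  have hcut : ∀ (S : Set (E d)) (F : E d → ℝ) (c : E d → ℝ), MeasurableSet S → Continuous F →
      Continuous c → (∀ x, 0 ≤ F x) → (∀ x, c x ≤ 1) → (∀ x, x ∉ S → c x = 0) →
      ∫ x in Ω, c x * F x ≤ ∫ x in Ω ∩ S, F x := by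
    intro S F c hS hF hc hF0 hc1 hc0
    rw [← setIntegral_indicator hS]
    refine setIntegral_mono_on (dom_int hΩ (hc.mul hF)) ((dom_int hΩ hF).indicator hS) mΩ
      fun x _ => ?_
    by_cases hx : x ∈ S
    · rw [indicator_of_mem hx]
      nlinarith [hF0 x, hc1 x]
    · rw [indicator_of_notMem hx, hc0 x hx, zero_mul]
  set θ0 : ℝ := (∫ x in Ω, χ x) / volume.real Ω with hθ0
  have hθ1 : θ0 ≤ θ := by
    rw [hθ0, div_le_iff₀ hV]
    have := hcut {x | ρ < G x} (fun _ => 1) χ (isOpen_lt continuous_const hGc).measurableSet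
      continuous_const cχ (fun _ => zero_le_one) χ1 fun x hx => χa x (not_lt.1 hx)
    simp only [mul_one, integral_const, MeasurableSet.univ, measureReal_restrict_apply, univ_inter,
      smul_eq_mul] at this
    linarith
  have key := hNL d hd Ω hΩ (fun x => χ x - θ0)
    (fun x => 7 * (χ2 x * u x ^ 2) + 16 * l ^ 2 * ‖fderiv ℝ u x‖ ^ 2 - u x ^ 2)
    (by fun_prop) (by fun_prop) ?_ ?_
  · have j1 := dom_int hΩ (F := fun x => χ2 x * u x ^ 2) (by fun_prop)
    have j2 := dom_int hΩ hfd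
    have j3 := dom_int hΩ (F := fun x => u x ^ 2) (by fun_prop)
    rw [lin3 7 (16 * l ^ 2) (-1) j1 j2 j3 fun x => by ring] at key
    have := hcut {x | G x < ρ + 3 * l} (fun x => u x ^ 2) χ2
      (isOpen_lt hGc continuous_const).measurableSet (by fun_prop) cχ2 (fun _ => sq_nonneg _) χ21
      fun x hx => χc x (not_lt.1 hx)
    unfold Sq En
    linarith
  · rw [integral_sub (dom_int hΩ cχ) (dom_int hΩ continuous_const)]
    simp only [integral_const, MeasurableSet.univ, measureReal_restrict_apply, univ_inter,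
      smul_eq_mul, hθ0]
    field_simp
    ring
  intro ε hε
  set τ : ℝ := exp (-(J : ℝ)) / (2 * J) with hτ
  have hτ1 : τ ≤ 1 := by
    have a1 : (1 : ℝ) ≤ J := by exact_mod_cast hJ
    have a2 : exp (-(J : ℝ)) ≤ 1 := Real.exp_le_one_iff.2 (by linarith)
    rw [hτ, div_le_one (by linarith)]
    linarith
  have hηp : 0 < min l (min ((J * l - Δ) / 2) ((τ - θ) / 2)) :=
    lt_min hl (lt_min (by linarith) (by linarith))
  refine ⟨_, hηp, fun x0 e a b p hN hf => ?_⟩
  set η := min l (min ((J * l - Δ) / 2) ((τ - θ) / 2)) with hη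
  have hη1 : η ≤ l := min_le_left _ _
  have hη2 : η ≤ (J * l - Δ) / 2 := (min_le_right _ _).trans (min_le_left _ _)
  have hη3 : η ≤ (τ - θ) / 2 := (min_le_right _ _).trans (min_le_right _ _)
  have hL := hN.2.1
  have hli := line_cont x0 e
  have hZ := lc_pos1 hL
  have i1 := lc_mul hL (F := fun s => χ (x0 + s • e)) (by fun_prop)
  have hχint : ∫ s in Ioo a b, χ (x0 + s • e) * p s ≤ (θ + η) * ∫ s in Ioo a b, p s := by
    have e1 : ∫ s in Ioo a b, (χ (x0 + s • e) - θ0) * p s =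
        (∫ s in Ioo a b, χ (x0 + s • e) * p s) - θ0 * ∫ s in Ioo a b, p s := by
      rw [← integral_const_mul, ← integral_sub i1 ((lc_int hL).const_mul _)]
      exact integral_congr_ae (Filter.Eventually.of_forall fun s => by ring)
    rw [e1] at hf
    have := le_of_abs_le hf
    have := mul_le_mul_of_nonneg_right hθ1 hZ.le
    linarith
  set T : Set ℝ := Icc a b ∩ {s | G (x0 + s • e) ≤ ρ + l} with hT
  have Tc : IsCompact T := isCompact_Icc.inter_right (isClosed_le (by fun_prop) continuous_const)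
  have Tn : T.Nonempty := by
    by_contra hc
    have : ∫ s in Ioo a b, 1 * p s ≤ ∫ s in Ioo a b, χ (x0 + s • e) * p s :=
      lc_mono hL continuous_const (by fun_prop) fun s hs => by
        rw [χb]
        by_contra h2
        exact hc ⟨s, Ioo_subset_Icc_self hs, (not_le.1 h2).le⟩
    simp only [one_mul] at this
    nlinarith
  have Tv : Convex ℝ T := by
    refine (convex_Icc a b).inter fun s hs t ht α β hα hβ hαβ => ?_
    have e1 : x0 + (α • s + β • t) • e = α • (x0 + s • e) + β • (x0 + t • e) := by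
      simp only [smul_eq_mul, smul_add, add_smul, mul_smul]
      have : x0 = α • x0 + β • x0 := by rw [← add_smul, hαβ, one_smul]
      conv_lhs => rw [this]
      abel
    have h2 := hG.2 (mem_univ (x0 + s • e)) (mem_univ (x0 + t • e)) hα hβ hαβ
    simp only [mem_setOf_eq, smul_eq_mul] at hs ht h2
    rw [mem_setOf_eq, e1]
    have h3 := mul_le_mul_of_nonneg_left hs hα
    have h4 := mul_le_mul_of_nonneg_left ht hβ
    have h5 : α * (ρ + l) + β * (ρ + l) = ρ + l := by rw [← add_mul, hαβ, one_mul]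
    linarith
  have hI := eq_Icc_of_connected_compact (Tv.isConnected Tn) Tc
  have hs : sInf T ∈ T := Tc.sInf_mem Tn
  have ht : sSup T ∈ T := Tc.sSup_mem Tn
  generalize sInf T = s at hI hs
  generalize sSup T = t at hI ht
  have hst : s ≤ t := by
    have := hI ▸ hs
    exact this.2
  have hs2 : G (x0 + s • e) ≤ ρ + l := hs.2
  have ht2 : G (x0 + t • e) ≤ ρ + l := ht.2
  have hlen : t - s ≤ J * l := by
    obtain ⟨x, hx, hx1⟩ := hN.2.2 s hs.1
    obtain ⟨z, hz, hz1⟩ := hN.2.2 t ht.1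
    have a1 := neg_le_of_abs_le ((hLip _ _).trans hx1)
    have a2 := neg_le_of_abs_le ((hLip _ _).trans hz1)
    have a3 := hdiam z hz x hx (by linarith) (by linarith)
    have a4 := line_dist x0 hN.1 t s
    have a5 := dist_triangle4 (x0 + t • e) z x (x0 + s • e)
    rw [dist_comm x] at a5
    have a6 := le_abs_self (t - s)
    linarith
  have htail : ∫ x in Ioo a b \ Icc s t, p x ≤ (θ + η) * ∫ x in Ioo a b, p x := by
    refine le_trans ?_ hχint
    have a1 : ∫ x in Ioo a b \ Icc s t, p x = ∫ x in Ioo a b \ Icc s t, χ (x0 + x • e) * p x := by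
      refine setIntegral_congr_fun (measurableSet_Ioo.diff measurableSet_Icc) fun x hx => ?_
      have : ρ + l ≤ G (x0 + x • e) := by
        by_contra h2
        exact hx.2 (hI ▸ (⟨Ioo_subset_Icc_self hx.1, (not_le.1 h2).le⟩ : x ∈ T))
      simp only [χb _ this, one_mul]
    rw [a1]
    refine setIntegral_mono_set i1 ((ae_restrict_iff' measurableSet_Ioo).2
      (Filter.Eventually.of_forall fun x hx => mul_nonneg (χ0 _) (hL.pos x hx).le)) ?_
    exact diff_subset.eventuallyLE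
  have hv := line_cd x0 e hu
  have hvd : Continuous (deriv fun s : ℝ => u (x0 + s • e)) := hv.continuous_deriv le_rfl
  have K := h1 p a b hL s t l (θ + η) J hJ hl hs.1.1 hst ht.1.2 hlen (by linarith) htail _ hv
  have i2 := lc_mul hL (F := fun s => χ2 (x0 + s • e) * u (x0 + s • e) ^ 2) (by fun_prop)
  have i3 := lc_mul hL (F := fun s => ‖fderiv ℝ u (x0 + s • e)‖ ^ 2) (hfd.comp hli)
  have i4 := lc_mul hL (F := fun s => u (x0 + s • e) ^ 2) (by fun_prop)
  have hD : ∫ s in Ioo a b, deriv (fun s : ℝ => u (x0 + s • e)) s ^ 2 * p s ≤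
      ∫ s in Ioo a b, ‖fderiv ℝ u (x0 + s • e)‖ ^ 2 * p s :=
    lc_mono hL (by fun_prop) (hfd.comp hli) fun s _ => line_deriv x0 hN.1 hu s
  have hmid : ∫ x in Ioo a b ∩ Icc (s - l) (t + l), u (x0 + x • e) ^ 2 * p x ≤
      ∫ x in Ioo a b, (χ2 (x0 + x • e) * u (x0 + x • e) ^ 2) * p x := by
    have a1 : ∫ x in Ioo a b ∩ Icc (s - l) (t + l), u (x0 + x • e) ^ 2 * p x =
        ∫ x in Ioo a b ∩ Icc (s - l) (t + l), (χ2 (x0 + x • e) * u (x0 + x • e) ^ 2) * p x := by
      refine setIntegral_congr_fun (measurableSet_Ioo.inter measurableSet_Icc) fun x hx => ?_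
      have : G (x0 + x • e) ≤ ρ + 2 * l := by
        obtain ⟨-, x1, x2⟩ := hx
        rcases le_total x s with b1 | b1
        · have b2 := le_of_abs_le (hLip (x0 + x • e) (x0 + s • e))
          rw [line_dist x0 hN.1, abs_of_nonpos (by linarith)] at b2
          linarith
        rcases le_total x t with b3 | b3
        · have b4 : x ∈ T := hI ▸ (⟨b1, b3⟩ : x ∈ Icc s t)
          have b5 : G (x0 + x • e) ≤ ρ + l := b4.2
          linarith
        · have b2 := le_of_abs_le (hLip (x0 + x • e) (x0 + t • e))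
          rw [line_dist x0 hN.1, abs_of_nonneg (by linarith)] at b2
          linarith
      simp only [χd _ this, one_mul]
    rw [a1]
    refine setIntegral_mono_set i2 ((ae_restrict_iff' measurableSet_Ioo).2
      (Filter.Eventually.of_forall fun x hx =>
        mul_nonneg (mul_nonneg (χ20 _) (sq_nonneg _)) (hL.pos x hx).le)) ?_
    exact inter_subset_left.eventuallyLE
  have e2 : ∫ s in Ioo a b, (7 * (χ2 (x0 + s • e) * u (x0 + s • e) ^ 2) +
      16 * l ^ 2 * ‖fderiv ℝ u (x0 + s • e)‖ ^ 2 - u (x0 + s • e) ^ 2) * p s =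
      7 * (∫ s in Ioo a b, (χ2 (x0 + s • e) * u (x0 + s • e) ^ 2) * p s) +
        16 * l ^ 2 * (∫ s in Ioo a b, ‖fderiv ℝ u (x0 + s • e)‖ ^ 2 * p s) -
        ∫ s in Ioo a b, u (x0 + s • e) ^ 2 * p s := by
    rw [lin3 7 (16 * l ^ 2) (-1) i2 i3 i4 fun s => by ring]
    ring
  rw [e2]
  have f1 := mul_le_mul_of_nonneg_left hD (by positivity : (0 : ℝ) ≤ 16 * l ^ 2)
  have f2 := mul_pos hε hZ
  linarith

end Pool.Agent.P.MP_5c8462_an.Ord
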