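import Pool.Agent.P.MP_5c8462_an.Ord.Defs

set_option autoImplicit false

namespace Pool.Agent.P.MP_5c8462_an.Ord

open MeasureTheory Real Set

namespace Stab

variable {d : ℕ} {Ω A : Set (E d)} {e : E d}

theorem intOn {g : E d → ℝ} (hg : Continuous g) (hb : Bornology.IsBounded A) : IntegrableOn g A :=
  (hg.continuousOn.integrableOn_compact hb.isCompact_closure).mono_set subset_closure

theorem vol_pos (h : Dom Ω) : 0 < volume.real Ω :=
  ENNReal.toReal_pos (h.2.1.measure_pos _ h.1).ne' h.2.2.2.measure_lt_top.ne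

theorem cont_e (e : E d) : Continuous fun x : E d => (inner ℝ e x : ℝ) := by fun_prop

theorem abs_inner (he : ‖e‖ = 1) (x : E d) : |(inner ℝ e x : ℝ)| ≤ ‖x‖ := by
  simpa [he] using abs_real_inner_le_norm e x

theorem dist_two (hb : Ω ⊆ Metric.ball 0 1) : ∀ x ∈ Ω, ∀ y ∈ Ω, dist x y ≤ 2 := fun x hx y hy => by
  have h1 := Metric.mem_ball.1 (hb hx)
  have h2 := Metric.mem_ball.1 (hb hy)
  linarith [dist_triangle_right x y 0]

/-- two linear conditions in a space of dimension three -/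
theorem span (h : Dom Ω) {M : ℝ} (hM : Adm 2 Ω M) (B : Fin 2 → Set (E d)) (hB : ∀ j, B j ⊆ Ω) :
    ∃ u : E d → ℝ, ContDiff ℝ 1 u ∧ (∀ j, ∫ x in B j, u x = 0) ∧ 0 < Sq Ω u ∧
      En Ω u ≤ M * Sq Ω u := by
  obtain ⟨f, hf, hli, hM⟩ := hM
  set T : Matrix (Fin 2) (Fin (2 + 1)) ℝ := fun j i => ∫ y in B j, f i y with hT
  obtain ⟨c, hc, hc0⟩ : ∃ c : Fin (2 + 1) → ℝ, T.mulVecLin c = 0 ∧ c ≠ 0 := by
    have : LinearMap.ker T.mulVecLin ≠ ⊥ := LinearMap.ker_ne_bot_of_finrank_lt (by simp)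
    obtain ⟨c, h1, h2⟩ := Submodule.exists_mem_ne_zero_of_ne_bot this
    exact ⟨c, h1, h2⟩
  have uC : ContDiff ℝ 1 fun x => ∑ i, c i * f i x :=
    ContDiff.sum fun i _ => contDiff_const.mul (hf i)
  refine ⟨_, uC, fun j => ?_, int_pos h.2.1 h.2.2.2 uC.continuous ?_, hM c⟩
  · rw [integral_finsetSum]
    · have := congrFun hc j
      simp only [Matrix.mulVecLin_apply, Matrix.mulVec, dotProduct, hT, Pi.zero_apply] at this
      rw [← this]
      refine Finset.sum_congr rfl fun i _ => ?_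
      rw [integral_const_mul, mul_comm]
    · exact fun i _ => intOn (continuous_const.mul (hf i).continuous) (h.2.2.2.subset (hB j))
  · by_contra hcon
    push Not at hcon
    exact hc0 (hli c hcon)

/-- a direction with mass far from the origin -/
theorem dir (hC : StCov) : ∃ σ c : ℝ, 0 < σ ∧ σ ≤ 1 ∧ 0 < c ∧ ∀ d : ℕ, 1 ≤ d → ∀ Ω : Set (E d),
    Dom Ω → Ω ⊆ Metric.ball 0 1 → ∀ u : E d → ℝ, ContDiff ℝ 1 u → ∫ x in Ω, u x = 0 →
    0 < Sq Ω u → En Ω u ≤ 3 * Sq Ω u → ∃ e : E d, ‖e‖ = 1 ∧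
      c * volume.real Ω ≤ volume.real (Ω ∩ {x | σ ≤ inner ℝ e x}) := by
  obtain ⟨δ, h0, h1, h2⟩ : ∃ δ : ℝ, 0 < δ ∧ δ ≤ 1 ∧
      √(δ / (1 / 400)) * exp (2 / (1 / 400)) ≤ 1 / 2 := by
    have a1 := exp_pos (2 / (1 / 400) : ℝ)
    have a2 : 1 ≤ exp (2 / (1 / 400) : ℝ) := one_le_exp (by norm_num)
    generalize exp (2 / (1 / 400) : ℝ) = K at *
    have a3 : 1 / (2 * K) ≤ 1 := by
      rw [div_le_one (by positivity)]
      linarith
    have a4 : 0 < 1 / (2 * K) := by positivity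
    refine ⟨(1 / (2 * K)) ^ 2 * (1 / 400), by positivity, by nlinarith, le_of_eq ?_⟩
    rw [mul_div_assoc, div_self (by norm_num), mul_one, sqrt_sq a4.le]
    field_simp
  refine ⟨δ / 2, δ ^ 2 / 4, by positivity, by linarith, by positivity,
    fun d hd Ω hΩ hb u hu h3 h4 h5 => ?_⟩
  have hV := vol_pos hΩ
  obtain ⟨e, e1, e2⟩ : ∃ e : E d, ‖e‖ ≤ 1 ∧
      δ ^ 2 * volume.real Ω < ∫ x in Ω, (inner ℝ e x : ℝ) ^ 2 := by
    by_contra hcon
    push Not at hcon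
    have := hC d hd Ω hΩ hb (1 / 400) δ (by norm_num) h0.le hcon u hu h3
    nlinarith [mul_le_mul_of_nonneg_right h2 h4.le]
  have e0 : 0 < ‖e‖ := norm_pos_iff.2 fun h => by
    simp only [h, inner_zero_left, ne_eq, OfNat.ofNat_ne_zero, not_false_eq_true, zero_pow,
      integral_zero] at e2
    have : 0 < δ ^ 2 * volume.real Ω := by positivity
    linarith
  set v : E d := ‖e‖⁻¹ • e with hv
  have v1 : ‖v‖ = 1 := by rw [hv, norm_smul, norm_inv, norm_norm, inv_mul_cancel₀ e0.ne']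
  have v2 : ∀ x, (inner ℝ e x : ℝ) = ‖e‖ * inner ℝ v x := fun x => by
    rw [hv, real_inner_smul_left, mul_inv_cancel_left₀ e0.ne']
  have m : ∀ w : E d, MeasurableSet {x : E d | δ / 2 ≤ inner ℝ w x} := fun w =>
    (isClosed_le continuous_const (cont_e w)).measurableSet
  have i0 : ∀ a : ℝ, IntegrableOn (fun _ : E d => a) Ω := fun a => intOn continuous_const hΩ.2.2.2
  have k : ∫ x in Ω, (inner ℝ e x : ℝ) ^ 2 ≤ ∫ x in Ω, (δ ^ 2 / 4 +
      {x : E d | δ / 2 ≤ inner ℝ v x}.indicator (fun _ => (1 : ℝ)) x +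
      {x : E d | δ / 2 ≤ inner ℝ (-v) x}.indicator (fun _ => (1 : ℝ)) x) := by
    refine setIntegral_mono_on (intOn ((cont_e e).pow 2) hΩ.2.2.2)
      (((i0 _).add ((i0 1).indicator (m v))).add ((i0 1).indicator (m (-v))))
      hΩ.2.1.measurableSet fun x hx => ?_
    have a1 := abs_le.1 ((abs_inner v1 x).trans (mem_ball_zero_iff.1 (hb hx)).le)
    have a2 : (inner ℝ e x : ℝ) ^ 2 ≤ (inner ℝ v x : ℝ) ^ 2 := by
      rw [v2, mul_pow]
      exact mul_le_of_le_one_left (sq_nonneg _) (pow_le_one₀ e0.le e1)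
    simp only [indicator, mem_ofPred_eq, inner_neg_left]
    split_ifs <;> nlinarith
  replace k := k.trans_eq
    (integral_add ((i0 _).add ((i0 1).indicator (m v))) ((i0 1).indicator (m (-v))))
  beta_reduce at k
  rw [integral_add (i0 _) ((i0 1).indicator (m v)), setIntegral_indicator (m v),
    setIntegral_indicator (m (-v))] at k
  simp only [setIntegral_const, smul_eq_mul, mul_one] at k
  by_cases hc : δ ^ 2 / 4 * volume.real Ω ≤ volume.real (Ω ∩ {x | δ / 2 ≤ inner ℝ v x})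
  · exact ⟨v, v1, hc⟩
  · refine ⟨-v, by rw [norm_neg, v1], ?_⟩
    have : 0 < δ ^ 2 * volume.real Ω := by positivity
    linarith

/-- a thin set with a long chord in a half ball lies near the boundary plane -/
theorem slab {η : ℝ} (h0 : 0 < η) (h1 : η ≤ 1 / 4) (he : ‖e‖ = 1) (hb : A ⊆ Metric.ball 0 1)
    (hp : ∀ x ∈ A, (0 : ℝ) ≤ inner ℝ e x) (ht : Thin η A) {x y : E d} (hx : x ∈ A) (hy : y ∈ A)
    (hl : 2 * (1 - η ^ 2 / 8) < dist x y) : ∀ z ∈ A, (inner ℝ e z : ℝ) ≤ 9 * η := by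
  intro z hz
  obtain ⟨x0, f, hf, ht⟩ := ht
  have k : ∀ a ∈ A, ∀ b ∈ A, ‖b - a - (inner ℝ f (b - a) : ℝ) • f‖ ≤ 2 * η := fun a ha b hb => by
    have : b - a - (inner ℝ f (b - a) : ℝ) • f = (b - x0 - (inner ℝ f (b - x0) : ℝ) • f) -
        (a - x0 - (inner ℝ f (a - x0) : ℝ) • f) := by
      simp only [inner_sub_right, sub_smul]
      abel
    rw [this]
    linarith [norm_sub_le (b - x0 - (inner ℝ f (b - x0) : ℝ) • f)
      (a - x0 - (inner ℝ f (a - x0) : ℝ) • f), ht a ha, ht b hb]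
  have k' : ∀ a ∈ A, ∀ b ∈ A, |inner ℝ e b - inner ℝ e a -
      (inner ℝ f (b - a) : ℝ) * inner ℝ e f| ≤ 2 * η := fun a ha b hb => by
    have := (abs_inner he _).trans (k a ha b hb)
    rwa [inner_sub_right, inner_sub_right, real_inner_smul_right] at this
  have nx := mem_ball_zero_iff.1 (hb hx)
  have ny := mem_ball_zero_iff.1 (hb hy)
  rw [dist_comm, dist_eq_norm] at hl
  have s1 : ‖y + x‖ ≤ η := by
    have := parallelogram_law_with_norm ℝ y x
    refine abs_le_of_sq_le_sq' ?_ h0.le |>.2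
    have a1 : (2 * (1 - η ^ 2 / 8)) ^ 2 ≤ ‖y - x‖ ^ 2 :=
      pow_le_pow_left₀ (by nlinarith) hl.le 2
    nlinarith [norm_nonneg x, norm_nonneg y, sq_nonneg (η ^ 2)]
  have s2 := (abs_le.1 ((abs_inner he _).trans s1)).2
  rw [inner_add_right] at s2
  have s3 : 1 ≤ |(inner ℝ f (y - x) : ℝ)| := by
    have a1 := norm_add_le (y - x - (inner ℝ f (y - x) : ℝ) • f) ((inner ℝ f (y - x) : ℝ) • f)
    rw [sub_add_cancel, norm_smul, hf, mul_one, norm_eq_abs] at a1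
    nlinarith [k x hx y hy]
  have px := hp x hx
  have py := hp y hy
  have s4 : |(inner ℝ e f : ℝ)| ≤ 3 * η := by
    have a1 := abs_le.1 (k' x hx y hy)
    have a2 : |(inner ℝ f (y - x) : ℝ) * inner ℝ e f| ≤ 3 * η := abs_le.2 ⟨by linarith, by linarith⟩
    rw [abs_mul] at a2
    exact (le_mul_of_one_le_left (abs_nonneg _) s3).trans a2
  have s5 : |(inner ℝ f (z - x) : ℝ) * inner ℝ e f| ≤ 2 * (3 * η) := by
    rw [abs_mul]
    refine mul_le_mul ((abs_inner hf _).trans ?_) s4 (abs_nonneg _) (by norm_num)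
    rw [← dist_eq_norm]
    exact dist_two hb z hz x hx
  linarith [(abs_le.1 (k' x hx z hz)).2, (abs_le.1 s5).2]

/-- the weighted energy density -/
noncomputable def Ψ (S : Set (E d)) (a b : ℝ) (u : E d → ℝ) (x : E d) : ℝ :=
  ‖fderiv ℝ u x‖ ^ 2 - a * u x ^ 2 + b * S.indicator (fun x => u x ^ 2) x

theorem int_Ψ {S : Set (E d)} (hS : MeasurableSet S) (a b : ℝ) {u : E d → ℝ} (hu : ContDiff ℝ 1 u)
    (hb : Bornology.IsBounded A) : IntegrableOn (Ψ S a b u) A ∧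
      ∫ x in A, Ψ S a b u x = En A u - a * Sq A u + b * Sq (A ∩ S) u := by
  have i1 := intOn ((hu.continuous_fderiv (by norm_num)).norm.pow 2) hb
  have i2 := intOn (hu.continuous.pow 2) hb
  have i3 := (i2.indicator hS).const_mul b
  have i4 := i1.sub (i2.const_mul a)
  refine ⟨i4.add i3, (integral_add i4 i3).trans ?_⟩
  rw [integral_const_mul, setIntegral_indicator hS]
  refine congrArg (· + _) ((integral_sub i1 (i2.const_mul a)).trans ?_)
  rw [integral_const_mul]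
  rfl

theorem Sq_nonneg (A : Set (E d)) (u : E d → ℝ) : 0 ≤ Sq A u :=
  integral_nonneg fun _ => sq_nonneg _

theorem half (hL : StLoc) (hP : StPW) (hd : 1 ≤ d) {η a : ℝ} (h0 : 0 < η) (h1 : η ≤ 1 / 4)
    (ha : a * (2 * (1 - η ^ 2 / 8)) ^ 2 = π ^ 2) (ha' : π ^ 2 / 4 ≤ a) (he : ‖e‖ = 1) (hΩ : Dom Ω)
    (hb : Ω ⊆ Metric.ball 0 1) {S : Set (E d)} (hS : MeasurableSet S)
    (hs : ∀ x, |(inner ℝ e x : ℝ)| ≤ 9 * η → x ∈ S) {u : E d → ℝ} (hu : ContDiff ℝ 1 u)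
    (hm : ∫ x in Ω ∩ {x | (0 : ℝ) < inner ℝ e x}, u x = 0) :
    0 ≤ ∫ x in Ω ∩ {x | (0 : ℝ) < inner ℝ e x}, Ψ S a (a - π ^ 2 / 4) u x := by
  rcases (Ω ∩ {x | (0 : ℝ) < inner ℝ e x}).eq_empty_or_nonempty with h | h
  · simp [h]
  have bd := hΩ.2.2.2.subset (inter_subset_left (t := {x | (0 : ℝ) < inner ℝ e x}))
  refine hL d hd _ ⟨h, hΩ.2.1.inter (isOpen_lt continuous_const (cont_e e)),
    hΩ.2.2.1.inter (convex_halfSpace_gt (innerSL ℝ e).toLinearMap.isLinear 0), bd⟩ u _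
    (intOn hu.continuous bd) (int_Ψ hS _ _ hu bd).1 η h0 (fun A hA hs' ht hm' => ?_) hm
  rw [(int_Ψ hS _ _ hu hA.2.2.2).2]
  have hb' : A ⊆ Metric.ball 0 1 := (hs'.trans inter_subset_left).trans hb
  have n1 := Sq_nonneg A u
  by_cases hc : ∀ x ∈ A, ∀ y ∈ A, dist x y ≤ 2 * (1 - η ^ 2 / 8)
  · have a1 := hP d hd A hA _ hc u hu hm'
    have a2 : 0 < (2 * (1 - η ^ 2 / 8)) ^ 2 := pow_pos (by nlinarith) 2
    have a3 : a * Sq A u ≤ En A u := by
      refine le_of_mul_le_mul_left ?_ a2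
      rw [← ha] at a1
      linarith
    linarith [mul_nonneg (sub_nonneg.2 ha') (Sq_nonneg (A ∩ S) u)]
  · push Not at hc
    obtain ⟨x, hx, y, hy, hl⟩ := hc
    have hp : ∀ x ∈ A, (0 : ℝ) ≤ inner ℝ e x := fun x hx => (hs' hx).2.le
    have a1 := slab h0 h1 he hb' hp ht hx hy hl
    rw [inter_eq_left.2 fun z hz => hs z (abs_le.2 ⟨by linarith [hp z hz], a1 z hz⟩)]
    linarith [hP d hd A hA 2 (dist_two hb') u hu hm']

theorem split_int (he : ‖e‖ = 1) {g : E d → ℝ} (hg : IntegrableOn g Ω) :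
    ∫ x in Ω, g x = (∫ x in Ω ∩ {x | (0 : ℝ) < inner ℝ e x}, g x) +
      ∫ x in Ω ∩ {x | (0 : ℝ) < inner ℝ (-e) x}, g x := by
  have m : MeasurableSet {x : E d | (0 : ℝ) < inner ℝ e x} :=
    (isOpen_lt continuous_const (cont_e e)).measurableSet
  rw [← integral_inter_add_sdiff m hg]
  refine congrArg _ (setIntegral_congr_set ?_)
  have z : volume (LinearMap.ker (innerSL ℝ e).toLinearMap : Set (E d)) = 0 :=
    Measure.addHaar_submodule _ _ fun h => by
      have : e ∈ LinearMap.ker (innerSL ℝ e).toLinearMap := h ▸ Submodule.mem_top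
      simp [he] at this
  filter_upwards [measure_eq_zero_iff_ae_notMem.1 z] with x hx
  have hx' : (inner ℝ e x : ℝ) ≠ 0 := hx
  refine propext (and_congr_right fun _ => ?_)
  simp only [mem_ofPred_eq, inner_neg_left, not_lt, neg_pos]
  exact ⟨fun h => lt_of_le_of_ne h hx', le_of_lt⟩

/-- many disjoint slabs of comparable mass -/
theorem slabs (hB : StBM) (hΩ : Dom Ω) (hb : Ω ⊆ Metric.ball 0 1) (he : ‖e‖ = 1) {σ c δ : ℝ}
    {J : ℕ} (s0 : 0 < σ) (s1 : σ ≤ 1) (c0 : 0 < c) (hδ : 2 * δ < (σ / 2) ^ (J + 1))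
    (h1 : c * volume.real Ω ≤ volume.real (Ω ∩ {x | |(inner ℝ e x : ℝ)| ≤ δ}))
    (h2 : c * volume.real Ω ≤ volume.real (Ω ∩ {x | σ ≤ inner ℝ e x})) : J * c ≤ 1 := by
  have hV := vol_pos hΩ
  have mΩ := hΩ.2.1.measurableSet
  have bd : ∀ T, Bornology.IsBounded (Ω ∩ T) := fun T => hΩ.2.2.2.subset inter_subset_left
  set C : ℕ → Set (E d) := fun j => Ω ∩ {x | (σ / 2) ^ (j + 1) * σ - δ ≤ inner ℝ e x ∧
    inner ℝ e x ≤ (σ / 2) ^ (j + 1) + δ} with hC
  have mC : ∀ j, MeasurableSet (C j) := fun j => mΩ.inter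
    ((isClosed_le continuous_const (cont_e e)).inter
      (isClosed_le (cont_e e) continuous_const)).measurableSet
  have q0 : 0 < σ / 2 := by positivity
  have q1 : σ / 2 < 1 := by linarith
  have low : ∀ j, c * volume.real Ω ≤ volume.real (C j) := fun j => by
    have t0 : 0 < (σ / 2) ^ (j + 1) := pow_pos q0 _
    have t1 : (σ / 2) ^ (j + 1) < 1 := pow_lt_one₀ q0.le q1 (by omega)
    have cV : 0 < c * volume.real Ω := by positivity
    refine le_trans ?_ (hB d (Ω ∩ {x | |(inner ℝ e x : ℝ)| ≤ δ}) (Ω ∩ {x | σ ≤ inner ℝ e x}) (C j)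
      (mΩ.inter (isClosed_le (cont_e e).abs continuous_const).measurableSet)
      (mΩ.inter (isClosed_le continuous_const (cont_e e)).measurableSet) (mC j) (bd _) (bd _)
      (bd _) _ t0 t1 fun x hx y hy => ⟨hΩ.2.2.1 hx.1 hy.1 (by linarith) t0.le (by ring), ?_⟩)
    · refine le_trans (le_of_eq ?_) (mul_le_mul (rpow_le_rpow cV.le h1 (by linarith))
        (rpow_le_rpow cV.le h2 t0.le) (by positivity) (by positivity))
      rw [← rpow_add cV, sub_add_cancel, rpow_one]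
    · have a1 := abs_le.1 (show |(inner ℝ e x : ℝ)| ≤ δ from hx.2)
      have a2 : σ ≤ inner ℝ e y := hy.2
      have a3 := (abs_le.1 ((abs_inner he y).trans (mem_ball_zero_iff.1 (hb hy.1)).le)).2
      simp only [mem_ofPred_eq, inner_add_right, real_inner_smul_right]
      generalize (σ / 2) ^ (j + 1) = t at *
      constructor <;> nlinarith
  have dj : ∀ i j, i < j → j < J → Disjoint (C i) (C j) := fun i j hij hj => by
    refine disjoint_left.2 fun x hx hx' => ?_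
    have a1 : (σ / 2) ^ (j + 1) ≤ (σ / 2) ^ (i + 1 + 1) :=
      pow_le_pow_of_le_one q0.le q1.le (by omega)
    have a2 : (σ / 2) ^ (J + 1) ≤ (σ / 2) ^ (i + 1 + 1) :=
      pow_le_pow_of_le_one q0.le q1.le (by omega)
    rw [pow_succ _ (i + 1)] at a1 a2
    linarith [hx.2.1, hx'.2.2]
  have tot : ∑ j ∈ Finset.range J, volume.real (C j) ≤ volume.real Ω := by
    rw [← measureReal_biUnion_finset (fun i hi j hj hij => ?_) (fun j _ => mC j)
      fun j _ => (bd _).measure_lt_top.ne]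
    · exact measureReal_mono (iUnion₂_subset fun j _ => inter_subset_left)
        hΩ.2.2.2.measure_lt_top.ne
    · rcases lt_or_gt_of_ne hij with h | h
      · exact dj i j h (by simpa using hj)
      · exact (dj j i h (by simpa using hi)).symm
  have := (Finset.sum_le_sum fun j _ => low j).trans tot
  rw [Finset.sum_const, Finset.card_range, nsmul_eq_mul] at this
  refine le_of_mul_le_mul_right ?_ hV
  linarith

end Stab

open Stab in
theorem pS (hB : StBM) (hL : StLoc) (hP : StPW) (hU : StUI) (hC : StCov) : StS := by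
  obtain ⟨σ, c, s0, s1, c0, hdir⟩ := dir hC
  have K0 := exp_pos ((2 : ℝ) ^ 2 / (1 / 400))
  generalize hK : exp ((2 : ℝ) ^ 2 / (1 / 400)) = K at K0
  have c1 : 0 < min c (1 / (8 * K)) := lt_min c0 (by positivity)
  obtain ⟨J, hJ⟩ := exists_nat_gt (1 / min c (1 / (8 * K)))
  rw [div_lt_iff₀ c1] at hJ
  have t0 : 0 < (σ / 2) ^ (J + 1) := by positivity
  have t1 : (σ / 2) ^ (J + 1) ≤ 1 := pow_le_one₀ (by positivity) (by linarith)
  obtain ⟨η, h0, h1, h2⟩ : ∃ η : ℝ, 0 < η ∧ η ≤ 1 / 4 ∧ 2 * (9 * η) < (σ / 2) ^ (J + 1) :=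
    ⟨(σ / 2) ^ (J + 1) / 27, by positivity, by linarith, by linarith⟩
  have k0 : 0 < η ^ 2 / 8 := by positivity
  have k1 : η ^ 2 / 8 ≤ 1 / 128 := by nlinarith
  refine ⟨η ^ 2 / 8, k0, fun d hd Ω hΩ hb M hM => ?_⟩
  by_contra hcon
  push Not at hcon
  have p0 : 0 < π ^ 2 := by positivity
  have p1 : π ^ 2 < 10 := by nlinarith [pi_lt_d2, pi_pos]
  have M3 : M ≤ 3 := by nlinarith
  obtain ⟨u₀, a1, a2, a3, a4⟩ := span hΩ hM (fun _ => Ω) fun _ => subset_rfl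
  obtain ⟨e, he, hT⟩ := hdir d hd Ω hΩ hb u₀ a1 (a2 0) a3
    (a4.trans (mul_le_mul_of_nonneg_right M3 a3.le))
  obtain ⟨u, b1, b2, b3, b4⟩ := span hΩ hM ![Ω ∩ {x | (0 : ℝ) < inner ℝ e x},
    Ω ∩ {x | (0 : ℝ) < inner ℝ (-e) x}] fun j => by fin_cases j <;> exact inter_subset_left
  have mS : MeasurableSet {x : E d | |(inner ℝ e x : ℝ)| ≤ 9 * η} :=
    (isClosed_le (cont_e e).abs continuous_const).measurableSet
  have D0 : 0 < (2 * (1 - η ^ 2 / 8)) ^ 2 := pow_pos (by linarith) 2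
  obtain ⟨a, ha⟩ : ∃ a, a * (2 * (1 - η ^ 2 / 8)) ^ 2 = π ^ 2 := ⟨_, div_mul_cancel₀ _ D0.ne'⟩
  have ha2 : (1 + 2 * (η ^ 2 / 8)) * π ^ 2 / 4 ≤ a := by
    refine le_of_mul_le_mul_right ?_ D0
    rw [ha]
    generalize η ^ 2 / 8 = κ at *
    have : (1 + 2 * κ) * (1 - κ) ^ 2 ≤ 1 := by nlinarith [mul_pos k0 k0]
    nlinarith
  have ha' : π ^ 2 / 4 ≤ a := by nlinarith
  have r1 := half hL hP hd h0 h1 ha ha' he hΩ hb mS (fun _ h => h) b1 (b2 0)
  have r2 := half hL hP hd h0 h1 ha ha' (e := -e) (by rw [norm_neg, he]) hΩ hb mS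
    (fun x h => by rwa [inner_neg_left, abs_neg] at h) b1 (b2 1)
  obtain ⟨r3, r4⟩ := int_Ψ mS a (a - π ^ 2 / 4) b1 hΩ.2.2.2
  have r5 := add_nonneg r1 r2
  rw [← split_int he r3, r4] at r5
  have r6 := hU d hd Ω hΩ 2 (1 / 400) (by norm_num) (dist_two hb) _ mS u b1
  rw [hK] at r6
  have hV := vol_pos hΩ
  set S := Ω ∩ {x : E d | |(inner ℝ e x : ℝ)| ≤ 9 * η}
  have r7 : Sq Ω u ≤ 2 * Sq S u := by
    have g0 : 0 < a - π ^ 2 / 4 := by nlinarith [mul_pos k0 p0]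
    refine le_of_mul_le_mul_left ?_ g0
    have g1 : M * Sq Ω u ≤ (π ^ 2 / 4 + (a - π ^ 2 / 4) / 2) * Sq Ω u :=
      mul_le_mul_of_nonneg_right (by linarith) b3.le
    linarith
  have r8 : 1 / (8 * K) * volume.real Ω ≤ volume.real S := by
    rw [← le_div_iff₀ hV, div_le_iff₀ (by positivity)]
    refine le_of_mul_le_mul_right ?_ b3
    linarith [mul_le_mul_of_nonneg_right M3 b3.le]
  have := slabs hB hΩ hb he s0 s1 c1 h2
    ((mul_le_mul_of_nonneg_right (min_le_right _ _) hV.le).trans r8)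
    ((mul_le_mul_of_nonneg_right (min_le_left _ _) hV.le).trans hT)
  linarith

end Pool.Agent.P.MP_5c8462_an.Ord
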