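import Pool.Agent.P.MP_5c8462_an.Ord.Defs

/-! The thin double cone. -/

set_option autoImplicit false

namespace Pool.Agent.P.MP_5c8462_an.Ord

open MeasureTheory Real Set Pointwise

namespace U1

theorem intOn {d : ℕ} {S : Set (E d)} (hb : Bornology.IsBounded S) {f : E d → ℝ}
    (hf : Continuous f) : IntegrableOn f S :=
  (hf.continuousOn.integrableOn_compact hb.isCompact_closure).mono_set subset_closure

theorem int_mono {d : ℕ} {A B : Set (E d)} (hb : Bornology.IsBounded B) (h : A ⊆ B) {f : E d → ℝ}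
    (hf : Continuous f) (h0 : ∀ x, 0 ≤ f x) : ∫ x in A, f x ≤ ∫ x in B, f x :=
  setIntegral_mono_set (intOn hb hf) (Filter.Eventually.of_forall h0) h.eventuallyLE

theorem int_cover {d : ℕ} {A B S : Set (E d)} (hA : Bornology.IsBounded A)
    (hB : Bornology.IsBounded B) (mA : MeasurableSet A) (mB : MeasurableSet B) (h : S ⊆ A ∪ B)
    {f : E d → ℝ} (hf : Continuous f) (h0 : ∀ x, 0 ≤ f x) :
    ∫ x in S, f x ≤ (∫ x in A, f x) + ∫ x in B, f x := by
  have h1 := int_mono (hA.union hB) h hf h0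
  have e : A ∪ B = A ∪ (B \ A) := by simp
  rw [e, setIntegral_union disjoint_sdiff_right (mB.diff mA) (intOn hA hf)
    (intOn (hB.subset sdiff_subset) hf)] at h1
  have h2 := int_mono hB (sdiff_subset (t := A)) hf h0
  linarith

theorem ray {d : ℕ} {H : E d → ℝ} (hH : ContDiff ℝ 1 H) (y : E d) (s : ℝ) :
    HasDerivAt (fun s : ℝ => H (s • y)) (fderiv ℝ H (s • y) y) s := by
  have h1 : HasDerivAt (fun s : ℝ => s • y) y s := by
    simpa using (hasDerivAt_id s).smul_const y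
  exact (hH.differentiable (by norm_num) _).hasFDerivAt.comp_hasDerivAt s h1

theorem dint {d : ℕ} {C : Set (E d)} (hm : MeasurableSet C) (hb : Bornology.IsBounded C)
    {H : E d → ℝ} (hH : ContDiff ℝ 1 H) (t : ℝ) :
    HasDerivAt (fun s : ℝ => ∫ y in C, H (s • y)) (∫ y in C, fderiv ℝ H (t • y) y) t := by
  have hF : Continuous (fderiv ℝ H) := hH.continuous_fderiv (by norm_num)
  have c2 : Continuous fun p : ℝ × E d => fderiv ℝ H (p.1 • p.2) p.2 :=
    (hF.comp (continuous_fst.smul continuous_snd)).clm_apply continuous_snd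
  obtain ⟨B, hB⟩ := ((isCompact_Icc (a := t - 1) (b := t + 1)).prod
    hb.isCompact_closure).exists_bound_of_continuousOn c2.continuousOn
  have c1 : ∀ s : ℝ, Continuous fun y : E d => H (s • y) :=
    fun s => hH.continuous.comp (continuous_const_smul s)
  refine (hasDerivAt_integral_of_dominated_loc_of_deriv_le (μ := volume.restrict C)
    (F := fun s y => H (s • y)) (F' := fun s y => fderiv ℝ H (s • y) y) (bound := fun _ => B)
    (s := Icc (t - 1) (t + 1)) (Icc_mem_nhds (by linarith) (by linarith))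
    (Filter.Eventually.of_forall fun s => (c1 s).aestronglyMeasurable) (intOn hb (c1 t))
    (c2.comp (continuous_const.prodMk continuous_id)).aestronglyMeasurable ?_
    (intOn hb continuous_const) (Filter.Eventually.of_forall fun y s _ => ray hH y s)).2
  filter_upwards [ae_restrict_mem hm] with y hy s hs
  exact hB (s, y) ⟨hs, subset_closure hy⟩

theorem scale {d : ℕ} (C : Set (E d)) (f : E d → ℝ) {s : ℝ} (hs : 0 < s) :
    s ^ d * ∫ y in C, f (s • y) = ∫ z in s • C, f z := by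
  rw [Measure.setIntegral_comp_smul_of_pos volume f C hs, finrank_euclideanSpace_fin, smul_eq_mul,
    ← mul_assoc, mul_inv_cancel₀ (pow_pos hs d).ne', one_mul]

/-- Hardy inequality on a set that is star-shaped about the origin. -/
theorem hardy {d : ℕ} (hd : 1 ≤ d) {C : Set (E d)} (hm : MeasurableSet C)
    (hb : Bornology.IsBounded C) (star : ∀ t : ℝ, 0 < t → t ≤ 1 → ∀ y ∈ C, t • y ∈ C) {R : ℝ}
    (hR0 : 0 ≤ R) (hR : ∀ y ∈ C, ‖y‖ ^ 2 ≤ R) {v : E d → ℝ} (hv : ContDiff ℝ 1 v) {τ : ℝ}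
    (h0 : 0 < τ) (h1 : τ < 1) :
    d / 2 * Sq (τ • C) v ≤ 2 / d * R * En C v + 1 / (1 - τ) * Sq (C \ τ • C) v := by
  have hd' : (0 : ℝ) < d := by exact_mod_cast hd
  have hH : ContDiff ℝ 1 fun z => v z ^ 2 := hv.pow 2
  have hF : Continuous (fderiv ℝ v) := hv.continuous_fderiv (by norm_num)
  have cE : Continuous fun z => ‖fderiv ℝ v z‖ ^ 2 := hF.norm.pow 2
  have cG : Continuous fun z => fderiv ℝ (fun z => v z ^ 2) z z :=
    (hH.continuous_fderiv (by norm_num)).clm_apply continuous_id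
  have sub : ∀ s t : ℝ, 0 < s → s ≤ t → s • C ⊆ t • C := by
    rintro s t hs hst _ ⟨y, hy, rfl⟩
    have ht : 0 < t := hs.trans_le hst
    refine ⟨(s / t) • y, star _ (div_pos hs ht) ((div_le_one ht).2 hst) y hy, ?_⟩
    simp only [smul_smul]
    rw [mul_div_cancel₀ _ ht.ne']
  have sub1 : ∀ s : ℝ, 0 < s → s ≤ 1 → s • C ⊆ C := fun s hs h => by
    simpa using sub s 1 hs h
  have der : ∀ s : ℝ, HasDerivAt (fun s : ℝ => s ^ d * ∫ y in C, v (s • y) ^ 2)
      ((d * s ^ (d - 1) * ∫ y in C, v (s • y) ^ 2) +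
        s ^ d * ∫ y in C, fderiv ℝ (fun z => v z ^ 2) (s • y) y) s :=
    fun s => (hasDerivAt_pow d s).mul (dint hm hb hH s)
  obtain ⟨t, ⟨t0, t1⟩, ht⟩ := exists_hasDerivAt_eq_slope _ _ h1
    (fun s _ => (der s).continuousAt.continuousWithinAt) (fun s _ => der s)
  have tp : 0 < t := h0.trans t0
  have bt : Bornology.IsBounded (t • C) := hb.subset (sub1 t tp t1.le)
  have mτ : MeasurableSet (τ • C) := hm.const_smul₀ τ
  have mt : MeasurableSet (t • C) := hm.const_smul₀ t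
  have e1 := scale C (fun z => v z ^ 2) h0
  have e2 := scale C (fun z => v z ^ 2) tp
  have e3 := scale C (fun z => fderiv ℝ (fun z => v z ^ 2) z z) tp
  have e4 : ∫ y in C, fderiv ℝ (fun z => v z ^ 2) (t • y) (t • y) =
      t * ∫ y in C, fderiv ℝ (fun z => v z ^ 2) (t • y) y := by
    rw [← integral_const_mul]
    simp only [map_smul, smul_eq_mul]
  have e5 : Sq (C \ τ • C) v = Sq C v - Sq (τ • C) v :=
    setIntegral_sdiff mτ (intOn hb hH.continuous) (sub1 τ h0 h1.le)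
  have e6 : t * t ^ (d - 1) = t ^ d := by
    rw [← pow_succ']; congr 1; omega
  have e7 : d * Sq (t • C) v + ∫ z in t • C, fderiv ℝ (fun z => v z ^ 2) z z =
      t * (1 / (1 - τ) * Sq (C \ τ • C) v) := by
    have : (1 : ℝ) / (1 - τ) * Sq (C \ τ • C) v = (Sq C v - Sq (τ • C) v) / (1 - τ) := by
      rw [e5]; ring
    rw [this]
    simp only [one_pow, one_smul, one_mul] at ht
    unfold Sq
    rw [← e1, ← ht, ← e2, ← e3, e4, ← e6]
    ring
  have low : d / 2 * Sq (t • C) v - 2 / d * R * En (t • C) v ≤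
      d * Sq (t • C) v + ∫ z in t • C, fderiv ℝ (fun z => v z ^ 2) z z := by
    have i1 := intOn bt hH.continuous
    have i2 := intOn bt cE
    have i3 := intOn bt cG
    unfold Sq En
    rw [← integral_const_mul, ← integral_const_mul, ← integral_const_mul,
      ← integral_sub (i1.const_mul _) (i2.const_mul _), ← integral_add (i1.const_mul _) i3]
    refine setIntegral_mono_on ((i1.const_mul _).sub (i2.const_mul _))
      ((i1.const_mul _).add i3) mt fun z hz => ?_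
    have e : fderiv ℝ (fun z => v z ^ 2) z z = 2 * v z * fderiv ℝ v z z := by
      rw [((hv.differentiable (by norm_num) z).hasFDerivAt.pow 2).fderiv]
      simp
    rw [e]
    have a1 : (fderiv ℝ v z z) ^ 2 ≤ ‖fderiv ℝ v z‖ ^ 2 * R := by
      have b1 : |fderiv ℝ v z z| ≤ ‖fderiv ℝ v z‖ * ‖z‖ := (fderiv ℝ v z).le_opNorm z
      have b2 := pow_le_pow_left₀ (abs_nonneg _) b1 2
      rw [sq_abs, mul_pow] at b2
      exact b2.trans (mul_le_mul_of_nonneg_left (hR z (sub1 t tp t1.le hz)) (sq_nonneg _))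
    have a2 : 0 ≤ d / 2 * (v z + 2 / d * fderiv ℝ v z z) ^ 2 := by positivity
    have a3 : (d : ℝ) / 2 * (v z + 2 / d * fderiv ℝ v z z) ^ 2 =
        d / 2 * v z ^ 2 + 2 * v z * fderiv ℝ v z z + 2 / d * (fderiv ℝ v z z) ^ 2 := by
      field_simp
      ring
    have a4 := mul_le_mul_of_nonneg_left a1 (show (0 : ℝ) ≤ 2 / d by positivity)
    nlinarith
  have m1 : Sq (τ • C) v ≤ Sq (t • C) v :=
    int_mono bt (sub τ t h0 t0.le) hH.continuous fun _ => sq_nonneg _
  have m2 : En (t • C) v ≤ En C v := int_mono hb (sub1 t tp t1.le) cE fun _ => sq_nonneg _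
  have m3 : 0 ≤ 1 / (1 - τ) * Sq (C \ τ • C) v :=
    mul_nonneg (by have := sub_pos.2 h1; positivity) (integral_nonneg fun _ => sq_nonneg _)
  have m4 := mul_le_mul_of_nonneg_left m1 (show (0 : ℝ) ≤ d / 2 by positivity)
  have m5 := mul_le_mul_of_nonneg_left m2 (show (0 : ℝ) ≤ 2 / d * R by positivity)
  nlinarith

theorem shift {d : ℕ} (q : E d) (S : Set (E d)) (f : E d → ℝ) :
    ∫ y in (fun y => q + y) ⁻¹' S, f (q + y) = ∫ x in S, f x :=
  (measurePreserving_add_left volume q).setIntegral_preimage_emb (measurableEmbedding_addLeft q) f S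

/-- The same with centre `q`. -/
theorem hardy' {d : ℕ} (hd : 1 ≤ d) (q : E d) {S A : Set (E d)} (hm : MeasurableSet S)
    (star : ∀ t : ℝ, 0 < t → t ≤ 1 → ∀ y, q + y ∈ S → q + t • y ∈ S) {R : ℝ}
    (hR0 : 0 ≤ R) (hR : ∀ y, q + y ∈ S → ‖y‖ ^ 2 ≤ R) {v : E d → ℝ} (hv : ContDiff ℝ 1 v) {τ : ℝ}
    (h0 : 0 < τ) (h1 : τ < 1) (hA : ∀ y, q + y ∈ A ↔ q + τ⁻¹ • y ∈ S) :
    d / 2 * Sq A v ≤ 2 / d * R * En S v + 1 / (1 - τ) * Sq (S \ A) v := by
  have hb' : Bornology.IsBounded ((fun y => q + y) ⁻¹' S) :=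
    (Metric.isBounded_closedBall (x := (0 : E d)) (r := √R)).subset fun y hy => by
      rw [mem_closedBall_zero_iff]
      exact Real.le_sqrt_of_sq_le (hR y hy)
  have h := hardy hd (measurable_const_add q hm) hb' star hR0 hR
    (v := fun y => v (q + y)) (hv.comp (contDiff_const.add contDiff_id)) h0 h1
  have e : τ • (fun y => q + y) ⁻¹' S = (fun y => q + y) ⁻¹' A := by
    ext y
    rw [mem_smul_set_iff_inv_smul_mem₀ h0.ne']
    exact (hA y).symm
  rw [e, ← preimage_sdiff] at h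
  unfold Sq En at h ⊢
  simp only [fderiv_comp_add_left] at h
  rwa [shift q A fun x => v x ^ 2, shift q (S \ A) fun x => v x ^ 2,
    shift q S fun x => ‖fderiv ℝ v x‖ ^ 2] at h

/-- The double cone. -/
def cone (n : ℕ) (ε : ℝ) : Set (E (n + 2)) := {x | ∀ j, j ≠ 0 → |x j| < ε * (1 - |x 0|)}

/-- The part of the cone near the apex `σ e₀`. -/
def tip (n : ℕ) (σ ε δ : ℝ) : Set (E (n + 2)) :=
  {x | δ < σ * x 0 ∧ ∀ j, j ≠ 0 → |x j| < ε * (1 - σ * x 0)}

/-- The middle part. -/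
def mid (n : ℕ) (ε δ : ℝ) : Set (E (n + 2)) := cone n ε ∩ {x | |x 0| < 2 * δ}

variable {n : ℕ}

theorem norm_le (x : E (n + 2)) {α β : ℝ} (h0 : |x 0| ≤ α) (h1 : ∀ j, j ≠ 0 → |x j| ≤ β) :
    ‖x‖ ^ 2 ≤ α ^ 2 + (n + 2) * β ^ 2 := by
  rw [EuclideanSpace.real_norm_sq_eq, Fin.sum_univ_succ]
  have a0 : x 0 ^ 2 ≤ α ^ 2 := by
    rw [← sq_abs]; exact pow_le_pow_left₀ (abs_nonneg _) h0 2
  have a1 : ∑ j : Fin (n + 1), x j.succ ^ 2 ≤ ∑ _j : Fin (n + 1), β ^ 2 :=
    Finset.sum_le_sum fun j _ => by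
      rw [← sq_abs]; exact pow_le_pow_left₀ (abs_nonneg _) (h1 _ (Fin.succ_ne_zero j)) 2
  simp only [Finset.sum_const, Finset.card_univ, Fintype.card_fin, nsmul_eq_mul] at a1
  push_cast at a1
  nlinarith [sq_nonneg β]

theorem cone_lt {ε : ℝ} (hε : 0 < ε) {x : E (n + 2)} (hx : x ∈ cone n ε) :
    |x 0| < 1 ∧ ∀ j, j ≠ 0 → |x j| ≤ ε := by
  have h1 := (abs_nonneg _).trans_lt (hx 1 (by simp))
  have h2 := (mul_pos_iff_of_pos_left hε).1 h1
  refine ⟨by linarith, fun j hj => ?_⟩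
  have := hx j hj
  nlinarith [abs_nonneg (x 0)]

theorem cone_open (ε : ℝ) : IsOpen (cone n ε) := by
  have e : cone n ε = ⋂ j, ⋂ (_ : j ≠ 0), {x : E (n + 2) | |x j| < ε * (1 - |x 0|)} := by
    ext x; simp [cone]
  rw [e]
  exact isOpen_iInter_of_finite fun j => isOpen_iInter_of_finite fun _ =>
    isOpen_lt (by fun_prop) (by fun_prop)

theorem tip_open (σ ε δ : ℝ) : IsOpen (tip n σ ε δ) := by
  have e : tip n σ ε δ = {x : E (n + 2) | δ < σ * x 0} ∩
      ⋂ j, ⋂ (_ : j ≠ 0), {x : E (n + 2) | |x j| < ε * (1 - σ * x 0)} := by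
    ext x; simp [tip]
  rw [e]
  exact (isOpen_lt (by fun_prop) (by fun_prop)).inter
    (isOpen_iInter_of_finite fun j => isOpen_iInter_of_finite fun _ =>
      isOpen_lt (by fun_prop) (by fun_prop))

theorem abs_comb (x y : E (n + 2)) {a b : ℝ} (ha : 0 < a) (hb : 0 < b) (j : Fin (n + 2)) :
    |(a • x + b • y) j| ≤ a * |x j| + b * |y j| := by
  simp only [PiLp.add_apply, PiLp.smul_apply, smul_eq_mul]
  refine (abs_add_le _ _).trans ?_
  rw [abs_mul, abs_mul, abs_of_pos ha, abs_of_pos hb]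

theorem cone_convex {ε : ℝ} (hε : 0 < ε) : Convex ℝ (cone n ε) := by
  rw [convex_iff_forall_pos]
  intro x hx y hy a b ha hb hab j hj
  have h1 := abs_comb x y ha hb j
  have h2 := mul_le_mul_of_nonneg_left (abs_comb x y ha hb 0) hε.le
  have h3 := mul_lt_mul_of_pos_left (hx j hj) ha
  have h4 := mul_lt_mul_of_pos_left (hy j hj) hb
  have h5 : a * ε + b * ε = ε := by rw [← add_mul, hab, one_mul]
  nlinarith

theorem cone_bdd {ε : ℝ} (hε : 0 < ε) : Bornology.IsBounded (cone n ε) :=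
  (Metric.isBounded_closedBall (x := (0 : E (n + 2))) (r := √(1 ^ 2 + (n + 2) * ε ^ 2))).subset
    fun y hy => by
      rw [mem_closedBall_zero_iff]
      exact Real.le_sqrt_of_sq_le (norm_le y (cone_lt hε hy).1.le (cone_lt hε hy).2)

theorem zero_mem {ε : ℝ} (hε : 0 < ε) : (0 : E (n + 2)) ∈ cone n ε := fun j _ => by simpa using hε

theorem cone_dom {ε : ℝ} (hε : 0 < ε) : Dom (cone n ε) :=
  ⟨⟨0, zero_mem hε⟩, cone_open ε, cone_convex hε, cone_bdd hε⟩

theorem mid_dom {ε δ : ℝ} (hε : 0 < ε) (hδ : 0 < δ) : Dom (mid n ε δ) := by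
  refine ⟨⟨0, zero_mem hε, by simpa using hδ⟩,
    (cone_open ε).inter (isOpen_lt (by fun_prop) (by fun_prop)), (cone_convex hε).inter ?_,
    (cone_bdd hε).subset inter_subset_left⟩
  rw [convex_iff_forall_pos]
  intro x hx y hy a b ha hb hab
  have h2 := abs_comb x y ha hb 0
  have h3 := mul_lt_mul_of_pos_left (show |x 0| < 2 * δ from hx) ha
  have h4 := mul_lt_mul_of_pos_left (show |y 0| < 2 * δ from hy) hb
  have h5 : a * δ + b * δ = δ := by rw [← add_mul, hab, one_mul]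
  show |(a • x + b • y) 0| < 2 * δ
  nlinarith

theorem abs_of_sig {σ z : ℝ} (hσ : σ = 1 ∨ σ = -1) (h : 0 < σ * z) : |z| = σ * z := by
  rcases hσ with rfl | rfl
  · rw [one_mul] at h ⊢; exact abs_of_pos h
  · rw [neg_one_mul] at h ⊢; exact abs_of_neg (by linarith)

theorem tip_sub {σ ε δ : ℝ} (hσ : σ = 1 ∨ σ = -1) (hδ : 0 ≤ δ) : tip n σ ε δ ⊆ cone n ε :=
  fun x hx j hj => by
    rw [abs_of_sig hσ (hδ.trans_lt hx.1)]
    exact hx.2 j hj

theorem mem_tip {σ ε δ : ℝ} (hσ : σ = 1 ∨ σ = -1) (y : E (n + 2)) :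
    EuclideanSpace.single 0 σ + y ∈ tip n σ ε δ ↔
      δ < 1 + σ * y 0 ∧ ∀ j, j ≠ 0 → |y j| < ε * -(σ * y 0) := by
  have e : σ * (EuclideanSpace.single (0 : Fin (n + 2)) σ + y) 0 = 1 + σ * y 0 := by
    have : σ * σ = 1 := by rcases hσ with rfl | rfl <;> norm_num
    simp [mul_add, this]
  have e2 : ∀ j, j ≠ 0 → (EuclideanSpace.single (0 : Fin (n + 2)) σ + y) j = y j :=
    fun j hj => by simp [hj]
  unfold tip
  rw [mem_ofPred_eq, e]
  refine and_congr Iff.rfl (forall₂_congr fun j hj => ?_)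
  rw [e2 j hj, show 1 - (1 + σ * y 0) = -(σ * y 0) by ring]

/-- Hardy inequality on one half. -/
theorem half {σ ε δ : ℝ} (hσ : σ = 1 ∨ σ = -1) (hε : 0 < ε) (hδ : 0 < δ) (hδ1 : δ < 1)
    {v : E (n + 2) → ℝ} (hv : ContDiff ℝ 1 v) :
    (n + 2) / 2 * Sq (tip n σ ε δ) v ≤
      2 / (n + 2) * (1 + (n + 2) * ε ^ 2) * En (tip n σ ε 0) v + 1 / δ * Sq (mid n ε δ) v := by
  have hτ : 0 < 1 - δ := by linarith
  have h := hardy' (d := n + 2) (by omega) (EuclideanSpace.single 0 σ) (S := tip n σ ε 0)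
    (A := tip n σ ε δ) (tip_open σ ε 0).measurableSet (R := 1 ^ 2 + (n + 2) * ε ^ 2)
    (τ := 1 - δ) (fun t t0 t1 y hy => ?_) (by positivity) (fun y hy => ?_) hv hτ (by linarith)
    (fun y => ?_)
  · have m : Sq (tip n σ ε 0 \ tip n σ ε δ) v ≤ Sq (mid n ε δ) v := by
      refine int_mono (mid_dom hε hδ).2.2.2 (fun x hx => ⟨tip_sub hσ le_rfl hx.1, ?_⟩)
        (hv.continuous.pow 2) fun _ => sq_nonneg _
      have a : σ * x 0 ≤ δ := by
        by_contra g
        exact hx.2 ⟨not_le.1 g, hx.1.2⟩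
      show |x 0| < 2 * δ
      rw [abs_of_sig hσ hx.1.1]
      linarith
    have m' := mul_le_mul_of_nonneg_left m (show 0 ≤ 1 / δ by positivity)
    rw [sub_sub_cancel, one_pow] at h
    push_cast at h
    linarith
  · rw [mem_tip hσ] at hy ⊢
    have a := (mul_pos_iff_of_pos_left hε).1 ((abs_nonneg _).trans_lt (hy.2 1 (by simp)))
    simp only [PiLp.smul_apply, smul_eq_mul]
    refine ⟨by nlinarith [hy.1], fun j hj => ?_⟩
    rw [abs_mul, abs_of_pos t0]
    have := mul_lt_mul_of_pos_left (hy.2 j hj) t0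
    linarith
  · rw [mem_tip hσ] at hy
    have a := (mul_pos_iff_of_pos_left hε).1 ((abs_nonneg _).trans_lt (hy.2 1 (by simp)))
    refine norm_le y ?_ fun j hj => ?_
    · have b := hy.1
      rcases hσ with rfl | rfl <;> rw [abs_le] <;> constructor <;> linarith
    · have := hy.2 j hj
      nlinarith [hy.1]
  · rw [mem_tip hσ, mem_tip hσ]
    have hi : 0 < (1 - δ)⁻¹ := inv_pos.2 hτ
    simp only [PiLp.smul_apply, smul_eq_mul]
    refine and_congr ?_ (forall₂_congr fun j _ => ?_)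
    · rw [show 1 + σ * ((1 - δ)⁻¹ * y 0) = (1 - δ)⁻¹ * (1 + σ * y 0 - δ) by field_simp; ring,
        mul_pos_iff_of_pos_left hi, sub_pos]
    · rw [abs_mul, abs_of_pos hi,
        show ε * -(σ * ((1 - δ)⁻¹ * y 0)) = (1 - δ)⁻¹ * (ε * -(σ * y 0)) by ring,
        mul_lt_mul_iff_right₀ hi]

theorem int_sub {d : ℕ} {S : Set (E d)} (hb : Bornology.IsBounded S) {u : E d → ℝ}
    (hu : Continuous u) (c : ℝ) : ∫ x in S, (u x - c) = (∫ x in S, u x) - volume.real S * c := by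
  rw [integral_sub (intOn hb hu) (intOn hb continuous_const), setIntegral_const, smul_eq_mul]

theorem sq_le_sub {d : ℕ} {S : Set (E d)} (hb : Bornology.IsBounded S) {u : E d → ℝ}
    (hu : Continuous u) (h0 : ∫ x in S, u x = 0) (c : ℝ) : Sq S u ≤ Sq S fun x => u x - c := by
  have i1 : IntegrableOn (fun x => u x ^ 2) S := intOn hb (hu.pow 2)
  have i2 := (intOn hb hu).const_mul (2 * c)
  have h : Sq S u = ∫ x in S, (u x ^ 2 - 2 * c * u x) := by
    unfold Sq
    rw [integral_sub i1 i2, integral_const_mul, h0, mul_zero, sub_zero]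
  rw [h]
  exact integral_mono (i1.sub i2) (intOn hb ((hu.sub continuous_const).pow 2)) fun x => by
    simp only []
    nlinarith [sq_nonneg c]

theorem arith {D δ e T m Ep Em EM Sp Sm S : ℝ} (hD2 : 2 ≤ D) (hδ : 0 < δ) (hδ1 : δ < 1)
    (he : e ≤ δ ^ 2) (nE : 0 ≤ T) (nM : 0 ≤ m) (np : 0 ≤ Ep) (nm : 0 ≤ Em)
    (pw : π ^ 2 * m ≤ (5 * δ) ^ 2 * EM) (hp : D / 2 * Sp ≤ 2 / D * (1 + e) * Ep + 1 / δ * m)
    (hm : D / 2 * Sm ≤ 2 / D * (1 + e) * Em + 1 / δ * m) (E1 : Ep + Em ≤ T) (E2 : EM ≤ T)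
    (S1 : S ≤ Sp + Sm + m) : S ≤ (4 / D ^ 2 + 12 * δ) * T := by
  have r3 : 0 ≤ δ * T := mul_nonneg hδ.le nE
  have r5 : δ * (δ * T) ≤ δ * T := mul_le_of_le_one_left r3 hδ1.le
  have r6 : 0 ≤ δ * (δ * T) := mul_nonneg hδ.le r3
  have b1 : m ≤ 3 * (δ * (δ * T)) := by
    have p3 : 9 ≤ π ^ 2 := by nlinarith [Real.pi_gt_three]
    have q1 := mul_le_mul_of_nonneg_right p3 nM
    have q2 := mul_le_mul_of_nonneg_left E2 (sq_nonneg (5 * δ))
    linarith
  have b2 : 1 / δ * m ≤ 3 * (δ * T) := by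
    rw [one_div, inv_mul_le_iff₀ hδ]
    linarith
  have b3 : 2 / D * (1 + e) * (Ep + Em) ≤ 2 / D * (1 + δ ^ 2) * T :=
    mul_le_mul (mul_le_mul_of_nonneg_left (by linarith) (by positivity)) E1 (add_nonneg np nm)
      (by positivity)
  have b5 : Sp + Sm ≤ (4 / D ^ 2 + 7 * δ) * T := by
    refine le_of_mul_le_mul_left ?_ (show 0 < D / 2 by positivity)
    have r1 : D / 2 * ((4 / D ^ 2 + 7 * δ) * T) = 2 / D * T + 7 / 2 * (D * (δ * T)) := by
      field_simp
      ring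
    have r2 : 2 / D ≤ 1 := by rw [div_le_one (by positivity)]; exact hD2
    have r4 := mul_le_mul_of_nonneg_right r2 r6
    have r7 := mul_le_mul_of_nonneg_right hD2 r3
    rw [r1]
    linarith
  linarith

/-- Poincare inequality on the thin double cone. -/
theorem poin (hPW : StPW) {δ : ℝ} (hδ : 0 < δ) (hδ1 : δ < 1) {u : E (n + 2) → ℝ}
    (hu : ContDiff ℝ 1 u) (h0 : ∫ x in cone n (δ / (n + 2)), u x = 0) :
    Sq (cone n (δ / (n + 2))) u ≤
      (4 / ((n : ℝ) + 2) ^ 2 + 12 * δ) * En (cone n (δ / (n + 2))) u := by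
  set D : ℝ := n + 2 with hD
  have hD2 : 2 ≤ D := by have : (0 : ℝ) ≤ n := Nat.cast_nonneg n; linarith
  set ε := δ / D with hεd
  have hε : 0 < ε := by positivity
  have hεD : D * ε ^ 2 ≤ δ ^ 2 := by
    rw [hεd, div_pow, ← mul_div_assoc, div_le_iff₀ (by positivity)]
    nlinarith [mul_pos (pow_pos hδ 2) (show 0 < D by linarith)]
  have dM := mid_dom (n := n) hε hδ
  have dC := cone_dom (n := n) hε
  have hvol : 0 < volume.real (mid n ε δ) :=
    ENNReal.toReal_pos (dM.2.1.measure_pos _ dM.1).ne' dM.2.2.2.measure_lt_top.ne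
  set c := (∫ x in mid n ε δ, u x) / volume.real (mid n ε δ) with hc
  set v : E (n + 2) → ℝ := fun x => u x - c with hv
  have vC : ContDiff ℝ 1 v := hu.sub contDiff_const
  have cS : Continuous fun x => v x ^ 2 := vC.continuous.pow 2
  have cE : Continuous fun x => ‖fderiv ℝ v x‖ ^ 2 :=
    (vC.continuous_fderiv (by norm_num)).norm.pow 2
  have eE : En (cone n ε) v = En (cone n ε) u := by
    unfold En
    simp only [hv, fderiv_sub_const]
  have pw := hPW (n + 2) (by omega) _ dM (5 * δ) (fun x hx y hy => ?_) v vC ?_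
  rotate_left
  · rw [dist_eq_norm]
    have a := norm_le (x - y) (α := 4 * δ) (β := 2 * ε) ?_ fun j hj => ?_
    · exact abs_le_of_sq_le_sq' (by nlinarith) (by positivity) |>.2
    · have a1 : |x 0| < 2 * δ := hx.2
      have a2 : |y 0| < 2 * δ := hy.2
      have := abs_sub (x 0) (y 0)
      rw [PiLp.sub_apply]
      linarith
    · have a1 := (cone_lt hε hx.1).2 j hj
      have a2 := (cone_lt hε hy.1).2 j hj
      have := abs_sub (x j) (y j)
      rw [PiLp.sub_apply]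
      linarith
  · rw [int_sub dM.2.2.2 hu.continuous, hc, mul_div_cancel₀ _ hvol.ne', sub_self]
  have hp := half (σ := 1) (Or.inl rfl) hε hδ hδ1 vC
  have hm := half (σ := -1) (Or.inr rfl) hε hδ hδ1 vC
  have sp : ∀ t : ℝ, 0 ≤ t → tip n 1 ε t ⊆ cone n ε := fun t ht => tip_sub (Or.inl rfl) ht
  have sm : ∀ t : ℝ, 0 ≤ t → tip n (-1) ε t ⊆ cone n ε := fun t ht => tip_sub (Or.inr rfl) ht
  have bC := dC.2.2.2
  have E1 : En (tip n 1 ε 0) v + En (tip n (-1) ε 0) v ≤ En (cone n ε) v := by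
    unfold En
    rw [← setIntegral_union (Set.disjoint_left.2 fun x a b => by linarith [a.1, b.1])
      (tip_open _ _ _).measurableSet (intOn (bC.subset (sp 0 le_rfl)) cE)
      (intOn (bC.subset (sm 0 le_rfl)) cE)]
    exact int_mono bC (union_subset (sp 0 le_rfl) (sm 0 le_rfl)) cE fun _ => sq_nonneg _
  have E2 : En (mid n ε δ) v ≤ En (cone n ε) v :=
    int_mono bC inter_subset_left cE fun _ => sq_nonneg _
  have S1 : Sq (cone n ε) v ≤ Sq (tip n 1 ε δ ∪ tip n (-1) ε δ) v + Sq (mid n ε δ) v := by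
    refine int_cover (bC.subset (union_subset (sp δ hδ.le) (sm δ hδ.le))) dM.2.2.2
      ((tip_open _ _ _).union (tip_open _ _ _)).measurableSet dM.2.1.measurableSet
      (fun x hx => ?_) cS fun _ => sq_nonneg _
    by_cases g : |x 0| < 2 * δ
    · exact Or.inr ⟨hx, g⟩
    · rcases le_total 0 (x 0) with a | a
      · rw [abs_of_nonneg a] at g
        refine Or.inl (Or.inl ⟨by linarith, fun j hj => ?_⟩)
        have := hx j hj
        rwa [abs_of_nonneg a, ← one_mul (x 0)] at this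
      · rw [abs_of_nonpos a] at g
        refine Or.inl (Or.inr ⟨by linarith, fun j hj => ?_⟩)
        have := hx j hj
        rwa [abs_of_nonpos a, ← neg_one_mul (x 0)] at this
  have S2 : Sq (tip n 1 ε δ ∪ tip n (-1) ε δ) v ≤ Sq (tip n 1 ε δ) v + Sq (tip n (-1) ε δ) v :=
    int_cover (bC.subset (sp δ hδ.le)) (bC.subset (sm δ hδ.le)) (tip_open _ _ _).measurableSet
      (tip_open _ _ _).measurableSet subset_rfl cS fun _ => sq_nonneg _
  have S3 : Sq (cone n ε) u ≤ Sq (cone n ε) v := sq_le_sub bC hu.continuous h0 c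
  rw [← eE]
  rw [← hD] at hp hm
  have nE : 0 ≤ En (cone n ε) v := integral_nonneg fun _ => sq_nonneg _
  have nM : 0 ≤ Sq (mid n ε δ) v := integral_nonneg fun _ => sq_nonneg _
  exact S3.trans (arith hD2 hδ hδ1 hεD nE nM (integral_nonneg fun _ => sq_nonneg _)
    (integral_nonneg fun _ => sq_nonneg _) pw hp hm E1 E2 (S1.trans (by linarith)))

theorem level (hPW : StPW) {δ M : ℝ} (hδ : 0 < δ) (hδ1 : δ < 1)
    (h : Adm 1 (cone n (δ / (n + 2))) M) : 1 / (4 / ((n : ℝ) + 2) ^ 2 + 12 * δ) ≤ M := by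
  have dC := cone_dom (n := n) (ε := δ / (n + 2)) (by positivity)
  obtain ⟨f, hf, hli, hM⟩ := h
  obtain ⟨c, hc, hc0⟩ : ∃ c : Fin 2 → ℝ,
      ∑ i, c i * ∫ x in cone n (δ / (n + 2)), f i x = 0 ∧ c ≠ 0 := by
    by_cases g : ∫ x in cone n (δ / (n + 2)), f 0 x = 0
    · exact ⟨![1, 0], by simp [g], fun e => by simpa using congrFun e 0⟩
    · refine ⟨![∫ x in cone n (δ / (n + 2)), f 1 x, -∫ x in cone n (δ / (n + 2)), f 0 x], ?_,
        fun e => g (by simpa using congrFun e 1)⟩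
      simp
      ring
  have uC : ContDiff ℝ 1 fun x => ∑ i, c i * f i x :=
    ContDiff.sum fun i _ => contDiff_const.mul (hf i)
  have hx : ∃ x ∈ cone n (δ / (n + 2)), ∑ i, c i * f i x ≠ 0 := by
    by_contra hcon
    push Not at hcon
    exact hc0 (hli c hcon)
  have hpos := int_pos dC.2.1 dC.2.2.2 uC.continuous hx
  have p := poin hPW hδ hδ1 uC (by
    rw [integral_finsetSum _ fun i _ => (intOn dC.2.2.2 (hf i).continuous).const_mul _]
    simpa only [integral_const_mul] using hc)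
  have hK : 0 < 4 / ((n : ℝ) + 2) ^ 2 + 12 * δ := by positivity
  have q := p.trans (mul_le_mul_of_nonneg_left (hM c) hK.le)
  rw [div_le_iff₀ hK]
  unfold Sq at q
  refine le_of_mul_le_mul_right ?_ hpos
  linarith

theorem step (hPW : StPW) (hA : StAdm) (n : ℕ) {δ : ℝ} (hδ : 0 < δ) (hδ1 : δ < 1) :
    alpha 1 (n + 2) ≤ (π / (2 * (1 - δ))) ^ 2 * (4 / ((n : ℝ) + 2) ^ 2 + 12 * δ) := by
  set ε : ℝ := δ / (n + 2) with hεd
  have hε : 0 < ε := by positivity
  have dC := cone_dom (n := n) hε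
  set b := EuclideanSpace.basisFun (Fin (n + 2)) ℝ
  set p : E (n + 2) := EuclideanSpace.single 0 (-(1 - δ)) with hp
  set a : Fin (n + 2) → ℝ := fun i => if i = 0 then 2 * (1 - δ) else ε * δ with ha
  have hτ : 0 < 1 - δ := by linarith
  have apos : ∀ i, 0 < a i := fun i => by
    simp only [ha]
    split_ifs <;> positivity
  have hsub : box b p a ⊆ cone n ε := by
    intro x hx j hj
    have e : ∀ i, inner ℝ (b i) (x - p) = x i - p i := fun i => by
      simp [b, EuclideanSpace.inner_single_left]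
    have h0 := hx 0
    have h1 := hx j
    rw [e] at h0 h1
    simp only [ha, hp, hj, if_true, if_false, PiLp.single_eq_same, PiLp.single_eq_of_ne _ hj,
      sub_zero] at h0 h1
    have h2 : |x 0| < 1 - δ := abs_lt.2 ⟨by linarith [h0.1], by linarith [h0.2]⟩
    rw [abs_of_pos h1.1]
    nlinarith [h1.2]
  have hadm : Adm 1 (box b p a) ((π / (2 * (1 - δ))) ^ 2) := by
    refine upper b p apos (fun j l => if l = 0 then (j : ℕ) else 0)
      (fun j j' h => Fin.ext (by simpa using congrFun h 0)) fun j => ?_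
    rw [Fin.sum_univ_succ]
    simp only [ha, if_true, Fin.succ_ne_zero, if_false, Nat.cast_zero, mul_zero, zero_div,
      ne_eq, OfNat.ofNat_ne_zero, not_false_eq_true, zero_pow, Finset.sum_const_zero, add_zero]
    have hj : ((j : ℕ) : ℝ) ≤ 1 := by exact_mod_cast Nat.lt_succ_iff.1 j.2
    have := Real.pi_pos
    gcongr
    nlinarith
  have h3 : mu 1 (box b p a) ≤ (π / (2 * (1 - δ))) ^ 2 :=
    csInf_le ⟨0, fun M hM => Adm.nonneg (box_open b p a) (box_bounded b p a) hM⟩ hadm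
  have hK : 0 < 4 / ((n : ℝ) + 2) ^ 2 + 12 * δ := by positivity
  have h2 : 1 / (4 / ((n : ℝ) + 2) ^ 2 + 12 * δ) ≤ mu 1 (cone n ε) :=
    le_csInf ((hA (n + 2) _ 1).2.2.2.1 (by omega) dC) fun M hM => level hPW hδ hδ1 hM
  refine csInf_le_of_le (b := mu 1 (box b p a) / mu 1 (cone n ε)) ⟨0, ?_⟩ ⟨_, _,
    ⟨box_nonempty b p a apos, box_open _ _ _, box_convex _ _ _, box_bounded _ _ _⟩, dC, hsub,
    rfl⟩ ?_
  · rintro r ⟨Ω₁, Ω₂, h₁, h₂, -, rfl⟩
    exact div_nonneg (mu_nonneg h₁.2.1 h₁.2.2.2) (mu_nonneg h₂.2.1 h₂.2.2.2)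
  · rw [div_le_iff₀ (lt_of_lt_of_le (by positivity) h2)]
    refine h3.trans ?_
    rw [div_le_iff₀' hK] at h2
    rw [mul_assoc]
    exact le_mul_of_one_le_right (sq_nonneg _) h2

end U1

theorem pU1 (hPW : StPW) (hA : StAdm) : StU1 := by
  intro d hd
  obtain ⟨n, rfl⟩ : ∃ n, d = n + 2 := ⟨d - 2, by omega⟩
  have hc : ContinuousAt
      (fun δ : ℝ => (π / (2 * (1 - δ))) ^ 2 * (4 / ((n : ℝ) + 2) ^ 2 + 12 * δ)) 0 :=
    ((ContinuousAt.div (by fun_prop) (by fun_prop) (by norm_num)).pow 2).mul (by fun_prop)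
  have hcl : (0 : ℝ) ∈ closure (Ioo (0 : ℝ) 1) := by
    rw [closure_Ioo (by norm_num)]
    exact ⟨le_rfl, by norm_num⟩
  have := ge_of_tendsto (x := nhdsWithin 0 (Ioo 0 1))
    (hx := mem_closure_iff_nhdsWithin_neBot.1 hcl) (hc.tendsto.mono_left nhdsWithin_le_nhds)
    (eventually_nhdsWithin_of_forall fun δ hδ => U1.step hPW hA n hδ.1 hδ.2)
  refine this.trans (le_of_eq ?_)
  push_cast
  field_simp
  ring

end Pool.Agent.P.MP_5c8462_an.Ord
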