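import Pool.Agent.P.MP_5c8462_an.Ord.Defs

set_option autoImplicit false

namespace Pool.Agent.P.MP_5c8462_an.Ord

open MeasureTheory Real Set

namespace U2P

section Sn

variable {d : ℕ} (p : Fin d → Prop) [DecidablePred p]

/-- The largest absolute value of the coordinates selected by `p`. -/
noncomputable def sn (w : E d) : ℝ := ‖fun l => if p l then w l else 0‖

theorem sn_nonneg (w : E d) : 0 ≤ sn p w := norm_nonneg _

variable {p}

theorem sn_le {w : E d} {r : ℝ} (hr : 0 ≤ r) (h : ∀ l, p l → |w l| ≤ r) : sn p w ≤ r :=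
  (pi_norm_le_iff_of_nonneg hr).2 fun l => by
    by_cases hl : p l
    · simpa [hl] using h l hl
    · simpa [hl] using hr

theorem le_sn (w : E d) {l : Fin d} (h : p l) : |w l| ≤ sn p w := by
  simpa [h, sn] using norm_le_pi_norm (fun l => if p l then w l else 0) l

theorem sn_mul {v w : E d} {c : ℝ} (hc : 0 ≤ c) (h : ∀ l, p l → v l = c * w l) :
    sn p v ≤ c * sn p w :=
  sn_le (mul_nonneg hc (sn_nonneg p w)) fun l hl => by
    rw [h l hl, abs_mul, abs_of_nonneg hc]
    exact mul_le_mul_of_nonneg_left (le_sn w hl) hc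

variable (p)

theorem sn_sub (x y : E d) : sn p x - sn p y ≤ dist x y := by
  rw [sub_le_iff_le_add]
  refine sn_le (add_nonneg dist_nonneg (sn_nonneg p y)) fun l hl => ?_
  have h1 := le_sn y hl
  have h2 : |x l - y l| ≤ dist x y := PiLp.dist_apply_le x y l
  have h3 := abs_sub_abs_le_abs_sub (x l) (y l)
  linarith

theorem sn_lip (x y : E d) : |sn p x - sn p y| ≤ dist x y := by
  have h1 := sn_sub p x y
  have h2 := sn_sub p y x
  rw [dist_comm] at h2
  exact abs_le.2 ⟨by linarith, h1⟩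

theorem sn_cont : Continuous (sn p) :=
  (LipschitzWith.of_dist_le_mul (K := 1) fun x y => by
    simpa [Real.dist_eq] using sn_lip p x y).continuous

theorem sn_conv : ConvexOn ℝ univ (sn p) :=
  ⟨convex_univ, fun x _ y _ a b ha hb _ =>
    sn_le (add_nonneg (mul_nonneg ha (sn_nonneg p x)) (mul_nonneg hb (sn_nonneg p y))) fun l hl => by
      have h1 := mul_le_mul_of_nonneg_left (le_sn x hl) ha
      have h2 := mul_le_mul_of_nonneg_left (le_sn y hl) hb
      have h3 := abs_add_le (a * x l) (b * y l)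
      rw [abs_mul, abs_mul, abs_of_nonneg ha, abs_of_nonneg hb] at h3
      simp only [PiLp.add_apply, PiLp.smul_apply, smul_eq_mul]
      linarith⟩

end Sn

variable {n : ℕ}

/-- The base coordinates. -/
noncomputable abbrev G (m : ℕ) (w : E (n + 1)) : ℝ := sn (fun l => l ≠ 0 ∧ l.val ≤ m) w

/-- The fibre coordinates. -/
noncomputable abbrev H (m : ℕ) (w : E (n + 1)) : ℝ := sn (fun l => m < l.val) w

/-- A slab of the cone. -/
def slab (n m : ℕ) (ε a b : ℝ) : Set (E (n + 1)) :=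
  {w | (a < w 0 ∧ w 0 < b) ∧ ε * G m w + H m w < ε}

theorem sum_le (m : ℕ) {c : ℝ} (hc : 0 ≤ c) :
    ∑ l : Fin (n + 1), (if l.val ≤ m then c else 0) ≤ (m + 1) * c := by
  rw [← Finset.sum_filter, Finset.sum_const, nsmul_eq_mul]
  refine mul_le_mul_of_nonneg_right ?_ hc
  have : (Finset.univ.filter fun l : Fin (n + 1) => l.val ≤ m).card ≤ (Finset.range (m + 1)).card :=
    Finset.card_le_card_of_injOn (fun l => l.val) (fun l hl => by
      simpa [Nat.lt_succ_iff] using hl) fun _ _ _ _ h => Fin.ext h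
  rw [Finset.card_range] at this
  exact_mod_cast this

theorem dist_le {m : ℕ} {ε a b r D : ℝ} (hε : 0 < ε) (hD : 0 ≤ D) {x y : E (n + 1)}
    (hx : x ∈ slab n m ε a b) (hy : y ∈ slab n m ε a b) (gx : G m x ≤ r) (gy : G m y ≤ r)
    (h : (b - a) ^ 2 + (m + 1) * (4 * r ^ 2) + (n + 1) * (4 * ε ^ 2) ≤ D ^ 2) : dist x y ≤ D := by
  rw [EuclideanSpace.dist_eq, Real.sqrt_le_left hD]
  refine le_trans ?_ h
  have key : ∀ l : Fin (n + 1), dist (x l) (y l) ^ 2 ≤ (if l = 0 then (b - a) ^ 2 else 0) +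
      (if l.val ≤ m then 4 * r ^ 2 else 0) + 4 * ε ^ 2 := fun l => by
    rw [Real.dist_eq, sq_abs]
    by_cases h0 : l = 0
    · subst h0
      have : (x 0 - y 0) ^ 2 ≤ (b - a) ^ 2 :=
        sq_le_sq' (by linarith [hx.1.1, hy.1.2]) (by linarith [hx.1.2, hy.1.1])
      simp only [if_true, Fin.val_zero, zero_le]
      nlinarith [sq_nonneg r, sq_nonneg ε]
    by_cases h1 : l.val ≤ m
    · have k1 := abs_le.1 ((le_sn (p := fun l => l ≠ 0 ∧ l.val ≤ m) x ⟨h0, h1⟩).trans gx)
      have k2 := abs_le.1 ((le_sn (p := fun l => l ≠ 0 ∧ l.val ≤ m) y ⟨h0, h1⟩).trans gy)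
      have : (x l - y l) ^ 2 ≤ (2 * r) ^ 2 := sq_le_sq' (by linarith) (by linarith)
      simp only [h0, h1, if_true, if_false]
      nlinarith [sq_nonneg ε]
    · have k1 := abs_le.1 (le_sn (p := fun l => m < l.val) x (not_le.1 h1))
      have k2 := abs_le.1 (le_sn (p := fun l => m < l.val) y (not_le.1 h1))
      have k3 := mul_nonneg hε.le (sn_nonneg (fun l => l ≠ 0 ∧ l.val ≤ m) x)
      have k4 := mul_nonneg hε.le (sn_nonneg (fun l => l ≠ 0 ∧ l.val ≤ m) y)
      have : (x l - y l) ^ 2 ≤ (2 * ε) ^ 2 :=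
        sq_le_sq' (by linarith [hx.2, hy.2]) (by linarith [hx.2, hy.2])
      simp only [h0, h1, if_false]
      nlinarith
  refine (Finset.sum_le_sum fun l _ => key l).trans ?_
  rw [Finset.sum_add_distrib, Finset.sum_add_distrib]
  refine add_le_add (add_le_add (by simp) (sum_le m (by positivity))) (by simp)

theorem G_lt {m : ℕ} {ε a b : ℝ} (hε : 0 < ε) {x : E (n + 1)} (hx : x ∈ slab n m ε a b) :
    G m x < 1 := by
  have h1 := hx.2
  have h2 := sn_nonneg (fun l => m < l.val) x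
  by_contra hc
  have := mul_le_mul_of_nonneg_left (not_lt.1 hc) hε.le
  linarith

theorem slab_open (m : ℕ) (ε a b : ℝ) : IsOpen (slab n m ε a b) := by
  have c0 : Continuous fun w : E (n + 1) => w 0 := by fun_prop
  have c1 : Continuous fun w : E (n + 1) => ε * G m w + H m w :=
    (continuous_const.mul (sn_cont _)).add (sn_cont _)
  exact (isOpen_Ioo.preimage c0).inter (isOpen_lt c1 continuous_const)

theorem dom_cell (m : ℕ) {ε a b r : ℝ} (hε : 0 < ε) (hab : a < b) (hr : 0 < r) :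
    Dom (slab n m ε a b ∩ {w | G m w < r}) := by
  have c0 : ConvexOn ℝ univ fun w : E (n + 1) => ε * G m w + H m w :=
    ((sn_conv _).smul hε.le).add (sn_conv _)
  refine ⟨⟨EuclideanSpace.single 0 ((a + b) / 2), ?_⟩,
    (slab_open m ε a b).inter (isOpen_lt (sn_cont _) continuous_const), ?_, ?_⟩
  · have h1 : G m (EuclideanSpace.single (0 : Fin (n + 1)) ((a + b) / 2)) ≤ 0 :=
      sn_le le_rfl fun l hl => by simp [hl.1]
    have h2 : H m (EuclideanSpace.single (0 : Fin (n + 1)) ((a + b) / 2)) ≤ 0 :=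
      sn_le le_rfl fun l hl => by
        have : l ≠ 0 := by rintro rfl; simp at hl
        simp [this]
    refine ⟨⟨⟨?_, ?_⟩, ?_⟩, h1.trans_lt hr⟩
    · simp only [PiLp.single_apply, if_true]; linarith
    · simp only [PiLp.single_apply, if_true]; linarith
    · nlinarith
  · intro x hx y hy s t hs ht hst
    exact ⟨⟨convex_Ioo a b hx.1.1 hy.1.1 hs ht hst,
      (c0.convex_lt ε ⟨trivial, hx.1.2⟩ ⟨trivial, hy.1.2⟩ hs ht hst).2⟩,
      ((sn_conv _).convex_lt r ⟨trivial, hx.2⟩ ⟨trivial, hy.2⟩ hs ht hst).2⟩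
  · refine Metric.isBounded_iff.2 ⟨√((b - a) ^ 2 + (m + 1) * (4 * r ^ 2) + (n + 1) * (4 * ε ^ 2)),
      fun x hx y hy => dist_le hε (Real.sqrt_nonneg _) hx.1 hy.1 hx.2.le hy.2.le ?_⟩
    rw [Real.sq_sqrt (by positivity)]

theorem dom_slab (m : ℕ) {ε a b : ℝ} (hε : 0 < ε) (hab : a < b) : Dom (slab n m ε a b) := by
  have := dom_cell (n := n) m hε hab one_pos
  rwa [inter_eq_left.2 (show _ ⊆ {w | G m w < 1} from fun x hx => G_lt hε hx)] at this

/-- The part far from the axis is light. -/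
theorem light {m n' : ℕ} (hn : n + 1 = m + 1 + n') {ε a b ρ : ℝ} (hε : 0 < ε) (hab : a < b)
    (hρ : 0 < ρ) :
    (1 / 2) ^ (m + 1) * (1 + ρ / 2) ^ n' * volume.real (slab n m ε a b ∩ {w | ρ < G m w}) ≤
      volume.real (slab n m ε a b) := by
  let φ : ℕ → ℝ := fun i => if i = 0 then 1 else if i ≤ m then 1 / 2 else 1 + ρ / 2
  let D : E (n + 1) →ₗ[ℝ] E (n + 1) := Matrix.toLpLin 2 2 (Matrix.diagonal fun l => φ l.val)
  have hD : ∀ w l, D w l = φ l.val * w l := fun w l => Matrix.mulVec_diagonal _ _ l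
  have hdet : (1 / 2) ^ (m + 1) * (1 + ρ / 2) ^ n' ≤ LinearMap.det D := by
    rw [LinearMap.det_toLpLin, Matrix.det_diagonal, Fin.prod_univ_eq_prod_range φ, hn,
      Finset.prod_range_add]
    refine mul_le_mul ?_ (le_of_eq ?_) (by positivity)
      (Finset.prod_nonneg fun i _ => by simp only [φ]; split_ifs <;> positivity)
    · rw [← Finset.card_range (m + 1), ← Finset.prod_const, Finset.card_range]
      refine Finset.prod_le_prod (fun _ _ => by positivity) fun i _ => ?_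
      simp only [φ]
      split_ifs <;> linarith
    · rw [Finset.prod_congr rfl (g := fun _ => 1 + ρ / 2) fun i _ => by
        simp only [φ]; rw [if_neg (by omega), if_neg (by omega)]]
      simp
  have hsub : D '' (slab n m ε a b ∩ {w | ρ < G m w}) ⊆ slab n m ε a b := by
    rintro _ ⟨w, ⟨hw, hρw⟩, rfl⟩
    have h0 : D w 0 = w 0 := by rw [hD]; simp [φ]
    have h1 : G m (D w) ≤ 1 / 2 * G m w := sn_mul (by norm_num) fun l hl => by
      rw [hD]; simp only [φ]; rw [if_neg (fun e : l.val = 0 => hl.1 (Fin.ext e)), if_pos hl.2]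
    have h2 : H m (D w) ≤ (1 + ρ / 2) * H m w := sn_mul (by positivity) fun l hl => by
      rw [hD]; simp only [φ]; rw [if_neg (by omega), if_neg (by omega)]
    refine ⟨by rw [h0]; exact hw.1, ?_⟩
    have h3 : H m w < ε - ε * G m w := by linarith [hw.2]
    have h4 : ρ < G m w := hρw
    have h5 := mul_lt_mul_of_pos_left h3 (show 0 < 1 + ρ / 2 by positivity)
    have h6 := mul_le_mul_of_nonneg_left h1 hε.le
    have h7 := mul_lt_mul_of_pos_left h4 hε
    have h8 := mul_pos (mul_pos hε hρ) (hρ.trans h4)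
    nlinarith
  have hb := (dom_slab (n := n) m hε hab).2.2.2
  have h1 := measureReal_mono (μ := volume) hsub hb.measure_lt_top.ne
  refine le_trans ?_ h1
  rw [measureReal_def (μ := volume) (D '' _), Measure.addHaar_image_linearMap, ENNReal.toReal_mul,
    ENNReal.toReal_ofReal (abs_nonneg _)]
  exact mul_le_mul_of_nonneg_right (hdet.trans (le_abs_self _)) measureReal_nonneg

theorem int_on {Ω : Set (E (n + 1))} (h : Bornology.IsBounded Ω) {f : E (n + 1) → ℝ}
    (hf : Continuous f) : IntegrableOn f Ω :=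
  (hf.continuousOn.integrableOn_compact h.isCompact_closure).mono_set subset_closure

theorem slab_disj (m : ℕ) (ε : ℝ) {s : ℝ} (hs : 0 < s) (ns : ℕ) :
    Pairwise (Function.onFun Disjoint
      fun i : Fin ns => slab n m ε ((i : ℕ) * s) (((i : ℕ) + 1) * s)) := fun i j hij =>
  disjoint_left.2 fun w hi hj => hij (Fin.ext (by
    have h1 : ((i : ℕ) : ℝ) < (j : ℕ) + 1 := lt_of_mul_lt_mul_right (hi.1.1.trans hj.1.2) hs.le
    have h2 : ((j : ℕ) : ℝ) < (i : ℕ) + 1 := lt_of_mul_lt_mul_right (hj.1.1.trans hi.1.2) hs.le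
    have h3 : (i : ℕ) < j + 1 := by exact_mod_cast h1
    have h4 : (j : ℕ) < i + 1 := by exact_mod_cast h2
    omega))

theorem slab_sub (m : ℕ) (ε : ℝ) {s : ℝ} (hs : 0 < s) {ns : ℕ} (i : Fin ns) :
    slab n m ε ((i : ℕ) * s) (((i : ℕ) + 1) * s) ⊆ slab n m ε 0 (ns * s) := fun w hw => by
  have h1 : ((i : ℕ) : ℝ) + 1 ≤ ns := by exact_mod_cast i.2
  exact ⟨⟨lt_of_le_of_lt (by positivity) hw.1.1,
    hw.1.2.trans_le (mul_le_mul_of_nonneg_right h1 hs.le)⟩, hw.2⟩

theorem int_split (m : ℕ) {ε s : ℝ} (hε : 0 < ε) (hs : 0 < s) (ns : ℕ) {f : E (n + 1) → ℝ}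
    (hf : Continuous f) : ∫ x in slab n m ε 0 (ns * s), f x =
      ∑ i : Fin ns, ∫ x in slab n m ε ((i : ℕ) * s) (((i : ℕ) + 1) * s), f x := by
  rw [← integral_iUnion_fintype (fun i => (slab_open _ _ _ _).measurableSet) (slab_disj m ε hs ns)
    fun i => int_on (dom_slab m hε (by linarith)).2.2.2 hf]
  refine setIntegral_congr_set (ae_eq_set.2 ⟨?_, ?_⟩)
  · refine measure_mono_null (t := ⋃ i : ℕ, {w : E (n + 1) | w 0 = i * s}) ?_
      (measure_iUnion_null fun i => ?_)
    · rintro w ⟨hw, hn⟩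
      have h0 : 0 ≤ w 0 / s := div_nonneg hw.1.1.le hs.le
      refine mem_iUnion.2 ⟨⌊w 0 / s⌋₊, ?_⟩
      by_contra hc
      have h1 := (le_div_iff₀ hs).1 (Nat.floor_le h0)
      have h2 := (div_lt_iff₀ hs).1 (Nat.lt_floor_add_one (w 0 / s))
      exact hn (mem_iUnion.2 ⟨⟨⌊w 0 / s⌋₊, (Nat.floor_lt h0).2 ((div_lt_iff₀ hs).2 hw.1.2)⟩,
        ⟨lt_of_le_of_ne h1 (Ne.symm hc), h2⟩, hw.2⟩)
    · exact (PiLp.volume_preserving_ofLp (Fin (n + 1))).quasiMeasurePreserving.preimage_null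
        (s := {f | f 0 = i * s}) (Measure.pi_hyperplane (fun _ => volume) 0 _)
  · rw [sdiff_eq_empty.2 (iUnion_subset fun i => slab_sub m ε hs i), measure_empty]

/-- The inner box. -/
theorem inner {m k t : ℕ} (hm : m ≤ n) {ε L : ℝ} (hε : 0 < ε) (hL : 0 < L) (ht : (t : ℝ) ≤ L)
    (hk : k < 2 ^ m * (t + 1)) : ∃ Ω : Set (E (n + 1)), Dom Ω ∧ Ω ⊆ slab n m ε 0 L ∧
      Adm k Ω ((m + 1) * π ^ 2) := by
  let a : Fin (n + 1) → ℝ := fun l => if l = 0 then L else if l.val ≤ m then 1 / 2 else ε / 2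
  let a' : Fin (n + 1) → ℝ := fun l => if l = 0 then L else 2 * a l
  let p : E (n + 1) := WithLp.toLp 2 fun l => if l = 0 then 0 else -a l
  have ha : ∀ l, 0 < a l := fun l => by simp only [a]; split_ifs <;> positivity
  have ha' : ∀ l, 0 < a' l := fun l => by
    have := ha l
    simp only [a']; split_ifs <;> positivity
  let b := EuclideanSpace.basisFun (Fin (n + 1)) ℝ
  refine ⟨box b p a', ⟨box_nonempty b p a' ha', box_open _ _ _, box_convex _ _ _,
    box_bounded _ _ _⟩, fun x hx => ?_, ?_⟩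
  · have hx' : ∀ l, 0 < x l - p l ∧ x l - p l < a' l := fun l => by
      have := hx l
      rwa [show Inner.inner ℝ (b l) (x - p) = x l - p l by
        simp [b, EuclideanSpace.inner_single_left]] at this
    have h1 : ∀ l, l ≠ 0 → |x l| < a l := fun l hl => by
      have := hx' l
      simp only [p, a', hl, if_false] at this
      exact abs_lt.2 ⟨by linarith [this.1], by linarith [this.2]⟩
    have h2 : G m x ≤ 1 / 2 := sn_le (by norm_num) fun l hl => by
      have := (h1 l hl.1).le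
      simpa only [a, hl.1, hl.2, if_false, if_true] using this
    have h3 : H m x < ε / 2 := (pi_norm_lt_iff (by positivity)).2 fun l => by
      by_cases hl : m < l.val
      · have h0 : l ≠ 0 := by rintro rfl; simp at hl
        have := h1 l h0
        simp only [a, h0, not_le.2 hl, if_false] at this
        simpa [hl] using this
      · simpa [hl] using hε
    refine ⟨by simpa [p, a'] using hx' 0, ?_⟩
    nlinarith
  · refine upper b p ha' (fun j l => if l = 0 then j / 2 ^ m else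
      if l.val ≤ m then ((j : ℕ).testBit (l.val - 1)).toNat else 0) (fun j j' e => ?_) fun j => ?_
    · refine Fin.ext (Nat.eq_of_testBit_eq fun i => ?_)
      by_cases hi : i < m
      · have := congrFun e ⟨i + 1, by omega⟩
        simp only [Fin.ext_iff, Fin.val_zero, Nat.add_eq_zero_iff, one_ne_zero, and_false,
          if_false, Nat.succ_le_of_lt hi, if_true, Nat.add_sub_cancel] at this
        revert this
        cases (j : ℕ).testBit i <;> cases (j' : ℕ).testBit i <;> simp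
      · have := congrFun e 0
        simp only [if_true] at this
        obtain ⟨c, rfl⟩ : ∃ c, i = c + m := ⟨i - m, by omega⟩
        rw [← Nat.testBit_div_two_pow, ← Nat.testBit_div_two_pow, this]
    · refine le_trans (Finset.sum_le_sum fun l _ => ?_) (sum_le m (sq_nonneg π))
      by_cases h0 : l = 0
      · subst h0
        have h1 : (j : ℕ) / 2 ^ m ≤ t :=
          Nat.lt_succ_iff.1 (Nat.div_lt_of_lt_mul (lt_of_le_of_lt (Nat.lt_succ_iff.1 j.2) hk))
        have h2 : (((j : ℕ) / 2 ^ m : ℕ) : ℝ) ≤ L := le_trans (by exact_mod_cast h1) ht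
        simp only [a', if_true, Fin.val_zero, zero_le]
        refine pow_le_pow_left₀ (by positivity) ?_ 2
        rw [div_le_iff₀ hL]
        exact mul_le_mul_of_nonneg_left h2 pi_pos.le
      · by_cases h1 : l.val ≤ m
        · simp only [a', a, h0, h1, if_true, if_false]
          cases (j : ℕ).testBit (l.val - 1) <;> simp [sq_nonneg]
        · simp [h0, h1]

theorem det_ge {m n' : ℕ} (hm : 1 ≤ m) {ρ : ℝ} (h0 : 0 ≤ ρ) (h1 : ρ ≤ 1)
    (h : 96 * (m : ℝ) ≤ ρ * n') : exp (30 * m) ≤ (1 / 2) ^ (m + 1) * (1 + ρ / 2) ^ n' := by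
  have hm' : (1 : ℝ) ≤ m := by exact_mod_cast hm
  have k1 : exp (ρ / 3) ≤ 1 + ρ / 2 := by
    have := Real.add_one_le_exp (-(ρ / 3))
    rw [Real.exp_neg, le_inv_comm₀ (by linarith) (exp_pos _)] at this
    refine this.trans ?_
    rw [inv_le_iff_one_le_mul₀ (by linarith)]
    nlinarith
  have k2 : exp (-1) ≤ 1 / 2 := by
    rw [Real.exp_neg, one_div]
    exact inv_anti₀ (by norm_num) (by linarith [Real.add_one_le_exp 1])
  calc exp (30 * m) ≤ exp (-1) ^ (m + 1) * exp (ρ / 3) ^ n' := by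
        rw [← Real.exp_nat_mul, ← Real.exp_nat_mul, ← Real.exp_add]
        refine Real.exp_le_exp.2 ?_
        push_cast
        nlinarith
    _ ≤ _ := by gcongr

end U2P

open U2P

theorem pU2 (hH : StH) (hN : StN) (hB : StBr) (hA : StAdm) : StU2 := by
  refine ⟨2 * π ^ 2 * (7 * 12480 ^ 2 + 16) * 100 ^ 2, by positivity, fun d k μ ns hd h1 h2 h3 => ?_⟩
  obtain ⟨n, rfl⟩ : ∃ n, d = n + 1 := ⟨d - 1, by omega⟩
  obtain ⟨m, hm⟩ : ∃ m, m = 2 * μ + 1 := ⟨_, rfl⟩
  rw [← hm] at hd h3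
  have hmr : (2 * μ + 1 : ℝ) = m := by rw [hm]; push_cast; rfl
  rw [hmr]
  obtain ⟨n', hn'⟩ : ∃ n', n + 1 = m + 1 + n' := ⟨n - m, by omega⟩
  obtain ⟨D, hD⟩ : ∃ D : ℝ, D = (n + 1 : ℕ) := ⟨_, rfl⟩
  have hm1 : (1 : ℝ) ≤ m := by exact_mod_cast (show 1 ≤ m by omega)
  have hD1 : 100 * (m : ℝ) ≤ D := by rw [hD]; exact_mod_cast hd
  have hD0 : 0 < D := by linarith
  have hD2 : D = m + 1 + n' := by rw [hD, hn']; push_cast; rfl
  obtain ⟨ρ, hρ⟩ : ∃ ρ : ℝ, ρ = 100 * m / D := ⟨_, rfl⟩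
  have hρD : ρ * D = 100 * m := by rw [hρ]; field_simp
  have hρ0 : 0 < ρ := by rw [hρ]; positivity
  have hρ1 : ρ ≤ 1 := by rw [hρ, div_le_one hD0]; exact hD1
  obtain ⟨q, hq1, hq⟩ : ∃ q : ℝ, 1 ≤ q ∧ q ^ 2 = m :=
    ⟨√m, Real.one_le_sqrt.2 hm1, Real.sq_sqrt (by linarith)⟩
  have hq0 : 0 < q := by linarith
  have hl0 : 0 < ρ / q := by positivity
  have hl1 : ρ / q ≤ ρ := div_le_self hρ0.le hq1
  have hs : 0 < ρ * q := by positivity
  have hε : 0 < ρ / (2 * D) := by positivity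
  have hns : (1 : ℝ) ≤ ns := by exact_mod_cast h1
  have hL : 0 < ns * (ρ * q) := by positivity
  have hdiam : ∀ (a : ℝ) (x y : E (n + 1)), x ∈ slab n m (ρ / (2 * D)) (a * (ρ * q))
      ((a + 1) * (ρ * q)) → y ∈ slab n m (ρ / (2 * D)) (a * (ρ * q)) ((a + 1) * (ρ * q)) →
      G m x ≤ 4 * ρ → G m y ≤ 4 * ρ → dist x y ≤ 23 / 2 * (ρ * q) := fun a x y hx hy gx gy => by
    refine dist_le hε (by positivity) hx hy gx gy ?_
    have e1 : ((n : ℝ) + 1) * (4 * (ρ / (2 * D)) ^ 2) = ρ ^ 2 / D := by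
      rw [show (n : ℝ) + 1 = D by rw [hD]; push_cast; rfl]; field_simp; norm_num
    have e2 : ρ ^ 2 / D ≤ ρ ^ 2 := div_le_self (sq_nonneg _) (by linarith)
    have e3 : ρ ^ 2 ≤ ρ ^ 2 * m := le_mul_of_one_le_right (sq_nonneg _) hm1
    have e4 : ((a + 1) * (ρ * q) - a * (ρ * q)) ^ 2 = ρ ^ 2 * m := by rw [← hq]; ring
    have e5 : (23 / 2 * (ρ * q)) ^ 2 = 529 / 4 * (ρ ^ 2 * m) := by rw [← hq]; ring
    have e6 : ((m : ℝ) + 1) * (4 * (4 * ρ) ^ 2) = 64 * (ρ ^ 2 * m) + 64 * ρ ^ 2 := by ring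
    rw [e1, e4, e5, e6]
    linarith [sq_nonneg ρ]
  have hlam : 0 < m / (1040 * (12 * (ρ * q))) := by positivity
  obtain ⟨Ω, hΩ, hsub, hadm⟩ := inner (n := n) (m := m) (t := ns / (n + 1)) (by omega) hε hL (by
    have e1 : ((ns / (n + 1) : ℕ) : ℝ) ≤ ns / D := by rw [hD]; exact Nat.cast_div_le
    refine e1.trans ?_
    rw [div_le_iff₀ hD0]
    have : 1 ≤ ρ * q * D := by
      rw [mul_right_comm, hρD]; exact one_le_mul_of_one_le_of_one_le (by linarith) hq1
    rw [mul_assoc]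
    exact le_mul_of_one_le_right (by linarith) this) h3
  have hΩ2 := dom_slab (n := n) m hε hL
  have key : ∀ M, Adm k (slab n m (ρ / (2 * D)) 0 (ns * (ρ * q))) M →
      1 ≤ M * (7 / (m / (1040 * (12 * (ρ * q)))) ^ 2 + 16 * (ρ / q) ^ 2) := fun M hM => by
    have hlt : ∀ i : Fin ns, ((i : ℕ) : ℝ) * (ρ * q) < ((i : ℕ) + 1) * (ρ * q) := fun i => by
      linarith
    have hc := fun i : Fin ns => dom_cell (n := n) m hε (hlt i) (r := ρ + 3 * (ρ / q))
      (by positivity)
    refine hB _ _ hΩ2 ns (2 ^ μ) k _ _ 7 _ M (fun i => (hc i).2.1)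
      (fun i => inter_subset_left.trans (slab_sub m _ hs i))
      (fun i j hij => (slab_disj m _ hs ns hij).mono inter_subset_left inter_subset_left)
      (by positivity) (by norm_num) (by positivity) (fun i hi => ?_) (fun u hu => ?_) h2 hM
    · obtain ⟨x0, hx0⟩ := (hc i).1
      have k1 := hN _ (by omega) _ (hc i) _ _ (12 * (ρ * q)) (by positivity) (by positivity) {x0}
        (fun y hy => by
          have := hdiam _ y x0 hy.1 hx0.1 (by linarith [show G m y < _ from hy.2])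
            (by linarith [show G m x0 < _ from hx0.2])
          simp only [Finset.mem_singleton, iUnion_iUnion_eq_left, Metric.mem_ball]
          linarith) hi
      rw [Real.sqrt_sq hlam.le, Finset.card_singleton,
        show 130 * (m / (1040 * (12 * (ρ * q))) * (12 * (ρ * q))) = m / 8 by field_simp; norm_num,
        Nat.cast_one, one_mul] at k1
      have k2 : exp (m / 8) ^ 2 ≤ 2 * (2 : ℝ) ^ μ := by
        rw [← Real.exp_nat_mul, ← pow_succ', ← Real.exp_log two_pos, ← Real.exp_nat_mul]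
        refine Real.exp_le_exp.2 ?_
        have := mul_le_mul_of_nonneg_left (show 1 / 2 ≤ log 2 by linarith [Real.log_two_gt_d9])
          (show (0 : ℝ) ≤ μ + 1 by positivity)
        rw [← hmr]
        push_cast
        linarith
      have k3 := pow_le_pow_left₀ (by positivity) k1 2
      push_cast at k3
      rw [add_sq] at k3
      linarith [sq_nonneg ((2 : ℝ) ^ μ)]
    · have hu1 : Continuous fun x => u x ^ 2 := hu.continuous.pow 2
      have hu2 : Continuous fun x => ‖fderiv ℝ u x‖ ^ 2 :=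
        (hu.continuous_fderiv one_ne_zero).norm.pow 2
      rw [Sq, En, int_split m hε hs ns hu1, int_split m hε hs ns hu2, Finset.mul_sum,
        Finset.mul_sum, ← Finset.sum_add_distrib]
      refine Finset.sum_le_sum fun i _ => ?_
      refine hH _ (by omega) _ (dom_slab m hε (hlt i)) (G m) (sn_conv _) (sn_lip _) ρ (ρ / q)
        (23 / 2 * (ρ * q)) (exp (-(30 * m))) (12 * m) (by omega) hl0 ?_ ?_
        (fun x hx y hy gx gy => hdiam _ x y hx hy (by linarith) (by linarith)) ?_ u hu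
      · have : (m : ℝ) * (ρ / q) = ρ * q := by rw [← hq]; field_simp
        push_cast
        rw [mul_assoc, this]
        linarith
      · push_cast
        rw [lt_div_iff₀ (by positivity), show -(12 * (m : ℝ)) = -(30 * m) + 18 * m by ring,
          Real.exp_add]
        refine mul_lt_mul_of_pos_left ?_ (exp_pos _)
        have := Real.quadratic_le_exp_of_nonneg (x := 18 * m) (by positivity)
        have e : (m : ℝ) ≤ m ^ 2 := le_self_pow₀ hm1 two_ne_zero
        rw [mul_pow] at this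
        linarith
      · have k1 := light (n := n) hn' hε (hlt i) hρ0
        have k2 := det_ge (m := m) (n' := n') (by omega) hρ0.le hρ1 (by
          have e1 : ρ * (m + 1) ≤ m + 1 := mul_le_of_le_one_left (by linarith) hρ1
          have e2 : ρ * n' = ρ * D - ρ * (m + 1) := by rw [hD2]; ring
          linarith)
        rw [Real.exp_neg, ← div_eq_inv_mul, le_div_iff₀' (exp_pos _)]
        exact (mul_le_mul_of_nonneg_right k2 measureReal_nonneg).trans k1
  have hc0 : 0 < 7 / (m / (1040 * (12 * (ρ * q)))) ^ 2 + 16 * (ρ / q) ^ 2 := by positivity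
  have k1 : mu k Ω ≤ (m + 1) * π ^ 2 :=
    csInf_le ⟨0, fun M hM => Adm.nonneg hΩ.2.1 hΩ.2.2.2 hM⟩ hadm
  have k2 : 1 / (7 / (m / (1040 * (12 * (ρ * q)))) ^ 2 + 16 * (ρ / q) ^ 2) ≤
      mu k (slab n m (ρ / (2 * D)) 0 (ns * (ρ * q))) :=
    le_csInf ((hA _ _ k).2.2.2.1 (by omega) hΩ2) fun M hM => (div_le_iff₀ hc0).2 (key M hM)
  refine csInf_le_of_le ⟨0, ?_⟩ ⟨_, _, hΩ, hΩ2, hsub, rfl⟩ ?_
  · rintro r ⟨Ω₁, Ω₂, h₁, h₂, -, rfl⟩
    exact div_nonneg (mu_nonneg h₁.2.1 h₁.2.2.2) (mu_nonneg h₂.2.1 h₂.2.2.2)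
  · refine (div_le_div₀ (by positivity) k1 (by positivity) k2).trans ?_
    have e : 7 / (m / (1040 * (12 * (ρ * q)))) ^ 2 + 16 * (ρ / q) ^ 2 =
        (7 * 12480 ^ 2 + 16) * 100 ^ 2 * m / D ^ 2 := by
      rw [hρ, ← hq]; field_simp; ring
    rw [div_div_eq_mul_div, div_one, e, ← hD, ← mul_div_assoc]
    refine div_le_div_of_nonneg_right ?_ (sq_nonneg _)
    have : (m + 1) * π ^ 2 ≤ 2 * m * π ^ 2 := mul_le_mul_of_nonneg_right (by linarith) (sq_nonneg _)
    refine (mul_le_mul_of_nonneg_right this (by positivity)).trans_eq ?_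
    ring

end Pool.Agent.P.MP_5c8462_an.Ord
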