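import Pool.Agent.P.MP_5c8462_an.Ord.AdmL
import Pool.Agent.P.MP_5c8462_an.Ord.BM
import Pool.Agent.P.MP_5c8462_an.Ord.Count
import Pool.Agent.P.MP_5c8462_an.Ord.Cov
import Pool.Agent.P.MP_5c8462_an.Ord.First
import Pool.Agent.P.MP_5c8462_an.Ord.Loc
import Pool.Agent.P.MP_5c8462_an.Ord.Low
import Pool.Agent.P.MP_5c8462_an.Ord.Needle
import Pool.Agent.P.MP_5c8462_an.Ord.OneG
import Pool.Agent.P.MP_5c8462_an.Ord.OneT
import Pool.Agent.P.MP_5c8462_an.Ord.Rad
import Pool.Agent.P.MP_5c8462_an.Ord.RadS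
import Pool.Agent.P.MP_5c8462_an.Ord.Red
import Pool.Agent.P.MP_5c8462_an.Ord.Stab
import Pool.Agent.P.MP_5c8462_an.Ord.U1
import Pool.Agent.P.MP_5c8462_an.Ord.U2

set_option autoImplicit false

namespace Pool.Agent.P.MP_5c8462_an.Ord

theorem hNL : StNL := pNL pLoc (pNeedle pBM)
theorem hGP : StGP := pGP hNL p1G
theorem hPW : StPW := pPW hNL p1P
theorem hTC : StTC := pTC hNL p1T
theorem hH : StH := pH hNL p1H
theorem hN : StN := pN hGP hTC pAdm
theorem hS : StS := pS pBM pLoc hPW (pUI hGP hTC) (pCov hGP)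

theorem ord : StOrd := pOrd (pLow hN (pR pBM) pDS) (pU2 hH hN pBr pAdm) hN pAdm

theorem first : StFirst := pFirst ord hS (pRs pBM) pAdm pDS (pU1 hPW pAdm)

theorem log_mono {k k' d : ℕ} (h : k ≤ k') :
    Real.log (1 + (min k d : ℕ)) ^ 2 ≤ Real.log (1 + (min k' d : ℕ)) ^ 2 := by
  have h0 : (0 : ℝ) ≤ (min k d : ℕ) := Nat.cast_nonneg _
  have h1 : ((min k d : ℕ) : ℝ) ≤ (min k' d : ℕ) := Nat.cast_le.2 (min_le_min_right d h)
  exact pow_le_pow_left₀ (Real.log_nonneg (by linarith)) (Real.log_le_log (by linarith)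
    (by linarith)) 2

theorem quasi : ∃ C : ℝ, ∀ d k k' : ℕ, 2 ≤ d → 1 ≤ k → k ≤ k' → alpha k d ≤ C * alpha k' d := by
  obtain ⟨c, C, hc, h⟩ := ord
  refine ⟨|C| / c, fun d k k' hd hk hkk => ?_⟩
  have h1 := (h d k hd hk).2
  have h2 := (h d k' hd (hk.trans hkk)).1
  have h3 := log_mono (d := d) hkk
  have h4 := mul_le_mul_of_nonneg_left h2 (by positivity : 0 ≤ |C| / c)
  refine h1.trans (le_trans ?_ h4)
  have e : |C| / c * (c * Real.log (1 + (min k' d : ℕ)) ^ 2 / (d : ℝ) ^ 2) =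
      |C| * Real.log (1 + (min k' d : ℕ)) ^ 2 / (d : ℝ) ^ 2 := by field_simp
  rw [e]
  exact div_le_div_of_nonneg_right
    (mul_le_mul (le_abs_self C) h3 (sq_nonneg _) (abs_nonneg C)) (sq_nonneg _)

theorem sparse : ∃ A : ℕ, ∀ d k k' : ℕ, 1 ≤ k → (k + 1) ^ A ≤ k' → (k + 1) ^ A ≤ d →
    alpha k d < alpha k' d := by
  obtain ⟨c, C, hc, h⟩ := ord
  obtain ⟨A, hA⟩ := exists_nat_gt (|C| / c + 1)
  have hA0 : (1 : ℝ) < A := lt_of_le_of_lt (by have : 0 ≤ |C| / c := by positivity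
                                               linarith) hA
  have hA1 : 1 ≤ A := by exact_mod_cast hA0.le
  refine ⟨A, fun d k k' hk h1 h2 => ?_⟩
  have hp : k + 1 ≤ (k + 1) ^ A := Nat.le_self_pow (by omega) _
  have hd : 2 ≤ d := by omega
  have hk' : 1 ≤ k' := by omega
  have a1 := (h d k hd hk).2
  have a2 := (h d k' hd hk').1
  refine a1.trans_lt (lt_of_lt_of_le ?_ a2)
  have hd0 : (0 : ℝ) < (d : ℝ) ^ 2 := by
    have : (0 : ℝ) < d := Nat.cast_pos.2 (by omega)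
    positivity
  refine div_lt_div_of_pos_right ?_ hd0
  have hmin : min k d = k := min_eq_left (by omega)
  rw [hmin]
  have k1 : (1 : ℝ) ≤ k := Nat.one_le_cast.2 hk
  set L := Real.log (1 + k) with hL
  have L0 : 0 < L := Real.log_pos (by linarith)
  have b1 : (A : ℝ) * L ≤ Real.log (1 + (min k' d : ℕ)) := by
    rw [hL, ← Real.log_pow]
    refine Real.log_le_log (by positivity) ?_
    have : (((k + 1) ^ A : ℕ) : ℝ) ≤ (min k' d : ℕ) := Nat.cast_le.2 (le_min h1 h2)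
    push_cast at this ⊢
    rw [add_comm (1 : ℝ) k]
    linarith
  have b2 : ((A : ℝ) * L) ^ 2 ≤ Real.log (1 + (min k' d : ℕ)) ^ 2 :=
    pow_le_pow_left₀ (by positivity) b1 2
  have b3 : |C| < c * A := by
    have : |C| / c < A := by linarith
    rwa [div_lt_iff₀' hc] at this
  have b4 : C < c * A ^ 2 := by
    have := le_abs_self C
    have h5 : c * A ≤ c * A ^ 2 := mul_le_mul_of_nonneg_left (by nlinarith) hc.le
    linarith
  have b5 := mul_lt_mul_of_pos_right b4 (pow_pos L0 2)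
  have b6 := mul_le_mul_of_nonneg_left b2 hc.le
  nlinarith

end Pool.Agent.P.MP_5c8462_an.Ord
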