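import Pool.Agent.P.MP_5c8462_an.Ord.Defs

set_option autoImplicit false

namespace Pool.Agent.P.MP_5c8462_an.Ord

open MeasureTheory Real Set intervalIntegral

namespace OneH

/-- the properties of a log-concave density extended by zero -/
structure Good (q : ℝ → ℝ) : Prop where
  nn : ∀ x, 0 ≤ q x
  int : ∀ F : ℝ → ℝ, Continuous F → ∀ x y, IntervalIntegrable (fun s => F s * q s) volume x y
  four : ∀ u w w' z, u ≤ w → u ≤ w' → w + w' = u + z → q u * q z ≤ q w * q w'
  quasi : ∀ u y z, u ≤ y → y ≤ z → min (q u) (q z) ≤ q y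

theorem Good.neg {q : ℝ → ℝ} (h : Good q) : Good fun x => q (-x) where
  nn x := h.nn _
  int F hF x y := by
    have := (h.int (fun s => F (-s)) (hF.comp continuous_neg) (-x) (-y)).comp_mul_left (c := -1)
    simpa using this
  four u w w' z h1 h2 h3 := by
    rw [mul_comm]
    exact h.four (-z) (-w) (-w') (-u) (by linarith) (by linarith) (by linarith)
  quasi u y z h1 h2 := by
    rw [min_comm]
    exact h.quasi (-z) (-y) (-u) (by linarith) (by linarith)

theorem Good.int1 {q : ℝ → ℝ} (h : Good q) (x y : ℝ) : IntervalIntegrable q volume x y := by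
  simpa using h.int (fun _ => 1) continuous_const x y

theorem cont_p {p : ℝ → ℝ} {a b : ℝ} (h : LC p a b) : ContinuousOn p (Ioo a b) :=
  (continuous_exp.comp_continuousOn (h.conc.continuousOn isOpen_Ioo)).congr fun s hs =>
    (exp_log (h.pos s hs)).symm

theorem int_p {p : ℝ → ℝ} {a b : ℝ} (h : LC p a b) {F : ℝ → ℝ} (hF : Continuous F) :
    IntegrableOn (fun s => F s * p s) (Ioo a b) := by
  obtain ⟨C, hC⟩ := h.bdd
  have h1 : IntegrableOn p (Ioo a b) :=
    IntegrableOn.of_bound measure_Ioo_lt_top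
      ((cont_p h).aestronglyMeasurable measurableSet_Ioo) C
      ((ae_restrict_mem measurableSet_Ioo).mono fun s hs => by
        rw [Real.norm_of_nonneg (h.pos s hs).le]
        exact hC s hs)
  have h2 : IntegrableOn p (Icc a b) := (integrableOn_Icc_iff_integrableOn_Ioo).2 h1
  exact (h2.continuousOn_mul hF.continuousOn isCompact_Icc).mono_set Ioo_subset_Icc_self

theorem ind_mul (p F : ℝ → ℝ) (a b : ℝ) : (fun s => F s * (Ioo a b).indicator p s) =
    (Ioo a b).indicator fun s => F s * p s := by
  funext s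
  by_cases hs : s ∈ Ioo a b <;> simp [hs]

theorem good {p : ℝ → ℝ} {a b : ℝ} (h : LC p a b) : Good ((Ioo a b).indicator p) where
  nn x := indicator_nonneg (fun s hs => (h.pos s hs).le) x
  int F hF x y := by
    rw [ind_mul]
    exact ((integrable_indicator_iff measurableSet_Ioo).2 (int_p h hF)).intervalIntegrable
  four u w w' z h1 h2 h3 := by
    have hn : ∀ x, 0 ≤ (Ioo a b).indicator p x := indicator_nonneg fun s hs => (h.pos s hs).le
    by_cases hu : u ∈ Ioo a b
    swap
    · rw [indicator_of_notMem hu, zero_mul]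
      exact mul_nonneg (hn _) (hn _)
    by_cases hz : z ∈ Ioo a b
    swap
    · rw [indicator_of_notMem hz, mul_zero]
      exact mul_nonneg (hn _) (hn _)
    have hw : w ∈ Ioo a b := ⟨by linarith [hu.1], by linarith [hz.2]⟩
    have hw' : w' ∈ Ioo a b := ⟨by linarith [hu.1], by linarith [hz.2]⟩
    rw [indicator_of_mem hu, indicator_of_mem hz, indicator_of_mem hw, indicator_of_mem hw']
    rcases eq_or_lt_of_le (show u ≤ z by linarith) with e | hlt
    · have e1 : w = u := by linarith
      have e2 : w' = z := by linarith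
      rw [e1, e2]
    have hd : 0 < z - u := by linarith
    have a0 : 0 ≤ (w - u) / (z - u) := div_nonneg (by linarith) hd.le
    have a1 : 0 ≤ (w' - u) / (z - u) := div_nonneg (by linarith) hd.le
    have a2 : (w' - u) / (z - u) + (w - u) / (z - u) = 1 := by
      rw [← add_div, div_eq_one_iff_eq hd.ne']
      linarith
    have b1 := h.conc.2 hu hz a1 a0 a2
    have b2 := h.conc.2 hu hz a0 a1 (by linarith)
    have c1 : ((w' - u) / (z - u)) • u + ((w - u) / (z - u)) • z = w := by
      have : w' = u + z - w := by linarith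
      simp only [smul_eq_mul, this]
      field_simp
      ring
    have c2 : ((w - u) / (z - u)) • u + ((w' - u) / (z - u)) • z = w' := by
      have : w = u + z - w' := by linarith
      simp only [smul_eq_mul, this]
      field_simp
      ring
    rw [c1] at b1
    rw [c2] at b2
    simp only [smul_eq_mul] at b1 b2
    rw [← log_le_log_iff (mul_pos (h.pos u hu) (h.pos z hz)) (mul_pos (h.pos w hw) (h.pos w' hw')),
      log_mul (h.pos u hu).ne' (h.pos z hz).ne', log_mul (h.pos w hw).ne' (h.pos w' hw').ne']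
    have d1 : log (p u) = ((w' - u) / (z - u) + (w - u) / (z - u)) * log (p u) := by
      rw [a2, one_mul]
    have d2 : log (p z) = ((w' - u) / (z - u) + (w - u) / (z - u)) * log (p z) := by
      rw [a2, one_mul]
    linarith
  quasi u y z h1 h2 := by
    have hn : ∀ x, 0 ≤ (Ioo a b).indicator p x := indicator_nonneg fun s hs => (h.pos s hs).le
    by_cases hu : u ∈ Ioo a b
    swap
    · rw [indicator_of_notMem hu]
      exact (min_le_left _ _).trans (hn _)
    by_cases hz : z ∈ Ioo a b
    swap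
    · rw [indicator_of_notMem hz]
      exact (min_le_right _ _).trans (hn _)
    have hy : y ∈ Ioo a b := ⟨by linarith [hu.1], by linarith [hz.2]⟩
    rw [indicator_of_mem hu, indicator_of_mem hz, indicator_of_mem hy]
    have h3 := h.conc.min_le_of_mem_Icc hu hz ⟨h1, h2⟩
    rcases min_le_iff.1 h3 with h4 | h4
    · exact (min_le_left _ _).trans ((log_le_log_iff (h.pos u hu) (h.pos y hy)).1 h4)
    · exact (min_le_right _ _).trans ((log_le_log_iff (h.pos z hz) (h.pos y hy)).1 h4)

theorem decay {q : ℝ → ℝ} (h : Good q) {s t l θ T : ℝ} {J : ℕ} (hJ : 1 ≤ J) (hl : 0 < l)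
    (hst : s ≤ t) (hJl : t - s ≤ J * l) (hθ : θ < exp (-(J : ℝ)) / (2 * J)) (hT : 0 < T)
    (h1 : ∫ x in t..t + l, q x ≤ θ * T) (h2 : T / 2 ≤ ∫ x in s..t, q x) {x : ℝ} (hx : t ≤ x) :
    q (x + l) ≤ 3 / 8 * q x := by
  by_contra hc
  have he : (8 / 3 : ℝ) < exp 1 := by linarith [exp_one_gt_d9]
  have hq : 0 < q (x + l) := lt_of_le_of_lt (mul_nonneg (by norm_num) (h.nn x)) (not_le.1 hc)
  have h3 : ∀ y ≤ x, q y ≤ exp 1 * q (y + l) := fun y hy => by
    have h4 := h.four y (y + l) x (x + l) (by linarith) hy (by ring)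
    have h5 : q x ≤ exp 1 * q (x + l) := by nlinarith [not_le.1 hc]
    refine le_of_mul_le_mul_right (h4.trans ?_) hq
    calc q (y + l) * q x ≤ q (y + l) * (exp 1 * q (x + l)) :=
          mul_le_mul_of_nonneg_left h5 (h.nn _)
      _ = _ := by ring
  set A := ∫ x in t..t + l, q x with hA
  have hA0 : 0 ≤ A := integral_nonneg (by linarith) fun x _ => h.nn x
  have h4 : ∀ j : ℕ, ∫ y in t - j * l..t - j * l + l, q y ≤ exp j * A := by
    intro j
    induction j with
    | zero => simp [hA]
    | succ j ih =>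
      have h5 : (0 : ℝ) ≤ j * l := by positivity
      calc ∫ y in t - (j + 1 : ℕ) * l..t - (j + 1 : ℕ) * l + l, q y
          ≤ ∫ y in t - (j + 1 : ℕ) * l..t - (j + 1 : ℕ) * l + l, exp 1 * q (y + l) := by
            refine integral_mono_on (by linarith) (h.int1 _ _) ?_ fun y hy => h3 y ?_
            · have := ((h.int1 (t - (j + 1 : ℕ) * l + l)
                (t - (j + 1 : ℕ) * l + l + l)).comp_add_right l).const_mul (exp 1)
              simpa using this
            · have := hy.2
              push_cast at this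
              linarith
        _ = exp 1 * ∫ y in t - j * l..t - j * l + l, q y := by
            rw [intervalIntegral.integral_const_mul, integral_comp_add_right]
            congr 2 <;> push_cast <;> ring
        _ ≤ exp 1 * (exp j * A) := mul_le_mul_of_nonneg_left ih (exp_pos 1).le
        _ = _ := by rw [← mul_assoc, ← exp_add, Nat.cast_succ, add_comm]
  have h5 : ∀ j : ℕ, ∫ y in t - j * l..t, q y ≤ j * exp j * A := by
    intro j
    induction j with
    | zero => simp
    | succ j ih =>
      have h6 := h4 (j + 1)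
      have h7 : t - (j + 1 : ℕ) * l + l = t - j * l := by push_cast; ring
      rw [h7] at h6
      rw [← integral_add_adjacent_intervals (h.int1 _ (t - j * l)) (h.int1 _ _)]
      have h8 : exp (j : ℝ) ≤ exp ((j + 1 : ℕ) : ℝ) := exp_le_exp.2 (by push_cast; linarith)
      have h9 : j * exp (j : ℝ) * A ≤ j * exp ((j + 1 : ℕ) : ℝ) * A := by gcongr
      have : ((j + 1 : ℕ) : ℝ) * exp ((j + 1 : ℕ) : ℝ) * A =
          exp ((j + 1 : ℕ) : ℝ) * A + j * exp ((j + 1 : ℕ) : ℝ) * A := by
        rw [Nat.cast_succ]; ring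
      linarith
  have h6 : ∫ x in s..t, q x ≤ ∫ y in t - J * l..t, q y :=
    integral_mono_interval (by linarith) hst le_rfl (Filter.Eventually.of_forall h.nn) (h.int1 _ _)
  have hJ' : (0 : ℝ) < J := by exact_mod_cast hJ
  have h7 : J * exp J * A ≤ J * exp J * (θ * T) := by gcongr
  have h8 : J * exp J * (θ * T) < J * exp J * (exp (-(J : ℝ)) / (2 * J) * T) := by gcongr
  have h9 : J * exp J * (exp (-(J : ℝ)) / (2 * J) * T) = T / 2 := by
    rw [exp_neg]
    field_simp
  linarith [h5 J]

theorem ci {f : ℝ → ℝ} {x y : ℝ} (h : Continuous f) : IntervalIntegrable f volume x y :=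
  h.intervalIntegrable x y

theorem cs {v : ℝ → ℝ} (hv : ContDiff ℝ 1 v) {l : ℝ} (hl : 0 < l) (x : ℝ) :
    (v (x + l) - v x) ^ 2 ≤ l * ∫ y in x..x + l, deriv v y ^ 2 := by
  have hc : Continuous (deriv v) := hv.continuous_deriv le_rfl
  have h1 : ∫ y in x..x + l, deriv v y = v (x + l) - v x :=
    integral_deriv_eq_sub (fun y _ => hv.differentiable one_ne_zero y) (hc.intervalIntegrable _ _)
  set D := v (x + l) - v x
  have h2 : 0 ≤ ∫ y in x..x + l, (deriv v y - D / l) ^ 2 :=
    integral_nonneg (by linarith) fun y _ => sq_nonneg _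
  have h3 : ∫ y in x..x + l, (deriv v y - D / l) ^ 2 =
      ∫ y in x..x + l, (deriv v y ^ 2 - 2 * (D / l) * deriv v y + (D / l) ^ 2) :=
    integral_congr fun y _ => by ring
  rw [h3, intervalIntegral.integral_add (ci (by fun_prop)) (ci (by fun_prop)),
    intervalIntegral.integral_sub (ci (by fun_prop)) (ci (by fun_prop)),
    intervalIntegral.integral_const_mul, h1, intervalIntegral.integral_const, smul_eq_mul] at h2
  have h4 : l * (2 * (D / l) * D) = 2 * D ^ 2 := by field_simp
  have h5 : l * ((x + l - x) * (D / l) ^ 2) = D ^ 2 := by field_simp; ring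
  nlinarith [mul_nonneg hl.le h2]

theorem side {q : ℝ → ℝ} (h : Good q) {t B l : ℝ} (hl : 0 < l) (htB : t ≤ B)
    (h1 : ∀ x, t ≤ x → q (x + l) ≤ 3 / 8 * q x) {v : ℝ → ℝ} (hv : ContDiff ℝ 1 v) :
    ∫ x in t + l..B + l, v x ^ 2 * q x ≤
      3 * (∫ x in t..t + l, v x ^ 2 * q x) + 8 * l ^ 2 * ∫ x in t..B + l, deriv v x ^ 2 * q x := by
  have hc : Continuous (deriv v) := hv.continuous_deriv le_rfl
  have i1 := h.int (fun x => v x ^ 2) (hv.continuous.pow 2)
  have i2 := h.int (fun x => deriv v x ^ 2) (hc.pow 2)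
  set Φ : ℝ → ℝ := fun x => ∫ y in t..x, deriv v y ^ 2 * q y with hΦ
  have cΦ : Continuous Φ := continuous_primitive i2 t
  have n2 : ∀ y, 0 ≤ deriv v y ^ 2 * q y := fun y => mul_nonneg (sq_nonneg _) (h.nn y)
  have k1 : ∀ x, t ≤ x → v (x + l) ^ 2 * q (x + l) ≤
      3 / 4 * (v x ^ 2 * q x) + 2 * l * (Φ (x + l) - Φ x) := by
    intro x hx
    have a1 : Φ (x + l) - Φ x = ∫ y in x..x + l, deriv v y ^ 2 * q y :=
      integral_interval_sub_left (i2 _ _) (i2 _ _)
    have a2 : (∫ y in x..x + l, deriv v y ^ 2) * q (x + l) ≤ Φ (x + l) - Φ x := by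
      rw [a1, ← intervalIntegral.integral_mul_const]
      refine integral_mono_on (by linarith) (ci (by fun_prop)) (i2 _ _) fun y hy => ?_
      refine mul_le_mul_of_nonneg_left ?_ (sq_nonneg _)
      have := h.quasi x y (x + l) hy.1 hy.2
      rwa [min_eq_right (by linarith [h1 x hx, h.nn x])] at this
    have a3 := mul_le_mul_of_nonneg_right (cs hv hl x) (h.nn (x + l))
    have a4 : v (x + l) ^ 2 ≤ 2 * v x ^ 2 + 2 * (v (x + l) - v x) ^ 2 := by
      nlinarith [sq_nonneg (v (x + l) - 2 * v x)]
    have a5 := mul_le_mul_of_nonneg_right a4 (h.nn (x + l))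
    have a6 := mul_le_mul_of_nonneg_left (h1 x hx) (sq_nonneg (v x))
    have a7 := mul_le_mul_of_nonneg_left a2 hl.le
    nlinarith
  have k2 : ∫ x in t..B, (Φ (x + l) - Φ x) ≤ l * Φ (B + l) := by
    have iΦ := fun x y => cΦ.intervalIntegrable (μ := volume) x y
    rw [intervalIntegral.integral_sub (ci (by fun_prop)) (iΦ _ _), integral_comp_add_right]
    have a1 := integral_add_adjacent_intervals (iΦ t (t + l)) (iΦ (t + l) (B + l))
    have a2 := integral_add_adjacent_intervals (iΦ t B) (iΦ B (B + l))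
    have a3 : 0 ≤ ∫ x in t..t + l, Φ x :=
      integral_nonneg (by linarith) fun x hx => integral_nonneg hx.1 fun y _ => n2 y
    have a4 : ∫ x in B..B + l, Φ x ≤ ∫ x in B..B + l, Φ (B + l) :=
      integral_mono_on (by linarith) (iΦ _ _) (by simp) fun x hx =>
        integral_mono_interval le_rfl (htB.trans hx.1) hx.2 (Filter.Eventually.of_forall n2)
          (i2 _ _)
    rw [intervalIntegral.integral_const, smul_eq_mul, add_sub_cancel_left] at a4
    linarith
  have k3 : ∫ x in t + l..B + l, v x ^ 2 * q x ≤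
      ∫ x in t..B, (3 / 4 * (v x ^ 2 * q x) + 2 * l * (Φ (x + l) - Φ x)) := by
    rw [← integral_comp_add_right (fun x => v x ^ 2 * q x) l]
    refine integral_mono_on htB ?_ (((i1 _ _).const_mul _).add (ci (by fun_prop)))
      fun x hx => k1 x hx.1
    simpa using (i1 (t + l) (B + l)).comp_add_right l
  rw [intervalIntegral.integral_add ((i1 _ _).const_mul _) (ci (by fun_prop)),
    intervalIntegral.integral_const_mul, intervalIntegral.integral_const_mul] at k3
  have k4 : ∫ x in t..B, v x ^ 2 * q x ≤ ∫ x in t..B + l, v x ^ 2 * q x :=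
    integral_mono_interval le_rfl htB (by linarith)
      (Filter.Eventually.of_forall fun y => mul_nonneg (sq_nonneg _) (h.nn y)) (i1 _ _)
  have k5 := integral_add_adjacent_intervals (i1 t (t + l)) (i1 (t + l) (B + l))
  have k6 := mul_le_mul_of_nonneg_left k2 (by linarith : 0 ≤ 2 * l)
  have k7 : Φ (B + l) = ∫ x in t..B + l, deriv v x ^ 2 * q x := rfl
  rw [← k7]
  nlinarith

theorem conv {p F : ℝ → ℝ} {a b x y : ℝ} (hxy : x ≤ y) :
    ∫ s in x..y, F s * (Ioo a b).indicator p s = ∫ s in Ioo a b ∩ Icc x y, F s * p s := by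
  rw [integral_of_le hxy, ← integral_Icc_eq_integral_Ioc, ind_mul,
    setIntegral_indicator measurableSet_Ioo, inter_comm]

end OneH

open OneH in
theorem p1H : St1H := by
  intro p a b h s t l θ J hJ hl has hst htb hJl hθ hO v hv
  have g := good h
  set q := (Ioo a b).indicator p with hq
  have hc : Continuous (deriv v) := hv.continuous_deriv le_rfl
  have ip : IntegrableOn p (Ioo a b) := by simpa using int_p h (F := fun _ => 1) continuous_const
  have hT : 0 < ∫ x in Ioo a b, p x := by
    rw [← integral_Ioc_eq_integral_Ioo, ← integral_of_le h.lt.le]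
    exact intervalIntegral_pos_of_pos_on
      ((intervalIntegrable_iff_integrableOn_Ioo_of_le h.lt.le).2 ip) h.pos h.lt
  set T := ∫ x in Ioo a b, p x
  have c1 : ∀ x y, x ≤ y → ∫ s in x..y, q s = ∫ s in Ioo a b ∩ Icc x y, p s := fun x y hxy => by
    simpa using conv (p := p) (F := fun _ => 1) (a := a) (b := b) hxy
  have hJ' : (1 : ℝ) ≤ J := by exact_mod_cast hJ
  have hθ2 : θ ≤ 1 / 2 := by
    refine hθ.le.trans ?_
    rw [div_le_div_iff₀ (by linarith) two_pos]
    linarith [exp_le_one_iff.2 (show -(J : ℝ) ≤ 0 by linarith)]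
  have m1 : T / 2 ≤ ∫ x in s..t, q x := by
    have := integral_inter_add_sdiff (μ := volume) (s := Ioo a b)
      (measurableSet_Icc (a := s) (b := t)) ip
    rw [c1 s t hst]
    nlinarith
  have m2 : ∀ x y, x ≤ y → Disjoint (Ioo x y) (Icc s t) → ∫ u in x..y, q u ≤ θ * T := by
    intro x y hxy hd
    refine le_trans ?_ hO
    rw [integral_of_le hxy, integral_Ioc_eq_integral_Ioo, hq,
      setIntegral_indicator measurableSet_Ioo]
    refine setIntegral_mono_set (ip.mono_set sdiff_subset)
      ((ae_restrict_mem (measurableSet_Ioo.diff measurableSet_Icc)).mono fun u hu =>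
        (h.pos u hu.1).le) (LE.le.eventuallyLE fun u hu => ⟨hu.2, ?_⟩)
    exact disjoint_left.1 hd hu.1
  have r1 := side g hl htb (fun x hx => decay g hJ hl hst hJl hθ hT
    (m2 _ _ (by linarith) (disjoint_left.2 fun u h1 h2 => by linarith [h1.1, h2.2])) m1 hx) hv
  have r2 := side g.neg (t := -s) (B := -a) hl (by linarith)
    (fun x hx => decay g.neg (s := -t) hJ hl (by linarith) (by linarith) hθ hT
      (by
        rw [integral_comp_neg]
        exact m2 _ _ (by linarith) (disjoint_left.2 fun u h1 h2 => by linarith [h1.2, h2.1]))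
      (by rw [integral_comp_neg, neg_neg, neg_neg]; exact m1) hx)
    (v := fun x => v (-x)) (hv.comp contDiff_neg)
  simp only [deriv_comp_neg, neg_sq] at r2
  rw [integral_comp_neg (fun x => v x ^ 2 * q x), integral_comp_neg (fun x => v x ^ 2 * q x),
    integral_comp_neg (fun x => deriv v x ^ 2 * q x)] at r2
  simp only [neg_add_rev, neg_neg] at r2
  have i1 := g.int (fun x => v x ^ 2) (hv.continuous.pow 2)
  have i2 := g.int (fun x => deriv v x ^ 2) (hc.pow 2)
  have n1 : ∀ y, 0 ≤ v y ^ 2 * q y := fun y => mul_nonneg (sq_nonneg _) (g.nn y)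
  have n2 : ∀ y, 0 ≤ deriv v y ^ 2 * q y := fun y => mul_nonneg (sq_nonneg _) (g.nn y)
  have e0 : Ioo a b ∩ Icc (-l + a) (b + l) = Ioo a b :=
    inter_eq_left.2 fun u hu => ⟨by linarith [hu.1], by linarith [hu.2]⟩
  have e1 := conv (p := p) (F := fun x => v x ^ 2) (a := a) (b := b)
    (show -l + a ≤ b + l by linarith)
  have e2 := conv (p := p) (F := fun x => deriv v x ^ 2) (a := a) (b := b)
    (show -l + a ≤ b + l by linarith)
  have e3 := conv (p := p) (F := fun x => v x ^ 2) (a := a) (b := b)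
    (show s - l ≤ t + l by linarith)
  rw [e0] at e1 e2
  rw [← e1, ← e2, ← e3, ← hq, show s - l = -l + s by ring]
  have s1 := integral_add_adjacent_intervals (i1 (-l + a) (-l + s)) (i1 (-l + s) (t + l))
  have s2 := integral_add_adjacent_intervals (i1 (-l + a) (t + l)) (i1 (t + l) (b + l))
  have t1 : ∫ x in t..t + l, v x ^ 2 * q x ≤ ∫ x in -l + s..t + l, v x ^ 2 * q x :=
    integral_mono_interval (by linarith) (by linarith) le_rfl (Filter.Eventually.of_forall n1)
      (i1 _ _)
  have t2 : ∫ x in -l + s..s, v x ^ 2 * q x ≤ ∫ x in -l + s..t + l, v x ^ 2 * q x :=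
    integral_mono_interval le_rfl (by linarith) (by linarith) (Filter.Eventually.of_forall n1)
      (i1 _ _)
  have t3 : ∫ x in t..b + l, deriv v x ^ 2 * q x ≤ ∫ x in -l + a..b + l, deriv v x ^ 2 * q x :=
    integral_mono_interval (by linarith) (by linarith) le_rfl (Filter.Eventually.of_forall n2)
      (i2 _ _)
  have t4 : ∫ x in -l + a..s, deriv v x ^ 2 * q x ≤ ∫ x in -l + a..b + l, deriv v x ^ 2 * q x :=
    integral_mono_interval le_rfl (by linarith) (by linarith) (Filter.Eventually.of_forall n2)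
      (i2 _ _)
  have t5 := mul_le_mul_of_nonneg_left t3 (by positivity : 0 ≤ 8 * l ^ 2)
  have t6 := mul_le_mul_of_nonneg_left t4 (by positivity : 0 ≤ 8 * l ^ 2)
  linarith

end Pool.Agent.P.MP_5c8462_an.Ord
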