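import Pool.Agent.P.MP_5c8462_an.Ord.Defs

set_option autoImplicit false

namespace Pool.Agent.P.MP_5c8462_an.Ord

open MeasureTheory Real Set Filter Topology

namespace RadS

variable {d : ℕ}

theorem fin_inter (K : Set (E d)) (p : E d) (s : ℝ) : volume (K ∩ Metric.ball p s) ≠ ⊤ :=
  ((Metric.isBounded_ball.subset inter_subset_right).measure_lt_top).ne

theorem int_on {A : Set (E d)} (hA : Bornology.IsBounded A) {F : E d → ℝ} (hF : Continuous F) :
    IntegrableOn F A :=
  (hF.continuousOn.integrableOn_compact hA.isCompact_closure).mono_set subset_closure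

theorem V_pos {K : Set (E d)} (hK : Dom K) {p : E d} (hp : p ∈ K) {s : ℝ} (hs : 0 < s) :
    0 < Vb K p s :=
  ENNReal.toReal_pos ((hK.2.1.inter Metric.isOpen_ball).measure_pos volume
    ⟨p, hp, Metric.mem_ball_self hs⟩).ne' (fin_inter K p s)

theorem V_bg {K : Set (E d)} (hK : Dom K) {p : E d} (hp : p ∈ K) {s t : ℝ} (hs : 0 < s)
    (hst : s ≤ t) : Vb K p t ≤ (t / s) ^ d * Vb K p s := by
  have ht : 0 < t := hs.trans_le hst
  have hsub : K ∩ Metric.ball p t ⊆ AffineMap.homothety p (t / s) '' (K ∩ Metric.ball p s) := by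
    rintro x ⟨hx, hxb⟩
    refine ⟨p + (s / t) • (x - p), ⟨?_, ?_⟩, ?_⟩
    · exact hK.2.2.1.add_smul_sub_mem hp hx ⟨by positivity, (div_le_one ht).2 hst⟩
    · rw [Metric.mem_ball, dist_eq_norm] at hxb ⊢
      rw [add_sub_cancel_left, norm_smul, Real.norm_eq_abs, abs_of_pos (by positivity)]
      calc s / t * ‖x - p‖ < s / t * t := mul_lt_mul_of_pos_left hxb (by positivity)
        _ = s := by field_simp
    · rw [AffineMap.homothety_apply, vsub_eq_sub, vadd_eq_add, add_sub_cancel_left, smul_smul]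
      have : t / s * (s / t) = 1 := by field_simp
      rw [this, one_smul, sub_add_cancel]
  have h := measure_mono (μ := volume) hsub
  rw [Measure.addHaar_image_homothety, finrank_euclideanSpace_fin,
    abs_of_pos (by positivity)] at h
  have h2 := ENNReal.toReal_mono (ENNReal.mul_ne_top ENNReal.ofReal_ne_top (fin_inter K p s)) h
  rwa [ENNReal.toReal_mul, ENNReal.toReal_ofReal (by positivity)] at h2

theorem V_conc (hBM : StBM) {K : Set (E d)} (hK : Dom K) {p : E d} (hp : p ∈ K) :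
    ConcaveOn ℝ (Ioi 0) fun s => Real.log (Vb K p s) := by
  refine concaveOn_iff_forall_pos.2 ⟨convex_Ioi 0, fun x hx y hy a b ha hb hab => ?_⟩
  have hx0 : (0 : ℝ) < x := hx
  have hy0 : (0 : ℝ) < y := hy
  obtain rfl : a = 1 - b := by linarith
  have hm : ∀ s, MeasurableSet (K ∩ Metric.ball p s) := fun s =>
    (hK.2.1.inter Metric.isOpen_ball).measurableSet
  have hbd : ∀ s, Bornology.IsBounded (K ∩ Metric.ball p s) := fun s =>
    Metric.isBounded_ball.subset inter_subset_right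
  have h := hBM d _ _ _ (hm x) (hm y) (hm ((1 - b) * x + b * y)) (hbd _) (hbd _) (hbd _) b hb
    (by linarith) (by
      rintro u ⟨hu, hu'⟩ v ⟨hv, hv'⟩
      refine ⟨hK.2.2.1 hu hv ha.le hb.le hab, ?_⟩
      rw [Metric.mem_ball, dist_eq_norm] at hu' hv' ⊢
      have e : (1 - b) • u + b • v - p = (1 - b) • (u - p) + b • (v - p) := by
        simp only [smul_sub, sub_smul, one_smul]
        abel
      rw [e]
      refine (norm_add_le _ _).trans_lt ?_
      rw [norm_smul, norm_smul, Real.norm_eq_abs, Real.norm_eq_abs, abs_of_pos ha, abs_of_pos hb]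
      exact add_lt_add (mul_lt_mul_of_pos_left hu' ha) (mul_lt_mul_of_pos_left hv' hb))
  have h1 := V_pos hK hp hx0
  have h2 := V_pos hK hp hy0
  have h3 := Real.log_le_log (mul_pos (Real.rpow_pos_of_pos h1 _) (Real.rpow_pos_of_pos h2 _)) h
  rw [Real.log_mul (Real.rpow_pos_of_pos h1 _).ne' (Real.rpow_pos_of_pos h2 _).ne',
    Real.log_rpow h1, Real.log_rpow h2] at h3
  simpa only [smul_eq_mul, Vb] using h3

theorem four {f : ℝ → ℝ} (hf : ConcaveOn ℝ (Ioi 0) f) {x y z w : ℝ} (hx : 0 < x) (hxy : x < y)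
    (hyz : y ≤ z) (hzw : z < w) : (f w - f z) / (w - z) ≤ (f y - f x) / (y - x) := by
  have hw : w ∈ Ioi (0 : ℝ) := by
    show 0 < w
    linarith
  rcases hyz.eq_or_lt with rfl | h
  · exact hf.slope_anti_adjacent hx hw hxy hzw
  · have hy : y ∈ Ioi (0 : ℝ) := hx.trans hxy
    have hz : z ∈ Ioi (0 : ℝ) := (hx.trans hxy).trans h
    exact (hf.slope_anti_adjacent hy hw h hzw).trans (hf.slope_anti_adjacent hx hz hxy h)

/-- Half-open shell. -/
def sh (p : E d) (s t : ℝ) : Set (E d) := Metric.ball p t \ Metric.ball p s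

theorem mem_sh {p x : E d} {s t : ℝ} : x ∈ sh p s t ↔ s ≤ dist x p ∧ dist x p < t := by
  simp only [sh, Set.mem_sdiff, Metric.mem_ball, not_lt]
  exact and_comm

theorem sh_meas (p : E d) (s t : ℝ) : MeasurableSet (sh p s t) :=
  Metric.isOpen_ball.measurableSet.diff Metric.isOpen_ball.measurableSet

theorem sh_vol {K : Set (E d)} (hK : Dom K) (p : E d) {s t : ℝ} (hst : s ≤ t) :
    volume.real (K ∩ sh p s t) = Vb K p t - Vb K p s := by
  have e : K ∩ sh p s t = (K ∩ Metric.ball p t) \ (K ∩ Metric.ball p s) := by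
    ext x
    simp only [sh, mem_inter_iff, Set.mem_sdiff]
    tauto
  rw [e]
  exact measureReal_sdiff (inter_subset_inter_right _ (Metric.ball_subset_ball hst))
    (hK.2.1.inter Metric.isOpen_ball).measurableSet (fin_inter K p t)

/-- Exponential weight. -/
noncomputable def wt (p : E d) (a r : ℝ) (x : E d) : ℝ := exp (-(a * (dist x p - r)))

theorem wt_cont (p : E d) (a r : ℝ) : Continuous (wt p a r) := by
  unfold wt
  fun_prop

/-- Weighted mass of a shell. -/
noncomputable def I (K : Set (E d)) (p : E d) (a r s t : ℝ) : ℝ :=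
  ∫ x in K ∩ sh p s t, wt p a r x

theorem I_add {K : Set (E d)} (hK : Dom K) (p : E d) (a r : ℝ) {s t u : ℝ} (hst : s ≤ t)
    (htu : t ≤ u) : I K p a r s u = I K p a r s t + I K p a r t u := by
  have e : K ∩ sh p s u = (K ∩ sh p s t) ∪ (K ∩ sh p t u) := by
    ext x
    simp only [mem_inter_iff, mem_union, mem_sh]
    constructor
    · rintro ⟨h1, h2, h3⟩
      rcases lt_or_ge (dist x p) t with h | h
      · exact Or.inl ⟨h1, h2, h⟩
      · exact Or.inr ⟨h1, h, h3⟩
    · rintro (⟨h1, h2, h3⟩ | ⟨h1, h2, h3⟩)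
      · exact ⟨h1, h2, h3.trans_le htu⟩
      · exact ⟨h1, hst.trans h2, h3⟩
  unfold I
  rw [e]
  refine setIntegral_union ?_ (hK.2.1.measurableSet.inter (sh_meas p t u))
    (int_on (hK.2.2.2.subset inter_subset_left) (wt_cont p a r))
    (int_on (hK.2.2.2.subset inter_subset_left) (wt_cont p a r))
  rw [Set.disjoint_left]
  rintro x ⟨_, h1⟩ ⟨_, h2⟩
  exact absurd (mem_sh.1 h1).2 (not_lt.2 (mem_sh.1 h2).1)

theorem I_bd {K : Set (E d)} (hK : Dom K) (p : E d) {a : ℝ} (ha : 0 ≤ a) (r : ℝ) {s t : ℝ}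
    (hst : s ≤ t) : exp (-(a * (t - r))) * (Vb K p t - Vb K p s) ≤ I K p a r s t ∧
      I K p a r s t ≤ exp (-(a * (s - r))) * (Vb K p t - Vb K p s) := by
  have hb : Bornology.IsBounded (K ∩ sh p s t) := hK.2.2.2.subset inter_subset_left
  have hm : MeasurableSet (K ∩ sh p s t) := hK.2.1.measurableSet.inter (sh_meas p s t)
  have hc : ∀ c : ℝ, ∫ _x in K ∩ sh p s t, c = c * (Vb K p t - Vb K p s) := by
    intro c
    rw [setIntegral_const, sh_vol hK p hst, smul_eq_mul, mul_comm]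
  constructor
  · rw [← hc]
    refine setIntegral_mono_on (int_on hb continuous_const) (int_on hb (wt_cont p a r)) hm ?_
    rintro x ⟨_, hx⟩
    have := (mem_sh.1 hx).2
    exact Real.exp_le_exp.2 (by nlinarith)
  · rw [← hc]
    refine setIntegral_mono_on (int_on hb (wt_cont p a r)) (int_on hb continuous_const) hm ?_
    rintro x ⟨_, hx⟩
    have := (mem_sh.1 hx).1
    exact Real.exp_le_exp.2 (by nlinarith)

theorem I_sum {K : Set (E d)} (hK : Dom K) (p : E d) (a r s : ℝ) {l : ℝ} (hl : 0 ≤ l)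
    (lo hi : ℝ) (m : ℕ) (h : ∀ i : ℕ, i < m → lo ≤ I K p a r (s + i * l) (s + (i + 1) * l) ∧
      I K p a r (s + i * l) (s + (i + 1) * l) ≤ hi) :
    m * lo ≤ I K p a r s (s + m * l) ∧ I K p a r s (s + m * l) ≤ m * hi := by
  induction m with
  | zero => simp [I, sh]
  | succ m ih =>
    obtain ⟨h1, h2⟩ := ih fun i hi => h i (Nat.lt_succ_of_lt hi)
    obtain ⟨h3, h4⟩ := h m (Nat.lt_succ_self m)
    have hm : (0 : ℝ) ≤ m * l := by positivity
    push_cast
    rw [I_add hK p a r (s := s) (t := s + m * l) (u := s + (m + 1) * l) (by linarith)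
      (by linarith)]
    constructor <;> linarith

theorem exists_bump : ∃ (ψ : ℝ → ℝ) (B : ℝ), ContDiff ℝ 1 ψ ∧ (∀ t, |deriv ψ t| ≤ B) ∧
    (∀ t, 1 ≤ t → t ≤ 2 → ψ t = 1) ∧ ∀ t, t ≤ 1 / 2 ∨ 5 / 2 ≤ t → ψ t = 0 := by
  let f : ContDiffBump (3 / 2 : ℝ) := ⟨1 / 2, 1, by norm_num, by norm_num⟩
  have hc : ContDiff ℝ 1 f := f.contDiff
  obtain ⟨B, hB⟩ := (hc.continuous_deriv le_rfl).bounded_above_of_compact_support
    f.hasCompactSupport.deriv
  refine ⟨f, B, hc, hB, fun t h1 h2 => f.one_of_mem_closedBall ?_, fun t ht => f.zero_of_le_dist ?_⟩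
  · show dist t (3 / 2) ≤ 1 / 2
    rw [Real.dist_eq, abs_le]
    constructor <;> linarith
  · show 1 ≤ dist t (3 / 2)
    rw [Real.dist_eq, le_abs]
    rcases ht with h | h
    · right
      linarith
    · left
      linarith

theorem test {ψ : ℝ → ℝ} {B : ℝ} (hψ : ContDiff ℝ 1 ψ) (hB : ∀ t, |deriv ψ t| ≤ B)
    (h1 : ∀ t, 1 ≤ t → t ≤ 2 → ψ t = 1) (h0 : ∀ t, t ≤ 1 / 2 ∨ 5 / 2 ≤ t → ψ t = 0)
    {K : Set (E d)} (hK : Dom K) (p : E d) {a r L η C M : ℝ} (hr : 0 < r) (hL : 0 < L)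
    (hη : 0 < η) (hC : 0 ≤ C) (hpos : 0 < I K p a r (r + L) (r + 2 * L))
    (hcmp : I K p a r r (r + 3 * L) ≤ C * I K p a r (r + L) (r + 2 * L))
    (hM : (1 + η) * a ^ 2 / 4 + (1 + η⁻¹) * B ^ 2 / L ^ 2 * C ≤ M) :
    ∃ g, Test K (sh p r (r + 3 * L)) g M := by
  set φ : ℝ → ℝ := fun t => exp (-(a * (t - r)) / 2) * ψ ((t - r) / L) with hφ
  have hφc : ContDiff ℝ 1 φ := by
    refine ContDiff.mul (by fun_prop) (hψ.comp (by fun_prop))
  have hφd : ∀ t, HasDerivAt φ (exp (-(a * (t - r)) / 2) *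
      (-(a / 2) * ψ ((t - r) / L) + deriv ψ ((t - r) / L) / L)) t := by
    intro t
    have e1 : HasDerivAt (fun t => exp (-(a * (t - r)) / 2)) (exp (-(a * (t - r)) / 2) *
        (-(a * 1) / 2)) t := ((((hasDerivAt_id t).sub_const r).const_mul a).neg.div_const 2).exp
    have e2 : HasDerivAt (fun t => ψ ((t - r) / L)) (deriv ψ ((t - r) / L) * (1 / L)) t :=
      ((hψ.differentiable one_ne_zero) _).hasDerivAt.comp t
        (((hasDerivAt_id t).sub_const r).div_const L)
    exact (e1.fun_mul e2).congr_deriv (by ring)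
  set g : E d → ℝ := fun x => φ (dist x p) with hg
  have hdc : Continuous fun x : E d => dist x p := by fun_prop
  have hz : ∀ x, x ∉ sh p r (r + 3 * L) → g =ᶠ[𝓝 x] fun _ => 0 := by
    intro x hx
    rw [mem_sh, not_and_or, not_le, not_lt] at hx
    rcases hx with hx | hx
    · have : ∀ᶠ y in 𝓝 x, dist y p < r := hdc.continuousAt.eventually (gt_mem_nhds hx)
      filter_upwards [this] with y hy
      have : (dist y p - r) / L ≤ 1 / 2 := by
        rw [div_le_iff₀ hL]
        linarith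
      simp only [hg, hφ, h0 _ (Or.inl this), mul_zero]
    · have : ∀ᶠ y in 𝓝 x, r + 5 / 2 * L < dist y p :=
        hdc.continuousAt.eventually (lt_mem_nhds (by linarith))
      filter_upwards [this] with y hy
      have : 5 / 2 ≤ (dist y p - r) / L := by
        rw [le_div_iff₀ hL]
        linarith
      simp only [hg, hφ, h0 _ (Or.inr this), mul_zero]
  have hne : ∀ x, x ∈ sh p r (r + 3 * L) → ContDiffAt ℝ 1 (fun x : E d => dist x p) x := by
    intro x hx
    refine ContDiffAt.dist ℝ contDiffAt_id contDiffAt_const ?_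
    have := hr.trans_le (mem_sh.1 hx).1
    exact dist_pos.1 this
  have hgc : ContDiff ℝ 1 g := by
    refine contDiff_iff_contDiffAt.2 fun x => ?_
    by_cases hx : x ∈ sh p r (r + 3 * L)
    · exact hφc.contDiffAt.comp x (hne x hx)
    · exact contDiffAt_const.congr_of_eventuallyEq (hz x hx)
  have hoff : ∀ x, x ∉ sh p r (r + 3 * L) → g x = 0 ∧ fderiv ℝ g x = 0 := by
    intro x hx
    refine ⟨(hz x hx).self_of_nhds, ?_⟩
    rw [(hz x hx).fderiv_eq]
    simp
  have hsq : ∀ x, exp (-(a * (dist x p - r)) / 2) ^ 2 = wt p a r x := by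
    intro x
    rw [wt, ← Real.exp_nat_mul]
    congr 1
    push_cast
    ring
  have hg2 : ∀ x, g x ^ 2 = wt p a r x * ψ ((dist x p - r) / L) ^ 2 := by
    intro x
    simp only [hg, hφ, mul_pow, hsq]
  set c : ℝ := (1 + η⁻¹) * B ^ 2 / L ^ 2 with hc
  have hc0 : 0 ≤ c := by positivity
  have hpt : ∀ x, ‖fderiv ℝ g x‖ ^ 2 ≤ (1 + η) * a ^ 2 / 4 * g x ^ 2 +
      c * (sh p r (r + 3 * L)).indicator (wt p a r) x := by
    intro x
    by_cases hx : x ∈ sh p r (r + 3 * L)
    · have hd := ((hne x hx).differentiableAt one_ne_zero).hasFDerivAt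
      have hf := ((hφd (dist x p)).comp_hasFDerivAt x hd).fderiv
      have hn : ‖fderiv ℝ (fun x : E d => dist x p) x‖ ≤ 1 := by
        simpa using norm_fderiv_le_of_lipschitz ℝ (x₀ := x) (LipschitzWith.dist_left p)
      have hf' : fderiv ℝ g x = _ := hf
      rw [hf', norm_smul, indicator_of_mem hx, hg2, mul_pow, Real.norm_eq_abs, sq_abs, mul_pow, hsq]
      set u := ψ ((dist x p - r) / L)
      set v := deriv ψ ((dist x p - r) / L)
      have hv : v ^ 2 ≤ B ^ 2 := by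
        rw [← sq_abs v]
        exact pow_le_pow_left₀ (abs_nonneg _) (hB _) 2
      have hw : 0 < wt p a r x := Real.exp_pos _
      have hn2 : ‖fderiv ℝ (fun x : E d => dist x p) x‖ ^ 2 ≤ 1 := pow_le_one₀ (norm_nonneg _) hn
      have hy : ∀ X Y : ℝ, (X + Y) ^ 2 ≤ (1 + η) * X ^ 2 + (1 + η⁻¹) * Y ^ 2 := by
        intro X Y
        have e : (1 + η) * X ^ 2 + (1 + η⁻¹) * Y ^ 2 - (X + Y) ^ 2 = η⁻¹ * (η * X - Y) ^ 2 := by
          field_simp
          ring
        have : 0 ≤ η⁻¹ * (η * X - Y) ^ 2 := by positivity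
        linarith
      have hk : (-(a / 2) * u + v / L) ^ 2 ≤ (1 + η) * a ^ 2 / 4 * u ^ 2 + c := by
        refine (hy _ _).trans (add_le_add (le_of_eq (by ring)) ?_)
        rw [hc, div_pow, mul_div_assoc]
        gcongr
      calc _ ≤ wt p a r x * (-(a / 2) * u + v / L) ^ 2 * 1 := by gcongr
        _ ≤ wt p a r x * ((1 + η) * a ^ 2 / 4 * u ^ 2 + c) * 1 := by gcongr
        _ = _ := by ring
    · rw [(hoff x hx).1, (hoff x hx).2, indicator_of_notMem hx]
      simp
  have hi2 : IntegrableOn (fun x => g x ^ 2) K := int_on hK.2.2.2 (hgc.continuous.pow 2)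
  have hlow : I K p a r (r + L) (r + 2 * L) ≤ Sq K g := by
    have e : I K p a r (r + L) (r + 2 * L) = ∫ x in K ∩ sh p (r + L) (r + 2 * L), g x ^ 2 := by
      refine setIntegral_congr_fun (hK.2.1.measurableSet.inter (sh_meas p _ _)) ?_
      rintro x ⟨_, hx⟩
      obtain ⟨hx1, hx2⟩ := mem_sh.1 hx
      have := h1 ((dist x p - r) / L) (by rw [le_div_iff₀ hL]; linarith)
        (by rw [div_le_iff₀ hL]; linarith)
      simp only [hg2, this, one_pow, mul_one]
    rw [e]
    exact setIntegral_mono_set hi2 (Eventually.of_forall fun x => sq_nonneg _)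
      inter_subset_left.eventuallyLE
  have hiw : IntegrableOn ((sh p r (r + 3 * L)).indicator (wt p a r)) K :=
    (int_on hK.2.2.2 (wt_cont p a r)).indicator (sh_meas p _ _)
  have hEn : En K g ≤ (1 + η) * a ^ 2 / 4 * Sq K g + c * I K p a r r (r + 3 * L) := by
    unfold En Sq I
    rw [← setIntegral_indicator (sh_meas p _ _), ← integral_const_mul, ← integral_const_mul,
      ← integral_add (hi2.const_mul _) (hiw.const_mul _)]
    exact integral_mono (int_on hK.2.2.2 ((hgc.continuous_fderiv one_ne_zero).norm.pow 2))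
      ((hi2.const_mul _).add (hiw.const_mul _)) hpt
  refine ⟨g, hgc, hoff, hpos.trans_le hlow, hEn.trans ?_⟩
  have h3 : c * I K p a r r (r + 3 * L) ≤ c * (C * Sq K g) :=
    mul_le_mul_of_nonneg_left (hcmp.trans (mul_le_mul_of_nonneg_left hlow hC)) hc0
  have h4 := mul_le_mul_of_nonneg_right hM (hpos.trans_le hlow).le
  nlinarith

/-- Logarithmic growth on one cell. -/
noncomputable def gr (K : Set (E d)) (p : E d) (l s : ℝ) : ℝ :=
  Real.log (Vb K p (s + l)) - Real.log (Vb K p s)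

theorem gr_anti (hBM : StBM) {K : Set (E d)} (hK : Dom K) {p : E d} (hp : p ∈ K) {l s : ℝ}
    (hl : 0 < l) (hs : 0 < s) {i j : ℕ} (hij : i ≤ j) :
    gr K p l (s + j * l) ≤ gr K p l (s + i * l) := by
  rcases hij.eq_or_lt with rfl | h
  · exact le_rfl
  · have h1 : (i : ℝ) + 1 ≤ j := by exact_mod_cast h
    have h2 := four (V_conc hBM hK hp) (x := s + i * l) (y := s + i * l + l) (z := s + j * l)
      (w := s + j * l + l) (by positivity) (by linarith) (by nlinarith) (by linarith)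
    rw [add_sub_cancel_left, add_sub_cancel_left, div_le_div_iff_of_pos_right hl] at h2
    exact h2

theorem gr_le (hd : 1 ≤ d) {K : Set (E d)} (hK : Dom K) {p : E d} (hp : p ∈ K) {s : ℝ}
    (hs : 1 ≤ s) : gr K p (d : ℝ)⁻¹ s ≤ 1 := by
  have hd0 : (0 : ℝ) < d := Nat.cast_pos.2 hd
  have hl : (0 : ℝ) < (d : ℝ)⁻¹ := inv_pos.2 hd0
  have hs0 : 0 < s := by linarith
  have h1 := V_bg hK hp hs0 (t := s + (d : ℝ)⁻¹) (by linarith)
  have h2 := Real.log_le_log (V_pos hK hp (by linarith)) h1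
  have hq : 0 < (s + (d : ℝ)⁻¹) / s := by positivity
  rw [Real.log_mul (pow_pos hq _).ne' (V_pos hK hp hs0).ne', Real.log_pow] at h2
  have h3 := Real.log_le_sub_one_of_pos hq
  have h4 : (s + (d : ℝ)⁻¹) / s - 1 ≤ (d : ℝ)⁻¹ := by
    rw [sub_le_iff_le_add, div_le_iff₀ hs0]
    nlinarith
  have h5 : (d : ℝ) * Real.log ((s + (d : ℝ)⁻¹) / s) ≤ d * (d : ℝ)⁻¹ :=
    mul_le_mul_of_nonneg_left (h3.trans h4) hd0.le
  rw [mul_inv_cancel₀ hd0.ne'] at h5
  unfold gr
  linarith

theorem gr_ge (hBM : StBM) {K : Set (E d)} (hK : Dom K) {p : E d} (hp : p ∈ K) {l s b b' θ : ℝ}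
    (hl : 0 < l) (hs : 0 < s) (hb : s + l ≤ b) (hb' : b < b') (hθ : 1 < θ)
    (h : θ * Vb K p b ≤ Vb K p b') : Real.log θ / (b' - b) * l ≤ gr K p l s := by
  have h2 := four (V_conc hBM hK hp) (x := s) (y := s + l) (z := b) (w := b') hs (by linarith) hb
    hb'
  have hv := V_pos hK hp (s := b) (by linarith)
  have h3 := Real.log_le_log (by positivity) h
  rw [Real.log_mul (by linarith) hv.ne'] at h3
  rw [add_sub_cancel_left, le_div_iff₀ hl] at h2
  refine le_trans (mul_le_mul_of_nonneg_right ?_ hl.le) h2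
  exact div_le_div_of_nonneg_right (by linarith) (by linarith)

theorem block (hBM : StBM) (hd : 1 ≤ d) {K : Set (E d)} (hK : Dom K) {p : E d} (hp : p ∈ K)
    {r : ℝ} (hr : 1 ≤ r) {N : ℕ} (hN : 1 ≤ N) {l : ℝ} (hl : l = (d : ℝ)⁻¹)
    (hpos : 0 < gr K p l (r + (3 * N : ℕ) * l))
    (hgood : gr K p l r ≤ (1 + (3 * N : ℝ)⁻¹) * gr K p l (r + (3 * N : ℕ) * l)) :
    ∃ a : ℝ, 0 ≤ a ∧ a ≤ d ∧ 0 < I K p a r (r + N * l) (r + 2 * (N * l)) ∧
      I K p a r r (r + 3 * (N * l)) ≤
        12 * exp 1 * exp 1 * I K p a r (r + N * l) (r + 2 * (N * l)) := by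
  have hd0 : (0 : ℝ) < d := Nat.cast_pos.2 hd
  have hN1 : (1 : ℝ) ≤ N := by exact_mod_cast hN
  have hl0 : 0 < l := hl ▸ inv_pos.2 hd0
  have hdl : (d : ℝ) * l = 1 := hl ▸ mul_inv_cancel₀ hd0.ne'
  have hr0 : 0 < r := by linarith
  set lam := gr K p l (r + (3 * N : ℕ) * l) with hlam
  have hle : ∀ i : ℕ, gr K p l (r + i * l) ≤ 1 := fun i => by
    rw [hl]
    exact gr_le hd hK hp (hr.trans (le_add_of_nonneg_right (by positivity)))
  have hlam1 : lam ≤ 1 := hle _
  set δ : ℝ := (3 * N : ℝ)⁻¹ with hδ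
  have hδ0 : 0 < δ := by positivity
  have hδN : δ * (3 * N) = 1 := inv_mul_cancel₀ (by positivity)
  have hδ1 : δ ≤ 1 := by nlinarith
  have hg : ∀ i : ℕ, i ≤ 3 * N → lam ≤ gr K p l (r + i * l) ∧
      gr K p l (r + i * l) ≤ (1 + δ) * lam := by
    intro i hi
    refine ⟨gr_anti hBM hK hp hl0 hr0 hi, le_trans ?_ hgood⟩
    simpa using gr_anti hBM hK hp hl0 hr0 (Nat.zero_le i)
  have hf : ∀ i : ℕ, i ≤ 3 * N → Real.log (Vb K p r) + i * lam ≤ Real.log (Vb K p (r + i * l)) ∧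
      Real.log (Vb K p (r + i * l)) ≤ Real.log (Vb K p r) + i * ((1 + δ) * lam) := by
    intro i
    induction i with
    | zero => simp
    | succ i ih =>
      intro hi
      obtain ⟨h1, h2⟩ := ih (by omega)
      obtain ⟨h3, h4⟩ := hg i (by omega)
      unfold gr at h3 h4
      have e : r + ((i + 1 : ℕ) : ℝ) * l = r + i * l + l := by
        push_cast
        ring
      rw [e]
      push_cast
      constructor <;> linarith
  set V0 := Vb K p r with hV0
  have hV0p : 0 < V0 := V_pos hK hp hr0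
  have ha : 0 ≤ lam * d := by positivity
  have hcell : ∀ i : ℕ, i < 3 * N →
      exp (-1) * V0 * lam ≤ I K p (lam * d) r (r + i * l) (r + (i + 1) * l) ∧
      I K p (lam * d) r (r + i * l) (r + (i + 1) * l) ≤ 4 * exp 1 * V0 * lam := by
    intro i hi
    obtain ⟨h1, h2⟩ := I_bd hK p ha r (s := r + i * l) (t := r + (i + 1) * l) (by linarith)
    obtain ⟨h3, h4⟩ := hg i hi.le
    obtain ⟨h5, h6⟩ := hf i hi.le
    have h7 := hle i
    have hi0 : (0 : ℝ) ≤ i := Nat.cast_nonneg i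
    have hiN : (i : ℝ) ≤ 3 * N := by exact_mod_cast hi.le
    have hs0 : 0 < r + i * l := by positivity
    have hVi := V_pos hK hp hs0
    have hVj := V_pos hK hp (s := r + i * l + l) (by positivity)
    set γ := gr K p l (r + i * l) with hγ
    have hm : Vb K p (r + (i + 1) * l) - Vb K p (r + i * l) = Vb K p (r + i * l) * (exp γ - 1) := by
      rw [hγ, gr, Real.exp_sub, Real.exp_log hVi, Real.exp_log hVj,
        show r + (i + 1) * l = r + i * l + l by ring]
      field_simp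
    have e1 : lam * d * (r + (i + 1) * l - r) = lam * (i + 1) := by
      linear_combination lam * (i + 1) * hdl
    have e2 : lam * d * (r + i * l - r) = lam * i := by
      linear_combination lam * i * hdl
    rw [hm, e1] at h1
    rw [hm, e2] at h2
    have hγ0 : 0 ≤ γ := hpos.le.trans h3
    have hx1 : lam ≤ exp γ - 1 := by linarith [Real.add_one_le_exp γ]
    have hx2 : exp γ - 1 ≤ 4 * lam := by
      have := Real.abs_exp_sub_one_le (x := γ) (by rwa [abs_of_nonneg hγ0])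
      rw [abs_of_nonneg hγ0] at this
      nlinarith [le_abs_self (exp γ - 1)]
    have hy1 : exp (-1) * V0 ≤ exp (-(lam * (i + 1))) * Vb K p (r + i * l) := by
      rw [← Real.exp_log hVi, ← Real.exp_log hV0p, ← Real.exp_add, ← Real.exp_add]
      exact Real.exp_le_exp.2 (by linarith)
    have hy2 : exp (-(lam * i)) * Vb K p (r + i * l) ≤ exp 1 * V0 := by
      rw [← Real.exp_log hVi, ← Real.exp_log hV0p, ← Real.exp_add, ← Real.exp_add]
      have : (i : ℝ) * δ ≤ 1 := by nlinarith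
      have : (i : ℝ) * δ * lam ≤ 1 := mul_le_one₀ this hpos.le hlam1
      exact Real.exp_le_exp.2 (by linarith)
    constructor
    · refine le_trans ?_ h1
      rw [← mul_assoc]
      exact mul_le_mul hy1 hx1 hpos.le (by positivity)
    · refine h2.trans ?_
      rw [← mul_assoc]
      calc _ ≤ exp 1 * V0 * (4 * lam) := mul_le_mul hy2 hx2 (by linarith) (by positivity)
        _ = _ := by ring
  have hA := (I_sum hK p (lam * d) r r hl0.le _ _ (3 * N) hcell).2
  have hB := (I_sum hK p (lam * d) r (r + N * l) hl0.le (exp (-1) * V0 * lam)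
    (4 * exp 1 * V0 * lam) N fun i hi => by
      have := hcell (N + i) (by omega)
      push_cast at this
      rwa [show r + (N + i) * l = r + N * l + i * l by ring,
        show r + (N + i + 1) * l = r + N * l + (i + 1) * l by ring] at this).1
  push_cast at hA
  rw [show r + N * l + N * l = r + 2 * (N * l) by ring] at hB
  rw [mul_assoc 3] at hA
  refine ⟨lam * d, ha, by nlinarith, lt_of_lt_of_le (by positivity) hB, hA.trans ?_⟩
  refine le_trans (le_of_eq ?_) (mul_le_mul_of_nonneg_left hB (by positivity))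
  rw [Real.exp_neg]
  field_simp
  ring

theorem pigeon {u : ℕ → ℝ} {ρ : ℝ} (hρ : 0 < ρ) (T : ℕ) (h : u 0 < ρ ^ T * u T) :
    ∃ t, t < T ∧ u t ≤ ρ * u (t + 1) := by
  by_contra hc
  push Not at hc
  have : ∀ t, t ≤ T → ρ ^ t * u t ≤ u 0 := by
    intro t
    induction t with
    | zero => simp
    | succ t ih =>
      intro ht
      refine le_trans ?_ (ih (by omega))
      rw [pow_succ, mul_assoc]
      exact mul_le_mul_of_nonneg_left (hc t (by omega)).le (by positivity)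
  exact absurd h (not_lt.2 (this T le_rfl))

theorem params {ρ c β : ℝ} (hρ : 1 < ρ) (hc : 0 < c) (hβ : 0 < β) (m : ℕ) :
    ∃ d0 : ℕ, ∀ d : ℕ, d0 ≤ d → 1 ≤ d ∧ ∃ T : ℕ, (m * T + 1 : ℝ) ≤ β * d ∧ d < ρ ^ T * c := by
  set κ : ℝ := β / (m + 1) with hκ
  have hκ0 : 0 < κ := by positivity
  have h1 := (tendsto_pow_const_div_const_pow_of_one_lt 1 hρ).eventually
    (gt_mem_nhds (show 0 < c * κ / 2 by positivity))
  obtain ⟨T0, hT0⟩ := eventually_atTop.1 h1
  obtain ⟨d0, hd0⟩ := exists_nat_ge ((T0 + 1 : ℝ) / κ)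
  refine ⟨d0 + 1, fun d hd => ⟨by omega, ⌊κ * d⌋₊, ?_, ?_⟩⟩
  all_goals
    have hd' : (d0 : ℝ) ≤ d := by exact_mod_cast (by omega : d0 ≤ d)
    have h2 : (T0 + 1 : ℝ) ≤ κ * d := by
      rw [div_le_iff₀ hκ0] at hd0
      nlinarith
    have h3 : T0 + 1 ≤ ⌊κ * d⌋₊ := Nat.le_floor (by exact_mod_cast h2)
    have h4 : (⌊κ * d⌋₊ : ℝ) ≤ κ * d := Nat.floor_le (by positivity)
    have h5 : κ * d < ⌊κ * d⌋₊ + 1 := Nat.lt_floor_add_one _
    have h6 : (1 : ℝ) ≤ ⌊κ * d⌋₊ := by exact_mod_cast (by omega : 1 ≤ ⌊κ * d⌋₊)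
  · have e : β = (m + 1) * κ := by
      rw [hκ]
      field_simp
    have hm : (0 : ℝ) ≤ m := Nat.cast_nonneg m
    rw [e]
    nlinarith
  · have h7 := hT0 ⌊κ * d⌋₊ (by omega)
    rw [pow_one, div_lt_iff₀ (by positivity)] at h7
    refine lt_of_mul_lt_mul_left ?_ hκ0.le
    nlinarith

end RadS

open RadS in
theorem pRs (hBM : StBM) : StRs := by
  intro ε b b' θ n hε hb hb' hθ
  obtain ⟨ψ, B, hψ, hB, h1, h0⟩ := exists_bump
  set C : ℝ := 12 * exp 1 * exp 1 with hC
  have hC0 : 0 ≤ C := by positivity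
  set Q : ℝ := (1 + (ε / 2)⁻¹) * B ^ 2 * C with hQ
  have hQ0 : 0 ≤ Q := by positivity
  obtain ⟨N0, hN0⟩ := exists_nat_ge (8 * Q / ε)
  set N := N0 + 1 with hN
  have hN1 : 1 ≤ N := by omega
  have hN1' : (1 : ℝ) ≤ N := by exact_mod_cast hN1
  have hQN : Q / N ^ 2 ≤ ε / 8 := by
    rw [div_le_iff₀ hε] at hN0
    have : (N0 : ℝ) ≤ N := by exact_mod_cast (by omega : N0 ≤ N)
    have h2 : (N0 : ℝ) ≤ N ^ 2 := by nlinarith
    rw [div_le_iff₀ (by positivity)]
    nlinarith
  set c : ℝ := Real.log θ / (b' - b) with hc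
  have hc0 : 0 < c := div_pos (Real.log_pos hθ) (by linarith)
  have hρ : (1 : ℝ) < 1 + (3 * N : ℝ)⁻¹ := lt_add_of_pos_right _ (by positivity)
  obtain ⟨d0, hd0⟩ := params hρ hc0 (β := b - 1) (by linarith) (n * (3 * N))
  refine ⟨d0, fun d hd K hK p hp hV => ?_⟩
  obtain ⟨hd1, T, hT1, hT2⟩ := hd0 d hd
  have hdp : (0 : ℝ) < d := Nat.cast_pos.2 hd1
  set l : ℝ := (d : ℝ)⁻¹ with hl
  have hl0 : 0 < l := inv_pos.2 hdp
  have hdl : (d : ℝ) * l = 1 := mul_inv_cancel₀ hdp.ne'
  set R : ℕ → ℝ := fun t => 1 + (t * (3 * N) : ℕ) * l with hR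
  have hR1 : ∀ t, 1 ≤ R t := fun t => le_add_of_nonneg_right (by positivity)
  have hRs : ∀ t, R (t + 1) = R t + (3 * N : ℕ) * l := fun t => by
    simp only [hR]
    push_cast
    ring
  have hRs' : ∀ t, R (t + 1) = R t + 3 * (N * l) := fun t => by
    rw [hRs]
    push_cast
    ring
  have hRm : ∀ s t, s ≤ t → R s ≤ R t := fun s t h => by
    simp only [hR]
    gcongr
  have hRb : ∀ t, t ≤ n * T → R t + l ≤ b := by
    intro t ht
    have h2 := hRm _ _ ht
    have h3 := mul_le_mul_of_nonneg_right hT1 hl0.le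
    have e : R (n * T) + l = 1 + (((n * (3 * N) : ℕ) : ℝ) * T + 1) * l := by
      simp only [hR]
      push_cast
      ring
    have e2 : (b - 1) * d * l = b - 1 := by linear_combination (b - 1) * hdl
    linarith
  have hlow : ∀ t, t ≤ n * T → c * l ≤ gr K p l (R t) := fun t ht =>
    gr_ge hBM hK hp hl0 (by linarith [hR1 t]) (hRb t ht) hb' hθ hV
  have key : ∀ j : Fin n, ∃ t, j * T ≤ t ∧ t + 1 ≤ (j + 1) * T ∧
      ∃ g, Test K (sh p (R t) (R (t + 1))) g ((1 + ε) * (d : ℝ) ^ 2 / 4) := by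
    intro j
    have hj : (j + 1) * T ≤ n * T := Nat.mul_le_mul_right _ j.2
    have hjT : (j + 1) * T = j * T + T := by ring
    obtain ⟨t, ht, hg⟩ := pigeon (u := fun t => gr K p l (R (j * T + t)))
      (zero_lt_one.trans hρ) T (by
      have h2 : gr K p l (R (j * T + 0)) ≤ 1 := gr_le hd1 hK hp (hR1 _)
      have h3 := hlow (j * T + T) (by omega)
      have h4 := mul_lt_mul_of_pos_right hT2 hl0
      have h5 := mul_le_mul_of_nonneg_left h3
        (pow_pos (zero_lt_one.trans hρ) T).le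
      linarith [mul_assoc ((1 + (3 * N : ℝ)⁻¹) ^ T) c l])
    have h6 := hlow (j * T + t + 1) (by omega)
    rw [← add_assoc, hRs] at hg
    rw [hRs] at h6
    obtain ⟨a, ha0, had, hI1, hI2⟩ := block hBM hd1 hK hp (hR1 (j * T + t)) hN1 hl
      (lt_of_lt_of_le (by positivity) h6) hg
    refine ⟨j * T + t, by omega, by omega, ?_⟩
    rw [hRs']
    refine test hψ hB h1 h0 hK p (η := ε / 2) (by linarith [hR1 (j * T + t)]) (by positivity)
      (by positivity) hC0 hI1 hI2 ?_
    have e : (1 + (ε / 2)⁻¹) * B ^ 2 / (N * l) ^ 2 * C = Q / N ^ 2 * d ^ 2 := by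
      rw [hQ, hl]
      field_simp
    have h7 : a ^ 2 ≤ (d : ℝ) ^ 2 := pow_le_pow_left₀ ha0 had 2
    have h8 := mul_le_mul_of_nonneg_right hQN (sq_nonneg (d : ℝ))
    have h9 := mul_le_mul_of_nonneg_left h7 (show 0 ≤ 1 + ε / 2 by positivity)
    rw [e]
    linarith
  choose t ht1 ht2 g hg using key
  refine ⟨fun j => sh p (R (t j)) (R (t j + 1)), g, fun j x hx => ?_, ?_, hg⟩
  · have hj : (j + 1) * T ≤ n * T := Nat.mul_le_mul_right _ j.2
    have := hRb (t j + 1) ((ht2 j).trans hj)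
    exact Metric.mem_ball.2 (by linarith [(mem_sh.1 hx).2])
  · have aux : ∀ i j : Fin n, i < j → Disjoint (sh p (R (t i)) (R (t i + 1)))
        (sh p (R (t j)) (R (t j + 1))) := by
      intro i j hij
      have h2 : (i + 1) * T ≤ j * T := Nat.mul_le_mul_right _ hij
      have h3 := hRm _ _ (((ht2 i).trans h2).trans (ht1 j))
      rw [Set.disjoint_left]
      intro x hx hx'
      linarith [(mem_sh.1 hx).2, (mem_sh.1 hx').1]
    intro i j hij
    rcases lt_or_gt_of_ne hij with h | h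
    · exact aux i j h
    · exact (aux j i h).symm

end Pool.Agent.P.MP_5c8462_an.Ord
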